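import Mathlib

set_option autoImplicit false
set_option linter.unusedSectionVars false

/-!
# Generic chaining driven by a functional with a growth condition
-/

open Finset

namespace Pool.Agent.H548Z.Cov

variable {T : Type} [Fintype T] [DecidableEq T] {Ω : Type}

/-- Data for the chaining argument. -/
structure ChainData (d : T → T → ℝ) (F : Finset T → ℝ) (Pr : Set Ω → ℝ) (Z : Ω → T → ℝ)
    (κ K₀ : ℝ) : Prop where
  d_self : ∀ x, d x x = 0
  d_symm : ∀ x y, d x y = d y x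
  d_tri : ∀ x y z, d x z ≤ d x y + d y z
  F_nonneg : ∀ A : Finset T, A.Nonempty → 0 ≤ F A
  grow : ∀ (C : Finset T) (H : T → Finset T) (U : Finset T) (a f : ℝ), C.Nonempty → 0 < a →
    (∀ c ∈ C, ∀ c' ∈ C, c ≠ c' → a ≤ d c c') → (∀ c ∈ C, c ∈ H c) →
    (∀ c ∈ C, ∀ x ∈ H c, d x c ≤ a / 16) → (∀ c ∈ C, H c ⊆ U) → (∀ c ∈ C, f ≤ F (H c)) →
    f + a * Real.sqrt (Real.log C.card) / 24 ≤ F U
  Pr_empty : Pr ∅ = 0
  Pr_mono : ∀ A B, A ⊆ B → Pr A ≤ Pr B
  Pr_union : ∀ A B, Pr (A ∪ B) ≤ Pr A + Pr B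
  κ_nonneg : 0 ≤ κ
  K_nonneg : 0 ≤ K₀
  tail : ∀ x y (ρ u : ℝ), 0 < ρ → d x y ≤ ρ → 0 ≤ u →
    Pr {ω | κ * ρ * u < Z ω x - Z ω y} ≤ K₀ * Real.exp (-u ^ 2)

open Classical in
/-- closed ball -/
noncomputable def cb (d : T → T → ℝ) (s : T) (ρ : ℝ) : Finset T := univ.filter fun x => d x s ≤ ρ

lemma mem_cb {d : T → T → ℝ} {s x : T} {ρ : ℝ} : x ∈ cb d s ρ ↔ d x s ≤ ρ := by
  simp [cb]

/-- the statement proved scale by scale -/
def Scale (d : T → T → ℝ) (F : Finset T → ℝ) (Pr : Set Ω → ℝ) (Z : Ω → T → ℝ)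
    (κ K₀ : ℝ) (ρ : ℝ) : Prop :=
  ∀ (s : T) (A : Finset T) (ψ u : ℝ), (∀ x ∈ A, d x s ≤ ρ) → (∀ x ∈ A, F (cb d x (ρ / 16)) ≤ ψ) →
    0 ≤ ψ → 0 ≤ u →
    Pr {ω | ∃ x ∈ A, 1632 * κ * (F (cb d s (2 * ρ)) + ψ) + 2 * κ * ρ * (u + 2) < Z ω x - Z ω s} ≤
      K₀ * Real.exp (-u ^ 2)

lemma exp_step {u l : ℝ} (hu : 0 ≤ u) (hl : 1 ≤ l) :
    Real.exp (-(u + 2 + 2 * Real.sqrt (Real.log l)) ^ 2) ≤ Real.exp (-u ^ 2) / (2 * l * (l + 1)) := by
  have hL0 : 0 ≤ Real.log l := Real.log_nonneg hl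
  set L := Real.sqrt (Real.log l) with hL
  have hL1 : 0 ≤ L := Real.sqrt_nonneg _
  have hL2 : L ^ 2 = Real.log l := Real.sq_sqrt hL0
  rw [le_div_iff₀ (by positivity)]
  have h1 : 2 * l * (l + 1) ≤ Real.exp (4 + 2 * Real.log l) := by
    rw [Real.exp_add, show 2 * Real.log l = Real.log l + Real.log l by ring, Real.exp_add,
      Real.exp_log (by linarith)]
    have : 4 + 1 ≤ Real.exp 4 := Real.add_one_le_exp 4
    nlinarith
  calc _ ≤ Real.exp (-(u + 2 + 2 * L) ^ 2) * Real.exp (4 + 2 * Real.log l) := by gcongr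
    _ ≤ _ := by
      rw [← Real.exp_add, Real.exp_le_exp, ← hL2]
      nlinarith

variable {d : T → T → ℝ} {F : Finset T → ℝ} {Pr : Set Ω → ℝ} {Z : Ω → T → ℝ} {κ K₀ : ℝ}

lemma ChainData.greedy (D : ChainData d F Pr Z κ K₀) {ρ : ℝ} (hρ : 0 < ρ)
    (ih : Scale d F Pr Z κ K₀ ρ) (s : T) (ψ u : ℝ) (hu : 0 ≤ u) :
    ∀ (m : ℕ) (B C : Finset T), B.card = m → (∀ x ∈ B, d x s ≤ 32 * ρ) → (∀ x ∈ C, d x s ≤ 32 * ρ) →
      (∀ c ∈ C, ∀ c' ∈ C, c ≠ c' → ρ ≤ d c c') → (∀ c ∈ C, ∀ b ∈ B, ρ ≤ d c b) →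
      (∀ c ∈ C, ∀ b ∈ B, F (cb d b (ρ / 16)) ≤ F (cb d c (ρ / 16))) →
      (∀ x ∈ B, F (cb d x (2 * ρ)) ≤ ψ) →
      Pr {ω | ∃ x ∈ B, 1632 * κ * (F (cb d s (2 * (32 * ρ))) + ψ) + 2 * κ * (32 * ρ) * (u + 2) <
        Z ω x - Z ω s} ≤ K₀ * Real.exp (-u ^ 2) / (C.card + 1) := by
  classical
  intro m
  induction m using Nat.strong_induction_on with
  | _ m IH =>
  intro B C hm hB hC hsep hCB hFC hψ
  have hκ := D.κ_nonneg
  have hK := D.K_nonneg
  rcases B.eq_empty_or_nonempty with rfl | hne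
  · simp only [notMem_empty, false_and, exists_false, Set.ofPred_false, D.Pr_empty]
    positivity
  obtain ⟨t, htB, htmax⟩ := B.exists_max_image (fun x => F (cb d x (ρ / 16))) hne
  have htC : t ∉ C := by
    intro h
    have := hCB t h t htB
    rw [D.d_self] at this
    linarith
  set l : ℝ := C.card + 1 with hl
  have hl1 : 1 ≤ l := by rw [hl]; linarith [Nat.cast_nonneg (α := ℝ) C.card]
  have hcard : ((insert t C).card : ℝ) = l := by rw [card_insert_of_notMem htC]; push_cast; rfl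
  set L := Real.sqrt (Real.log l) with hL
  have hL1 : 0 ≤ L := Real.sqrt_nonneg _
  have hsep' : ∀ c ∈ insert t C, ∀ c' ∈ insert t C, c ≠ c' → ρ ≤ d c c' := by
    intro c hc c' hc' hne
    rcases mem_insert.1 hc with h1 | h1 <;> rcases mem_insert.1 hc' with h2 | h2
    · exact absurd (h1.trans h2.symm) hne
    · rw [D.d_symm, h1]; exact hCB _ h2 _ htB
    · rw [h2]; exact hCB _ h1 _ htB
    · exact hsep _ h1 _ h2 hne
  have hC' : ∀ x ∈ insert t C, d x s ≤ 32 * ρ := by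
    intro x hx
    rcases mem_insert.1 hx with rfl | hx
    · exact hB _ htB
    · exact hC _ hx
  have hg := D.grow (insert t C) (fun c => cb d c (ρ / 16)) (cb d s (2 * (32 * ρ))) ρ
    (F (cb d t (ρ / 16))) (insert_nonempty _ _) hρ hsep'
    (fun c _ => mem_cb.2 (by rw [D.d_self]; positivity)) (fun c _ x hx => mem_cb.1 hx)
    (fun c hc x hx => mem_cb.2 (by
      have h1 := mem_cb.1 hx
      have h2 := hC' c hc
      have h3 := D.d_tri x c s
      linarith))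
    (fun c hc => by
      rcases mem_insert.1 hc with rfl | hc
      · exact le_rfl
      · exact hFC c hc t htB)
  rw [hcard, ← hL] at hg
  set u' := u + 2 + 2 * L with hu'
  have hu'0 : 0 ≤ u' := by positivity
  set A := B.filter fun x => d x t ≤ ρ with hA
  set B' := B.filter fun x => ¬ d x t ≤ ρ with hB'
  have h1 := D.tail t s (32 * ρ) u' (by positivity) (hB t htB) hu'0
  have h2 := ih t A (F (cb d t (ρ / 16))) u' (fun x hx => (mem_filter.1 hx).2)
    (fun x hx => htmax x (mem_filter.1 hx).1)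
    (D.F_nonneg _ ⟨t, mem_cb.2 (by rw [D.d_self]; positivity)⟩) hu'0
  have hlt : B'.card < m := by
    rw [← hm]
    refine card_lt_card ⟨filter_subset _ _, fun h => ?_⟩
    have := (mem_filter.1 (h htB)).2
    rw [D.d_self] at this
    exact this hρ.le
  have h3 := IH _ hlt B' (insert t C) rfl (fun x hx => hB x (mem_filter.1 hx).1) hC' hsep'
    (fun c hc b hb => by
      rcases mem_insert.1 hc with rfl | hc
      · rw [D.d_symm]; exact (not_le.1 (mem_filter.1 hb).2).le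
      · exact hCB c hc b (mem_filter.1 hb).1)
    (fun c hc b hb => by
      rcases mem_insert.1 hc with rfl | hc
      · exact htmax b (mem_filter.1 hb).1
      · exact hFC c hc b (mem_filter.1 hb).1)
    (fun x hx => hψ x (mem_filter.1 hx).1)
  rw [hcard] at h3
  have h4 := exp_step hu hl1
  rw [← hL, ← hu'] at h4
  refine (D.Pr_mono _ _ ?_).trans ((D.Pr_union _ _).trans
    ((add_le_add ((D.Pr_union _ _).trans (add_le_add h1 h2)) h3).trans ?_))
  · rintro ω ⟨x, hx, hω⟩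
    by_cases hxt : d x t ≤ ρ
    · left
      by_contra hcon
      simp only [Set.mem_union, Set.mem_ofPred_eq, not_or, not_lt, not_exists, not_and] at hcon
      have h5 := hcon.1
      have h6 := hcon.2 x (mem_filter.2 ⟨hx, hxt⟩)
      have h7 := hψ t htB
      have h8 : 1632 * κ * (F (cb d t (2 * ρ)) + F (cb d t (ρ / 16))) ≤
          1632 * κ * (ψ + F (cb d s (2 * (32 * ρ))) - ρ * L / 24) :=
        mul_le_mul_of_nonneg_left (by linarith) (by positivity)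
      have h9 : 0 ≤ κ * ρ * u := by positivity
      have h10 : 0 ≤ κ * ρ := by positivity
      rw [hu'] at h5 h6
      nlinarith
    · right
      exact ⟨x, mem_filter.2 ⟨hx, hxt⟩, hω⟩
  · have h5 : K₀ * Real.exp (-u' ^ 2) ≤ K₀ * (Real.exp (-u ^ 2) / (2 * l * (l + 1))) :=
      mul_le_mul_of_nonneg_left h4 hK
    have h6 : K₀ * (Real.exp (-u ^ 2) / (2 * l * (l + 1))) + K₀ * (Real.exp (-u ^ 2) / (2 * l * (l + 1))) +
        K₀ * Real.exp (-u ^ 2) / (l + 1) = K₀ * Real.exp (-u ^ 2) / l := by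
      field_simp
      ring
    linarith

lemma ChainData.scale_step (D : ChainData d F Pr Z κ K₀) {ρ : ℝ} (hρ : 0 < ρ)
    (ih : Scale d F Pr Z κ K₀ ρ) : Scale d F Pr Z κ K₀ (32 * ρ) := by
  intro s A ψ u hA hψ _ hu
  have := D.greedy hρ ih s ψ u hu _ A ∅ rfl hA (by simp) (by simp) (by simp) (by simp)
    (fun x hx => by have := hψ x hx; rwa [show 32 * ρ / 16 = 2 * ρ by ring] at this)
  simpa using this

theorem ChainData.chain (D : ChainData d F Pr Z κ K₀) (hd : ∀ x y, x ≠ y → 0 < d x y)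
    (hmono : ∀ A : Finset T, A.Nonempty → F A ≤ F univ)
    {R : ℝ} (hR : 0 < R) (hdR : ∀ x y, d x y ≤ R) (s : T) {u : ℝ} (hu : 0 ≤ u) :
    Pr {ω | ∃ x, 3264 * κ * F univ + 2 * κ * R * (u + 2) < Z ω x - Z ω s} ≤ K₀ * Real.exp (-u ^ 2) := by
  have hκ := D.κ_nonneg
  have hK := D.K_nonneg
  have hev : ∀ᶠ J : ℕ in Filter.atTop, ∀ x y : T, x ≠ y → R * (1 / 32 : ℝ) ^ J < d x y := by
    simp only [Filter.eventually_all]
    intro x y hxy
    have h1 : Filter.Tendsto (fun J : ℕ => R * (1 / 32 : ℝ) ^ J) Filter.atTop (nhds (R * 0)) :=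
      (tendsto_pow_atTop_nhds_zero_of_lt_one (by norm_num) (by norm_num)).const_mul R
    rw [mul_zero] at h1
    exact h1.eventually (gt_mem_nhds (hd x y hxy))
  obtain ⟨J, hJ⟩ := hev.exists
  set ρ₀ := R * (1 / 32 : ℝ) ^ J with hρ₀
  have hρ₀0 : 0 < ρ₀ := by positivity
  have key : ∀ k : ℕ, Scale d F Pr Z κ K₀ (32 ^ k * ρ₀) := by
    intro k
    induction k with
    | zero =>
      intro s A ψ u hA _ hψ hu
      rw [pow_zero, one_mul] at hA ⊢
      refine (D.Pr_mono _ ∅ ?_).trans (by rw [D.Pr_empty]; positivity)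
      rintro ω ⟨x, hx, hω⟩
      have hxs : x = s := by
        by_contra h
        exact absurd (hA x hx) (not_le.2 (hJ x s h))
      subst hxs
      have h1 := D.F_nonneg (cb d x (2 * ρ₀)) ⟨x, mem_cb.2 (by rw [D.d_self]; positivity)⟩
      have h2 : 0 ≤ 1632 * κ * (F (cb d x (2 * ρ₀)) + ψ) + 2 * κ * ρ₀ * (u + 2) := by positivity
      rw [sub_self] at hω
      exact absurd hω (not_lt.2 h2)
    | succ k ih =>
      have := D.scale_step (by positivity) ih
      rwa [← mul_assoc, ← pow_succ'] at this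
  have hRe : (32 : ℝ) ^ J * ρ₀ = R := by
    rw [hρ₀, one_div, inv_pow]
    field_simp
  have h1 := key J
  rw [hRe] at h1
  have h2 := h1 s univ (F univ) u (fun x _ => hdR x s)
    (fun x _ => hmono _ ⟨x, mem_cb.2 (by rw [D.d_self]; positivity)⟩) (D.F_nonneg _ ⟨s, mem_univ _⟩) hu
  refine (D.Pr_mono _ _ ?_).trans h2
  rintro ω ⟨x, hω⟩
  refine ⟨x, mem_univ _, lt_of_le_of_lt ?_ hω⟩
  have h3 := hmono (cb d s (2 * R)) ⟨s, mem_cb.2 (by rw [D.d_self]; positivity)⟩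
  nlinarith

end Pool.Agent.H548Z.Cov
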