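import Mathlib

set_option autoImplicit false

open MeasureTheory
open scoped ENNReal

namespace Pool.Agent.H548Z.CovDefs

variable {V : Type} [Fintype V] [DecidableEq V] (G : SimpleGraph V) [DecidableRel G.Adj]

/-- States of the full process: the position of the walk and the state of every edge
(`true` is open). -/
abbrev St : Type := V × (G.edgeFinset → Bool)

/-- The generator of random walk on dynamical percolation: the walk jumps at rate one across each
open edge at its position, and each edge is resampled at rate `μ`, open with probability `p`. -/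
noncomputable def gen (μ p : ℝ) (f : St G → ℝ) (s : St G) : ℝ :=
  ∑ e : G.edgeFinset, ∑ y : V, (if e.1 = s(s.1, y) ∧ s.2 e = true then f (y, s.2) - f s else 0) +
    μ * ∑ e : G.edgeFinset, (p * f (s.1, Function.update s.2 e true) +
      (1 - p) * f (s.1, Function.update s.2 e false) - f s)

/-- The matrix of jump rates of the full process. -/
noncomputable def genM (μ p : ℝ) : Matrix (St G) (St G) ℝ :=
  Matrix.of fun s s' => gen G μ p (Pi.single s' 1) s

/-- `Y` is, under the probability measure `P`, the continuous-time Markov process with rate matrix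
`genM` started at `s₀`: its finite-dimensional distributions are given by `exp (t • genM)`. -/
def IsDynPerc (μ p : ℝ) (s₀ : St G) {Ω : Type} [MeasurableSpace Ω] (P : Measure Ω)
    (Y : ℝ → Ω → St G) : Prop :=
  IsProbabilityMeasure P ∧ (∀ t s, MeasurableSet {ω | Y t ω = s}) ∧
    ∀ (n : ℕ) (t : Fin (n + 1) → ℝ), t 0 = 0 → Monotone t → ∀ w : Fin (n + 1) → St G,
      P {ω | ∀ i, Y (t i) ω = w i} = ENNReal.ofReal ((if w 0 = s₀ then 1 else 0) *
        ∏ i : Fin n, NormedSpace.exp ((t i.succ - t i.castSucc) • genM G μ p) (w i.castSucc) (w i.succ))

/-- The first time at which the path `X` has visited every vertex (`⊤` if there is none). -/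
noncomputable def coverTime (X : ℝ → V) : ℝ≥0∞ :=
  ⨅ (t : ℝ) (_ : ∀ v, ∃ s, 0 ≤ s ∧ s ≤ t ∧ X s = v), ENNReal.ofReal t

/-- The transition probabilities of simple random walk. -/
noncomputable def step (x y : V) : ℝ := if G.Adj x y then 1 / (G.degree x : ℝ) else 0

/-- The probability that simple random walk from `x` has not visited every vertex in `n` steps. -/
noncomputable def notCovered (x : V) (n : ℕ) : ℝ :=
  ∑ w : Fin (n + 1) → V, if w 0 = x ∧ ¬ (∀ v, ∃ i, w i = v) then
    ∏ i : Fin n, step G (w i.castSucc) (w i.succ) else 0

/-- The expected cover time of simple random walk from the worst starting vertex, written as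
the maximum over `x` of the sum over `n` of the probabilities `P_x(σ > n)`. -/
noncomputable def srwCover : ℝ≥0∞ := ⨆ x : V, ∑' n : ℕ, ENNReal.ofReal (notCovered G x n)

end Pool.Agent.H548Z.CovDefs
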