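import Mathlib

set_option autoImplicit false
set_option linter.unusedSectionVars false

/-!
# Path sums of finite Markov chains, covering probabilities, a Feynman-Kac bound
-/

open Finset Matrix

namespace Pool.Agent.H548Z.Cov

variable {S : Type} [Fintype S] [DecidableEq S]

/-- expectation of a function of the first `n + 1` states of the chain started at `x` -/
noncomputable def pe (P : Matrix S S ℝ) : ℕ → S → (List S → ℝ) → ℝ
  | 0, x, F => F [x]
  | n + 1, x, F => ∑ y, P x y * pe P n y (fun l => F (x :: l))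

lemma sum_cons {n : ℕ} (f : (Fin (n + 1) → S) → ℝ) :
    ∑ w, f w = ∑ x, ∑ w : Fin n → S, f (Fin.cons x w) := by
  rw [← (Fin.consEquiv fun _ => S).sum_comp, Fintype.sum_prod_type]
  rfl

lemma pe_eq_sum (P : Matrix S S ℝ) : ∀ (n : ℕ) (x : S) (F : List S → ℝ), pe P n x F =
    ∑ w : Fin (n + 1) → S, ((if w 0 = x then 1 else 0) * ∏ i : Fin n, P (w i.castSucc) (w i.succ)) *
      F (List.ofFn w) := by
  intro n
  induction n with
  | zero =>
    intro x F
    rw [sum_cons, pe]
    simp
  | succ n ih =>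
    intro x F
    rw [sum_cons, sum_eq_single x (fun b _ hb => by simp [hb]) (by simp), pe]
    simp only [ih, mul_sum]
    rw [sum_comm]
    refine sum_congr rfl fun w _ => ?_
    rw [sum_eq_single (w 0) (fun b _ hb => by simp [hb.symm]) (by simp), Fin.prod_univ_succ,
      List.ofFn_succ (f := Fin.cons x w)]
    simp only [Fin.cons_zero, if_true, Fin.castSucc_zero, Fin.cons_succ, ← Fin.succ_castSucc]
    ring

variable {P : Matrix S S ℝ}

lemma pe_mono (hP : ∀ x y, 0 ≤ P x y) : ∀ (n : ℕ) (x : S) (F G : List S → ℝ),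
    (∀ l, l.length = n + 1 → F l ≤ G l) → pe P n x F ≤ pe P n x G := by
  intro n
  induction n with
  | zero => intro x F G h; exact h _ rfl
  | succ n ih =>
    intro x F G h
    exact sum_le_sum fun y _ => mul_le_mul_of_nonneg_left (ih y _ _ fun l hl => h _ (by simp [hl])) (hP x y)

lemma pe_add : ∀ (n : ℕ) (x : S) (F G : List S → ℝ),
    pe P n x (fun l => F l + G l) = pe P n x F + pe P n x G := by
  intro n
  induction n with
  | zero => intro x F G; rfl
  | succ n ih =>
    intro x F G
    simp only [pe, ih, mul_add, sum_add_distrib]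

lemma pe_mul (c : ℝ) : ∀ (n : ℕ) (x : S) (F : List S → ℝ),
    pe P n x (fun l => c * F l) = c * pe P n x F := by
  intro n
  induction n with
  | zero => intro x F; rfl
  | succ n ih =>
    intro x F
    simp only [pe, ih, mul_sum]
    exact sum_congr rfl fun y _ => by ring

lemma pe_zero (n : ℕ) (x : S) : pe P n x (fun _ => 0) = 0 := by
  simpa using pe_mul (P := P) 0 n x (fun _ => 0)

lemma pe_const (hr : ∀ x, ∑ y, P x y = 1) (c : ℝ) : ∀ (n : ℕ) (x : S), pe P n x (fun _ => c) = c := by
  intro n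
  induction n with
  | zero => intro x; rfl
  | succ n ih => intro x; simp only [pe, ih, ← sum_mul, hr, one_mul]

variable {V : Type} [Fintype V] [DecidableEq V]

/-- indicator that the list of states does not visit all of `A` -/
noncomputable def NC (π : S → V) (A : Finset V) (l : List S) : ℝ :=
  if ∀ v ∈ A, ∃ s ∈ l, π s = v then 0 else 1

/-- probability that `A` is not covered in `n` steps -/
noncomputable def nc (P : Matrix S S ℝ) (π : S → V) (n : ℕ) (s : S) (A : Finset V) : ℝ := pe P n s (NC π A)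

variable {π : S → V}

lemma NC_cons (A : Finset V) (s : S) (l : List S) : NC π A (s :: l) = NC π (A.erase (π s)) l := by
  unfold NC
  refine if_congr ⟨fun h v hv => ?_, fun h v hv => ?_⟩ rfl rfl
  · obtain ⟨s', hs', rfl⟩ := h v (mem_of_mem_erase hv)
    rcases List.mem_cons.1 hs' with rfl | h1
    · exact absurd rfl (ne_of_mem_erase hv)
    · exact ⟨s', h1, rfl⟩
  · by_cases h1 : v = π s
    · exact ⟨s, List.mem_cons_self, h1.symm⟩
    · obtain ⟨s', hs', h2⟩ := h v (mem_erase.2 ⟨h1, hv⟩)
      exact ⟨s', List.mem_cons_of_mem _ hs', h2⟩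

lemma NC_nonneg (A : Finset V) (l : List S) : 0 ≤ NC π A l := by unfold NC; split_ifs <;> norm_num

lemma NC_le_one (A : Finset V) (l : List S) : NC π A l ≤ 1 := by unfold NC; split_ifs <;> norm_num

lemma nc_succ (n : ℕ) (s : S) (A : Finset V) :
    nc P π (n + 1) s A = ∑ y, P s y * nc P π n y (A.erase (π s)) := by
  simp only [nc, pe, NC_cons]

lemma nc_zero (s : S) (A : Finset V) : nc P π 0 s A = if A.erase (π s) = ∅ then 0 else 1 := by
  simp only [nc, pe, NC_cons]
  unfold NC
  refine if_congr ?_ rfl rfl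
  simp [eq_empty_iff_forall_notMem]

lemma nc_nonneg (hP : ∀ x y, 0 ≤ P x y) (n : ℕ) (s : S) (A : Finset V) : 0 ≤ nc P π n s A := by
  rw [← pe_zero (P := P) n s]
  exact pe_mono hP _ _ _ _ fun l _ => NC_nonneg A l

lemma nc_le_one (hP : ∀ x y, 0 ≤ P x y) (hr : ∀ x, ∑ y, P x y = 1) (n : ℕ) (s : S) (A : Finset V) :
    nc P π n s A ≤ 1 := by
  rw [← pe_const hr 1 n s]
  exact pe_mono hP _ _ _ _ fun l _ => NC_le_one A l

lemma nc_mono (hP : ∀ x y, 0 ≤ P x y) (n : ℕ) (s : S) {A B : Finset V} (h : A ⊆ B) :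
    nc P π n s A ≤ nc P π n s B := by
  refine pe_mono hP _ _ _ _ fun l _ => ?_
  unfold NC
  split_ifs with h1 h2 h2
  · exact le_rfl
  · exact zero_le_one
  · exact absurd (fun v hv => h2 v (h hv)) h1
  · exact le_rfl

lemma nc_empty (n : ℕ) (s : S) : nc P π n s ∅ = 0 := by
  rw [← pe_zero (P := P) n s, nc]
  congr 1
  funext l
  simp [NC]

lemma nc_eq_zero {s : S} {A : Finset V} (h : A.erase (π s) = ∅) (n : ℕ) : nc P π n s A = 0 := by
  cases n with
  | zero => rw [nc_zero, if_pos h]
  | succ n => simp [nc_succ, h, nc_empty]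

lemma nc_add_le (hP : ∀ x y, 0 ≤ P x y) {m : ℕ} {β : ℝ} (hβ : ∀ y, nc P π m y univ ≤ β) :
    ∀ (n : ℕ) (s : S) (A : Finset V), nc P π (m + n) s A ≤ nc P π n s A * β := by
  intro n
  induction n with
  | zero =>
    intro s A
    rw [nc_zero]
    split_ifs with h
    · rw [nc_eq_zero h, zero_mul]
    · rw [one_mul]; exact (nc_mono hP _ _ (subset_univ _)).trans (hβ s)
  | succ n ih =>
    intro s A
    rw [← add_assoc, nc_succ, nc_succ, sum_mul]
    exact sum_le_sum fun y _ => by
      rw [mul_assoc]; exact mul_le_mul_of_nonneg_left (ih _ _) (hP s y)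

lemma nc_add_le' (hP : ∀ x y, 0 ≤ P x y) (m : ℕ) : ∀ (n : ℕ) (s : S) (A : Finset V),
    nc P π (m + n) s A ≤ (P ^ n *ᵥ fun y => nc P π m y univ) s := by
  intro n
  induction n with
  | zero => intro s A; simpa using nc_mono hP _ _ (subset_univ _)
  | succ n ih =>
    intro s A
    rw [← add_assoc, nc_succ, pow_succ', ← mulVec_mulVec]
    exact sum_le_sum fun y _ => mul_le_mul_of_nonneg_left (ih _ _) (hP s y)

lemma sum_nc_le (hP : ∀ x y, 0 ≤ P x y) (hr : ∀ x, ∑ y, P x y = 1) {m : ℕ}
    (hβ : ∀ y, nc P π m y univ ≤ 3 / 4) (s : S) (k : ℕ) : ∑ n ∈ range k, nc P π n s univ ≤ 4 * m := by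
  have h1 : ∑ n ∈ range k, nc P π n s univ ≤ ∑ n ∈ range (m + k), nc P π n s univ :=
    sum_le_sum_of_subset_of_nonneg (range_subset_range.2 (Nat.le_add_left _ _)) fun n _ _ => nc_nonneg hP _ _ _
  rw [sum_range_add] at h1
  have h2 : ∑ n ∈ range m, nc P π n s univ ≤ m := by
    calc _ ≤ ∑ _n ∈ range m, (1 : ℝ) := sum_le_sum fun n _ => nc_le_one hP hr _ _ _
      _ = m := by simp
  have h3 : ∑ n ∈ range k, nc P π (m + n) s univ ≤ (∑ n ∈ range k, nc P π n s univ) * (3 / 4) := by
    rw [sum_mul]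
    exact sum_le_sum fun n _ => nc_add_le hP hβ n s univ
  linarith

lemma nc_eq_one (hr : ∀ x, ∑ y, P x y = 1) : ∀ (n : ℕ) (s : S) (A : Finset V), n + 1 < A.card →
    nc P π n s A = 1 := by
  intro n
  induction n with
  | zero =>
    intro s A h
    rw [nc_zero, if_neg]
    intro h1
    have := pred_card_le_card_erase (s := A) (a := π s)
    rw [h1, card_empty] at this
    omega
  | succ n ih =>
    intro s A h
    have := pred_card_le_card_erase (s := A) (a := π s)
    rw [nc_succ, sum_congr rfl fun y _ => by rw [ih y _ (by omega), mul_one], hr]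

/-- a reversible stochastic matrix -/
structure RK (w : S → ℝ) (P : Matrix S S ℝ) : Prop where
  w_nonneg : ∀ x, 0 ≤ w x
  nonneg : ∀ x y, 0 ≤ P x y
  row : ∀ x, ∑ y, P x y = 1
  rev : ∀ x y, w x * P x y = w y * P y x

/-- weighted inner product -/
def ip (w f g : S → ℝ) : ℝ := ∑ s, w s * (f s * g s)

variable {w : S → ℝ}

lemma ip_mulVec (f g : S → ℝ) : ip w f (P *ᵥ g) = ∑ x, ∑ y, w x * P x y * (f x * g y) := by
  unfold ip
  refine sum_congr rfl fun x _ => ?_
  simp only [mulVec, dotProduct, mul_sum]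
  exact sum_congr rfl fun y _ => by ring

lemma ip_comm (f g : S → ℝ) : ip w f g = ip w g f := sum_congr rfl fun s _ => by ring

lemma ip_symm (h : ∀ x y, w x * P x y = w y * P y x) (f g : S → ℝ) : ip w f (P *ᵥ g) = ip w (P *ᵥ f) g := by
  rw [ip_comm (P *ᵥ f), ip_mulVec, ip_mulVec, sum_comm]
  exact sum_congr rfl fun x _ => sum_congr rfl fun y _ => by rw [h]; ring

lemma RK.dir (h : RK w P) (f : S → ℝ) :
    ip w f f - ip w f (P *ᵥ f) = (1 / 2) * ∑ x, ∑ y, w x * P x y * (f x - f y) ^ 2 := by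
  have h1 : ip w f f = ∑ x, ∑ y, w x * P x y * f x ^ 2 := by
    refine sum_congr rfl fun x _ => ?_
    rw [← sum_mul, ← mul_sum, h.row]; ring
  have h2 : ip w f f = ∑ x, ∑ y, w x * P x y * f y ^ 2 := by
    rw [h1, sum_comm]
    exact sum_congr rfl fun x _ => sum_congr rfl fun y _ => by rw [h.rev]
  have h3 : ∑ x, ∑ y, w x * P x y * (f x - f y) ^ 2 = ∑ x, ∑ y, w x * P x y * f x ^ 2 +
      ∑ x, ∑ y, w x * P x y * f y ^ 2 - 2 * ∑ x, ∑ y, w x * P x y * (f x * f y) := by
    simp only [mul_sum, ← sum_add_distrib, ← sum_sub_distrib]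
    exact sum_congr rfl fun x _ => sum_congr rfl fun y _ => by ring
  rw [h3, ← h1, ← h2, ip_mulVec]
  ring

lemma RK.pow (h : RK w P) (k : ℕ) : RK w (P ^ k) := by
  induction k with
  | zero =>
    refine ⟨h.w_nonneg, fun x y => ?_, fun x => ?_, fun x y => ?_⟩
    · rw [pow_zero, one_apply]; split_ifs <;> norm_num
    · simp [one_apply]
    · by_cases hxy : x = y
      · rw [hxy]
      · simp [one_apply, hxy, Ne.symm hxy]
  | succ k ih =>
    refine ⟨h.w_nonneg, fun x y => ?_, fun x => ?_, fun x y => ?_⟩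
    · rw [pow_succ, mul_apply]
      exact sum_nonneg fun z _ => mul_nonneg (ih.nonneg _ _) (h.nonneg _ _)
    · simp only [pow_succ, mul_apply]
      rw [sum_comm]
      simp only [← mul_sum, h.row, mul_one, ih.row]
    · conv_lhs => rw [pow_succ]
      conv_rhs => rw [pow_succ']
      simp only [mul_apply, mul_sum]
      refine sum_congr rfl fun z _ => ?_
      rw [← mul_assoc, ih.rev, mul_right_comm, h.rev, mul_assoc]

theorem RK.fk (h : RK w P) (W : S → ℝ)
    (hW : ∀ f : S → ℝ, ∑ s, w s * (W s * f s ^ 2) ≤ ip w f f - ip w f (P *ᵥ f)) (n : ℕ) :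
    ∑ s, w s * pe P n s (fun l => Real.exp (l.map W).sum) ≤ ∑ s, w s * Real.exp (W s) := by
  set N : (S → ℝ) → ℝ := fun f => ∑ s, w s * (Real.exp (-W s) * f s ^ 2) with hN
  have h1 : ∀ f, ip w f (P *ᵥ f) ≤ N f := by
    intro f
    have h2 : ip w f f - ∑ s, w s * (W s * f s ^ 2) ≤ N f := by
      unfold ip
      rw [← sum_sub_distrib]
      refine sum_le_sum fun s _ => ?_
      have h3 := Real.add_one_le_exp (-W s)
      have h4 := mul_nonneg (h.w_nonneg s) (sq_nonneg (f s))
      nlinarith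
    linarith [hW f]
  have h2 : ∀ f g, 2 * ip w f (P *ᵥ g) ≤ N f + N g := by
    intro f g
    have h3 := h1 (fun s => f s + g s)
    have h4 := h1 (fun s => |f s - g s|)
    have h5 : N (fun s => f s + g s) + N (fun s => |f s - g s|) = 2 * (N f + N g) := by
      simp only [hN, sq_abs, mul_add, mul_sum, ← sum_add_distrib]
      exact sum_congr rfl fun s _ => by ring
    have h6 := ip_symm h.rev f g
    rw [ip_comm (P *ᵥ f)] at h6
    have h7 : 2 * (ip w f (P *ᵥ g) + ip w g (P *ᵥ f)) ≤
        ip w (fun s => f s + g s) (P *ᵥ fun s => f s + g s) +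
          ip w (fun s => |f s - g s|) (P *ᵥ fun s => |f s - g s|) := by
      simp only [ip_mulVec, mul_add, mul_sum, ← sum_add_distrib]
      refine sum_le_sum fun x _ => sum_le_sum fun y _ => ?_
      have h8 := mul_nonneg (h.w_nonneg x) (h.nonneg x y)
      have h9 := neg_abs_le ((f x - g x) * (f y - g y))
      rw [abs_mul] at h9
      nlinarith
    linarith
  set u : ℕ → S → ℝ := fun n s => pe P n s (fun l => Real.exp (l.map W).sum) with hu
  have h3 : ∀ n, N (u n) ≤ ∑ s, w s * Real.exp (W s) := by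
    intro n
    induction n with
    | zero =>
      refine le_of_eq (sum_congr rfl fun s _ => ?_)
      simp only [hu, pe, List.map_cons, List.map_nil, List.sum_cons, List.sum_nil, add_zero]
      rw [sq, ← mul_assoc (Real.exp _), ← Real.exp_add]; simp
    | succ n ih =>
      have h4 : ∀ s, u (n + 1) s = Real.exp (W s) * (P *ᵥ u n) s := by
        intro s
        simp only [hu, pe, List.map_cons, List.sum_cons, Real.exp_add, pe_mul, mulVec, dotProduct, mul_sum]
        exact sum_congr rfl fun y _ => by ring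
      have h5 : ip w (u (n + 1)) (P *ᵥ u n) = N (u (n + 1)) := by
        refine sum_congr rfl fun s _ => ?_
        have : Real.exp (-W s) * Real.exp (W s) = 1 := by rw [← Real.exp_add]; simp
        rw [h4]
        linear_combination (-(w s * Real.exp (W s) * (P *ᵥ u n) s ^ 2)) * this
      have h6 := h2 (u (n + 1)) (u n)
      linarith
  have h4 : 2 * ∑ s, w s * u n s ≤ N (u n) + ∑ s, w s * Real.exp (W s) := by
    simp only [hN, mul_sum, ← sum_add_distrib]
    refine sum_le_sum fun s _ => ?_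
    have h5 : Real.exp (-W s) * Real.exp (W s) = 1 := by rw [← Real.exp_add]; simp
    have h6 : 0 ≤ w s * (Real.exp (-W s) * (u n s - Real.exp (W s)) ^ 2) :=
      mul_nonneg (h.w_nonneg s) (by positivity)
    have h7 : w s * (Real.exp (-W s) * (u n s - Real.exp (W s)) ^ 2) =
        w s * (Real.exp (-W s) * u n s ^ 2) - 2 * (w s * u n s) * (Real.exp (-W s) * Real.exp (W s)) +
          w s * Real.exp (W s) * (Real.exp (-W s) * Real.exp (W s)) := by ring
    rw [h7, h5] at h6
    linarith
  have h5 := h3 n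
  change ∑ s, w s * u n s ≤ _
  linarith

end Pool.Agent.H548Z.Cov
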