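import Mathlib
import Pool.Agent.H548Z.CovPath
import Pool.Agent.H548Z.CovChain
import Pool.Agent.H408Z.DP.Spec

set_option autoImplicit false
set_option linter.unusedSectionVars false

/-!
# Walks in an autonomous reversible environment: covering from stationarity and from any state
-/

open Finset Matrix NormedSpace
open scoped Nat

namespace Pool.Agent.H548Z.Cov

open Pool.Agent.H408Z.DP

section Exp

variable {S : Type} [Fintype S] [DecidableEq S] {w : S → ℝ} {A : Matrix S S ℝ}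

lemma hasSum_exp_entry (B : Matrix S S ℝ) (x y : S) :
    HasSum (fun n : ℕ => (n !⁻¹ : ℝ) * (B ^ n) x y) (exp B x y) := by
  have h := Pi.hasSum.1 (hasSum_exp_mulVec B (Pi.single y 1)) x
  simpa using h

lemma exp_entry (A : Matrix S S ℝ) (c : ℝ) (x y : S) :
    exp (c • (A - 1)) x y = Real.exp (-c) * exp (c • A) x y := by
  have h := congrFun (exp_shift (c • (A - 1)) c (Pi.single y 1)) x
  rw [show c • (A - 1) + c • (1 : Matrix S S ℝ) = c • A by rw [smul_sub, sub_add_cancel]] at h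
  simpa using h

lemma RK.exp_ge (h : RK w A) {c : ℝ} (hc : 0 ≤ c) (x y : S) :
    Real.exp (-c) * (c * A x y) ≤ exp (c • (A - 1)) x y := by
  rw [exp_entry]
  refine mul_le_mul_of_nonneg_left ?_ (Real.exp_pos _).le
  have h1 := le_hasSum (hasSum_exp_entry (c • A) x y) 1 fun j _ => by
    rw [smul_pow, Matrix.smul_apply, smul_eq_mul]
    have := (h.pow j).nonneg x y
    positivity
  simpa using h1

lemma RK.exp (h : RK w A) {c : ℝ} (hc : 0 ≤ c) : RK w (exp (c • (A - 1))) := by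
  refine ⟨h.w_nonneg, fun x y => le_trans ?_ (h.exp_ge hc x y), fun x => ?_, fun x y => ?_⟩
  · have := h.nonneg x y
    positivity
  · have h1 : (c • (A - 1)) *ᵥ (fun _ => (1 : ℝ)) = (0 : ℝ) • fun _ => (1 : ℝ) := by
      funext z
      simp [mulVec, dotProduct, h.row, sum_sub_distrib, one_apply, ← mul_sum]
    have h2 := congrFun (exp_eigen h1) x
    simpa [mulVec, dotProduct] using h2
  · rw [exp_entry, exp_entry, mul_left_comm, mul_left_comm (w y)]
    congr 1
    refine ((hasSum_exp_entry (c • A) x y).mul_left (w x)).unique ?_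
    convert (hasSum_exp_entry (c • A) y x).mul_left (w y) using 2 with k
    simp only [smul_pow, Matrix.smul_apply, smul_eq_mul]
    linear_combination ((k !⁻¹ : ℝ) * c ^ k) * (h.pow k).rev x y

lemma RK.exp_dir (h : RK w A) {c : ℝ} (hc : 0 ≤ c) (f : S → ℝ) :
    Real.exp (-c) * c * (ip w f f - ip w f (A *ᵥ f)) ≤ ip w f f - ip w f (NormedSpace.exp (c • (A - 1)) *ᵥ f) := by
  rw [h.dir, (h.exp hc).dir, mul_left_comm]
  refine mul_le_mul_of_nonneg_left ?_ (by norm_num)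
  simp only [mul_sum]
  refine sum_le_sum fun x _ => sum_le_sum fun y _ => ?_
  have h1 := mul_le_mul_of_nonneg_left (h.exp_ge hc x y) (mul_nonneg (h.w_nonneg x) (sq_nonneg (f x - f y)))
  linarith

end Exp

variable {V Z : Type} [Fintype V] [DecidableEq V] [Fintype Z] [DecidableEq Z]

/-- a walk in an autonomous reversible environment with a Dirichlet form comparison -/
structure Env (wt : Z → ℝ) (P : Matrix (V × Z) (V × Z) ℝ) (E : (V → ℝ) → ℝ) (c : ℝ) : Prop where
  rk : RK (fun s => wt s.2) P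
  sum_wt : ∑ ζ, wt ζ = 1
  E_nonneg : ∀ f, 0 ≤ E f
  c_pos : 0 < c
  dir1 : ∀ f : V × Z → ℝ, c * ∑ ζ, wt ζ * E (fun x => f (x, ζ)) ≤
    ip (fun s => wt s.2) f f - ip (fun s => wt s.2) f (P *ᵥ f)
  dir2 : ∀ f : V × Z → ℝ, c * ∑ ζ, wt ζ * E (fun x => f (x, ζ)) ≤
    ip (fun s => wt s.2) f f - ip (fun s => wt s.2) f (P ^ 2 *ᵥ f)
  auto : ∀ ζ', ∃ ψ : Z → ℝ, (P *ᵥ fun s => if s.2 = ζ' then 1 else 0) = fun s => ψ s.2

variable {wt : Z → ℝ} {P : Matrix (V × Z) (V × Z) ℝ} {E : (V → ℝ) → ℝ} {c : ℝ}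

/-- normalised number of visits -/
noncomputable def loc (c : ℝ) (l : List (V × Z)) (x : V) : ℝ :=
  c * (l.map fun s => if s.1 = x then (1 : ℝ) else 0).sum

open Classical in
/-- probability of an event for the stationary chain -/
noncomputable def PrS (wt : Z → ℝ) (P : Matrix (V × Z) (V × Z) ℝ) (N : ℕ) (A : Set (List (V × Z))) : ℝ :=
  (∑ s : V × Z, wt s.2 * pe P N s (fun l => if l ∈ A then 1 else 0)) / Fintype.card V

lemma Env.wt_nonneg [Nonempty V] (h : Env wt P E c) (ζ : Z) : 0 ≤ wt ζ :=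
  h.rk.w_nonneg (Classical.arbitrary V, ζ)

lemma Env.sum_w (h : Env wt P E c) (ψ : V → ℝ) : ∑ s : V × Z, wt s.2 * ψ s.1 = ∑ x, ψ x := by
  rw [Fintype.sum_prod_type]
  simp only [← sum_mul, h.sum_wt, one_mul]

lemma Env.PrS_le [Nonempty V] (h : Env wt P E c) (N : ℕ) (A : Set (List (V × Z))) (F : List (V × Z) → ℝ)
    (hF0 : ∀ l, 0 ≤ F l) (hF : ∀ l ∈ A, 1 ≤ F l) :
    PrS wt P N A ≤ (∑ s : V × Z, wt s.2 * pe P N s F) / Fintype.card V := by
  unfold PrS
  gcongr with s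
  · exact h.wt_nonneg _
  · refine pe_mono h.rk.nonneg _ _ _ _ fun l _ => ?_
    split_ifs with hl
    · exact hF l hl
    · exact hF0 l

lemma Env.fk [Nonempty V] (h : Env wt P E c) (N : ℕ) (x y : V) {R : ℝ} (hR : 0 < R)
    (hd : ∀ f : V → ℝ, (f x - f y) ^ 2 ≤ R * E f) (θ : ℝ) :
    (∑ s : V × Z, wt s.2 * pe P N s (fun l => Real.exp (θ * (loc c l x - loc c l y) -
      θ ^ 2 * R * (loc c l x + loc c l y) / 2))) / Fintype.card V ≤ 3 := by
  have hc := h.c_pos
  set W : V → ℝ := fun v => c * ((θ - θ ^ 2 * R / 2) * (if v = x then 1 else 0) +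
    (-θ - θ ^ 2 * R / 2) * (if v = y then 1 else 0)) with hW
  have h1 : ∀ f : V → ℝ, ∑ v, W v * f v ^ 2 ≤ c * E f := by
    intro f
    have h2 : ∑ v, W v * f v ^ 2 = c * ((θ - θ ^ 2 * R / 2) * f x ^ 2 + (-θ - θ ^ 2 * R / 2) * f y ^ 2) := by
      simp only [hW, mul_assoc, ← mul_sum, add_mul, sum_add_distrib, ite_mul, one_mul, zero_mul,
        sum_ite_eq', mem_univ, if_true]
    rw [h2]
    refine mul_le_mul_of_nonneg_left ?_ hc.le
    refine le_of_mul_le_mul_left ?_ hR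
    have h3 := hd f
    nlinarith [sq_nonneg ((f x - f y) - θ * R * (f x + f y) / 2), sq_nonneg (θ * R * (f x - f y))]
  have h2 : ∀ f : V × Z → ℝ, ∑ s : V × Z, wt s.2 * (W s.1 * f s ^ 2) ≤
      ip (fun s => wt s.2) f f - ip (fun s => wt s.2) f (P *ᵥ f) := by
    intro f
    refine le_trans ?_ (h.dir1 f)
    rw [Fintype.sum_prod_type_right, mul_sum]
    refine sum_le_sum fun ζ _ => ?_
    simp only [← mul_sum]
    rw [mul_left_comm]
    exact mul_le_mul_of_nonneg_left (h1 fun v => f (v, ζ)) (h.wt_nonneg ζ)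
  have h3 : ∀ v, W v ≤ 1 := by
    intro v
    have h4 := h2 fun s => if s.1 = v then 1 else 0
    have h5 : 0 ≤ ip (fun s : V × Z => wt s.2) (fun s => if s.1 = v then 1 else 0)
        (P *ᵥ fun s => if s.1 = v then 1 else 0) := by
      rw [ip_mulVec]
      refine sum_nonneg fun a _ => sum_nonneg fun b _ => mul_nonneg (mul_nonneg (h.wt_nonneg _) (h.rk.nonneg _ _)) ?_
      split_ifs <;> norm_num
    have h6 := h.sum_w fun v' => W v' * (if v' = v then 1 else 0) ^ 2
    have h7 := h.sum_w fun v' => (if v' = v then (1 : ℝ) else 0) * (if v' = v then 1 else 0)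
    rw [h6] at h4
    unfold ip at h4 h5
    rw [h7] at h4
    simp at h4 h5
    linarith
  have h4 := h.rk.fk (fun s => W s.1) h2 N
  rw [h.sum_w fun v => Real.exp (W v)] at h4
  have h5 : ∑ v, Real.exp (W v) ≤ 3 * Fintype.card V := by
    calc _ ≤ ∑ _v : V, (3 : ℝ) := sum_le_sum fun v _ =>
          (Real.exp_le_exp.2 (h3 v)).trans (by linarith [Real.exp_one_lt_d9])
      _ = _ := by simp [mul_comm]
  rw [div_le_iff₀ (by exact_mod_cast Fintype.card_pos)]
  refine le_trans (le_of_eq ?_) (h4.trans h5)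
  refine sum_congr rfl fun s _ => ?_
  congr 2
  funext l
  congr 1
  unfold loc
  induction l with
  | nil => simp
  | cons a l ih =>
    simp only [List.map_cons, List.sum_cons]
    rw [← ih]
    simp only [hW]
    ring

lemma loc_nonneg (hc : 0 < c) (l : List (V × Z)) (x : V) : 0 ≤ loc c l x :=
  mul_nonneg hc.le (List.sum_nonneg fun a ha => by
    obtain ⟨s, -, rfl⟩ := List.mem_map.1 ha
    split_ifs <;> norm_num)

lemma Env.tail [Nonempty V] (h : Env wt P E c) (N : ℕ) (x y : V) {ρ t u : ℝ} (hρ : 0 < ρ) (ht : 0 < t)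
    (hu : 0 ≤ u) (hd : ∀ f : V → ℝ, (f x - f y) ^ 2 ≤ ρ ^ 2 * E f) :
    PrS wt P N {l | Real.sqrt (6 * t) * ρ * u < min (loc c l x) t - min (loc c l y) t} ≤
      3 * Real.exp (-u ^ 2) := by
  set b := Real.sqrt (6 * t) * ρ * u with hb
  have hb0 : 0 ≤ b := by positivity
  have hb2 : b ^ 2 = 6 * t * ρ ^ 2 * u ^ 2 := by
    rw [hb, mul_pow, mul_pow, Real.sq_sqrt (by positivity)]
  set θ := b / (3 * ρ ^ 2 * t) with hθ
  have hθ0 : 0 ≤ θ := by positivity
  have hθb : θ * ρ ^ 2 * t = b / 3 := by rw [hθ]; field_simp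
  have hu2 : u ^ 2 = θ * b / 2 := by
    rw [hθ]; field_simp; linarith
  have h1 := h.fk N x y (R := ρ ^ 2) (by positivity) hd θ
  refine (h.PrS_le N _ (fun l => Real.exp (-u ^ 2) * Real.exp (θ * (loc c l x - loc c l y) -
      θ ^ 2 * ρ ^ 2 * (loc c l x + loc c l y) / 2)) (fun l => by positivity) fun l hl => ?_).trans ?_
  · rw [← Real.exp_add]
    refine Real.one_le_exp ?_
    have h2 := loc_nonneg h.c_pos l y
    simp only [Set.mem_ofPred_eq] at hl
    set a := loc c l x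
    set a' := loc c l y
    have h3 := min_le_left a t
    have h4 := min_le_right a t
    have h5 : min a' t = a' := by
      rcases le_total a' t with h6 | h6
      · exact min_eq_left h6
      · rw [min_eq_right h6] at hl; linarith
    rw [h5] at hl
    set k := θ * ρ ^ 2 with hk
    have hk0 : 0 ≤ k := by positivity
    have hk1 : k ≤ 1 := by
      refine le_of_mul_le_mul_right ?_ ht
      linarith
    have h6 : b / 2 ≤ (a - a') - k * (a + a') / 2 := by
      have h7 : k * (a' + b) ≤ k * t := mul_le_mul_of_nonneg_left (by linarith) hk0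
      have h8 : 0 ≤ (1 - k / 2) * (a - a' - b) := mul_nonneg (by linarith) (by linarith)
      have h9 : 0 ≤ k * b := by positivity
      nlinarith
    have h7 := mul_le_mul_of_nonneg_left h6 hθ0
    have h8 : θ * (a - a') - θ ^ 2 * ρ ^ 2 * (a + a') / 2 = θ * ((a - a') - k * (a + a') / 2) := by
      rw [hk]; ring
    linarith
  · simp only [pe_mul, mul_left_comm _ (Real.exp (-u ^ 2)), ← mul_sum]
    rw [mul_div_assoc, mul_comm]
    exact mul_le_mul_of_nonneg_right h1 (Real.exp_pos _).le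

/-- a metric dominating the energy, with a functional satisfying the growth condition -/
structure Geo (E : (V → ℝ) → ℝ) (d : V → V → ℝ) (F : Finset V → ℝ) (D : ℝ) : Prop where
  d_self : ∀ x, d x x = 0
  d_symm : ∀ x y, d x y = d y x
  d_tri : ∀ x y z, d x z ≤ d x y + d y z
  d_pos : ∀ x y, x ≠ y → 0 < d x y
  d_nonneg : ∀ x y, 0 ≤ d x y
  F_nonneg : ∀ A : Finset V, A.Nonempty → 0 ≤ F A
  F_mono : ∀ A : Finset V, A.Nonempty → F A ≤ F univ
  grow : ∀ (C : Finset V) (H : V → Finset V) (U : Finset V) (a f : ℝ), C.Nonempty → 0 < a →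
    (∀ c ∈ C, ∀ c' ∈ C, c ≠ c' → a ≤ d c c') → (∀ c ∈ C, c ∈ H c) →
    (∀ c ∈ C, ∀ x ∈ H c, d x c ≤ a / 16) → (∀ c ∈ C, H c ⊆ U) → (∀ c ∈ C, f ≤ F (H c)) →
    f + a * Real.sqrt (Real.log C.card) / 24 ≤ F U
  D_pos : 0 < D
  le_D : ∀ x y, d x y ≤ D
  energy : ∀ (f : V → ℝ) x y, (f x - f y) ^ 2 ≤ d x y ^ 2 * E f

variable {d : V → V → ℝ} {F : Finset V → ℝ} {D : ℝ}

lemma Geo.energy' (g : Geo E d F D) (hE : ∀ f, 0 ≤ E f) {x y : V} {ρ : ℝ} (h : d x y ≤ ρ) (f : V → ℝ) :
    (f x - f y) ^ 2 ≤ ρ ^ 2 * E f :=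
  (g.energy f x y).trans (mul_le_mul_of_nonneg_right (pow_le_pow_left₀ (g.d_nonneg x y) h 2) (hE f))

lemma Env.PrS_mono [Nonempty V] (h : Env wt P E c) (N : ℕ) (A B : Set (List (V × Z))) (hAB : A ⊆ B) :
    PrS wt P N A ≤ PrS wt P N B := by
  classical
  exact h.PrS_le N A _ (fun l => by split_ifs <;> norm_num) fun l hl => by rw [if_pos (hAB hl)]

lemma Env.PrS_union [Nonempty V] (h : Env wt P E c) (N : ℕ) (A B : Set (List (V × Z))) :
    PrS wt P N (A ∪ B) ≤ PrS wt P N A + PrS wt P N B := by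
  classical
  refine (h.PrS_le N _ (fun l => (if l ∈ A then 1 else 0) + (if l ∈ B then 1 else 0))
    (fun l => by split_ifs <;> norm_num) fun l hl => ?_).trans (le_of_eq ?_)
  · rcases hl with hl | hl
    · rw [if_pos hl]; split_ifs <;> norm_num
    · rw [if_pos hl]; split_ifs <;> norm_num
  · simp only [pe_add, mul_add, sum_add_distrib, add_div, PrS]

lemma sum_loc (l : List (V × Z)) : ∑ x, loc c l x = c * l.length := by
  unfold loc
  rw [← mul_sum]
  congr 1
  induction l with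
  | nil => simp
  | cons a l ih => simp [sum_add_distrib, ih, add_comm]

lemma Env.stationary [Nonempty V] (h : Env wt P E c) (g : Geo E d F D) (N : ℕ)
    (hN : Fintype.card V * (25 * (3264 * F univ + 8 * D) ^ 2) ≤ c * (N + 1)) :
    (∑ s : V × Z, wt s.2 * nc P Prod.fst N s univ) / Fintype.card V ≤ 1 / 8 := by
  classical
  have hF := g.F_nonneg univ univ_nonempty
  have hD := g.D_pos
  set B := 3264 * F univ + 8 * D with hB
  have hB0 : 0 < B := by positivity
  set t := 25 * B ^ 2 with ht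
  have ht0 : 0 < t := by positivity
  have mk : ∀ ε : ℝ, (ε = 1 ∨ ε = -1) → ChainData d F (PrS wt P N) (fun l x => ε * min (loc c l x) t)
      (Real.sqrt (6 * t)) 3 := by
    intro ε hε
    refine ⟨g.d_self, g.d_symm, g.d_tri, g.F_nonneg, g.grow, by simp [PrS, pe_zero], h.PrS_mono N,
      h.PrS_union N, Real.sqrt_nonneg _, by norm_num, fun x y ρ u hρ hxy hu => ?_⟩
    rcases hε with rfl | rfl
    · simpa using h.tail N x y hρ ht0 hu (g.energy' h.E_nonneg hxy)
    · have := h.tail N y x hρ ht0 hu (g.energy' h.E_nonneg (by rwa [g.d_symm]))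
      refine (h.PrS_mono N _ _ fun l hl => ?_).trans this
      simp only [Set.mem_ofPred_eq] at hl ⊢
      linarith
  obtain ⟨s₀⟩ := ‹Nonempty V›
  have h1 := (mk 1 (Or.inl rfl)).chain g.d_pos g.F_mono hD g.le_D s₀ (u := 2) (by norm_num)
  have h2 := (mk (-1) (Or.inr rfl)).chain g.d_pos g.F_mono hD g.le_D s₀ (u := 2) (by norm_num)
  have h3 := (h.PrS_union N _ _).trans (add_le_add h1 h2)
  have h4 : 3 * Real.exp (-2 ^ 2) + 3 * Real.exp (-2 ^ 2) ≤ (1 / 8 : ℝ) := by
    have h5 : (48 : ℝ) ≤ Real.exp (2 ^ 2) := by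
      rw [show (2 : ℝ) ^ 2 = (4 : ℕ) * 1 by norm_num, Real.exp_nat_mul]
      have : (2.7 : ℝ) ^ 4 ≤ Real.exp 1 ^ 4 := pow_le_pow_left₀ (by norm_num) (by linarith [Real.exp_one_gt_d9]) 4
      linarith [show (48 : ℝ) ≤ 2.7 ^ 4 by norm_num]
    rw [Real.exp_neg]
    have := inv_anti₀ (by norm_num) h5
    linarith
  refine le_trans ?_ (h3.trans h4)
  unfold PrS nc
  gcongr with s
  · exact h.wt_nonneg _
  refine pe_mono h.rk.nonneg _ _ _ _ fun l hl => ?_
  unfold NC
  by_cases hc : ∀ v ∈ univ, ∃ s ∈ l, Prod.fst s = v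
  · rw [if_pos hc]; split_ifs <;> norm_num
  rw [if_neg hc, if_pos]
  push Not at hc
  obtain ⟨x, -, hx⟩ := hc
  have hx0 : loc c l x = 0 := by
    unfold loc
    rw [List.sum_eq_zero, mul_zero]
    intro a ha
    obtain ⟨s, hs, rfl⟩ := List.mem_map.1 ha
    exact if_neg (hx s hs)
  obtain ⟨y, -, hy⟩ : ∃ y ∈ univ, t ≤ loc c l y := by
    refine exists_le_of_sum_le univ_nonempty ?_
    rw [sum_loc, hl, sum_const, card_univ, nsmul_eq_mul]
    push_cast
    exact hN
  have hs : 2 * (Real.sqrt (6 * t) * B) < t := by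
    have h5 : Real.sqrt (6 * t) < 25 / 2 * B := by
      rw [Real.sqrt_lt' (by positivity), ht]; nlinarith
    nlinarith
  by_contra hcon
  simp only [Set.mem_union, Set.mem_ofPred_eq, not_or, not_exists, not_lt] at hcon
  have h5 := hcon.1 y
  have h6 := hcon.2 x
  rw [min_eq_right hy] at h5
  rw [hx0, min_eq_left ht0.le] at h6
  have h7 : Real.sqrt (6 * t) * B = 3264 * Real.sqrt (6 * t) * F univ + 2 * Real.sqrt (6 * t) * D * (2 + 2) := by
    rw [hB]; ring
  linarith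

/-- functions whose mean over the position is one in every environment -/
def Fib (wt : Z → ℝ) (f : V × Z → ℝ) : Prop := ∀ ζ, wt ζ * ∑ x, f (x, ζ) = wt ζ * Fintype.card V

lemma Env.fib_step (h : Env wt P E c) {f : V × Z → ℝ} (hf : Fib wt f) : Fib wt (P *ᵥ f) := by
  intro ζ
  obtain ⟨ψ, hψ⟩ := h.auto ζ
  have key : ∀ f : V × Z → ℝ, wt ζ * ∑ x, (P *ᵥ f) (x, ζ) = ∑ ζ', ψ ζ' * (wt ζ' * ∑ x, f (x, ζ')) := by
    intro f
    have h1 := ip_symm h.rk.rev (fun s : V × Z => if s.2 = ζ then 1 else 0) f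
    rw [hψ] at h1
    unfold ip at h1
    rw [Fintype.sum_prod_type_right, Fintype.sum_prod_type_right, sum_eq_single ζ (fun b _ hb => by simp [hb])
      (by simp)] at h1
    simp only [if_true, one_mul, ← mul_sum] at h1
    rw [h1]
    exact sum_congr rfl fun ζ' _ => by ring
  have h1 := key fun _ => 1
  have h2 : P *ᵥ (fun _ => (1 : ℝ)) = fun _ => 1 := by
    funext s; simp [mulVec, dotProduct, h.rk.row]
  rw [h2] at h1
  simp only [sum_const, card_univ, nsmul_eq_mul, mul_one] at h1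
  rw [key, h1]
  exact sum_congr rfl fun ζ' _ => by rw [hf]

lemma Env.nash_ineq [Nonempty V] (h : Env wt P E c) (g : Geo E d F D) {f : V × Z → ℝ} (hf : Fib wt f)
    (hf0 : ∀ s, 0 ≤ f s) {a : ℝ} (ha : 0 < a) (ha' : (1 + a) * Fintype.card V = ip (fun s => wt s.2) f f) :
    a ^ 2 ≤ D ^ 2 * ∑ ζ, wt ζ * E (fun x => f (x, ζ)) := by
  have hn : (0 : ℝ) < Fintype.card V := by exact_mod_cast Fintype.card_pos
  have h1 : ∀ ζ, wt ζ * ∑ x, f (x, ζ) * f (x, ζ) ≤
      wt ζ * (Fintype.card V * (1 + (D ^ 2 * E (fun x => f (x, ζ)) / a + a) / 2)) := by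
    intro ζ
    rcases (h.wt_nonneg ζ).eq_or_lt with h0 | h0
    · rw [← h0]; simp
    refine mul_le_mul_of_nonneg_left ?_ h0.le
    have h2 := mul_left_cancel₀ h0.ne' (hf ζ)
    obtain ⟨y, -, hy⟩ : ∃ y ∈ univ, f (y, ζ) ≤ 1 := by
      refine exists_le_of_sum_le univ_nonempty ?_
      rw [h2]; simp
    rw [← h2, sum_mul]
    refine sum_le_sum fun x _ => mul_le_mul_of_nonneg_left ?_ (hf0 _)
    have h3 := g.energy' h.E_nonneg (g.le_D x y) fun x => f (x, ζ)
    have h4 : f (x, ζ) - f (y, ζ) ≤ ((f (x, ζ) - f (y, ζ)) ^ 2 / a + a) / 2 := by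
      rw [le_div_iff₀ (by norm_num), div_add' _ _ _ ha.ne', le_div_iff₀ ha]
      nlinarith [sq_nonneg (f (x, ζ) - f (y, ζ) - a)]
    have h5 := div_le_div_of_nonneg_right h3 ha.le
    linarith
  have h2 : ip (fun s : V × Z => wt s.2) f f ≤
      Fintype.card V * (1 + (D ^ 2 * (∑ ζ, wt ζ * E (fun x => f (x, ζ))) / a + a) / 2) := by
    unfold ip
    rw [Fintype.sum_prod_type_right]
    simp only [← mul_sum]
    refine (sum_le_sum fun ζ _ => h1 ζ).trans (le_of_eq ?_)
    have : ∀ ζ, wt ζ * (Fintype.card V * (1 + (D ^ 2 * E (fun x => f (x, ζ)) / a + a) / 2)) =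
        Fintype.card V * (1 + a / 2) * wt ζ + Fintype.card V * D ^ 2 / (2 * a) * (wt ζ * E (fun x => f (x, ζ))) := by
      intro ζ; field_simp; ring
    simp only [this, sum_add_distrib, ← mul_sum, h.sum_wt]
    field_simp
    ring
  rw [← ha', mul_comm] at h2
  have h3 := le_of_mul_le_mul_left h2 hn
  have h4 : a ≤ D ^ 2 * (∑ ζ, wt ζ * E (fun x => f (x, ζ))) / a := by linarith
  rw [le_div_iff₀ ha] at h4
  linarith

lemma mulVec_nn {S : Type} [Fintype S] {P : Matrix S S ℝ} (hP : ∀ x y, 0 ≤ P x y) {f : S → ℝ} (hf : ∀ s, 0 ≤ f s)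
    (s : S) : 0 ≤ (P *ᵥ f) s := sum_nonneg fun y _ => mul_nonneg (hP s y) (hf y)

lemma Env.nash [Nonempty V] (h : Env wt P E c) (g : Geo E d F D) {f : V × Z → ℝ} (hf : Fib wt f)
    (hf0 : ∀ s, 0 ≤ f s) (k : ℕ) : Fib wt (P ^ k *ᵥ f) ∧ k * (c / (Fintype.card V * D ^ 2)) *
      (ip (fun s => wt s.2) (P ^ k *ᵥ f) (P ^ k *ᵥ f) / Fintype.card V - 1) ≤ 1 := by
  have hn : (0 : ℝ) < Fintype.card V := by exact_mod_cast Fintype.card_pos
  have hD := g.D_pos
  have hc := h.c_pos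
  induction k with
  | zero => exact ⟨by simpa using hf, by simp⟩
  | succ k ih =>
    rw [pow_succ', ← mulVec_mulVec]
    refine ⟨h.fib_step ih.1, ?_⟩
    have hu0 := mulVec_nn (h.rk.pow k).nonneg hf0
    set u := P ^ k *ᵥ f with hu
    have h1 := h.dir2 u
    rw [sq, ← mulVec_mulVec, ip_symm h.rk.rev] at h1
    set γ := c / (Fintype.card V * D ^ 2) with hγ
    have hγ0 : 0 < γ := by positivity
    set a := ip (fun s : V × Z => wt s.2) u u / Fintype.card V - 1 with ha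
    set a' := ip (fun s : V × Z => wt s.2) (P *ᵥ u) (P *ᵥ u) / Fintype.card V - 1 with ha'
    set e := ∑ ζ, wt ζ * E (fun x => u (x, ζ)) with he
    have he0 : 0 ≤ e := sum_nonneg fun ζ _ => mul_nonneg (h.wt_nonneg ζ) (h.E_nonneg _)
    have h2 : a' ≤ a - γ * (D ^ 2 * e) := by
      have h3 : γ * (D ^ 2 * e) = c * e / Fintype.card V := by rw [hγ]; field_simp
      have h4 := div_le_div_of_nonneg_right h1 hn.le
      rw [sub_div] at h4
      linarith
    have h3 := ih.2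
    push_cast
    rcases le_or_gt a 0 with h4 | h4
    · have h5 : 0 ≤ γ * (D ^ 2 * e) := by positivity
      have h6 : ((k : ℝ) + 1) * γ * a' ≤ 0 := mul_nonpos_of_nonneg_of_nonpos (by positivity) (by linarith)
      linarith
    · have h5 := h.nash_ineq g ih.1 hu0 h4 (by rw [ha]; field_simp; ring)
      have h6 : a' ≤ a - γ * a ^ 2 := by nlinarith [mul_le_mul_of_nonneg_left h5 hγ0.le]
      have h7 : ((k : ℝ) + 1) * γ * a' ≤ ((k : ℝ) + 1) * γ * (a - γ * a ^ 2) :=
        mul_le_mul_of_nonneg_left h6 (by positivity)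
      set y := γ * a with hy
      have hy0 : 0 < y := by positivity
      have h8 : ((k : ℝ) + 1) * γ * (a - γ * a ^ 2) = (k * y + y) * (1 - y) := by rw [hy]; ring
      have h9 : (k : ℝ) * y ≤ 1 := by rw [hy, ← mul_assoc]; exact h3
      rw [h8] at h7
      rcases le_or_gt y 1 with h10 | h10
      · nlinarith
      · have : 0 ≤ (k : ℝ) * y := by positivity
        nlinarith

theorem Env.worst [Nonempty V] (h : Env wt P E c) (g : Geo E d F D) (N₁ N₂ N₃ : ℕ)
    (h₁ : ∀ s ζ, wt ζ / 2 ≤ ∑ x, (P ^ N₁) s (x, ζ)) (h₂ : Fintype.card V * D ^ 2 ≤ c * N₂)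
    (h₃ : Fintype.card V * (25 * (3264 * F univ + 8 * D) ^ 2) ≤ c * (N₃ + 1)) (s : V × Z) :
    nc P Prod.fst (N₃ + (N₁ + N₂)) s univ ≤ 3 / 4 := by
  have hn : (0 : ℝ) < Fintype.card V := by exact_mod_cast Fintype.card_pos
  have hD := g.D_pos
  refine (nc_add_le' h.rk.nonneg N₃ _ s univ).trans ?_
  set ψ : V × Z → ℝ := fun y => nc P Prod.fst N₃ y univ with hψ
  have hψ0 : ∀ y, 0 ≤ ψ y := fun y => nc_nonneg h.rk.nonneg _ _ _
  have hψ1 : ∀ y, ψ y ≤ 1 := fun y => nc_le_one h.rk.nonneg h.rk.row _ _ _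
  rw [pow_add, ← mulVec_mulVec]
  set χ := P ^ N₂ *ᵥ ψ with hχ
  have hχ1 : ∀ y, χ y ≤ 1 := by
    intro y
    rw [← (h.rk.pow N₂).row y]
    exact sum_le_sum fun z _ => mul_le_of_le_one_right ((h.rk.pow N₂).nonneg _ _) (hψ1 z)
  set ν : V × Z → ℝ := fun y => (P ^ N₁) s y with hν
  have hν0 : ∀ y, 0 ≤ ν y := fun y => (h.rk.pow N₁).nonneg _ _
  set f : V × Z → ℝ := fun y => Fintype.card V * ν y / ∑ x, ν (x, y.2) with hf
  have hf0 : ∀ y, 0 ≤ f y := fun y => div_nonneg (mul_nonneg hn.le (hν0 y)) (sum_nonneg fun x _ => hν0 _)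
  have hfib : Fib wt f := by
    intro ζ
    rcases (h.wt_nonneg ζ).eq_or_lt with h0 | h0
    · rw [← h0]; simp
    have h3 : 0 < ∑ x, ν (x, ζ) := lt_of_lt_of_le (by positivity) (h₁ s ζ)
    simp only [hf, ← sum_div, ← mul_sum]
    rw [mul_div_assoc, div_self h3.ne', mul_one]
  have hle : ∀ y : V × Z, wt y.2 * f y / (2 * Fintype.card V) ≤ ν y := by
    intro y
    rcases (h.wt_nonneg y.2).eq_or_lt with h0 | h0
    · rw [← h0]; simpa using hν0 y
    have h3 : 0 < ∑ x, ν (x, y.2) := lt_of_lt_of_le (by positivity) (h₁ s y.2)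
    have h4 : wt y.2 * f y / (2 * Fintype.card V) = wt y.2 / 2 * ν y / ∑ x, ν (x, y.2) := by
      rw [hf]; field_simp
    rw [h4, div_le_iff₀ h3, mul_comm]
    exact mul_le_mul_of_nonneg_left (h₁ s y.2) (hν0 y)
  have h3 := (h.nash g hfib hf0 N₂).2
  set u := P ^ N₂ *ᵥ f with hu
  have h4 : ip (fun s : V × Z => wt s.2) u u ≤ 2 * Fintype.card V := by
    have h5 : 1 ≤ N₂ * (c / (Fintype.card V * D ^ 2)) := by
      rw [← mul_div_assoc, le_div_iff₀ (by positivity)]; linarith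
    have h6 : ip (fun s : V × Z => wt s.2) u u / Fintype.card V ≤ 2 := by
      by_contra h7
      push Not at h7
      nlinarith
    rwa [div_le_iff₀ hn] at h6
  have h5 := h.stationary g N₃ h₃
  rw [div_le_iff₀ hn] at h5
  have h6 : ip (fun s : V × Z => wt s.2) f χ ≤ Fintype.card V / 2 := by
    rw [hχ, ip_symm (h.rk.pow N₂).rev, ← hu]
    have h7 : ip (fun s : V × Z => wt s.2) u ψ ≤ ip (fun s : V × Z => wt s.2) u u / 8 +
        2 * ∑ s : V × Z, wt s.2 * ψ s := by
      unfold ip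
      rw [sum_div, mul_sum, ← sum_add_distrib]
      refine sum_le_sum fun y _ => ?_
      have h8 : u y * ψ y ≤ u y * u y / 8 + 2 * ψ y := by
        nlinarith [sq_nonneg (u y - 4 * ψ y), mul_nonneg (hψ0 y) (sub_nonneg.2 (hψ1 y))]
      have h9 := mul_le_mul_of_nonneg_left h8 (h.wt_nonneg y.2)
      linarith
    linarith
  have h7 : ∑ y : V × Z, wt y.2 * f y = Fintype.card V := by
    rw [Fintype.sum_prod_type_right]
    simp only [← mul_sum]
    rw [sum_congr rfl fun ζ _ => hfib ζ, ← sum_mul, h.sum_wt, one_mul]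
  have h8 : ∑ y : V × Z, wt y.2 * f y / (2 * Fintype.card V) * (1 - χ y) ≤ ∑ y, ν y * (1 - χ y) :=
    sum_le_sum fun y _ => mul_le_mul_of_nonneg_right (hle y) (sub_nonneg.2 (hχ1 y))
  have h9 : ∑ y : V × Z, wt y.2 * f y / (2 * Fintype.card V) * (1 - χ y) =
      (Fintype.card V - ip (fun s : V × Z => wt s.2) f χ) / (2 * Fintype.card V) := by
    unfold ip
    rw [sub_div]
    nth_rewrite 2 [← h7]
    rw [sum_div, sum_div, ← sum_sub_distrib]
    exact sum_congr rfl fun y _ => by ring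
  have h10 : ∑ y, ν y * (1 - χ y) = 1 - (P ^ N₁ *ᵥ χ) s := by
    simp only [mul_sub, mul_one, sum_sub_distrib, hν, (h.rk.pow N₁).row]
    rfl
  have h11 : 1 / 4 ≤ (Fintype.card V - ip (fun s : V × Z => wt s.2) f χ) / (2 * Fintype.card V) := by
    rw [le_div_iff₀ (by positivity)]; linarith
  linarith

end Pool.Agent.H548Z.Cov
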