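import Mathlib
import Pool.Agent.H548Z.CovEnv
import Pool.Agent.H548Z.CovDefs
import Pool.Agent.H408Z.DP.Cube

set_option autoImplicit false
set_option linter.unusedSectionVars false

/-!
# Random walk on dynamical percolation as a walk in an autonomous environment
-/

open Finset Matrix NormedSpace Function

namespace Pool.Agent.H548Z.Cov

open Pool.Agent.H408Z.DP (rho rho_update sum_split sum_prod_one exp_eigen)
open Pool.Agent.H548Z.CovDefs

variable {V : Type} [Fintype V] [DecidableEq V] {G : SimpleGraph V} [DecidableRel G.Adj]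

/-- Bernoulli weights -/
def rr (p : ℝ) (b : Bool) : ℝ := if b then p else 1 - p

/-- the energy of a function on the vertices -/
noncomputable def En (G : SimpleGraph V) [DecidableRel G.Adj] (f : V → ℝ) : ℝ :=
  (1 / 2) * ∑ x, ∑ y, if G.Adj x y then (f x - f y) ^ 2 else 0

lemma En_nonneg (f : V → ℝ) : 0 ≤ En G f :=
  mul_nonneg (by norm_num) (sum_nonneg fun x _ => sum_nonneg fun y _ => by split_ifs <;> positivity)

lemma resample {ι : Type} [Fintype ι] [DecidableEq ι] (p : ℝ) (e : ι) (ψ : (ι → Bool) → ℝ) :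
    ∑ ζ, rho (rr p) ζ * ψ ζ =
      ∑ ζ, rho (rr p) ζ * (p * ψ (update ζ e true) + (1 - p) * ψ (update ζ e false)) := by
  rw [sum_split e, sum_split e fun ζ => rho (rr p) ζ * (p * ψ (update ζ e true) + (1 - p) * ψ (update ζ e false))]
  congr 1
  refine sum_congr rfl fun ζ _ => ?_
  simp only [rho_update, update_idem, rr, if_true, Bool.false_eq_true, if_false]
  ring

lemma rho_nonneg {ι : Type} [Fintype ι] {p : ℝ} (h0 : 0 ≤ p) (h1 : p ≤ 1) (ζ : ι → Bool) : 0 ≤ rho (rr p) ζ :=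
  prod_nonneg fun e _ => by unfold rr; split_ifs <;> linarith

lemma sum_edge (x y : V) (a : ℝ) : ∑ e : G.edgeFinset, (if e.1 = s(x, y) then a else 0) =
    if G.Adj x y then a else 0 := by
  rw [sum_coe_sort G.edgeFinset fun e => if e = s(x, y) then a else 0, sum_ite_eq']
  simp

lemma sum_other (e : Sym2 V) (x : V) {a : ℝ} (ha : 0 ≤ a) : ∑ y, (if e = s(x, y) then a else 0) ≤ a := by
  by_cases h : ∃ y, e = s(x, y)
  · obtain ⟨y, rfl⟩ := h
    rw [sum_eq_single y (fun b _ hb => if_neg fun h => hb (Sym2.congr_right.1 h).symm) (by simp), if_pos rfl]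
  · rw [sum_eq_zero fun y _ => if_neg fun hy => h ⟨y, hy⟩]
    exact ha

variable {μ p : ℝ}

lemma genM_mulVec (f : St G → ℝ) : genM G μ p *ᵥ f = gen G μ p f := by
  let L : (St G → ℝ) →ₗ[ℝ] (St G → ℝ) :=
    { toFun := gen G μ p
      map_add' := fun f g => by
        funext s
        simp only [gen, Pi.add_apply]
        rw [add_add_add_comm, ← mul_add, ← sum_add_distrib, ← sum_add_distrib]
        congr 1
        · refine sum_congr rfl fun e _ => ?_
          rw [← sum_add_distrib]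
          exact sum_congr rfl fun y _ => by split_ifs <;> ring
        · congr 1
          exact sum_congr rfl fun e _ => by ring
      map_smul' := fun c f => by
        funext s
        simp only [gen, Pi.smul_apply, smul_eq_mul, RingHom.id_apply, mul_add, mul_sum]
        congr 1
        · exact sum_congr rfl fun e _ => sum_congr rfl fun y _ => by split_ifs <;> ring
        · exact sum_congr rfl fun e _ => by ring }
  have : genM G μ p = LinearMap.toMatrix' L := by
    ext s s'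
    rw [LinearMap.toMatrix'_apply]
    simp only [genM, of_apply, L, LinearMap.coe_mk, AddHom.coe_mk]
  rw [this, LinearMap.toMatrix'_mulVec]
  rfl

lemma ip_gen (f g : St G → ℝ) : ip (fun s : St G => rho (rr p) s.2) f (gen G μ p g) =
    -((1 / 2) * ∑ e : G.edgeFinset, ∑ x, ∑ y, ∑ ζ, rho (rr p) ζ *
        (if e.1 = s(x, y) ∧ ζ e = true then (f (x, ζ) - f (y, ζ)) * (g (x, ζ) - g (y, ζ)) else 0) +
      μ * ∑ e : G.edgeFinset, ∑ x, ∑ ζ, rho (rr p) ζ * (p * (1 - p) *
        ((f (x, update ζ e true) - f (x, update ζ e false)) * (g (x, update ζ e true) - g (x, update ζ e false))))) := by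
  unfold ip gen
  simp only [mul_add (f _), mul_add (rho _ _), sum_add_distrib, neg_add]
  congr 1
  · have h1 : ∑ s : St G, rho (rr p) s.2 * (f s * ∑ e : G.edgeFinset, ∑ y : V,
        (if e.1 = s(s.1, y) ∧ s.2 e = true then g (y, s.2) - g s else 0)) =
        ∑ e : G.edgeFinset, ∑ x, ∑ y, ∑ ζ, rho (rr p) ζ *
          (if e.1 = s(x, y) ∧ ζ e = true then f (x, ζ) * (g (y, ζ) - g (x, ζ)) else 0) := by
      simp only [mul_sum]
      rw [sum_comm]
      refine sum_congr rfl fun e _ => ?_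
      rw [Fintype.sum_prod_type]
      refine sum_congr rfl fun x _ => ?_
      rw [sum_comm]
      refine sum_congr rfl fun y _ => sum_congr rfl fun ζ _ => ?_
      split_ifs <;> simp
    have h2 : ∑ e : G.edgeFinset, ∑ x, ∑ y, ∑ ζ, rho (rr p) ζ *
          (if e.1 = s(x, y) ∧ ζ e = true then f (x, ζ) * (g (y, ζ) - g (x, ζ)) else 0) =
        ∑ e : G.edgeFinset, ∑ x, ∑ y, ∑ ζ, rho (rr p) ζ *
          (if e.1 = s(x, y) ∧ ζ e = true then f (y, ζ) * (g (x, ζ) - g (y, ζ)) else 0) := by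
      refine sum_congr rfl fun e _ => ?_
      rw [sum_comm]
      refine sum_congr rfl fun x _ => sum_congr rfl fun y _ => sum_congr rfl fun ζ _ => ?_
      rw [Sym2.eq_swap]
    have h3 : ∑ e : G.edgeFinset, ∑ x, ∑ y, ∑ ζ, rho (rr p) ζ *
          (if e.1 = s(x, y) ∧ ζ e = true then f (x, ζ) * (g (y, ζ) - g (x, ζ)) else 0) +
        ∑ e : G.edgeFinset, ∑ x, ∑ y, ∑ ζ, rho (rr p) ζ *
          (if e.1 = s(x, y) ∧ ζ e = true then f (y, ζ) * (g (x, ζ) - g (y, ζ)) else 0) +
        ∑ e : G.edgeFinset, ∑ x, ∑ y, ∑ ζ, rho (rr p) ζ *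
          (if e.1 = s(x, y) ∧ ζ e = true then (f (x, ζ) - f (y, ζ)) * (g (x, ζ) - g (y, ζ)) else 0) = 0 := by
      simp only [← sum_add_distrib]
      refine sum_eq_zero fun e _ => sum_eq_zero fun x _ => sum_eq_zero fun y _ => sum_eq_zero fun ζ _ => ?_
      split_ifs <;> ring
    rw [h1]
    linarith
  · simp only [mul_sum, ← sum_neg_distrib]
    rw [sum_comm]
    refine sum_congr rfl fun e _ => ?_
    rw [Fintype.sum_prod_type]
    refine sum_congr rfl fun x _ => ?_
    rw [resample p e]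
    refine sum_congr rfl fun ζ _ => ?_
    simp only [update_idem]
    ring

lemma gen_dir (hμ : 0 < μ) (hμ1 : μ ≤ 1) (hp : 0 < p) (hp1 : p ≤ 1) (f : St G → ℝ) :
    μ * p / 3 * ∑ ζ, rho (rr p) ζ * En G (fun x => f (x, ζ)) ≤
      -ip (fun s : St G => rho (rr p) s.2) f (gen G μ p f) := by
  rw [ip_gen, neg_neg]
  set R : G.edgeFinset → V → ℝ := fun e x => ∑ ζ, rho (rr p) ζ * (p * (1 - p) *
    ((f (x, update ζ e true) - f (x, update ζ e false)) * (f (x, update ζ e true) - f (x, update ζ e false))))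
    with hR
  have hR0 : ∀ e x, 0 ≤ R e x := fun e x => sum_nonneg fun ζ _ => mul_nonneg (rho_nonneg hp.le hp1 ζ)
    (mul_nonneg (mul_nonneg hp.le (sub_nonneg.2 hp1)) (mul_self_nonneg _))
  have h1 : ∑ ζ, rho (rr p) ζ * En G (fun x => f (x, ζ)) = (1 / 2) * ∑ e : G.edgeFinset, ∑ x, ∑ y,
      if e.1 = s(x, y) then ∑ ζ, rho (rr p) ζ * (f (x, ζ) - f (y, ζ)) ^ 2 else 0 := by
    rw [sum_comm]
    simp only [sum_comm (s := (univ : Finset G.edgeFinset)), sum_edge, En, mul_left_comm _ (1 / 2 : ℝ),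
      ← mul_sum]
    congr 1
    simp only [mul_sum]
    rw [sum_comm]
    refine sum_congr rfl fun x _ => ?_
    rw [sum_comm]
    refine sum_congr rfl fun y _ => ?_
    split_ifs <;> simp
  have h2 : ∀ (e : G.edgeFinset) x y, μ * p / 3 * (if e.1 = s(x, y) then
      ∑ ζ, rho (rr p) ζ * (f (x, ζ) - f (y, ζ)) ^ 2 else 0) ≤ ∑ ζ, rho (rr p) ζ *
        (if e.1 = s(x, y) ∧ ζ e = true then (f (x, ζ) - f (y, ζ)) * (f (x, ζ) - f (y, ζ)) else 0) +
        μ * ((if e.1 = s(x, y) then R e x else 0) + (if e.1 = s(y, x) then R e y else 0)) := by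
    intro e x y
    rw [Sym2.eq_swap (a := y)]
    by_cases h : e.1 = s(x, y)
    · simp only [h, if_true, true_and, hR]
      rw [resample p e, resample p e fun ζ => if ζ e = true then (f (x, ζ) - f (y, ζ)) * (f (x, ζ) - f (y, ζ)) else 0]
      simp only [update_self, if_true, Bool.false_eq_true, if_false, mul_add μ, mul_sum, ← sum_add_distrib]
      refine sum_le_sum fun ζ _ => ?_
      have h0 := rho_nonneg hp.le hp1 ζ
      set a₁ := f (x, update ζ e true)
      set a₀ := f (x, update ζ e false)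
      set b₁ := f (y, update ζ e true)
      set b₀ := f (y, update ζ e false)
      have h3 : (a₀ - b₀) ^ 2 ≤ 3 * ((a₁ - a₀) ^ 2 + (a₁ - b₁) ^ 2 + (b₁ - b₀) ^ 2) := by
        nlinarith [sq_nonneg ((a₀ - a₁) - (a₁ - b₁)), sq_nonneg ((a₁ - b₁) - (b₁ - b₀)), sq_nonneg ((a₀ - a₁) - (b₁ - b₀))]
      have h4 := mul_le_mul_of_nonneg_left h3 (mul_nonneg (mul_nonneg hμ.le hp.le) (sub_nonneg.2 hp1))
      have h5 : μ * (p / 3 + (1 - p)) ≤ 1 := by nlinarith
      have h6 := mul_le_mul_of_nonneg_right h5 (mul_nonneg hp.le (sq_nonneg (a₁ - b₁)))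
      have h7 : μ * p / 3 * (p * (a₁ - b₁) ^ 2 + (1 - p) * (a₀ - b₀) ^ 2) ≤ p * (a₁ - b₁) ^ 2 +
          μ * (p * (1 - p) * (a₁ - a₀) ^ 2 + p * (1 - p) * (b₁ - b₀) ^ 2) := by nlinarith
      have h8 := mul_le_mul_of_nonneg_left h7 h0
      linarith
    · simp [h]
  have h3 := sum_le_sum fun e (_ : e ∈ univ) => sum_le_sum fun x (_ : x ∈ univ) =>
    sum_le_sum fun y (_ : y ∈ univ) => h2 e x y
  simp only [sum_add_distrib, ← mul_sum] at h3
  have h4 : ∑ e : G.edgeFinset, ∑ x, ∑ y, (if e.1 = s(x, y) then R e x else 0) ≤ ∑ e, ∑ x, R e x :=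
    sum_le_sum fun e _ => sum_le_sum fun x _ => sum_other _ _ (hR0 e x)
  have h5 : ∑ e : G.edgeFinset, ∑ x, ∑ y, (if e.1 = s(y, x) then R e y else 0) ≤ ∑ e, ∑ x, R e x := by
    refine le_trans (le_of_eq (sum_congr rfl fun e _ => sum_comm)) h4
  have h6 := mul_le_mul_of_nonneg_left (add_le_add h4 h5) hμ.le
  rw [h1]
  linarith

/-- a bound on the jump rates -/
def Lam (G : SimpleGraph V) [DecidableRel G.Adj] : ℝ := 2 * Fintype.card G.edgeFinset + 1

lemma one_le_Lam : 1 ≤ Lam G := by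
  unfold Lam; linarith [Nat.cast_nonneg (α := ℝ) (Fintype.card G.edgeFinset)]

lemma gen_ge (hμ : 0 < μ) (hμ1 : μ ≤ 1) (hp : 0 < p) (hp1 : p ≤ 1) {g : St G → ℝ} (hg : ∀ s, 0 ≤ g s)
    (s : St G) : -(Lam G * g s) ≤ gen G μ p g s := by
  have h1 : ∑ _e : G.edgeFinset, -g s ≤ ∑ e : G.edgeFinset, ∑ y : V,
      (if e.1 = s(s.1, y) ∧ s.2 e = true then g (y, s.2) - g s else 0) := by
    refine sum_le_sum fun e _ => ?_
    refine (neg_le_neg (sum_other e.1 s.1 (hg s))).trans ?_
    rw [← sum_neg_distrib]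
    refine sum_le_sum fun y _ => ?_
    have := hg (y, s.2)
    have := hg s
    by_cases h : e.1 = s(s.1, y) <;> by_cases h' : s.2 e = true <;> simp [h, h'] <;> linarith
  have h2 : ∑ _e : G.edgeFinset, -g s ≤ ∑ e : G.edgeFinset, (p * g (s.1, update s.2 e true) +
      (1 - p) * g (s.1, update s.2 e false) - g s) := by
    refine sum_le_sum fun e _ => ?_
    have := mul_nonneg hp.le (hg (s.1, update s.2 e true))
    have := mul_nonneg (sub_nonneg.2 hp1) (hg (s.1, update s.2 e false))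
    linarith
  rw [sum_const, card_univ, nsmul_eq_mul] at h1 h2
  have h3 := mul_le_mul_of_nonneg_left h2 hμ.le
  have h4 : 0 ≤ (1 - μ) * (Fintype.card G.edgeFinset * g s) :=
    mul_nonneg (sub_nonneg.2 hμ1) (mul_nonneg (Nat.cast_nonneg _) (hg s))
  have := hg s
  unfold gen Lam
  linarith

lemma rk_A (hμ : 0 < μ) (hμ1 : μ ≤ 1) (hp : 0 < p) (hp1 : p ≤ 1) :
    RK (fun s : St G => rho (rr p) s.2) (1 + (Lam G)⁻¹ • genM G μ p) := by
  have hL : 0 < Lam G := lt_of_lt_of_le one_pos one_le_Lam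
  refine ⟨fun s => rho_nonneg hp.le hp1 _, fun x y => ?_, fun x => ?_, fun x y => ?_⟩
  · have h1 := gen_ge hμ hμ1 hp hp1 (g := Pi.single y 1) (fun s => by
      rw [Pi.single_apply]; split_ifs <;> norm_num) x
    have h2 := mul_le_mul_of_nonneg_left h1 (inv_pos.2 hL).le
    rw [mul_neg, ← mul_assoc, inv_mul_cancel₀ hL.ne', one_mul, Pi.single_apply] at h2
    rw [Matrix.add_apply, Matrix.smul_apply, one_apply, smul_eq_mul, genM, of_apply]
    linarith
  · have h1 := congrFun (genM_mulVec (G := G) (μ := μ) (p := p) fun _ => 1) x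
    simp only [mulVec, dotProduct, mul_one, gen] at h1
    simp [sum_add_distrib, one_apply, ← mul_sum, h1]
  · have h1 := ip_gen (G := G) (μ := μ) (p := p) (Pi.single x 1) (Pi.single y 1)
    have h2 := ip_gen (G := G) (μ := μ) (p := p) (Pi.single y 1) (Pi.single x 1)
    have h3 : ip (fun s : St G => rho (rr p) s.2) (Pi.single x 1) (gen G μ p (Pi.single y 1)) =
        ip (fun s : St G => rho (rr p) s.2) (Pi.single y 1) (gen G μ p (Pi.single x 1)) := by
      rw [h1, h2]
      simp only [mul_comm ((Pi.single x 1 : St G → ℝ) _ - _)]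
    simp only [ip, Pi.single_apply, ite_mul, one_mul, zero_mul, mul_ite, mul_zero, sum_ite_eq', mem_univ,
      if_true] at h3
    simp only [Matrix.add_apply, Matrix.smul_apply, one_apply, smul_eq_mul, genM, of_apply, mul_add]
    rw [mul_left_comm, h3, mul_left_comm]
    by_cases hxy : x = y
    · rw [hxy]
    · simp [hxy, Ne.symm hxy]

lemma exp_ind (t : ℝ) (ζ' : G.edgeFinset → Bool) :
    exp (t • genM G μ p) *ᵥ (fun s => if s.2 = ζ' then 1 else 0) = fun s =>
      ∏ e, (Real.exp (-(μ * t)) * ((if s.2 e = ζ' e then 1 else 0) - rr p (ζ' e)) + rr p (ζ' e)) := by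
  set ψ : G.edgeFinset → Bool → ℝ := fun e b => (if b = ζ' e then 1 else 0) - rr p (ζ' e) with hψ
  have hψ0 : ∀ e, p * ψ e true + (1 - p) * ψ e false = 0 := by
    intro e
    simp only [hψ, rr]
    cases ζ' e <;> simp <;> ring
  set u : Finset G.edgeFinset → St G → ℝ := fun T s => ∏ e ∈ T, ψ e (s.2 e) with hu
  have h1 : ∀ T, (t • genM G μ p) *ᵥ u T = (T.card * -(μ * t)) • u T := by
    intro T
    funext s
    rw [smul_mulVec, genM_mulVec]
    have h2 : ∀ e, p * u T (s.1, update s.2 e true) + (1 - p) * u T (s.1, update s.2 e false) - u T s =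
        if e ∈ T then -u T s else 0 := by
      intro e
      split_ifs with he
      · have h3 : ∀ b, u T (s.1, update s.2 e b) = ψ e b * ∏ e' ∈ T.erase e, ψ e' (s.2 e') := by
          intro b
          simp only [hu]
          rw [← mul_prod_erase T _ he, update_self]
          congr 1
          exact prod_congr rfl fun e' he' => by rw [update_of_ne (ne_of_mem_erase he')]
        rw [h3, h3]
        linear_combination (∏ e' ∈ T.erase e, ψ e' (s.2 e')) * hψ0 e
      · have h3 : ∀ b, u T (s.1, update s.2 e b) = u T s := by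
          intro b
          refine prod_congr rfl fun e' he' => ?_
          have hne : e' ≠ e := by rintro rfl; exact he he'
          simp only [update_of_ne hne]
        rw [h3, h3]; ring
    have h3 : ∀ y, u T (y, s.2) - u T s = 0 := fun y => sub_self _
    simp only [gen, Pi.smul_apply, smul_eq_mul, h2, h3, ite_self, sum_const_zero, zero_add, sum_ite_mem,
      univ_inter, sum_const, nsmul_eq_mul]
    ring
  have h2 : (fun s : St G => if s.2 = ζ' then (1 : ℝ) else 0) =
      ∑ T ∈ univ.powerset, (∏ e ∈ univ \ T, rr p (ζ' e)) • u T := by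
    funext s
    simp only [Finset.sum_apply, Pi.smul_apply, smul_eq_mul, hu, mul_comm (∏ e ∈ univ \ _, _)]
    rw [← prod_add]
    simp only [hψ, sub_add_cancel, prod_ite_zero, prod_const_one, mem_univ, forall_true_left, funext_iff]
  rw [h2, mulVec_sum]
  funext s
  rw [prod_add, Finset.sum_apply]
  refine sum_congr rfl fun T _ => ?_
  rw [mulVec_smul, exp_eigen (h1 T), prod_mul_distrib, prod_const, Real.exp_nat_mul]
  simp only [Pi.smul_apply, smul_eq_mul, hu]
  ring

/-- the chain observed at multiples of a small time step -/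
noncomputable def PP (G : SimpleGraph V) [DecidableRel G.Adj] (μ p : ℝ) : Matrix (St G) (St G) ℝ :=
  exp ((Lam G)⁻¹ • genM G μ p)

lemma PP_pow (k : ℕ) : PP G μ p ^ k = exp ((k * (Lam G)⁻¹) • genM G μ p) := by
  rw [PP, ← Matrix.exp_nsmul, ← smul_smul, Nat.cast_smul_eq_nsmul]

theorem env_PP (hμ : 0 < μ) (hμ1 : μ ≤ 1) (hp : 0 < p) (hp1 : p ≤ 1) :
    Env (rho (rr p)) (PP G μ p) (En G) ((Lam G)⁻¹ * μ * p / 24) := by
  have hL : 0 < Lam G := lt_of_lt_of_le one_pos one_le_Lam
  have hA := rk_A (G := G) hμ hμ1 hp hp1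
  have h1 : ∀ k : ℕ, PP G μ p ^ k = exp ((k : ℝ) • ((1 + (Lam G)⁻¹ • genM G μ p) - 1)) := by
    intro k; rw [PP_pow, add_sub_cancel_left, smul_smul]
  have h2 : ∀ k : ℕ, 1 / 8 ≤ Real.exp (-(k : ℝ)) * k → ∀ f : St G → ℝ,
      (Lam G)⁻¹ * μ * p / 24 * ∑ ζ, rho (rr p) ζ * En G (fun x => f (x, ζ)) ≤
      ip (fun s : St G => rho (rr p) s.2) f f - ip (fun s : St G => rho (rr p) s.2) f (PP G μ p ^ k *ᵥ f) := by
    intro k hk f
    rw [h1]
    refine le_trans ?_ (hA.exp_dir (Nat.cast_nonneg k) f)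
    have h3 : ip (fun s : St G => rho (rr p) s.2) f f -
        ip (fun s : St G => rho (rr p) s.2) f ((1 + (Lam G)⁻¹ • genM G μ p) *ᵥ f) =
        (Lam G)⁻¹ * -ip (fun s : St G => rho (rr p) s.2) f (gen G μ p f) := by
      rw [add_mulVec, one_mulVec, smul_mulVec, genM_mulVec]
      simp only [ip, Pi.add_apply, Pi.smul_apply, smul_eq_mul, mul_neg, mul_sum, ← sum_sub_distrib,
        ← sum_neg_distrib]
      exact sum_congr rfl fun s _ => by ring
    have h4 := mul_le_mul_of_nonneg_left (gen_dir hμ hμ1 hp hp1 f) (inv_pos.2 hL).le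
    have h5 : 0 ≤ ∑ ζ, rho (rr p) ζ * En G (fun x => f (x, ζ)) :=
      sum_nonneg fun ζ _ => mul_nonneg (rho_nonneg hp.le hp1 ζ) (En_nonneg _)
    rw [h3]
    have h6 : 0 ≤ (Lam G)⁻¹ * (μ * p / 3 * ∑ ζ, rho (rr p) ζ * En G (fun x => f (x, ζ))) := by positivity
    have h7 := mul_le_mul hk h4 h6 (by positivity)
    linarith
  have he : Real.exp 1 ≤ 3 := by linarith [Real.exp_one_lt_d9]
  refine ⟨?_, sum_prod_one (w := rr p) (by simp [rr]), En_nonneg, by positivity, ?_, h2 2 ?_, fun ζ' => ?_⟩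
  · have := hA.exp (c := (1 : ℕ)) (Nat.cast_nonneg _)
    rwa [← h1, pow_one] at this
  · have := h2 1 (by
      rw [Nat.cast_one, mul_one, Real.exp_neg, le_inv_comm₀ (by norm_num) (Real.exp_pos _)]
      linarith)
    rwa [pow_one] at this
  · have h3 : Real.exp ((2 : ℕ) : ℝ) ≤ 9 := by
      rw [← mul_one ((2 : ℕ) : ℝ), Real.exp_nat_mul]
      nlinarith [Real.exp_pos 1]
    have h4 := inv_anti₀ (Real.exp_pos _) h3
    rw [Real.exp_neg]
    push_cast at h4 ⊢
    linarith
  · exact ⟨fun ζ => ∏ e, (Real.exp (-(μ * (Lam G)⁻¹)) * ((if ζ e = ζ' e then 1 else 0) - rr p (ζ' e)) + rr p (ζ' e)),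
      exp_ind _ ζ'⟩

lemma mix_PP (hp : 0 < p) (hp1 : p ≤ 1) (hμ : 0 < μ) (N : ℕ)
    (hN : Fintype.card G.edgeFinset * Real.exp (-(μ * (N * (Lam G)⁻¹))) ≤ 1 / 2) (s : St G)
    (ζ : G.edgeFinset → Bool) : rho (rr p) ζ / 2 ≤ ∑ x, (PP G μ p ^ N) s (x, ζ) := by
  have hL : 0 < Lam G := lt_of_lt_of_le one_pos one_le_Lam
  have h1 := congrFun (exp_ind (G := G) (μ := μ) (p := p) (N * (Lam G)⁻¹) ζ) s
  rw [← PP_pow] at h1
  simp only [mulVec, dotProduct, Fintype.sum_prod_type, mul_ite, mul_one, mul_zero, sum_ite_eq', mem_univ,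
    if_true] at h1
  rw [h1]
  set q := Real.exp (-(μ * (N * (Lam G)⁻¹))) with hq
  have hq0 : 0 < q := Real.exp_pos _
  have hq1 : q ≤ 1 := Real.exp_le_one_iff.2 (by
    have : 0 ≤ μ * (N * (Lam G)⁻¹) := by positivity
    linarith)
  have hr : ∀ b, 0 ≤ rr p b := fun b => by unfold rr; split_ifs <;> linarith
  calc rho (rr p) ζ / 2 ≤ (1 + -q) ^ Fintype.card G.edgeFinset * rho (rr p) ζ := by
        have h2 := one_add_mul_le_pow (a := -q) (by linarith) (Fintype.card G.edgeFinset)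
        have h3 := rho_nonneg hp.le hp1 ζ
        nlinarith
    _ = ∏ e, (1 + -q) * rr p (ζ e) := by rw [prod_mul_distrib, prod_const, card_univ, rho]
    _ ≤ _ := by
        refine prod_le_prod (fun e _ => mul_nonneg (by linarith) (hr _)) fun e _ => ?_
        split_ifs <;> linarith

end Pool.Agent.H548Z.Cov
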