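import Mathlib
import Pool.Agent.H320R2.LD.MGF

set_option autoImplicit false
set_option linter.unusedSectionVars false

/-!
# Suprema of finite Gaussian processes: the growth condition
-/

open MeasureTheory ProbabilityTheory Finset
open scoped ENNReal

namespace Pool.Agent.H548Z.Cov

open Pool.Agent.H320R2.LD Pool.Agent.H320R2.LD.MGF

variable {n : ℕ}

lemma nsq_eq (x : Fin n → ℝ) : nsq x = x ⬝ᵥ x := by
  unfold nsq dotProduct
  exact sum_congr rfl fun i _ => sq _

lemma dot_le (a b : Fin n → ℝ) : a ⬝ᵥ b ≤ nrm a * nrm b :=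
  Real.sum_mul_le_sqrt_mul_sqrt _ a b

lemma nsq_neg (a : Fin n → ℝ) : nsq (-a) = nsq a := by simp [nsq]

lemma nrm_sub_comm (a b : Fin n → ℝ) : nrm (a - b) = nrm (b - a) := by
  unfold nrm; rw [← nsq_neg, neg_sub]

lemma nsq_smul (r : ℝ) (a : Fin n → ℝ) : nsq (r • a) = r ^ 2 * nsq a := by
  simp [nsq, mul_pow, mul_sum]

lemma nsq_add (a b : Fin n → ℝ) : nsq (a + b) = nsq a + 2 * (a ⬝ᵥ b) + nsq b := by
  simp only [nsq_eq, add_dotProduct, dotProduct_add, dotProduct_comm b a]; ring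

lemma nsq_sub (a b : Fin n → ℝ) : nsq (a - b) = nsq a - 2 * (a ⬝ᵥ b) + nsq b := by
  simp only [nsq_eq, sub_dotProduct, dotProduct_sub, dotProduct_comm b a]; ring

lemma nrm_add_le (a b : Fin n → ℝ) : nrm (a + b) ≤ nrm a + nrm b := by
  unfold nrm
  rw [Real.sqrt_le_left (by positivity), nsq_add, add_sq, Real.sq_sqrt (nsq_nonneg a),
    Real.sq_sqrt (nsq_nonneg b)]
  have := dot_le a b
  unfold nrm at this
  linarith

lemma denR_eq (x : Fin n → ℝ) : denR n x = (Real.sqrt (2 * Real.pi))⁻¹ ^ n * Real.exp (-nsq x / 2) := by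
  unfold denR nsq
  simp only [gaussianPDFReal, NNReal.coe_one, mul_one, sub_zero]
  rw [prod_mul_distrib, prod_const, card_univ, Fintype.card_fin, ← Real.exp_sum, ← sum_div,
    sum_neg_distrib]

lemma lint_gam (Φ : (Fin n → ℝ) → ℝ≥0∞) (hΦ : Measurable Φ) :
    ∫⁻ x, Φ x ∂(gam (Fin n)) = ∫⁻ x, ENNReal.ofReal (denR n x) * Φ x := by
  rw [gam_fin, lintegral_withDensity_eq_lintegral_mul _ (den_meas n) hΦ]
  simp only [Pi.mul_apply, den_eq]

lemma meas_dot (h : Fin n → ℝ) : Measurable fun x : Fin n → ℝ => h ⬝ᵥ x := by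
  unfold dotProduct; fun_prop

lemma shift (Φ : (Fin n → ℝ) → ℝ≥0∞) (hΦ : Measurable Φ) (h : Fin n → ℝ) :
    ∫⁻ x, Φ (x + h) ∂(gam (Fin n)) =
      ∫⁻ x, Φ x * ENNReal.ofReal (Real.exp (h ⬝ᵥ x - nsq h / 2)) ∂(gam (Fin n)) := by
  have hm := meas_dot h
  rw [lint_gam (fun x => Φ (x + h)) (hΦ.comp (measurable_add_const h)),
    lint_gam (fun x => Φ x * ENNReal.ofReal (Real.exp (h ⬝ᵥ x - nsq h / 2))) (hΦ.mul (by fun_prop)),
    ← lintegral_add_right_eq_self (fun x => ENNReal.ofReal (denR n x) *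
      (Φ x * ENNReal.ofReal (Real.exp (h ⬝ᵥ x - nsq h / 2)))) h]
  refine lintegral_congr fun x => ?_
  rw [mul_comm (Φ _), ← mul_assoc, ← ENNReal.ofReal_mul (denR_nonneg _ _)]
  congr 2
  rw [denR_eq, denR_eq, mul_assoc, ← Real.exp_add, nsq_add, dotProduct_add, ← nsq_eq, dotProduct_comm x h]
  congr 2
  ring

lemma lint_exp (h : Fin n → ℝ) (c : ℝ) :
    ∫⁻ x, ENNReal.ofReal (Real.exp (h ⬝ᵥ x + c)) ∂(gam (Fin n)) =
      ENNReal.ofReal (Real.exp (nsq h / 2 + c)) := by
  have h1 := shift (fun _ => ENNReal.ofReal (Real.exp (nsq h / 2 + c))) measurable_const h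
  rw [lintegral_const, measure_univ, mul_one] at h1
  rw [h1]
  refine lintegral_congr fun x => ?_
  rw [← ENNReal.ofReal_mul (Real.exp_pos _).le, ← Real.exp_add]
  congr 2
  ring

variable {T : Type} [Fintype T] [DecidableEq T]

/-- supremum of the centred process over `A` -/
noncomputable def supG (t : T → Fin n → ℝ) (A : Finset T) (c g : Fin n → ℝ) : ℝ :=
  ⨆ x : A, (t x - c) ⬝ᵥ g

/-- expected supremum over `A` -/
noncomputable def FF (t : T → Fin n → ℝ) (A : Finset T) : ℝ := ∫ g, supG t A 0 g ∂(gam (Fin n))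

lemma le_sup {A : Finset T} (φ : T → ℝ) {x : T} (hx : x ∈ A) : φ x ≤ ⨆ y : A, φ y :=
  le_ciSup (f := fun y : A => φ y) (Set.finite_range _).bddAbove ⟨x, hx⟩

lemma exists_sup {A : Finset T} (hA : A.Nonempty) (φ : T → ℝ) : ∃ x ∈ A, ⨆ y : A, φ y = φ x := by
  have := hA.to_subtype
  obtain ⟨x, hx⟩ := exists_eq_ciSup_of_finite (f := fun y : A => φ y)
  exact ⟨x, x.2, hx.symm⟩

variable {t : T → Fin n → ℝ} {A : Finset T}

lemma supG_lip (hA : A.Nonempty) {c : Fin n → ℝ} {L : ℝ} (hL : ∀ x ∈ A, nrm (t x - c) ≤ L) :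
    Lip L (supG t A c) := by
  have key : ∀ g g', supG t A c g - supG t A c g' ≤ L * nrm (g - g') := by
    intro g g'
    obtain ⟨x, hx, h1⟩ := exists_sup hA fun x => (t x - c) ⬝ᵥ g
    have h2 := le_sup (fun x => (t x - c) ⬝ᵥ g') hx
    have h3 := dot_le (t x - c) (g - g')
    rw [dotProduct_sub] at h3
    have h4 := mul_le_mul_of_nonneg_right (hL x hx) (nrm_nonneg (g - g'))
    unfold supG
    linarith
  intro g g'
  rw [abs_le]
  have := key g' g
  rw [nrm_sub_comm] at this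
  exact ⟨by linarith, key g g'⟩

lemma exists_L (t : T → Fin n → ℝ) (c : Fin n → ℝ) : ∃ L, 0 < L ∧ ∀ x, nrm (t x - c) ≤ L := by
  refine ⟨1 + ∑ x, nrm (t x - c), ?_, fun x => ?_⟩
  · have : 0 ≤ ∑ x, nrm (t x - c) := sum_nonneg fun x _ => nrm_nonneg _
    linarith
  · have := single_le_sum (f := fun x => nrm (t x - c)) (fun x _ => nrm_nonneg _) (mem_univ x)
    linarith

lemma supG_int (hA : A.Nonempty) (c : Fin n → ℝ) : Integrable (supG t A c) (gam (Fin n)) := by
  obtain ⟨L, hL, h⟩ := exists_L t c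
  exact (prove_MGF _ _ L hL (supG_lip hA fun x _ => h x)).1

lemma supG_meas (c : Fin n → ℝ) : Measurable (supG t A c) :=
  Measurable.iSup fun _ => meas_dot _

lemma dot_int (c : Fin n → ℝ) :
    Integrable (fun g => c ⬝ᵥ g) (gam (Fin n)) ∧ ∫ g, c ⬝ᵥ g ∂(gam (Fin n)) = 0 := by
  have h1 : ∀ i, Integrable (fun g : Fin n → ℝ => c i * g i) (gam (Fin n)) := fun i =>
    (integrable_eval (μ := fun _ : Fin n => gaussianReal 0 1) (i := i)
      (memLp_one_iff_integrable.1 (memLp_id_gaussianReal 1))).const_mul _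
  unfold dotProduct
  refine ⟨integrable_finsetSum _ fun i _ => h1 i, ?_⟩
  rw [integral_finsetSum _ fun i _ => h1 i]
  refine sum_eq_zero fun i _ => ?_
  rw [integral_const_mul]
  unfold gam
  rw [integral_eval, integral_id_gaussianReal, mul_zero]

lemma supG_eq (hA : A.Nonempty) (c g : Fin n → ℝ) : supG t A c g = supG t A 0 g - c ⬝ᵥ g := by
  obtain ⟨x, hx, h1⟩ := exists_sup hA fun x => (t x - c) ⬝ᵥ g
  obtain ⟨y, hy, h2⟩ := exists_sup hA fun x => (t x - 0) ⬝ᵥ g
  have h3 := le_sup (fun x => (t x - c) ⬝ᵥ g) hy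
  have h4 := le_sup (fun x => (t x - 0) ⬝ᵥ g) hx
  unfold supG
  simp only [sub_dotProduct, zero_dotProduct] at *
  linarith

lemma int_supG (hA : A.Nonempty) (c : Fin n → ℝ) : ∫ g, supG t A c g ∂(gam (Fin n)) = FF t A := by
  simp only [supG_eq hA c]
  rw [integral_sub (supG_int hA 0) (dot_int c).1, (dot_int c).2, sub_zero, FF]

lemma FF_mono (hA : A.Nonempty) {B : Finset T} (hAB : A ⊆ B) : FF t A ≤ FF t B := by
  refine integral_mono (supG_int hA 0) (supG_int (hA.mono hAB) 0) fun g => ?_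
  obtain ⟨x, hx, h1⟩ := exists_sup hA fun x => (t x - 0) ⬝ᵥ g
  exact h1.le.trans (le_sup (fun x => (t x - 0) ⬝ᵥ g) (hAB hx))

lemma FF_single (x : T) : FF t {x} = 0 := by
  rw [← int_supG (singleton_nonempty x) (t x)]
  have : ∀ g, supG t {x} (t x) g = 0 := by
    intro g
    obtain ⟨y, hy, h1⟩ := exists_sup (singleton_nonempty x) fun y => (t y - t x) ⬝ᵥ g
    rw [mem_singleton.1 hy] at h1
    unfold supG
    rw [h1]
    simp
  simp [this]

lemma FF_nonneg (hA : A.Nonempty) : 0 ≤ FF t A := by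
  obtain ⟨x, hx⟩ := hA
  rw [← FF_single (t := t) x]
  exact FF_mono (singleton_nonempty x) (singleton_subset_iff.2 hx)

lemma lint_mgf (hA : A.Nonempty) {c : Fin n → ℝ} {L : ℝ} (hL0 : 0 < L) (hL : ∀ x ∈ A, nrm (t x - c) ≤ L)
    (r : ℝ) : ∫⁻ g, ENNReal.ofReal (Real.exp (r * supG t A c g)) ∂(gam (Fin n)) ≤
      ENNReal.ofReal (Real.exp (r * FF t A + r ^ 2 * L ^ 2)) := by
  obtain ⟨-, h2, h3⟩ := prove_MGF _ _ L hL0 (supG_lip hA hL)
  rw [← ofReal_integral_eq_lintegral_ofReal (h2 r) (ae_of_all _ fun x => (Real.exp_pos _).le)]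
  refine ENNReal.ofReal_le_ofReal ?_
  have h4 := h3 r
  rw [int_supG hA] at h4
  simp only [mul_sub, Real.exp_sub] at h4
  rw [integral_div, div_le_iff₀ (Real.exp_pos _), ← Real.exp_add, add_comm] at h4
  exact h4

/-- the exponent in the Tsirelson inequality -/
noncomputable def fr (t : T → Fin n → ℝ) (A : Finset T) (r : ℝ) (g : Fin n → ℝ) : ℝ :=
  ⨆ x : A, (r * (t x ⬝ᵥ g) - r ^ 2 * nsq (t x) / 2)

lemma fr_meas (r : ℝ) : Measurable (fr t A r) :=
  Measurable.iSup fun _ => ((meas_dot _).const_mul r).sub_const _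

lemma fr_half (hA : A.Nonempty) (r : ℝ) :
    ∫⁻ g, ENNReal.ofReal (Real.exp (fr t A r g)) ∂(gam (Fin n)) ≤
      (∫⁻ g, ENNReal.ofReal (Real.exp (fr t A (r / 2) g)) ∂(gam (Fin n))) ^ 2 := by
  have hm : ∀ r, Measurable fun g => ENNReal.ofReal (Real.exp (fr t A r g)) := fun r =>
    (fr_meas r).exp.ennreal_ofReal
  have hd : Measurable fun x => ENNReal.ofReal (denR n x) := by
    have := den_meas n
    rwa [show den n = fun x => ENNReal.ofReal (denR n x) from funext (den_eq n)] at this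
  have h1 : ∫⁻ x, ENNReal.ofReal (denR n x) = 1 := by
    have := lint_gam (n := n) (fun _ => 1) measurable_const
    simpa using this.symm
  have key := Pool.Agent.PZ871.PLaux.pln n
    (fun s => ENNReal.ofReal (denR n s) * ENNReal.ofReal (Real.exp (fr t A r s)))
    (fun s => ENNReal.ofReal (denR n s))
    (fun s => ENNReal.ofReal (denR n s) * ENNReal.ofReal (Real.exp (fr t A (r / 2) s)))
    (hd.mul (hm r)) hd (hd.mul (hm _)) (by
      intro s u
      rw [← ENNReal.ofReal_mul (denR_nonneg n s), ← ENNReal.ofReal_mul (denR_nonneg n _),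
        ← ENNReal.ofReal_mul (mul_nonneg (denR_nonneg n s) (Real.exp_pos _).le),
        ← ENNReal.ofReal_pow (mul_nonneg (denR_nonneg n _) (Real.exp_pos _).le)]
      apply ENNReal.ofReal_le_ofReal
      rw [mul_right_comm, denR_mul, mul_pow, mul_assoc, ← Real.exp_add, ← Real.exp_nat_mul]
      refine mul_le_mul_of_nonneg_left (Real.exp_le_exp.2 ?_) (sq_nonneg _)
      obtain ⟨x, hx, h2⟩ := exists_sup hA fun x => r * (t x ⬝ᵥ s) - r ^ 2 * nsq (t x) / 2
      have h3 := le_sup (fun x => r / 2 * (t x ⬝ᵥ (fun i => (s i + u i) / 2)) - (r / 2) ^ 2 * nsq (t x) / 2) hx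
      have h4 : t x ⬝ᵥ (fun i => (s i + u i) / 2) = (t x ⬝ᵥ s + t x ⬝ᵥ u) / 2 := by
        unfold dotProduct
        rw [← sum_add_distrib, sum_div]
        exact sum_congr rfl fun i _ => by ring
      have h5 := nsq_nonneg ((s - u) - r • t x)
      rw [nsq_sub, nsq_smul, dotProduct_smul, dotProduct_comm, dotProduct_sub, smul_eq_mul] at h5
      unfold fr
      rw [h2]
      simp only [h4] at h3
      push_cast
      nlinarith)
  rw [h1, mul_one, ← lint_gam _ (hm r), ← lint_gam _ (hm _)] at key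
  exact key

theorem tsirelson (hA : A.Nonempty) {r : ℝ} (hr : 0 ≤ r) :
    ∫⁻ g, ENNReal.ofReal (Real.exp (fr t A r g)) ∂(gam (Fin n)) ≤ ENNReal.ofReal (Real.exp (r * FF t A)) := by
  obtain ⟨L, hL, hL'⟩ := exists_L t 0
  have key : ∀ (k : ℕ) (r : ℝ), 0 ≤ r → ∫⁻ g, ENNReal.ofReal (Real.exp (fr t A r g)) ∂(gam (Fin n)) ≤
      ENNReal.ofReal (Real.exp (r * FF t A + r ^ 2 * L ^ 2 * (1 / 2) ^ k)) := by
    intro k
    induction k with
    | zero =>
      intro r hr
      rw [pow_zero, mul_one]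
      refine le_trans (lintegral_mono fun g => ?_) (lint_mgf hA hL (fun x _ => hL' x) r)
      refine ENNReal.ofReal_le_ofReal (Real.exp_le_exp.2 ?_)
      obtain ⟨x, hx, h2⟩ := exists_sup hA fun x => r * (t x ⬝ᵥ g) - r ^ 2 * nsq (t x) / 2
      have h3 := le_sup (fun x => (t x - 0) ⬝ᵥ g) hx
      have h4 := mul_le_mul_of_nonneg_left h3 hr
      have h5 : 0 ≤ r ^ 2 * nsq (t x) := mul_nonneg (sq_nonneg _) (nsq_nonneg _)
      unfold fr supG
      rw [h2]
      simp only [sub_zero] at h4 ⊢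
      linarith
    | succ k ih =>
      intro r hr
      refine (fr_half hA r).trans ((pow_le_pow_left' (ih (r / 2) (by positivity)) 2).trans (le_of_eq ?_))
      rw [← ENNReal.ofReal_pow (Real.exp_pos _).le, ← Real.exp_nat_mul]
      congr 2
      push_cast
      ring
  have h1 : Filter.Tendsto (fun k : ℕ => ENNReal.ofReal (Real.exp (r * FF t A + r ^ 2 * L ^ 2 * (1 / 2) ^ k)))
      Filter.atTop (nhds (ENNReal.ofReal (Real.exp (r * FF t A + r ^ 2 * L ^ 2 * 0)))) := by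
    refine ENNReal.tendsto_ofReal (Real.continuous_exp.continuousAt.tendsto.comp ?_)
    exact ((tendsto_pow_atTop_nhds_zero_of_lt_one (by norm_num) (by norm_num)).const_mul _).const_add _
  rw [mul_zero, add_zero] at h1
  exact ge_of_tendsto' h1 fun k => key k r hr

lemma piece {C : Finset T} {c : T} {H : Finset T} {a ρ r f : ℝ} (_hc : c ∈ C) (hr : 0 < r) (ha : 0 < a)
    (hρ : 0 < ρ) (hsep : ∀ c' ∈ C, c' ≠ c → a ≤ nrm (t c' - t c)) (hcH : c ∈ H)
    (hH : ∀ x ∈ H, nrm (t x - t c) ≤ ρ) (hf : f ≤ FF t H)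
    (hq : C.card * Real.exp (-(r ^ 2 * a ^ 2 / 8)) ≤ 1 / 8) :
    ENNReal.ofReal (3 / 4 * Real.exp (r * f - r ^ 2 * ρ ^ 2)) ≤ ENNReal.ofReal (Real.exp (r ^ 2 * ρ ^ 2 / 2)) *
      ∫⁻ g, {g | ∀ c' ∈ C, c' ≠ c → r * (t c' ⬝ᵥ g) - r ^ 2 * nsq (t c') / 2 <
        r * (t c ⬝ᵥ g) - r ^ 2 * nsq (t c) / 2}.indicator
          (fun g => ENNReal.ofReal (Real.exp (fr t H r g))) g ∂(gam (Fin n)) := by
  set S := {g : Fin n → ℝ | ∀ c' ∈ C, c' ≠ c → r * (t c' ⬝ᵥ g) - r ^ 2 * nsq (t c') / 2 <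
        r * (t c ⬝ᵥ g) - r ^ 2 * nsq (t c) / 2} with hS
  have hSm : MeasurableSet S := by
    rw [hS]
    simp only [Set.ofPred_forall]
    refine MeasurableSet.iInter fun c' => MeasurableSet.iInter fun _ => MeasurableSet.iInter fun _ => ?_
    exact measurableSet_lt (((meas_dot _).const_mul r).sub_const _) (((meas_dot _).const_mul r).sub_const _)
  have hHne : H.Nonempty := ⟨c, hcH⟩
  set h := r • t c with hh
  set Φ : (Fin n → ℝ) → ℝ≥0∞ := S.indicator fun g =>
    ENNReal.ofReal (Real.exp (fr t H r g - (h ⬝ᵥ g - nsq h / 2))) with hΦ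
  have hΦm : Measurable Φ :=
    ((fr_meas r).sub ((meas_dot h).sub_const _)).exp.ennreal_ofReal.indicator hSm
  have e1 : ∫⁻ g, S.indicator (fun g => ENNReal.ofReal (Real.exp (fr t H r g))) g ∂(gam (Fin n)) =
      ∫⁻ g, Φ (g + h) ∂(gam (Fin n)) := by
    rw [shift Φ hΦm h]
    refine lintegral_congr fun g => ?_
    by_cases hg : g ∈ S
    · rw [hΦ, Set.indicator_of_mem hg, Set.indicator_of_mem hg, ← ENNReal.ofReal_mul (Real.exp_pos _).le,
        ← Real.exp_add, sub_add_cancel]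
    · rw [hΦ, Set.indicator_of_notMem hg, Set.indicator_of_notMem hg, zero_mul]
  rw [e1]
  set s := Real.exp (r * f - r ^ 2 * ρ ^ 2) with hs
  have hs0 : 0 < s := Real.exp_pos _
  set W : T → (Fin n → ℝ) → ℝ≥0∞ := fun c' g =>
    ENNReal.ofReal (Real.exp (((r / 2) • (t c' - t c)) ⬝ᵥ g + -(r ^ 2 * nsq (t c' - t c) / 4))) with hW
  have hWm : ∀ c', Measurable (W c') := fun c' => ((meas_dot _).add_const _).exp.ennreal_ofReal
  have hpt : ∀ g, ENNReal.ofReal (2 * s) ≤ ENNReal.ofReal (Real.exp (r ^ 2 * ρ ^ 2 / 2)) * Φ (g + h) +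
      (ENNReal.ofReal (s ^ 2) * ENNReal.ofReal (Real.exp (-r * supG t H (t c) g)) +
        ENNReal.ofReal (2 * s) * ∑ c' ∈ C.erase c, W c' g) := by
    intro g
    have hid : ∀ x, r * (t x ⬝ᵥ (g + h)) - r ^ 2 * nsq (t x) / 2 - (h ⬝ᵥ (g + h) - nsq h / 2) =
        r * ((t x - t c) ⬝ᵥ g) - r ^ 2 * nsq (t x - t c) / 2 := by
      intro x
      rw [hh, nsq_sub, nsq_smul]
      simp only [dotProduct_add, dotProduct_smul, smul_dotProduct, sub_dotProduct, smul_eq_mul, ← nsq_eq]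
      ring
    by_cases hg : g + h ∈ S
    · rw [hΦ, Set.indicator_of_mem hg, ← add_assoc]
      refine le_trans ?_ le_self_add
      rw [← ENNReal.ofReal_mul (Real.exp_pos _).le, ← ENNReal.ofReal_mul (sq_nonneg _),
        ← ENNReal.ofReal_add (by positivity) (by positivity), ← Real.exp_add]
      refine ENNReal.ofReal_le_ofReal ?_
      obtain ⟨x, hx, h2⟩ := exists_sup hHne fun x => (t x - t c) ⬝ᵥ g
      have h3 := le_sup (fun x => r * (t x ⬝ᵥ (g + h)) - r ^ 2 * nsq (t x) / 2) hx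
      have h4 := hid x
      have h5 : nsq (t x - t c) ≤ ρ ^ 2 := by
        rw [← nrm_sq]; exact pow_le_pow_left₀ (nrm_nonneg _) (hH x hx) 2
      have h6 := mul_le_mul_of_nonneg_left h5 (sq_nonneg r)
      have h7 : Real.exp (r * supG t H (t c) g) ≤
          Real.exp (r ^ 2 * ρ ^ 2 / 2 + (fr t H r (g + h) - (h ⬝ᵥ (g + h) - nsq h / 2))) := by
        rw [Real.exp_le_exp]
        unfold supG fr
        rw [h2]
        linarith
      have h8 : Real.exp (r * supG t H (t c) g) * Real.exp (-r * supG t H (t c) g) = 1 := by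
        rw [← Real.exp_add]; simp
      have h9 := Real.exp_pos (-r * supG t H (t c) g)
      have h10 := Real.exp_pos (r * supG t H (t c) g)
      set E₁ := Real.exp (r * supG t H (t c) g)
      set E₂ := Real.exp (-r * supG t H (t c) g)
      have h11 : 2 * s ≤ E₁ + s ^ 2 * E₂ := by
        have h12 : 0 ≤ E₁ * (1 - s * E₂) ^ 2 := by positivity
        have h13 : E₁ * (1 - s * E₂) ^ 2 = E₁ - 2 * s * (E₁ * E₂) + s ^ 2 * E₂ * (E₁ * E₂) := by ring
        rw [h13, h8] at h12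
        linarith
      linarith
    · refine le_trans ?_ (le_add_left (le_add_left le_rfl))
      rw [hS] at hg
      simp only [Set.mem_ofPred_eq, not_forall, not_lt] at hg
      obtain ⟨c', hc', hne, hle⟩ := hg
      refine le_mul_of_one_le_right' (le_trans ?_
        (single_le_sum (f := fun c' => W c' g) (fun _ _ => zero_le) (mem_erase.2 ⟨hne, hc'⟩)))
      rw [hW]
      refine ENNReal.one_le_ofReal.2 (Real.one_le_exp ?_)
      have h1 := hid c'
      have h2 := hid c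
      rw [sub_self, zero_dotProduct, show nsq (0 : Fin n → ℝ) = 0 by simp [nsq]] at h2
      rw [smul_dotProduct, smul_eq_mul]
      linarith
  have hint := lintegral_mono (μ := gam (Fin n)) hpt
  have m1 : Measurable fun g => Φ (g + h) := hΦm.comp (measurable_add_const h)
  have m2 : Measurable fun g => ENNReal.ofReal (Real.exp (-r * supG t H (t c) g)) :=
    ((supG_meas _).const_mul _).exp.ennreal_ofReal
  rw [lintegral_const, measure_univ, mul_one, lintegral_add_left (m1.const_mul _),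
    lintegral_add_left (m2.const_mul _), lintegral_const_mul _ m1, lintegral_const_mul _ m2,
    lintegral_const_mul _ (Finset.measurable_sum _ fun c' _ => hWm c'),
    lintegral_finsetSum _ fun c' _ => hWm c'] at hint
  have b1 : ENNReal.ofReal (s ^ 2) * ∫⁻ g, ENNReal.ofReal (Real.exp (-r * supG t H (t c) g)) ∂(gam (Fin n)) ≤
      ENNReal.ofReal s := by
    refine (mul_le_mul_right (lint_mgf hHne hρ hH (-r)) _).trans ?_
    rw [← ENNReal.ofReal_mul (sq_nonneg _)]
    refine ENNReal.ofReal_le_ofReal ?_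
    rw [sq s, mul_assoc]
    refine mul_le_of_le_one_right hs0.le ?_
    rw [hs, ← Real.exp_add, Real.exp_le_one_iff]
    nlinarith
  have b2 : ∑ c' ∈ C.erase c, ∫⁻ g, W c' g ∂(gam (Fin n)) ≤ ENNReal.ofReal (1 / 8) := by
    calc _ ≤ ∑ c' ∈ C.erase c, ENNReal.ofReal (Real.exp (-(r ^ 2 * a ^ 2 / 8))) := by
          refine sum_le_sum fun c' hc' => ?_
          rw [hW]
          simp only
          rw [lint_exp, nsq_smul]
          refine ENNReal.ofReal_le_ofReal (Real.exp_le_exp.2 ?_)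
          have h5 : a ^ 2 ≤ nsq (t c' - t c) := by
            rw [← nrm_sq]
            exact pow_le_pow_left₀ ha.le (hsep c' (mem_erase.1 hc').2 (mem_erase.1 hc').1) 2
          have h6 := mul_le_mul_of_nonneg_left h5 (sq_nonneg r)
          linarith
      _ ≤ _ := by
          rw [← ENNReal.ofReal_sum_of_nonneg fun _ _ => (Real.exp_pos _).le]
          refine ENNReal.ofReal_le_ofReal (le_trans ?_ hq)
          rw [sum_const, nsmul_eq_mul]
          exact mul_le_mul_of_nonneg_right (by exact_mod_cast card_erase_le) (Real.exp_pos _).le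
  have b3 := hint.trans (add_le_add le_rfl (add_le_add b1 (mul_le_mul_right b2 _)))
  rw [← ENNReal.ofReal_mul (by positivity), ← ENNReal.ofReal_add (by positivity) (by positivity),
    show 2 * s = 3 / 4 * s + (s + 2 * s * (1 / 8)) by ring,
    ENNReal.ofReal_add (by positivity) (by positivity)] at b3
  have e3 : (3 / 4 * s + (s + 2 * s * (1 / 8))) * (1 / 8) = 2 * s * (1 / 8) := by ring
  rw [e3] at b3
  exact (ENNReal.add_le_add_iff_right ENNReal.ofReal_ne_top).1 b3

theorem growth (C : Finset T) (H : T → Finset T) (U : Finset T) (a f : ℝ) (hC : C.Nonempty) (ha : 0 < a)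
    (hsep : ∀ c ∈ C, ∀ c' ∈ C, c ≠ c' → a ≤ nrm (t c - t c')) (hcH : ∀ c ∈ C, c ∈ H c)
    (hH : ∀ c ∈ C, ∀ x ∈ H c, nrm (t x - t c) ≤ a / 16) (hU : ∀ c ∈ C, H c ⊆ U)
    (hf : ∀ c ∈ C, f ≤ FF t (H c)) : f + a * Real.sqrt (Real.log C.card) / 24 ≤ FF t U := by
  obtain ⟨c₀, hc₀⟩ := hC
  have hUne : U.Nonempty := ⟨c₀, hU c₀ hc₀ (hcH c₀ hc₀)⟩
  rcases (Nat.succ_le_of_lt (card_pos.2 ⟨c₀, hc₀⟩)).eq_or_lt with h1 | h1
  · rw [← h1]
    simpa using (hf c₀ hc₀).trans (FF_mono ⟨c₀, hcH c₀ hc₀⟩ (hU c₀ hc₀))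
  have hm : (2 : ℝ) ≤ C.card := by exact_mod_cast h1
  set m : ℝ := (C.card : ℝ) with hmdef
  have hl0 : 0 < Real.log m := Real.log_pos (by linarith)
  set L := Real.sqrt (Real.log m) with hL
  have hL0 : 0 < L := Real.sqrt_pos.2 hl0
  have hL2 : L ^ 2 = Real.log m := Real.sq_sqrt hl0.le
  set r := 6 * L / a with hr
  have hr0 : 0 < r := by positivity
  have hra : r ^ 2 * a ^ 2 = 36 * Real.log m := by rw [hr, ← hL2]; field_simp; norm_num
  have hq : m * Real.exp (-(r ^ 2 * a ^ 2 / 8)) ≤ 1 / 8 := by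
    have h2 : Real.exp (-(r ^ 2 * a ^ 2 / 8)) ≤ Real.exp (-(4 * Real.log m)) := by
      rw [Real.exp_le_exp, hra]; linarith
    have h3 : Real.exp (-(4 * Real.log m)) = (m ^ 4)⁻¹ := by
      rw [Real.exp_neg, show (4 : ℝ) * Real.log m = (4 : ℕ) * Real.log m by norm_num, Real.exp_nat_mul,
        Real.exp_log (by linarith)]
    have h4 : m * (m ^ 4)⁻¹ ≤ 1 / 8 := by
      rw [← div_eq_mul_inv, div_le_div_iff₀ (by positivity) (by norm_num)]
      have : (2 : ℝ) ^ 3 ≤ m ^ 3 := pow_le_pow_left₀ (by norm_num) hm 3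
      nlinarith
    rw [h3] at h2
    exact (mul_le_mul_of_nonneg_left h2 (by linarith)).trans h4
  set S : T → Set (Fin n → ℝ) := fun c => {g | ∀ c' ∈ C, c' ≠ c → r * (t c' ⬝ᵥ g) - r ^ 2 * nsq (t c') / 2 <
        r * (t c ⬝ᵥ g) - r ^ 2 * nsq (t c) / 2} with hS
  have hSm : ∀ c, MeasurableSet (S c) := by
    intro c
    rw [hS]
    simp only [Set.ofPred_forall]
    refine MeasurableSet.iInter fun c' => MeasurableSet.iInter fun _ => MeasurableSet.iInter fun _ => ?_
    exact measurableSet_lt (((meas_dot _).const_mul r).sub_const _) (((meas_dot _).const_mul r).sub_const _)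
  have hp := sum_le_sum fun c (hc : c ∈ C) => piece (t := t) hc hr0 ha (ρ := a / 16) (by positivity)
    (fun c' hc' hne => hsep c' hc' c hc hne) (hcH c hc) (hH c hc) (hf c hc) hq
  rw [← mul_sum, ← lintegral_finsetSum _ fun c _ => (fr_meas r).exp.ennreal_ofReal.indicator (hSm c)] at hp
  have hle : ∀ g, ∑ c ∈ C, (S c).indicator (fun g => ENNReal.ofReal (Real.exp (fr t (H c) r g))) g ≤
      ENNReal.ofReal (Real.exp (fr t U r g)) := by
    intro g
    by_cases hg : ∃ c ∈ C, g ∈ S c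
    · obtain ⟨c, hc, hg⟩ := hg
      rw [sum_eq_single c, Set.indicator_of_mem hg]
      · refine ENNReal.ofReal_le_ofReal (Real.exp_le_exp.2 ?_)
        obtain ⟨x, hx, h2⟩ := exists_sup ⟨c, hcH c hc⟩ fun x => r * (t x ⬝ᵥ g) - r ^ 2 * nsq (t x) / 2
        exact h2.le.trans (le_sup (fun x => r * (t x ⬝ᵥ g) - r ^ 2 * nsq (t x) / 2) (hU c hc hx))
      · intro c' hc' hne
        refine Set.indicator_of_notMem (fun h => ?_) _
        exact lt_asymm (hg c' hc' hne) (h c hc hne.symm)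
      · intro h; exact absurd hc h
    · rw [sum_eq_zero fun c hc => Set.indicator_of_notMem (fun h => hg ⟨c, hc, h⟩) _]
      exact zero_le
  have h2 := hp.trans (mul_le_mul_right ((lintegral_mono hle).trans (tsirelson hUne hr0.le)) _)
  rw [← ENNReal.ofReal_sum_of_nonneg (fun _ _ => by positivity), ← ENNReal.ofReal_mul (Real.exp_pos _).le,
    ENNReal.ofReal_le_ofReal_iff (by positivity), sum_const, nsmul_eq_mul, ← hmdef, ← Real.exp_add] at h2
  have h3 : Real.exp (Real.log m / 2) ≤ m * (3 / 4) := by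
    have h4 : Real.exp (Real.log m / 2) ^ 2 = m := by
      rw [← Real.exp_nat_mul]; push_cast
      rw [mul_div_cancel₀ _ (by norm_num), Real.exp_log (by linarith)]
    refine (pow_le_pow_iff_left₀ (Real.exp_pos _).le (by positivity) two_ne_zero).1 ?_
    rw [h4]
    nlinarith
  have h5 : Real.exp (Real.log m / 2 + (r * f - r ^ 2 * (a / 16) ^ 2)) ≤
      Real.exp (r ^ 2 * (a / 16) ^ 2 / 2 + r * FF t U) := by
    refine le_trans ?_ h2
    rw [Real.exp_add, ← mul_assoc]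
    exact mul_le_mul_of_nonneg_right h3 (Real.exp_pos _).le
  rw [Real.exp_le_exp] at h5
  have h6 : r ^ 2 * (a / 16) ^ 2 = 36 * Real.log m / 256 := by rw [← hra]; ring
  have h7 : r * (a * L / 24) = Real.log m / 4 := by rw [hr, ← hL2]; field_simp; norm_num
  refine le_of_mul_le_mul_left ?_ hr0
  rw [mul_add, h7]
  rw [h6] at h5
  linarith

lemma lower_tail [Nonempty T] {D a : ℝ} (hD : 0 < D) (ht : ∀ x, nrm (t x) ≤ D) (ha : a ≤ FF t univ / 2) :
    gam (Fin n) {g | ∀ x, t x ⬝ᵥ g ≤ a} ≤ ENNReal.ofReal (Real.exp (-(FF t univ ^ 2 / (16 * D ^ 2)))) := by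
  set F := FF t univ with hF
  have hF0 : 0 ≤ F := FF_nonneg univ_nonempty
  set r := F / (4 * D ^ 2) with hr
  have hr0 : 0 ≤ r := by positivity
  have h1 := lint_mgf (t := t) (A := univ) univ_nonempty (c := 0) hD (fun x _ => by simpa using ht x) (-r)
  have m2 : Measurable fun g => ENNReal.ofReal (Real.exp (-r * supG t univ 0 g)) :=
    ((supG_meas _).const_mul _).exp.ennreal_ofReal
  have h2 := mul_meas_ge_le_lintegral₀ (μ := gam (Fin n)) m2.aemeasurable (ENNReal.ofReal (Real.exp (-r * (F / 2))))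
  have h3 : gam (Fin n) {g | ∀ x, t x ⬝ᵥ g ≤ a} ≤ gam (Fin n) {g | ENNReal.ofReal (Real.exp (-r * (F / 2))) ≤
      ENNReal.ofReal (Real.exp (-r * supG t univ 0 g))} := by
    refine measure_mono fun g hg => ENNReal.ofReal_le_ofReal (Real.exp_le_exp.2 ?_)
    obtain ⟨x, -, h4⟩ := exists_sup (univ_nonempty (α := T)) fun x => (t x - 0) ⬝ᵥ g
    have h5 := hg x
    unfold supG
    rw [h4, sub_zero]
    nlinarith
  have h4 := ((mul_le_mul_right h3 _).trans h2).trans h1
  have h5 : Real.exp (-r * F + (-r) ^ 2 * D ^ 2) =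
      Real.exp (-r * (F / 2)) * Real.exp (-(F ^ 2 / (16 * D ^ 2))) := by
    rw [← Real.exp_add, hr]
    congr 1
    field_simp
    ring
  rw [← hF, h5, ENNReal.ofReal_mul (Real.exp_pos _).le] at h4
  exact (ENNReal.mul_le_mul_iff_right (by simpa using Real.exp_pos _) ENNReal.ofReal_ne_top).1 h4

end Pool.Agent.H548Z.Cov
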