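import Mathlib

set_option autoImplicit false
set_option linter.unusedSectionVars false

/-!
# Moebius inversion on the Boolean lattice and the cone of distribution functions
-/

open Finset Filter Topology

namespace Pool.Agent.H548Z.Cov

variable {ι : Type} [Fintype ι] [DecidableEq ι]

/-- the zeta function of the Boolean lattice -/
def zt (S T : Finset ι) : ℝ := if S ⊆ T then 1 else 0

/-- the Moebius function of the Boolean lattice -/
def mm (T S : Finset ι) : ℝ := if T ⊆ S then (-1) ^ (S \ T).card else 0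

/-- the Moebius transform -/
def mob (f : Finset ι → ℝ) (S : Finset ι) : ℝ := ∑ T, mm T S * f T

lemma zt_nonneg (S T : Finset ι) : 0 ≤ zt S T := by unfold zt; split_ifs <;> norm_num

lemma zt_le_one (S T : Finset ι) : zt S T ≤ 1 := by unfold zt; split_ifs <;> norm_num

lemma zt_univ (S : Finset ι) : zt S univ = 1 := if_pos (subset_univ S)

lemma zt_empty (T : Finset ι) : zt ∅ T = 1 := if_pos (empty_subset T)

lemma zt_mul (S S' T : Finset ι) : zt S T * zt S' T = zt (S ∪ S') T := by
  unfold zt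
  by_cases h : S ⊆ T <;> by_cases h' : S' ⊆ T <;> simp [h, h', union_subset_iff]

lemma mob_zt (S₀ S : Finset ι) : mob (zt S₀) S = if S = S₀ then 1 else 0 := by
  unfold mob
  by_cases h : S₀ ⊆ S
  · have h1 := prod_add (fun _ => (1 : ℝ)) (fun e => if e ∈ S₀ then 0 else -1) S
    have h2 : ∏ e ∈ S, ((1 : ℝ) + if e ∈ S₀ then 0 else -1) = if S = S₀ then 1 else 0 := by
      split_ifs with h3
      · exact prod_eq_one fun e he => by rw [if_pos (h3 ▸ he), add_zero]
      · obtain ⟨e, he, he'⟩ := not_subset.1 fun h4 : S ⊆ S₀ => h3 (h4.antisymm h)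
        exact prod_eq_zero he (by rw [if_neg he']; ring)
    rw [← h2, h1, ← sum_subset (subset_univ S.powerset) fun T _ hT => by
      rw [mm, if_neg (fun h => hT (mem_powerset.2 h)), zero_mul]]
    refine sum_congr rfl fun T hT => ?_
    rw [mm, if_pos (mem_powerset.1 hT), prod_const_one, one_mul, zt]
    split_ifs with h3
    · rw [mul_one, ← prod_const]
      exact prod_congr rfl fun e he => (if_neg fun h4 => (mem_sdiff.1 he).2 (h3 h4)).symm
    · obtain ⟨e, he, he'⟩ := not_subset.1 h3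
      rw [mul_zero]
      symm
      exact prod_eq_zero (mem_sdiff.2 ⟨h he, he'⟩) (if_pos he)
  · rw [if_neg fun h1 : S = S₀ => h h1.ge]
    refine sum_eq_zero fun T _ => ?_
    unfold mm zt
    by_cases h1 : T ⊆ S
    · rw [if_neg fun h2 : S₀ ⊆ T => h (h2.trans h1), mul_zero]
    · rw [if_neg h1, zero_mul]

lemma mob_inv (f : Finset ι → ℝ) (T₀ : Finset ι) : ∑ S, mob f S * zt S T₀ = f T₀ := by
  have h1 : (Matrix.of fun S T : Finset ι => zt S T) * (Matrix.of fun T S => mm T S) = 1 := by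
    ext S₀ S
    rw [Matrix.mul_apply, Matrix.one_apply, if_congr eq_comm rfl rfl, ← mob_zt]
    exact sum_congr rfl fun T _ => mul_comm _ _
  have h2 := mul_eq_one_comm.1 h1
  simp only [mob, sum_mul]
  rw [sum_comm]
  have h3 : ∀ T, ∑ S, mm T S * f T * zt S T₀ = if T = T₀ then f T else 0 := by
    intro T
    have h4 := congrFun (congrFun h2 T) T₀
    rw [Matrix.mul_apply, Matrix.one_apply] at h4
    simp only [Matrix.of_apply] at h4
    simp only [mul_right_comm _ (f T), ← sum_mul, h4, ite_mul, one_mul, zero_mul]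
  simp [h3]

lemma mob_sum {κ : Type} (s : Finset κ) (g : κ → Finset ι → ℝ) (S : Finset ι) :
    mob (fun T => ∑ i ∈ s, g i T) S = ∑ i ∈ s, mob (g i) S := by
  simp only [mob, mul_sum]
  exact sum_comm

lemma mob_smul (a : ℝ) (g : Finset ι → ℝ) (S : Finset ι) : mob (fun T => a * g T) S = a * mob g S := by
  simp only [mob, mul_sum]
  exact sum_congr rfl fun T _ => by ring

lemma mob_add (f g : Finset ι → ℝ) (S : Finset ι) : mob (fun T => f T + g T) S = mob f S + mob g S := by
  simp only [mob, mul_add, sum_add_distrib]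

lemma mob_of_eq {f u : Finset ι → ℝ} (h : ∀ T, f T = ∑ S, u S * zt S T) (S : Finset ι) : mob f S = u S := by
  rw [show f = fun T => ∑ S, u S * zt S T from funext h, mob_sum]
  simp [mob_smul, mob_zt]

lemma mob_mul (f g : Finset ι → ℝ) (S : Finset ι) : mob (fun T => f T * g T) S =
    ∑ S₁, ∑ S₂, mob f S₁ * mob g S₂ * if S = S₁ ∪ S₂ then 1 else 0 := by
  have h : (fun T => f T * g T) = fun T => ∑ S₁, ∑ S₂, mob f S₁ * mob g S₂ * zt (S₁ ∪ S₂) T := by
    funext T
    rw [← mob_inv f T, ← mob_inv g T, sum_mul_sum]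
    exact sum_congr rfl fun S₁ _ => sum_congr rfl fun S₂ _ => by rw [← zt_mul]; ring
  rw [h, mob_sum]
  refine sum_congr rfl fun S₁ _ => ?_
  rw [mob_sum]
  exact sum_congr rfl fun S₂ _ => by rw [mob_smul, mob_zt]

lemma mob_prod (A B : ι → ℝ) (S : Finset ι) : mob (fun T => ∏ e, if e ∈ T then A e else B e) S =
    (∏ e ∈ S, (A e - B e)) * ∏ e ∈ univ \ S, B e := by
  refine mob_of_eq (u := fun S => (∏ e ∈ S, (A e - B e)) * ∏ e ∈ univ \ S, B e) (fun T => ?_) S
  have h1 : ∏ e, (if e ∈ T then A e else B e) = ∏ e, ((if e ∈ T then A e - B e else 0) + B e) :=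
    prod_congr rfl fun e _ => by split_ifs <;> ring
  rw [h1, prod_add, powerset_univ]
  refine sum_congr rfl fun S _ => ?_
  rw [mul_right_comm]
  congr 1
  unfold zt
  split_ifs with h
  · rw [mul_one]; exact prod_congr rfl fun e he => if_pos (h he)
  · obtain ⟨e, he, he'⟩ := not_subset.1 h
    rw [mul_zero]
    exact prod_eq_zero he (if_neg he')

/-- functions with nonnegative Moebius transform -/
def Pos (f : Finset ι → ℝ) : Prop := ∀ S, 0 ≤ mob f S

lemma pos_zt (S₀ : Finset ι) : Pos (zt S₀) := fun S => by rw [mob_zt]; split_ifs <;> norm_num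

lemma Pos.smul {f : Finset ι → ℝ} (hf : Pos f) {a : ℝ} (ha : 0 ≤ a) : Pos fun T => a * f T :=
  fun S => by rw [mob_smul]; exact mul_nonneg ha (hf S)

lemma pos_const {a : ℝ} (ha : 0 ≤ a) : Pos fun _ : Finset ι => a := by
  have := (pos_zt (∅ : Finset ι)).smul ha
  simpa [zt_empty] using this

lemma Pos.add {f g : Finset ι → ℝ} (hf : Pos f) (hg : Pos g) : Pos fun T => f T + g T :=
  fun S => by rw [mob_add]; exact add_nonneg (hf S) (hg S)

lemma pos_sum {κ : Type} (s : Finset κ) {g : κ → Finset ι → ℝ} (h : ∀ i ∈ s, Pos (g i)) :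
    Pos fun T => ∑ i ∈ s, g i T := fun S => by rw [mob_sum]; exact sum_nonneg fun i hi => h i hi S

lemma Pos.mul {f g : Finset ι → ℝ} (hf : Pos f) (hg : Pos g) : Pos fun T => f T * g T := fun S => by
  rw [mob_mul]
  exact sum_nonneg fun S₁ _ => sum_nonneg fun S₂ _ => mul_nonneg (mul_nonneg (hf S₁) (hg S₂))
    (by split_ifs <;> norm_num)

lemma Pos.pow {f : Finset ι → ℝ} (hf : Pos f) (k : ℕ) : Pos fun T => f T ^ k := by
  induction k with
  | zero => simpa using pos_const zero_le_one
  | succ k ih => simpa [pow_succ] using ih.mul hf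

lemma pos_lim {f : ℕ → Finset ι → ℝ} {g : Finset ι → ℝ} (hf : ∀ k, Pos (f k))
    (h : ∀ T, Tendsto (fun k => f k T) atTop (𝓝 (g T))) : Pos g := fun S =>
  ge_of_tendsto' (tendsto_finsetSum _ fun T _ => (h T).const_mul (mm T S)) fun k => hf k S

lemma Pos.exp {f : Finset ι → ℝ} (hf : Pos f) : Pos fun T => Real.exp (f T) := by
  refine pos_lim (f := fun k T => (1 + f T / (k : ℝ)) ^ k) (fun k => ?_) fun T => Real.tendsto_one_add_div_pow_exp _
  refine ((pos_const zero_le_one).add ?_).pow k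
  simpa [div_eq_inv_mul] using hf.smul (inv_nonneg.2 (Nat.cast_nonneg k))

open Classical in
/-- total Moebius mass on a family of sets -/
noncomputable def LamN (N : Finset ι → Prop) (f : Finset ι → ℝ) : ℝ := ∑ S, if N S then mob f S else 0

variable {N : Finset ι → Prop}

lemma LamN_sum {κ : Type} (s : Finset κ) (g : κ → Finset ι → ℝ) :
    LamN N (fun T => ∑ i ∈ s, g i T) = ∑ i ∈ s, LamN N (g i) := by
  unfold LamN
  rw [sum_comm]
  refine sum_congr rfl fun S _ => ?_
  split_ifs
  · exact mob_sum _ _ _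
  · simp

lemma LamN_smul (a : ℝ) (g : Finset ι → ℝ) : LamN N (fun T => a * g T) = a * LamN N g := by
  simp only [LamN, mob_smul, mul_sum, mul_ite, mul_zero]

lemma LamN_add (f g : Finset ι → ℝ) : LamN N (fun T => f T + g T) = LamN N f + LamN N g := by
  simp only [LamN, mob_add, ← sum_add_distrib]
  exact sum_congr rfl fun S _ => by split_ifs <;> simp

open Classical in
lemma LamN_zt (S₀ : Finset ι) : LamN N (zt S₀) = if N S₀ then 1 else 0 := by
  unfold LamN
  rw [sum_eq_single S₀ (fun S _ h => by simp [mob_zt, h]) (by simp)]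
  simp [mob_zt]

lemma LamN_compl (f : Finset ι → ℝ) : LamN N f + LamN (fun S => ¬ N S) f = f univ := by
  rw [← mob_inv f univ, LamN, LamN, ← sum_add_distrib]
  refine sum_congr rfl fun S _ => ?_
  by_cases h : N S <;> simp [h, zt_univ]

lemma Pos.LamN_nonneg {f : Finset ι → ℝ} (hf : Pos f) : 0 ≤ LamN N f :=
  sum_nonneg fun S _ => by
    split_ifs
    · exact hf S
    · exact le_rfl

lemma Pos.le_LamN (hN : ∀ S T, S ⊆ T → N T → N S) {f : Finset ι → ℝ} (hf : Pos f) {T : Finset ι} (hT : N T) :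
    f T ≤ LamN N f := by
  rw [← mob_inv f T]
  refine sum_le_sum fun S _ => ?_
  unfold zt
  by_cases h : S ⊆ T
  · rw [if_pos h, if_pos (hN S T h hT), mul_one]
  · rw [if_neg h, mul_zero]
    split_ifs
    · exact hf S
    · exact le_rfl

lemma LamN_mul_le (hN : ∀ S T, S ⊆ T → N T → N S) {f g : Finset ι → ℝ} (hf : Pos f) (hg : Pos g) :
    LamN N (fun T => f T * g T) ≤ LamN N f * g univ := by
  classical
  have h : (fun T => f T * g T) = fun T => ∑ S₁, ∑ S₂, mob f S₁ * mob g S₂ * zt (S₁ ∪ S₂) T := by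
    funext T
    rw [← mob_inv f T, ← mob_inv g T, sum_mul_sum]
    exact sum_congr rfl fun S₁ _ => sum_congr rfl fun S₂ _ => by rw [← zt_mul]; ring
  rw [h, LamN_sum, ← mob_inv g univ, LamN, sum_mul_sum]
  refine sum_le_sum fun S₁ _ => ?_
  rw [LamN_sum]
  refine sum_le_sum fun S₂ _ => ?_
  rw [LamN_smul, LamN_zt, zt_univ, mul_one]
  have h1 := mul_nonneg (hf S₁) (hg S₂)
  by_cases h2 : N (S₁ ∪ S₂)
  · rw [if_pos h2, if_pos (hN _ _ subset_union_left h2), mul_one]
  · rw [if_neg h2, mul_zero]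
    split_ifs
    · exact h1
    · rw [zero_mul]

lemma LamN_eq (hN : ∀ S T, S ⊆ T → N T → N S) : ∃ (s : Finset (Finset ι)) (c : Finset ι → ℝ),
    (∀ T ∈ s, N T) ∧ ∀ f : Finset ι → ℝ, LamN N f = ∑ T ∈ s, c T * f T := by
  classical
  refine ⟨univ.filter N, fun T => ∑ S, if N S then mm T S else 0, fun T hT => (mem_filter.1 hT).2, fun f => ?_⟩
  have h1 : LamN N f = ∑ T, (∑ S, if N S then mm T S else 0) * f T := by
    simp only [LamN, mob, sum_mul]
    rw [sum_comm]
    refine sum_congr rfl fun S _ => ?_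
    split_ifs <;> simp
  rw [h1, ← sum_subset (filter_subset N univ)]
  intro T _ hT
  rw [sum_eq_zero, zero_mul]
  intro S _
  split_ifs with h
  · exact if_neg fun h2 => hT (mem_filter.2 ⟨mem_univ _, hN _ _ h2 h⟩)
  · rfl

end Pool.Agent.H548Z.Cov
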