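import Mathlib
import Pool.Agent.H548Z.CovMoeb
import Pool.Agent.H548Z.CovDyn

set_option autoImplicit false
set_option linter.unusedSectionVars false

/-!
# Simple random walk: the cover time and the local time at a root
-/

open Finset Filter Topology

namespace Pool.Agent.H548Z.Cov

open Pool.Agent.H548Z.CovDefs

variable {V : Type} [Fintype V] [DecidableEq V] {G : SimpleGraph V} [DecidableRel G.Adj]

lemma step_nonneg (x y : V) : 0 ≤ step G x y := by unfold step; split_ifs <;> positivity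

lemma deg_step (hdeg : ∀ x, 0 < G.degree x) (x y : V) :
    (G.degree x : ℝ) * step G x y = if G.Adj x y then 1 else 0 := by
  have : (G.degree x : ℝ) ≠ 0 := by exact_mod_cast (hdeg x).ne'
  unfold step
  split_ifs
  · field_simp
  · simp

lemma sum_adj (x : V) : ∑ y, (if G.Adj x y then (1 : ℝ) else 0) = G.degree x := by
  rw [sum_boole, ← SimpleGraph.card_neighborFinset_eq_degree, SimpleGraph.neighborFinset_eq_filter]

lemma step_row (hdeg : ∀ x, 0 < G.degree x) (x : V) : ∑ y, step G x y = 1 := by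
  have : (G.degree x : ℝ) ≠ 0 := by exact_mod_cast (hdeg x).ne'
  refine mul_left_cancel₀ this ?_
  simp only [mul_sum, deg_step hdeg, sum_adj, mul_one]

lemma En_eq (f : V → ℝ) : En G f = ∑ x, (G.degree x : ℝ) * f x ^ 2 -
    ∑ x, ∑ y, if G.Adj x y then f x * f y else 0 := by
  have h1 : ∑ x, (G.degree x : ℝ) * f x ^ 2 = ∑ x, ∑ y, if G.Adj x y then f x ^ 2 else 0 := by
    simp only [← sum_adj, sum_mul, ite_mul, one_mul, zero_mul]
  have h2 : ∑ x, ∑ y, (if G.Adj x y then f x ^ 2 else 0) = ∑ x, ∑ y, if G.Adj x y then f y ^ 2 else 0 := by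
    rw [sum_comm]
    simp only [G.adj_comm]
  have h3 : ∑ x, ∑ y, (if G.Adj x y then (f x - f y) ^ 2 else 0) =
      ∑ x, ∑ y, (if G.Adj x y then f x ^ 2 else 0) + ∑ x, ∑ y, (if G.Adj x y then f y ^ 2 else 0) -
        2 * ∑ x, ∑ y, if G.Adj x y then f x * f y else 0 := by
    simp only [mul_sum, ← sum_add_distrib, ← sum_sub_distrib]
    exact sum_congr rfl fun x _ => sum_congr rfl fun y _ => by split_ifs <;> ring
  rw [En, h3, h1, ← h2]
  ring

lemma En_zero (hc : G.Connected) {f : V → ℝ} (h : En G f ≤ 0) (x y : V) : f x = f y := by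
  have h0 : ∀ x y, 0 ≤ (if G.Adj x y then (f x - f y) ^ 2 else 0) := fun x y => by split_ifs <;> positivity
  have h1 : ∑ x, ∑ y, (if G.Adj x y then (f x - f y) ^ 2 else 0) = 0 := by
    have := En_nonneg (G := G) f
    unfold En at h this
    linarith
  have h2 : ∀ x y, G.Adj x y → f x = f y := by
    intro x y hxy
    have h3 := (sum_eq_zero_iff_of_nonneg fun y _ => h0 x y).1
      ((sum_eq_zero_iff_of_nonneg fun x _ => sum_nonneg fun y _ => h0 x y).1 h1 x (mem_univ _)) y (mem_univ _)
    rw [if_pos hxy] at h3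
    exact sub_eq_zero.1 (pow_eq_zero_iff two_ne_zero |>.1 h3)
  obtain ⟨w⟩ := hc.preconnected x y
  induction w with
  | nil => rfl
  | cons h _ ih => exact (h2 _ _ h).trans ih

variable (G) in
/-- one step of the walk restricted to the edges in `T` -/
noncomputable def kT (T : Finset (Sym2 V)) (f : V → ℝ) (x : V) : ℝ := ∑ y, step G x y * (zt {s(x, y)} T * f y)

lemma kT_mono {T : Finset (Sym2 V)} {f g : V → ℝ} (h : ∀ y, f y ≤ g y) (x : V) : kT G T f x ≤ kT G T g x :=
  sum_le_sum fun y _ => mul_le_mul_of_nonneg_left (mul_le_mul_of_nonneg_left (h y) (zt_nonneg _ _)) (step_nonneg _ _)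

lemma kT_mul (T : Finset (Sym2 V)) (f : V → ℝ) (a : ℝ) (x : V) : kT G T (fun y => f y * a) x = kT G T f x * a := by
  simp only [kT, sum_mul, mul_assoc]

lemma kT_tendsto {T : Finset (Sym2 V)} {f : ℕ → V → ℝ} {g : V → ℝ}
    (h : ∀ y, Tendsto (fun n => f n y) atTop (𝓝 (g y))) (x : V) :
    Tendsto (fun n => kT G T (f n) x) atTop (𝓝 (kT G T g x)) :=
  tendsto_finsetSum _ fun y _ => ((h y).const_mul _).const_mul _

lemma kT_pos {f : Finset (Sym2 V) → V → ℝ} (h : ∀ y, Pos fun T => f T y) (x : V) : Pos fun T => kT G T (f T) x :=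
  pos_sum _ fun y _ => ((pos_zt _).mul (h y)).smul (step_nonneg _ _)

lemma unique (hc : G.Connected) (hdeg : ∀ x, 0 < G.degree x) {v₀ : V} {T : Finset (Sym2 V)} {d : V → ℝ}
    (h0 : d v₀ = 0) (h : ∀ x, x ≠ v₀ → d x = kT G T d x) (x : V) : d x = 0 := by
  have h1 : En G (fun x => |d x|) ≤ 0 := by
    rw [En_eq, sub_nonpos]
    refine sum_le_sum fun x _ => ?_
    by_cases hx : x = v₀
    · simp [hx, h0]
    · rw [sq_abs, sq]
      nth_rewrite 2 [h x hx]
      rw [mul_left_comm, kT, mul_sum, mul_sum]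
      refine sum_le_sum fun y _ => ?_
      rw [← mul_assoc (G.degree x : ℝ), deg_step hdeg]
      split_ifs
      · rw [one_mul, ← abs_mul, mul_left_comm]
        have h2 := zt_nonneg {s(x, y)} T
        have h3 := zt_le_one {s(x, y)} T
        nlinarith [le_abs_self (d x * d y), abs_nonneg (d x * d y)]
      · simp
  have h2 := En_zero hc h1 x v₀
  simpa [h0] using h2

variable (G) in
/-- probability to reach the root within `n` steps using only edges in `T` -/
noncomputable def hN (v₀ : V) (T : Finset (Sym2 V)) : ℕ → V → ℝ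
  | 0, x => if x = v₀ then 1 else 0
  | n + 1, x => if x = v₀ then 1 else kT G T (hN v₀ T n) x

variable (G) in
/-- probability to reach the root using only edges in `T` -/
noncomputable def hh (v₀ : V) (T : Finset (Sym2 V)) (x : V) : ℝ := ⨆ n, hN G v₀ T n x

variable (G) in
/-- expected number of visits to the root before time `n` using only edges in `T` -/
noncomputable def gN (v₀ : V) (T : Finset (Sym2 V)) : ℕ → V → ℝ
  | 0, _ => 0
  | n + 1, x => (if x = v₀ then 1 else 0) + kT G T (gN v₀ T n) x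

variable {v₀ : V}

lemma kT_nonneg {T : Finset (Sym2 V)} {f : V → ℝ} (h : ∀ y, 0 ≤ f y) (x : V) : 0 ≤ kT G T f x :=
  sum_nonneg fun y _ => mul_nonneg (step_nonneg _ _) (mul_nonneg (zt_nonneg _ _) (h y))

lemma hN_nonneg (T : Finset (Sym2 V)) : ∀ n x, 0 ≤ hN G v₀ T n x
  | 0, x => by unfold hN; split_ifs <;> norm_num
  | n + 1, x => by
    unfold hN
    split_ifs
    · norm_num
    · exact kT_nonneg (hN_nonneg T n) x

lemma hN_tendsto (hdeg : ∀ x, 0 < G.degree x) (T : Finset (Sym2 V)) (x : V) :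
    Tendsto (fun n => hN G v₀ T n x) atTop (𝓝 (hh G v₀ T x)) := by
  have h1 : ∀ n x, hN G v₀ T n x ≤ 1 := by
    intro n
    induction n with
    | zero => intro x; unfold hN; split_ifs <;> norm_num
    | succ n ih =>
      intro x
      unfold hN
      split_ifs
      · exact le_rfl
      · rw [← step_row hdeg x]
        exact sum_le_sum fun y _ => mul_le_of_le_one_right (step_nonneg _ _)
          (mul_le_one₀ (zt_le_one _ _) (hN_nonneg _ _ _) (ih y))
  have h2 : ∀ n x, hN G v₀ T n x ≤ hN G v₀ T (n + 1) x := by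
    intro n
    induction n with
    | zero =>
      intro x
      rw [hN, hN]
      split_ifs
      · exact le_rfl
      · exact kT_nonneg (hN_nonneg T 0) x
    | succ n ih =>
      intro x
      rw [hN, hN]
      split_ifs
      · exact le_rfl
      · exact kT_mono ih x
  exact tendsto_atTop_ciSup (monotone_nat_of_le_succ fun n => h2 n x) ⟨1, by rintro _ ⟨n, rfl⟩; exact h1 n x⟩

lemma hh_eq (hdeg : ∀ x, 0 < G.degree x) (T : Finset (Sym2 V)) (x : V) :
    hh G v₀ T x = if x = v₀ then 1 else kT G T (hh G v₀ T) x := by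
  refine tendsto_nhds_unique ((tendsto_add_atTop_iff_nat 1).2 (hN_tendsto hdeg T x)) ?_
  simp only [hN]
  split_ifs
  · exact tendsto_const_nhds
  · exact kT_tendsto (hN_tendsto hdeg T) x

lemma hh_pos (hdeg : ∀ x, 0 < G.degree x) (x : V) : Pos fun T => hh G v₀ T x := by
  refine pos_lim (f := fun n T => hN G v₀ T n x) (fun n => ?_) fun T => hN_tendsto hdeg T x
  induction n generalizing x with
  | zero => unfold hN; exact pos_const (by split_ifs <;> norm_num)
  | succ n ih =>
    unfold hN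
    split_ifs
    · exact pos_const zero_le_one
    · exact kT_pos ih x

lemma hh_nonneg (hdeg : ∀ x, 0 < G.degree x) (T : Finset (Sym2 V)) (x : V) : 0 ≤ hh G v₀ T x :=
  ge_of_tendsto' (hN_tendsto hdeg T x) fun n => hN_nonneg T n x

lemma gN_pos : ∀ (n : ℕ) (x : V), Pos fun T => gN G v₀ T n x
  | 0, _ => pos_const le_rfl
  | n + 1, x => (pos_const (by split_ifs <;> norm_num)).add (kT_pos (gN_pos n) x)

variable (G) in
/-- edge sets that connect every vertex to the root -/
def Cn (v₀ : V) (S : Finset (Sym2 V)) : Prop :=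
  ∀ σ : V → Bool, σ v₀ = true → (∀ x y, G.Adj x y → s(x, y) ∈ S → σ x = σ y) → ∀ v, σ v = true

lemma Cn_down (S T : Finset (Sym2 V)) (h : S ⊆ T) (hT : ¬ Cn G v₀ T) : ¬ Cn G v₀ S :=
  fun hS => hT fun σ h0 h1 => hS σ h0 fun x y hxy he => h1 x y hxy (h he)

variable (G) in
/-- expected number of visits to the root before time `n` and before `A` is covered -/
noncomputable def Lv (v₀ : V) : ℕ → V → Finset V → ℝ
  | 0, _, _ => 0
  | n + 1, x, A => if A.erase x = ∅ then 0 else
      (if x = v₀ then 1 else 0) + ∑ y, step G x y * Lv v₀ n y (A.erase x)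

lemma Lam_le_Lv : ∀ (n : ℕ) (x : V) (A : Finset V) (S₀ : Finset (Sym2 V)),
    (∀ σ : V → Bool, σ v₀ = true → (∀ x y, G.Adj x y → s(x, y) ∈ S₀ → σ x = σ y) →
      σ x = true ∧ ∀ v, v ∉ A → σ v = true) →
    LamN (fun S => ¬ Cn G v₀ S) (fun T => zt S₀ T * gN G v₀ T n x) ≤ Lv G v₀ n x A := by
  intro n
  induction n with
  | zero =>
    intro x A S₀ _
    simp [gN, Lv, LamN, mob]
  | succ n ih =>
    intro x A S₀ h
    rw [Lv]
    split_ifs with h1 h2
    · refine (LamN_mul_le Cn_down (pos_zt S₀) (gN_pos _ x)).trans (le_of_eq ?_)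
      rw [LamN_zt, if_neg, zero_mul]
      refine not_not.2 fun σ h0 h2 v => ?_
      by_cases hv : v = x
      · rw [hv]; exact (h σ h0 h2).1
      · exact (h σ h0 h2).2 v fun hA => notMem_empty v (h1 ▸ mem_erase.2 ⟨hv, hA⟩)
    all_goals
      have e : (fun T => zt S₀ T * gN G v₀ T (n + 1) x) = fun T => (if x = v₀ then 1 else 0) * zt S₀ T +
          ∑ y, step G x y * (zt (S₀ ∪ {s(x, y)}) T * gN G v₀ T n y) := by
        funext T
        simp only [gN, kT, ← zt_mul, mul_add, mul_sum]
        congr 1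
        · ring
        · exact sum_congr rfl fun y _ => by ring
      rw [e, LamN_add, LamN_sum, LamN_smul, LamN_zt]
      refine add_le_add (by split_ifs <;> simp_all) (sum_le_sum fun y _ => ?_)
      rw [LamN_smul]
      by_cases hxy : G.Adj x y
      · refine mul_le_mul_of_nonneg_left (ih y _ _ fun σ h0 h3 => ?_) (step_nonneg _ _)
        have h4 := h σ h0 fun a b hab he => h3 a b hab (mem_union_left _ he)
        refine ⟨(h3 x y hxy (mem_union_right _ (mem_singleton_self _))) ▸ h4.1, fun v hv => ?_⟩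
        by_cases hvx : v = x
        · rw [hvx]; exact h4.1
        · exact h4.2 v fun hA => hv (mem_erase.2 ⟨hvx, hA⟩)
      · simp [step, hxy]

lemma Lv_le (hdeg : ∀ x, 0 < G.degree x) {B : ℝ}
    (hB : ∀ x k, ∑ n ∈ range k, nc (Matrix.of (step G)) id n x univ ≤ B) (n : ℕ) :
    (∑ x, (G.degree x : ℝ)) * Lv G v₀ n v₀ univ ≤ 2 * B * G.degree v₀ := by
  set P := Matrix.of (step G) with hP
  have hP0 : ∀ x y, 0 ≤ P x y := step_nonneg
  have hd : (0 : ℝ) < G.degree v₀ := by exact_mod_cast hdeg v₀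
  have hB' : ∀ x k, ∑ n ∈ range k, nc P id n x {v₀} ≤ B := fun x k =>
    (sum_le_sum fun n _ => nc_mono hP0 _ _ (subset_univ _)).trans (hB x k)
  have hs : ∀ x, Summable fun n => nc P id n x {v₀} := fun x =>
    summable_of_sum_range_le (fun n => nc_nonneg hP0 _ _ _) (hB' x)
  set H : V → ℝ := fun x => ∑' n, nc P id n x {v₀} with hH
  have hHB : ∀ x, H x ≤ B := fun x => (hs x).tsum_le_of_sum_range_le (hB' x)
  have hH0 : H v₀ = 0 := by
    simp only [hH]
    rw [tsum_congr fun n => nc_eq_zero (by simp) n, tsum_zero]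
  have hH1 : ∀ x, x ≠ v₀ → H x = 1 + ∑ y, step G x y * H y := by
    intro x hx
    have h1 : ({v₀} : Finset V).erase (id x) = {v₀} := erase_eq_of_notMem (by simpa using hx)
    simp only [hH]
    rw [(hs x).tsum_eq_zero_add, nc_zero, h1, if_neg (singleton_ne_empty _)]
    simp only [nc_succ, h1]
    rw [Summable.tsum_finsetSum fun y _ => (hs y).mul_left _]
    simp only [tsum_mul_left]
    rfl
  clear hH
  clear_value H
  set c := (∑ x, (G.degree x : ℝ)) / G.degree v₀ with hc
  have hc0 : 0 ≤ c := div_nonneg (sum_nonneg fun x _ => Nat.cast_nonneg _) hd.le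
  have hH2 : ∀ x, H x - ∑ y, step G x y * H y = 1 - c * if x = v₀ then 1 else 0 := by
    have h1 : ∑ x, (G.degree x : ℝ) * (H x - ∑ y, step G x y * H y) = 0 := by
      simp only [mul_sub, sum_sub_distrib, mul_sum, ← mul_assoc, deg_step hdeg]
      rw [sum_comm, sub_eq_zero]
      refine sum_congr rfl fun x _ => ?_
      simp only [← sum_mul, G.adj_comm _ x, sum_adj]
    intro x
    by_cases hx : x = v₀
    · have h2 : ∑ x ∈ univ.erase v₀, (G.degree x : ℝ) * (H x - ∑ y, step G x y * H y) =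
          ∑ x ∈ univ.erase v₀, (G.degree x : ℝ) := sum_congr rfl fun x hx => by
        rw [hH1 x (ne_of_mem_erase hx), add_sub_cancel_right, mul_one]
      have h3 := add_sum_erase univ (fun x => (G.degree x : ℝ)) (mem_univ v₀)
      rw [← add_sum_erase _ _ (mem_univ v₀), h2] at h1
      rw [hx, if_pos rfl, mul_one, hc]
      field_simp
      linarith
    · rw [if_neg hx, hH1 x hx]; ring
  have key : ∀ n x A, c * Lv G v₀ n x A ≤ ∑ i ∈ range n, nc P id i x A + B - H x := by
    intro n
    induction n with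
    | zero => intro x A; simp [Lv, hHB]
    | succ n ih =>
      intro x A
      rw [Lv]
      by_cases h1 : A.erase x = ∅
      · have := sum_nonneg fun i (_ : i ∈ range (n + 1)) => nc_nonneg (π := id) hP0 i x A
        rw [if_pos h1]
        linarith [hHB x]
      · rw [if_neg h1, sum_range_succ', nc_zero, id, if_neg h1]
        simp only [nc_succ, id]
        rw [sum_comm, mul_add, mul_sum]
        have h2 : ∑ y, c * (step G x y * Lv G v₀ n y (A.erase x)) ≤
            ∑ y, step G x y * (∑ i ∈ range n, nc P id i y (A.erase x) + B - H y) :=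
          sum_le_sum fun y _ => by
            rw [mul_left_comm]; exact mul_le_mul_of_nonneg_left (ih _ _) (step_nonneg _ _)
        simp only [mul_sub, mul_add, sum_sub_distrib, sum_add_distrib, ← sum_mul, step_row hdeg, mul_sum] at h2
        have h3 := hH2 x
        have h4 : ∑ y, ∑ i ∈ range n, P x y * nc P id i y (A.erase x) =
            ∑ y, ∑ i ∈ range n, step G x y * nc P id i y (A.erase x) := rfl
        linarith
  have h1 := key n v₀ univ
  have h2 := hB v₀ n
  rw [hH0, hc, div_mul_eq_mul_div, div_le_iff₀ hd] at h1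
  nlinarith

theorem srw_lower (hc : G.Connected) (hdeg : ∀ x, 0 < G.degree x) {B : ℝ}
    (hB : ∀ x k, ∑ n ∈ range k, nc (Matrix.of (step G)) id n x univ ≤ B) {l₀ c₀ : ℝ} (hl : 0 < l₀)
    (h : ∀ l ∈ Set.Ioo 0 l₀, c₀ ≤ LamN (fun S => ¬ Cn G v₀ S)
      fun T => Real.exp (-(l * (1 - kT G T (hh G v₀ T) v₀)))) :
    (∑ x, (G.degree x : ℝ)) * (c₀ * l₀) ≤ 2 * B * G.degree v₀ := by
  classical
  have hm : 0 < ∑ x, (G.degree x : ℝ) := sum_pos (fun x _ => by exact_mod_cast hdeg x) ⟨v₀, mem_univ _⟩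
  set K := 2 * B * G.degree v₀ / ∑ x, (G.degree x : ℝ) with hK
  set N : Finset (Sym2 V) → Prop := fun S => ¬ Cn G v₀ S with hN
  have h1 : ∀ n, LamN N (fun T => gN G v₀ T n v₀) ≤ K := by
    intro n
    have h2 := Lam_le_Lv (G := G) (v₀ := v₀) n v₀ univ ∅ fun σ h0 _ => ⟨h0, fun v hv => absurd (mem_univ v) hv⟩
    simp only [zt_empty, one_mul] at h2
    refine h2.trans ?_
    rw [hK, le_div_iff₀ hm, mul_comm]
    exact Lv_le hdeg hB n
  have h2 : ∀ T, N T → ∀ n x, gN G v₀ T n x ≤ hh G v₀ T x * K := by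
    intro T hT n
    have hv : ∀ n, gN G v₀ T n v₀ ≤ K := fun n => ((gN_pos n v₀).le_LamN Cn_down hT).trans (h1 n)
    induction n with
    | zero => intro x; exact mul_nonneg (hh_nonneg hdeg T x) (hv 0)
    | succ n ih =>
      intro x
      rw [hh_eq hdeg]
      split_ifs with hx
      · rw [hx, one_mul]; exact hv _
      · rw [gN, if_neg hx, zero_add, ← kT_mul]
        exact kT_mono ih x
  set g : Finset (Sym2 V) → V → ℝ := fun T x => ⨆ n, gN G v₀ T n x with hg
  have h3 : ∀ T, N T → ∀ x, Tendsto (fun n => gN G v₀ T n x) atTop (𝓝 (g T x)) := by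
    intro T hT x
    have h4 : ∀ n x, gN G v₀ T n x ≤ gN G v₀ T (n + 1) x := by
      intro n
      induction n with
      | zero =>
        intro x
        exact add_nonneg (by split_ifs <;> norm_num) (kT_nonneg (fun _ => le_rfl) x)
      | succ n ih => intro x; exact add_le_add le_rfl (kT_mono ih x)
    exact tendsto_atTop_ciSup (monotone_nat_of_le_succ fun n => h4 n x)
      ⟨_, by rintro _ ⟨n, rfl⟩; exact h2 T hT n x⟩
  have h4 : ∀ T, N T → g T v₀ * (1 - kT G T (hh G v₀ T) v₀) = 1 := by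
    intro T hT
    have h5 : ∀ x, g T x = (if x = v₀ then 1 else 0) + kT G T (g T) x := fun x =>
      tendsto_nhds_unique ((tendsto_add_atTop_iff_nat 1).2 (h3 T hT x)) ((kT_tendsto (h3 T hT) x).const_add _)
    have h6 := unique hc hdeg (v₀ := v₀) (T := T) (d := fun x => g T x - hh G v₀ T x * g T v₀)
      (by rw [hh_eq hdeg, if_pos rfl]; ring) (fun x hx => by
        rw [h5 x, hh_eq hdeg, if_neg hx, if_neg hx, zero_add, ← kT_mul]
        simp only [kT, mul_sub, sum_sub_distrib])
    have h7 : kT G T (g T) v₀ = kT G T (hh G v₀ T) v₀ * g T v₀ := by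
      rw [← kT_mul]
      congr 1
      funext x
      exact sub_eq_zero.1 (h6 x)
    have h8 := h5 v₀
    rw [if_pos rfl, h7] at h8
    linarith
  clear hg
  clear_value g
  obtain ⟨sN, c, hsN, hc'⟩ := LamN_eq (N := N) Cn_down
  set κ : Finset (Sym2 V) → ℝ := fun T => 1 - kT G T (hh G v₀ T) v₀ with hκ
  set ψ : ℝ → ℝ := fun l => ∑ T ∈ sN, c T * (g T v₀ * Real.exp (-(l * κ T))) with hψ
  have h5 : ∀ l, HasDerivAt ψ (-LamN N fun T => Real.exp (-(l * κ T))) l := by
    intro l
    rw [hc', ← sum_neg_distrib]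
    refine HasDerivAt.fun_sum fun T hT => ?_
    have h6 := ((((hasDerivAt_id l).mul_const (κ T)).neg.exp).const_mul (g T v₀)).const_mul (c T)
    refine h6.congr_deriv ?_
    have h7 : g T v₀ * κ T = 1 := h4 T (hsN T hT)
    simp only [id, Pi.neg_apply]
    linear_combination (-(c T * Real.exp (-(l * κ T)))) * h7
  have h6 : ∀ l, Tendsto (fun n => LamN N fun T => gN G v₀ T n v₀ * Real.exp (-(l * κ T))) atTop (𝓝 (ψ l)) := by
    intro l
    simp only [hc']
    exact tendsto_finsetSum _ fun T hT => ((h3 T (hsN T hT) v₀).mul_const _).const_mul _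
  have h7 : ψ 0 ≤ K := le_of_tendsto' (h6 0) fun n => by simpa using h1 n
  have h8 : 0 ≤ ψ l₀ := ge_of_tendsto' (h6 l₀) fun n => by
    refine Pos.LamN_nonneg ((gN_pos n v₀).mul ?_)
    have h9 := (((kT_pos (G := G) (hh_pos (v₀ := v₀) hdeg) v₀).smul hl.le).exp).smul (Real.exp_pos (-l₀)).le
    have h10 : (fun T => Real.exp (-(l₀ * κ T))) =
        fun T => Real.exp (-l₀) * Real.exp (l₀ * kT G T (hh G v₀ T) v₀) := by
      funext T
      rw [← Real.exp_add, hκ]
      congr 1
      ring
    rw [h10]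
    exact h9
  obtain ⟨l, hl', h9⟩ := exists_hasDerivAt_eq_slope ψ _ hl (fun l _ => (h5 l).continuousAt.continuousWithinAt)
    fun l _ => h5 l
  have h10 := h l hl'
  rw [sub_zero, eq_div_iff hl.ne'] at h9
  have h11 : c₀ * l₀ ≤ K := by
    have := mul_le_mul_of_nonneg_right h10 hl.le
    linarith
  rwa [hK, le_div_iff₀ hm, mul_comm] at h11

end Pool.Agent.H548Z.Cov
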