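import Mathlib
import Pool.Agent.H548Z.CovSRW

set_option autoImplicit false
set_option linter.unusedSectionVars false

/-!
# The trace of the excursions from the root lies in a sign cluster of the free field
-/

open Finset MeasureTheory

namespace Pool.Agent.H548Z.Cov

open Pool.Agent.H548Z.CovDefs

section Ising

variable {ι Sg : Type} [Fintype ι] [DecidableEq ι] [Fintype Sg] [DecidableEq Sg] [Group Sg]
  {χ : Sg → ι → ℝ} {β : ι → ℝ}

lemma sum_char_nonneg (_hχ : ∀ σ e, χ σ e = 1 ∨ χ σ e = -1) (hm : ∀ σ τ e, χ (σ * τ) e = χ σ e * χ τ e)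
    (O : Finset ι) : 0 ≤ ∑ σ, ∏ e ∈ O, χ σ e := by
  by_cases h : ∀ σ, 0 ≤ ∏ e ∈ O, χ σ e
  · exact sum_nonneg fun σ _ => h σ
  · push Not at h
    obtain ⟨τ, hτ⟩ := h
    have h1 := Equiv.sum_comp (Equiv.mulRight τ) fun σ => ∏ e ∈ O, χ σ e
    simp only [Equiv.coe_mulRight, hm, prod_mul_distrib, ← sum_mul] at h1
    by_contra h2
    push Not at h2
    nlinarith

lemma pos_ising (hχ : ∀ σ e, χ σ e = 1 ∨ χ σ e = -1) (hm : ∀ σ τ e, χ (σ * τ) e = χ σ e * χ τ e)
    (hβ : ∀ e, 0 ≤ β e) : Pos fun T : Finset ι => ∑ σ, ∏ e, if e ∈ T then Real.exp (χ σ e * β e) else 1 := by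
  intro S
  rw [mob_sum]
  have h1 : ∀ σ e, Real.exp (χ σ e * β e) - 1 = χ σ e * Real.sinh (β e) + (Real.cosh (β e) - 1) := by
    intro σ e
    rcases hχ σ e with h | h <;> rw [h]
    · rw [one_mul, one_mul, ← Real.sinh_add_cosh]; ring
    · rw [neg_one_mul, ← Real.cosh_sub_sinh]; ring
  simp only [mob_prod (fun e => Real.exp (χ _ e * β e)) fun _ => 1, prod_const_one, mul_one, h1]
  simp only [prod_add (fun e => χ _ e * Real.sinh (β e))]
  rw [sum_comm]
  refine sum_nonneg fun O _ => ?_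
  simp only [prod_mul_distrib, mul_assoc, ← sum_mul]
  exact mul_nonneg (sum_char_nonneg hχ hm O) (mul_nonneg (prod_nonneg fun e _ => Real.sinh_nonneg_iff.2 (hβ e))
    (prod_nonneg fun e _ => sub_nonneg.2 (Real.one_le_cosh _)))

lemma ising_le (hχ : ∀ σ e, χ σ e = 1 ∨ χ σ e = -1) (hm : ∀ σ τ e, χ (σ * τ) e = χ σ e * χ τ e)
    (h1 : ∀ e, χ 1 e = 1) (hβ : ∀ e, 0 ≤ β e) {N : Finset ι → Prop} (hN : ∀ S T, S ⊆ T → N T → N S)
    (hC : ∀ S, ¬ N S → ∀ σ, σ ≠ 1 → ∃ e ∈ S, χ σ e = -1) :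
    LamN (fun S => ¬ N S) (fun T : Finset ι => ∑ σ, ∏ e, if e ∈ T then Real.exp (χ σ e * β e) else 1) ≤
      ∏ e, Real.exp (β e) := by
  classical
  set f : Finset ι → ℝ := fun T => ∑ σ, ∏ e, if e ∈ T then Real.exp (χ σ e * β e) else 1 with hf
  set b : Finset ι → ℝ := fun T => ∏ e, if e ∈ T then 1 else Real.exp (-β e) with hb
  have hbp : Pos b := fun S => by
    rw [hb, mob_prod (fun _ => 1) fun e => Real.exp (-β e)]
    exact mul_nonneg (prod_nonneg fun e _ => sub_nonneg.2 (Real.exp_le_one_iff.2 (by linarith [hβ e])))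
      (prod_nonneg fun e _ => (Real.exp_pos _).le)
  have hb1 : b univ = 1 := by simp [hb]
  have h2 := LamN_mul_le hN (pos_ising hχ hm hβ) hbp
  have h3 := LamN_compl (N := N) f
  have h4 := LamN_compl (N := N) fun T => f T * b T
  rw [hb1, mul_one] at h2 h4
  have h5 : (fun T => f T * b T) =
      fun T => ∑ σ, ∏ e, if e ∈ T then Real.exp (χ σ e * β e) else Real.exp (-β e) := by
    funext T
    simp only [hf, hb, sum_mul, ← prod_mul_distrib]
    exact sum_congr rfl fun σ _ => prod_congr rfl fun e _ => by split_ifs <;> simp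
  have h6 : LamN (fun S => ¬ N S) (fun T => f T * b T) ≤ ∏ e, Real.exp (β e) := by
    have h7 := mob_inv (fun T : Finset ι => ∏ e, if e ∈ T then Real.exp (β e) else Real.exp (-β e)) univ
    simp only [mem_univ, if_true, zt_univ, mul_one, mob_prod (fun e => Real.exp (β e)) fun e => Real.exp (-β e)] at h7
    rw [h5, ← h7]
    refine sum_le_sum fun S _ => ?_
    split_ifs with hS
    · rw [mob_sum, sum_eq_single 1 (fun σ _ hσ => ?_) (by simp),
        mob_prod (fun e => Real.exp (χ 1 e * β e)) fun e => Real.exp (-β e)]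
      · simp only [h1, one_mul, le_refl]
      · obtain ⟨e, he, h8⟩ := hC S hS σ hσ
        rw [mob_prod (fun e => Real.exp (χ σ e * β e)) fun e => Real.exp (-β e),
          prod_eq_zero he (by rw [h8, neg_one_mul, sub_self]), zero_mul]
    · exact mul_nonneg (prod_nonneg fun e _ => sub_nonneg.2 (Real.exp_le_exp.2 (by linarith [hβ e])))
        (prod_nonneg fun e _ => (Real.exp_pos _).le)
  linarith

end Ising

variable {V : Type} [Fintype V] [DecidableEq V] {G : SimpleGraph V} [DecidableRel G.Adj] {n : ℕ}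

lemma sum_sym2 (F : Sym2 V → ℝ) (hF : ∀ x, F s(x, x) = 0) : ∑ x, ∑ y, F s(x, y) = 2 * ∑ e, F e := by
  rw [← sum_product', univ_product_univ, ← sum_fiberwise univ (fun p : V × V => s(p.1, p.2)), mul_sum]
  refine sum_congr rfl fun e _ => ?_
  rw [sum_congr rfl fun p hp => by rw [(mem_filter.1 hp).2]]
  induction e with
  | _ x y =>
  by_cases h : x = y
  · simp [h, hF]
  · have : univ.filter (fun p : V × V => s(p.1, p.2) = s(x, y)) = {(x, y), (y, x)} := by
      ext p; simp [Prod.ext_iff]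
    rw [this, sum_pair (by simp [h]), two_mul]

/-- extension of a field on the complement of the root by the value `a` at the root -/
def ex (e : V ≃ Option (Fin n)) (a : ℝ) (φ : Fin n → ℝ) (x : V) : ℝ := (e x).elim a φ

/-- signs on the vertices -/
def sg (e : V ≃ Option (Fin n)) (σ : Fin n → ℤˣ) (x : V) : ℝ := (e x).elim 1 fun i => ((σ i : ℤ) : ℝ)

/-- sign flip -/
def fl (σ : Fin n → ℤˣ) (φ : Fin n → ℝ) (i : Fin n) : ℝ := ((σ i : ℤ) : ℝ) * φ i

variable (G) in
/-- edge couplings of a field -/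
def bt (f : V → ℝ) : Sym2 V → ℝ :=
  Sym2.lift ⟨fun x y => if G.Adj x y then f x * f y else 0, fun x y => by simp only [G.adj_comm x y, mul_comm]⟩

/-- edge signs -/
def ch (e : V ≃ Option (Fin n)) (σ : Fin n → ℤˣ) : Sym2 V → ℝ :=
  Sym2.lift ⟨fun x y => sg e σ x * sg e σ y, fun _ _ => mul_comm _ _⟩

variable (G) in
/-- the density of the field with the edges of `T` switched on -/
noncomputable def zz (T : Finset (Sym2 V)) (f : V → ℝ) : ℝ :=
  Real.exp (-(∑ x, (G.degree x : ℝ) * f x ^ 2) / 2) * ∏ e, if e ∈ T then Real.exp (bt G f e) else 1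

variable (G) in
/-- the bilinear form with the edges of `T` switched on -/
noncomputable def BT (T : Finset (Sym2 V)) (f g : V → ℝ) : ℝ :=
  ∑ x, (G.degree x : ℝ) * (f x * g x) - ∑ x, ∑ y, (if G.Adj x y then 1 else 0) * zt {s(x, y)} T * (f x * g y)

variable {e : V ≃ Option (Fin n)}

lemma unit_cases (u : ℤˣ) : ((u : ℤ) : ℝ) = 1 ∨ ((u : ℤ) : ℝ) = -1 := by
  rcases Int.units_eq_one_or u with rfl | rfl <;> simp

lemma sg_cases (σ : Fin n → ℤˣ) (x : V) : sg e σ x = 1 ∨ sg e σ x = -1 := by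
  unfold sg
  cases e x with
  | none => exact Or.inl rfl
  | some i => exact unit_cases _

lemma sg_mul (σ τ : Fin n → ℤˣ) (x : V) : sg e (σ * τ) x = sg e σ x * sg e τ x := by
  unfold sg
  cases e x <;> simp

lemma ex_fl (a : ℝ) (σ : Fin n → ℤˣ) (φ : Fin n → ℝ) : ex e a (fl σ φ) = fun x => sg e σ x * ex e a φ x := by
  funext x
  unfold sg ex
  cases e x <;> simp [fl]

lemma fl_mul (σ τ : Fin n → ℤˣ) (φ : Fin n → ℝ) : fl σ (fl τ φ) = fl (σ * τ) φ := by
  funext i; simp [fl, mul_assoc]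

lemma fl_one (φ : Fin n → ℝ) : fl 1 φ = φ := by funext i; simp [fl]

lemma exists_fl {a : ℝ} (ha : 0 ≤ a) (φ : Fin n → ℝ) : ∃ τ, ∀ x, ex e a (fl τ φ) x = |ex e a φ x| := by
  refine ⟨fun i => if 0 ≤ φ i then 1 else -1, fun x => ?_⟩
  unfold ex
  cases e x with
  | none => exact (abs_of_nonneg ha).symm
  | some i =>
    simp only [Option.elim_some, fl]
    split_ifs with h
    · simp [abs_of_nonneg h]
    · simp [abs_of_neg (not_le.1 h)]

lemma sum_fl (Φ : (Fin n → ℝ) → ℝ) (τ : Fin n → ℤˣ) (φ : Fin n → ℝ) :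
    ∑ σ, Φ (fl σ φ) = ∑ σ, Φ (fl σ (fl τ φ)) := by
  simp only [fl_mul]
  exact (Equiv.sum_comp (Equiv.mulRight τ) fun σ => Φ (fl σ φ)).symm

lemma mp_fl (σ : Fin n → ℤˣ) : MeasurePreserving (fl σ) volume volume := by
  refine volume_preserving_pi (f := fun i (x : ℝ) => ((σ i : ℤ) : ℝ) * x) fun i => ?_
  rcases unit_cases (σ i) with h | h <;> rw [h]
  · simp only [one_mul]
    exact MeasurePreserving.id (volume : Measure ℝ)
  · simpa using Measure.measurePreserving_neg (volume : Measure ℝ)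

lemma symmetrise {Φ : (Fin n → ℝ) → ℝ} (h : Integrable Φ) :
    Integrable (fun φ => ∑ σ, Φ (fl σ φ)) ∧
      ∫ φ, ∑ σ, Φ (fl σ φ) = Fintype.card (Fin n → ℤˣ) * ∫ φ, Φ φ := by
  have h1 : ∀ σ, Integrable fun φ => Φ (fl σ φ) := fun σ => (mp_fl σ).integrable_comp_of_integrable h
  refine ⟨integrable_finsetSum _ fun σ _ => h1 σ, ?_⟩
  rw [integral_finsetSum _ fun σ _ => h1 σ, ← nsmul_eq_mul, ← card_univ, ← sum_const]
  refine sum_congr rfl fun σ _ => ?_
  rw [← integral_map (mp_fl σ).measurable.aemeasurable (by rw [(mp_fl σ).map_eq]; exact h.1), (mp_fl σ).map_eq]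

lemma zz_sg (T : Finset (Sym2 V)) (σ : Fin n → ℤˣ) (f : V → ℝ) : zz G T (fun x => sg e σ x * f x) =
    Real.exp (-(∑ x, (G.degree x : ℝ) * f x ^ 2) / 2) *
      ∏ c, if c ∈ T then Real.exp (ch e σ c * bt G f c) else 1 := by
  have h1 : ∀ x, (sg e σ x * f x) ^ 2 = f x ^ 2 := fun x => by
    rcases sg_cases (e := e) σ x with h | h <;> rw [h] <;> ring
  have h2 : ∀ c, bt G (fun x => sg e σ x * f x) c = ch e σ c * bt G f c := by
    intro c
    induction c with
    | _ x y =>
    simp only [bt, ch, Sym2.lift_mk]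
    split_ifs <;> ring
  simp only [zz, h1, h2]

lemma zz_eq (T : Finset (Sym2 V)) (f : V → ℝ) : zz G T f = Real.exp (-BT G T f f / 2) := by
  have h1 := sum_sym2 (fun c => if c ∈ T then bt G f c else 0) fun x => by simp [bt]
  have h2 : ∏ c, (if c ∈ T then Real.exp (bt G f c) else 1) = Real.exp (∑ c, if c ∈ T then bt G f c else 0) := by
    rw [Real.exp_sum]
    exact prod_congr rfl fun c _ => by split_ifs <;> simp
  have h3 : ∑ x, ∑ y, (if s(x, y) ∈ T then bt G f s(x, y) else 0) =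
      ∑ x, ∑ y, (if G.Adj x y then 1 else 0) * zt {s(x, y)} T * (f x * f y) := by
    refine sum_congr rfl fun x _ => sum_congr rfl fun y _ => ?_
    simp only [bt, zt, Sym2.lift_mk, singleton_subset_iff]
    split_ifs <;> simp
  rw [zz, h2, ← Real.exp_add, BT, ← h3, h1]
  simp only [sq]
  congr 1
  ring

lemma zz_univ (f : V → ℝ) : zz G univ f = Real.exp (-En G f / 2) := by
  rw [zz_eq, En_eq, BT]
  simp only [zt_univ, mul_one, sq, ite_mul, one_mul, zero_mul]

lemma zz_pos (T : Finset (Sym2 V)) (f : V → ℝ) : 0 < zz G T f := by rw [zz_eq]; exact Real.exp_pos _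

lemma bt_nonneg {f : V → ℝ} (hf : ∀ x, 0 ≤ f x) (c : Sym2 V) : 0 ≤ bt G f c := by
  induction c with
  | _ x y =>
  simp only [bt, Sym2.lift_mk]
  split_ifs
  · exact mul_nonneg (hf x) (hf y)
  · exact le_rfl

lemma zz_le (T : Finset (Sym2 V)) (f : V → ℝ) : zz G T f ≤ zz G univ fun x => |f x| := by
  simp only [zz, sq_abs, mem_univ, if_true]
  refine mul_le_mul_of_nonneg_left (prod_le_prod (fun c _ => by split_ifs <;> positivity) fun c _ => ?_)
    (Real.exp_pos _).le
  split_ifs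
  · refine Real.exp_le_exp.2 ?_
    induction c with
    | _ x y =>
    simp only [bt, Sym2.lift_mk]
    split_ifs
    · rw [← abs_mul]; exact le_abs_self _
    · exact le_rfl
  · exact Real.one_le_exp (bt_nonneg (fun x => abs_nonneg _) c)

lemma cont_ex (a : ℝ) (x : V) : Continuous fun φ => ex e a φ x := by
  unfold ex
  cases e x with
  | none => exact continuous_const
  | some i => exact continuous_apply i

lemma cont_zz (T : Finset (Sym2 V)) (a : ℝ) : Continuous fun φ => zz G T (ex e a φ) := by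
  have := cont_ex (e := e) a
  simp only [zz_eq, BT]
  fun_prop

lemma ex_add (a : ℝ) (φ : Fin n → ℝ) (h : V → ℝ) {v₀ : V} (hv : e v₀ = none) :
    ex e (a * h v₀) (φ + fun i => a * h (e.symm (some i))) = fun x => ex e 0 φ x + a * h x := by
  funext x
  unfold ex
  cases hx : e x with
  | none => rw [e.injective (hx.trans hv.symm)]; simp
  | some i =>
    have h1 : e.symm (some i) = x := by rw [← hx, e.symm_apply_apply]
    simp [h1]

lemma En_add (f : V → ℝ) (a : ℝ) : En G (fun x => f x + a) = En G f := by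
  simp only [En, add_sub_add_right_eq_sub]

lemma int_zz {v₀ : V} (hv : e v₀ = none) (h0 : Integrable fun φ => zz G univ (ex e 0 φ)) {a : ℝ} (ha : 0 ≤ a)
    (T : Finset (Sym2 V)) : Integrable fun φ => zz G T (ex e a φ) := by
  have h1 : Integrable fun φ => zz G univ (ex e a φ) := by
    refine (h0.comp_sub_right fun _ => a).congr (ae_of_all _ fun φ => ?_)
    have h2 := ex_add (e := e) a (φ - fun _ => a) (fun _ => 1) hv
    simp only [mul_one, sub_add_cancel] at h2
    simp only [zz_univ, h2, En_add]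
  refine (symmetrise h1).1.mono' (cont_zz T a).aestronglyMeasurable (ae_of_all _ fun φ => ?_)
  obtain ⟨τ, hτ⟩ := exists_fl (e := e) ha φ
  rw [Real.norm_of_nonneg (zz_pos _ _).le]
  refine (zz_le T _).trans (le_trans (le_of_eq ?_)
    (single_le_sum (f := fun σ => zz G univ (ex e a (fl σ φ))) (fun σ _ => (zz_pos _ _).le) (mem_univ τ)))
  rw [funext hτ]

lemma BT_symm (T : Finset (Sym2 V)) (f g : V → ℝ) : BT G T f g = BT G T g f := by
  unfold BT
  rw [sum_comm]
  congr 1
  · exact sum_congr rfl fun x _ => by ring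
  · refine sum_congr rfl fun x _ => sum_congr rfl fun y _ => ?_
    simp only [G.adj_comm y x, Sym2.eq_swap (a := y), mul_comm (f _)]

lemma BT_kT (hdeg : ∀ x, 0 < G.degree x) (T : Finset (Sym2 V)) (f g : V → ℝ) :
    BT G T f g = ∑ x, f x * (G.degree x * (g x - kT G T g x)) := by
  unfold BT kT
  rw [← sum_sub_distrib]
  refine sum_congr rfl fun x _ => ?_
  simp only [mul_sub, mul_sum, ← deg_step hdeg]
  congr 1
  · ring
  · exact sum_congr rfl fun y _ => by ring

lemma BT_add (T : Finset (Sym2 V)) (f g : V → ℝ) (a : ℝ) : BT G T (fun x => f x + a * g x) (fun x => f x + a * g x) =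
    BT G T f f + a * (BT G T f g + BT G T g f) + a ^ 2 * BT G T g g := by
  simp only [BT, mul_add, mul_sub, mul_sum, ← sum_add_distrib, ← sum_sub_distrib]
  refine sum_congr rfl fun x _ => ?_
  have : ∀ (u v w z : V → ℝ) (A B C D E : ℝ), A = B + (C + D) + E → A - ∑ y, (u y + (v y + w y) + z y) =
      B - ∑ y, u y + ((C - ∑ y, v y) + (D - ∑ y, w y)) + (E - ∑ y, z y) := by
    intro u v w z A B C D E h
    simp only [sum_add_distrib]
    linarith
  rw [← this _ _ _ _ _ _ _ _ _ rfl]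
  congr 1
  · ring
  · exact sum_congr rfl fun y _ => by ring

lemma ZT_shift {v₀ : V} (hv : e v₀ = none) (hdeg : ∀ x, 0 < G.degree x) (a : ℝ) (T : Finset (Sym2 V)) :
    ∫ φ, zz G T (ex e a φ) = Real.exp (-(G.degree v₀ * a ^ 2 / 2 * (1 - kT G T (hh G v₀ T) v₀))) *
      ∫ φ, zz G T (ex e 0 φ) := by
  rw [← integral_const_mul, ← integral_add_right_eq_self _ fun i => a * hh G v₀ T (e.symm (some i))]
  refine integral_congr_ae (ae_of_all _ fun φ => ?_)
  have h1 : hh G v₀ T v₀ = 1 := by rw [hh_eq hdeg, if_pos rfl]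
  have h2 := ex_add (e := e) a φ (hh G v₀ T) hv
  rw [h1, mul_one] at h2
  have h3 : ∀ f : V → ℝ, BT G T f (hh G v₀ T) = f v₀ * (G.degree v₀ * (1 - kT G T (hh G v₀ T) v₀)) := by
    intro f
    rw [BT_kT hdeg, sum_eq_single v₀ (fun x _ hx => ?_) (by simp), h1]
    nth_rewrite 1 [hh_eq hdeg]
    rw [if_neg hx, sub_self, mul_zero, mul_zero]
  have h4 : ex e 0 φ v₀ = 0 := by simp [ex, hv]
  simp only [h2, zz_eq, BT_add]
  rw [BT_symm T (hh G v₀ T) (ex e 0 φ), h3, h3, h1, h4, ← Real.exp_add]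
  congr 1
  ring

theorem lupu {v₀ : V} (hv : e v₀ = none) (hdeg : ∀ x, 0 < G.degree x)
    (h0 : Integrable fun φ => zz G univ (ex e 0 φ)) {a : ℝ} (ha : 0 ≤ a) :
    (∫ φ, zz G univ (ex e 0 φ)) - ∫ φ, {φ | ∀ x, -a ≤ ex e 0 φ x}.indicator (fun φ => zz G univ (ex e 0 φ)) φ ≤
      LamN (fun S => ¬ Cn G v₀ S) (fun T => Real.exp (-(G.degree v₀ * a ^ 2 / 2 * (1 - kT G T (hh G v₀ T) v₀)))) *
        ∫ φ, zz G univ (ex e 0 φ) := by
  classical
  have hχ : ∀ σ c, ch e σ c = 1 ∨ ch e σ c = -1 := by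
    intro σ c
    induction c with
    | _ x y =>
    simp only [ch, Sym2.lift_mk]
    rcases sg_cases (e := e) σ x with h | h <;> rcases sg_cases (e := e) σ y with h' | h' <;> simp [h, h']
  have hm : ∀ σ τ c, ch e (σ * τ) c = ch e σ c * ch e τ c := by
    intro σ τ c
    induction c with
    | _ x y => simp only [ch, Sym2.lift_mk, sg_mul]; ring
  have h1 : ∀ c, ch e 1 c = 1 := by
    intro c
    have : ∀ x, sg e 1 x = 1 := fun x => by unfold sg; cases e x <;> simp
    induction c with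
    | _ x y => simp [ch, this]
  have hcard : (0 : ℝ) < Fintype.card (Fin n → ℤˣ) := by exact_mod_cast Fintype.card_pos
  have hmob : ∀ a, 0 ≤ a → ∀ S, Integrable (fun φ => ∑ σ, mob (fun T => zz G T (ex e a (fl σ φ))) S) ∧
      ∫ φ, ∑ σ, mob (fun T => zz G T (ex e a (fl σ φ))) S =
        Fintype.card (Fin n → ℤˣ) * mob (fun T => ∫ φ, zz G T (ex e a φ)) S := by
    intro a ha S
    have h2 : ∀ T, Integrable fun φ => mm T S * zz G T (ex e a φ) := fun T => (int_zz hv h0 ha T).const_mul _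
    have h3 := symmetrise (Φ := fun φ => mob (fun T => zz G T (ex e a φ)) S) (integrable_finsetSum _ fun T _ => h2 T)
    refine ⟨h3.1, h3.2.trans ?_⟩
    unfold mob
    rw [integral_finsetSum _ fun T _ => h2 T]
    simp only [integral_const_mul]
  have hpt : ∀ a, 0 ≤ a → ∀ φ, ∃ f : V → ℝ, (∀ x, 0 ≤ f x) ∧ (∃ τ, f = ex e a (fl τ φ)) ∧
      ∀ S, ∑ σ, mob (fun T => zz G T (ex e a (fl σ φ))) S = Real.exp (-(∑ x, (G.degree x : ℝ) * f x ^ 2) / 2) *
        mob (fun T => ∑ σ, ∏ c, if c ∈ T then Real.exp (ch e σ c * bt G f c) else 1) S := by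
    intro a ha φ
    obtain ⟨τ, hτ⟩ := exists_fl (e := e) ha φ
    refine ⟨ex e a (fl τ φ), fun x => by rw [hτ]; exact abs_nonneg _, ⟨τ, rfl⟩, fun S => ?_⟩
    rw [sum_fl (fun φ => mob (fun T => zz G T (ex e a φ)) S) τ, mob_sum, mul_sum]
    refine sum_congr rfl fun σ _ => ?_
    simp only [ex_fl a σ, zz_sg, mob_smul]
  have hpos : Pos fun T => ∫ φ, zz G T (ex e 0 φ) := by
    intro S
    refine le_of_mul_le_mul_left ?_ hcard
    rw [mul_zero, ← (hmob 0 le_rfl S).2]
    refine integral_nonneg fun φ => ?_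
    obtain ⟨f, hf, -, h2⟩ := hpt 0 le_rfl φ
    simp only [h2, Pi.zero_apply]
    exact mul_nonneg (Real.exp_pos _).le (pos_ising hχ hm (bt_nonneg hf) S)
  have hu : Pos fun T => Real.exp (-(G.degree v₀ * a ^ 2 / 2 * (1 - kT G T (hh G v₀ T) v₀))) := by
    have h9 := (((kT_pos (G := G) (hh_pos (v₀ := v₀) hdeg) v₀).smul
      (a := G.degree v₀ * a ^ 2 / 2) (by positivity)).exp).smul (Real.exp_pos (-(G.degree v₀ * a ^ 2 / 2))).le
    simp only [← Real.exp_add] at h9
    have h10 : ∀ u v : ℝ, -(u * (1 - v)) = -u + u * v := fun u v => by ring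
    simpa only [h10] using h9
  have h2 := LamN_mul_le (Cn_down (G := G) (v₀ := v₀)) hu hpos
  simp only [← ZT_shift hv hdeg a] at h2
  have h3 := LamN_compl (N := fun S => ¬ Cn G v₀ S) fun T => ∫ φ, zz G T (ex e a φ)
  have hsh : ∀ φ, ex e a (φ + fun _ => a) = fun x => ex e 0 φ x + a := by
    intro φ
    simpa using ex_add (e := e) a φ (fun _ => 1) hv
  have h4 : ∫ φ, zz G univ (ex e a φ) = ∫ φ, zz G univ (ex e 0 φ) := by
    rw [← integral_add_right_eq_self _ fun _ => a]
    simp only [hsh, zz_univ, En_add]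
  set A : Set (Fin n → ℝ) := {φ | ∀ x, 0 ≤ ex e a φ x} with hA
  have hAm : MeasurableSet A := by
    rw [hA, Set.ofPred_forall]
    exact MeasurableSet.iInter fun x => measurableSet_le measurable_const (cont_ex a x).measurable
  have h5 : ∫ φ, A.indicator (fun φ => zz G univ (ex e a φ)) φ =
      ∫ φ, {φ | ∀ x, -a ≤ ex e 0 φ x}.indicator (fun φ => zz G univ (ex e 0 φ)) φ := by
    rw [← integral_add_right_eq_self _ fun _ => a]
    refine integral_congr_ae (ae_of_all _ fun φ => ?_)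
    simp only [Set.indicator, hA, Set.mem_ofPred_eq, hsh, zz_univ, En_add, neg_le_iff_add_nonneg]
  have h6 : LamN (fun S => ¬ ¬ Cn G v₀ S) (fun T => ∫ φ, zz G T (ex e a φ)) ≤
      ∫ φ, A.indicator (fun φ => zz G univ (ex e a φ)) φ := by
    refine le_of_mul_le_mul_left ?_ hcard
    have h7 := symmetrise ((int_zz hv h0 ha univ).indicator hAm)
    have h8 : ∀ S, Integrable fun φ => if ¬ ¬ Cn G v₀ S then ∑ σ, mob (fun T => zz G T (ex e a (fl σ φ))) S else 0 := by
      intro S
      split_ifs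
      · exact integrable_zero _ _ _
      · exact (hmob a ha S).1
    have h9 : Fintype.card (Fin n → ℤˣ) * LamN (fun S => ¬ ¬ Cn G v₀ S) (fun T => ∫ φ, zz G T (ex e a φ)) =
        ∫ φ, ∑ S, if ¬ ¬ Cn G v₀ S then ∑ σ, mob (fun T => zz G T (ex e a (fl σ φ))) S else 0 := by
      rw [integral_finsetSum _ fun S _ => h8 S, LamN, mul_sum]
      refine sum_congr rfl fun S _ => ?_
      by_cases hS : Cn G v₀ S
      · simp only [hS, not_true, not_false_iff, if_true, (hmob a ha S).2]
      · simp [hS]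
    rw [← h7.2, h9]
    refine integral_mono (integrable_finsetSum _ fun S _ => h8 S) h7.1 fun φ => ?_
    obtain ⟨f, hf, ⟨τ, hτ⟩, h10⟩ := hpt a ha φ
    have h11 := ising_le hχ hm h1 (bt_nonneg (G := G) hf) (Cn_down (G := G) (v₀ := v₀)) fun S hS σ hσ => by
      by_contra hcon
      push Not at hcon
      refine hσ (funext fun i => ?_)
      have h12 := not_not.1 hS (fun x => decide (sg e σ x = 1)) (by simp [sg, hv]) (fun x y _ he => by
        have h13 := hcon _ he
        simp only [ch, Sym2.lift_mk] at h13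
        rcases sg_cases (e := e) σ x with h | h <;> rcases sg_cases (e := e) σ y with h' | h' <;>
          simp_all) (e.symm (some i))
      simp only [sg, Equiv.apply_symm_apply, Option.elim_some, decide_eq_true_eq] at h12
      have h14 : ((σ i : ℤˣ) : ℤ) = 1 := by exact_mod_cast h12
      exact Units.ext h14
    have h12 := mul_le_mul_of_nonneg_left h11 (Real.exp_pos (-(∑ x, (G.degree x : ℝ) * f x ^ 2) / 2)).le
    refine le_trans (le_of_eq ?_) (h12.trans (le_trans (le_of_eq ?_) (single_le_sum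
      (f := fun σ => A.indicator (fun φ => zz G univ (ex e a φ)) (fl σ φ))
      (fun σ _ => Set.indicator_nonneg (fun _ _ => (zz_pos _ _).le) _) (mem_univ τ))))
    · simp only [LamN, mul_sum, h10, mul_ite, mul_zero]
    · rw [Set.indicator_of_mem (show fl τ φ ∈ A from fun x => hτ ▸ hf x), ← hτ, zz]
      simp
  linarith

end Pool.Agent.H548Z.Cov
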