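import Mathlib
import Pool.Agent.H548Z.CovLupu
import Pool.Agent.H548Z.CovGauss

set_option autoImplicit false
set_option linter.unusedSectionVars false

/-!
# The free field of a finite graph and the lower bound for the cover time of simple random walk
-/

open Finset MeasureTheory Matrix
open scoped ENNReal

namespace Pool.Agent.H548Z.Cov

open Pool.Agent.H548Z.CovDefs Pool.Agent.H320R2.LD Pool.Agent.H320R2.LD.MGF Pool.Agent.H408Z.DP

variable {V : Type} [Fintype V] [DecidableEq V] {G : SimpleGraph V} [DecidableRel G.Adj] {n : ℕ}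
  {e : V ≃ Option (Fin n)}

lemma exists_white (hc : G.Connected) {v₀ : V} (hv : e v₀ = none) :
    ∃ C : Matrix (Fin n) (Fin n) ℝ, C.det ≠ 0 ∧ ∀ ψ, nsq (C *ᵥ ψ) = En G (ex e 0 ψ) := by
  set J : Matrix V (Fin n) ℝ := of fun x i => if e x = some i then 1 else 0 with hJ
  have h1 : ∀ ψ, J *ᵥ ψ = ex e 0 ψ := by
    intro ψ
    funext x
    simp only [hJ, mulVec, dotProduct, of_apply, ex]
    cases e x <;> simp
  have h2 : ∀ ψ, ψ ⬝ᵥ (Jᵀ * G.lapMatrix ℝ * J) *ᵥ ψ = En G (ex e 0 ψ) := by
    intro ψ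
    rw [← mulVec_mulVec, ← mulVec_mulVec, dot_tr, dotProduct_comm, h1, ← toLinearMap₂'_apply',
      SimpleGraph.lapMatrix_toLinearMap₂', En]
    ring
  have h3 : (Jᵀ * G.lapMatrix ℝ * J).IsSymm := by
    rw [IsSymm, transpose_mul, transpose_mul, transpose_transpose, (G.isSymm_lapMatrix (R := ℝ)).eq, Matrix.mul_assoc]
  obtain ⟨E⟩ := exists_eig h3
  have h4 : ∀ i, 0 ≤ E.n i := fun i => by rw [← E.n_eq, h2]; exact En_nonneg _
  have h5 : ∀ ψ, nsq ((of fun i j => Real.sqrt (E.n i) * E.u i j) *ᵥ ψ) = En G (ex e 0 ψ) := by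
    intro ψ
    rw [← h2, E.quad, nsq]
    refine sum_congr rfl fun i _ => ?_
    have : ((of fun i j => Real.sqrt (E.n i) * E.u i j) *ᵥ ψ) i = Real.sqrt (E.n i) * (E.u i ⬝ᵥ ψ) := by
      simp only [mulVec, dotProduct, of_apply, mul_sum, mul_assoc]
    rw [this, mul_pow, Real.sq_sqrt (h4 i), mul_comm]
  refine ⟨_, fun h => ?_, h5⟩
  obtain ⟨ψ, hψ, h6⟩ := exists_mulVec_eq_zero_iff.2 h
  have h7 := h5 ψ
  rw [h6] at h7
  refine hψ (funext fun i => ?_)
  have h8 := En_zero hc (f := ex e 0 ψ) (by rw [← h7]; simp [nsq]) (e.symm (some i)) v₀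
  simpa [ex, hv] using h8

lemma cov {C : Matrix (Fin n) (Fin n) ℝ} (hC : C.det ≠ 0) (h : ∀ ψ, nsq (C *ᵥ ψ) = En G (ex e 0 ψ)) :
    ∃ K : ℝ, 0 < K ∧ ∀ A : Set (Fin n → ℝ), MeasurableSet A →
      ∫⁻ ψ, ENNReal.ofReal ({ψ | C *ᵥ ψ ∈ A}.indicator (fun ψ => zz G univ (ex e 0 ψ)) ψ) =
        ENNReal.ofReal K * gam (Fin n) A := by
  have hs : 0 < Real.sqrt (2 * Real.pi) := Real.sqrt_pos.2 (by positivity)
  refine ⟨|C.det⁻¹| * Real.sqrt (2 * Real.pi) ^ n, mul_pos (abs_pos.2 (inv_ne_zero hC)) (by positivity),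
    fun A hA => ?_⟩
  have hd : Measurable fun x => ENNReal.ofReal (denR n x) := by
    have := den_meas n
    rwa [show den n = fun x => ENNReal.ofReal (denR n x) from funext (den_eq n)] at this
  have hm : Measurable fun g => ENNReal.ofReal (Real.sqrt (2 * Real.pi) ^ n) *
      (ENNReal.ofReal (denR n g) * A.indicator 1 g) := (hd.mul (measurable_one.indicator hA)).const_mul _
  have h1 := lintegral_map (μ := volume) hm (toLin' C).continuous_of_finiteDimensional.measurable
  rw [Real.map_matrix_volume_pi_eq_smul_volume_pi hC, lintegral_smul_measure,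
    lintegral_const_mul' _ _ ENNReal.ofReal_ne_top,
    ← lint_gam _ (measurable_one.indicator hA), lintegral_indicator_one hA, smul_eq_mul, ← mul_assoc,
    ← ENNReal.ofReal_mul (abs_nonneg _)] at h1
  rw [h1]
  refine lintegral_congr fun ψ => ?_
  rw [toLin'_apply]
  by_cases hψ : C *ᵥ ψ ∈ A
  · rw [Set.indicator_of_mem (show ψ ∈ {ψ | C *ᵥ ψ ∈ A} from hψ), Set.indicator_of_mem hψ, Pi.one_apply, mul_one,
      ← ENNReal.ofReal_mul (by positivity), denR_eq, h, zz_univ, ← mul_assoc, ← mul_pow, mul_inv_cancel₀ hs.ne',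
      one_pow, one_mul]
  · rw [Set.indicator_of_notMem (show ψ ∉ {ψ | C *ᵥ ψ ∈ A} from hψ), Set.indicator_of_notMem hψ]
    simp

theorem geo_exists (hc : G.Connected) [Nontrivial V] : ∃ (d : V → V → ℝ) (F : Finset V → ℝ) (D : ℝ),
    Geo (En G) d F D ∧ D ≤ 30 * F univ ∧ ∀ B : ℝ,
      (∀ x k, ∑ n ∈ range k, nc (Matrix.of (step G)) id n x univ ≤ B) →
      (1 - Real.exp (-(1 / 14400))) * ((∑ x, (G.degree x : ℝ)) * F univ ^ 2) ≤ 16 * B := by
  have hdeg : ∀ x, 0 < G.degree x := fun x => hc.preconnected.degree_pos_of_nontrivial x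
  obtain ⟨v₀⟩ := (inferInstance : Nonempty V)
  set n := Fintype.card {x // x ≠ v₀}
  set e : V ≃ Option (Fin n) := (Equiv.optionSubtypeNe v₀).symm.trans (Equiv.optionCongr (Fintype.equivFin _))
  have hv : e v₀ = none := by simp [e]
  clear_value e
  obtain ⟨C, hC, hCe⟩ := exists_white hc hv
  have hCu : IsUnit C.det := isUnit_iff_ne_zero.2 hC
  set t : V → Fin n → ℝ := fun x => (e x).elim 0 fun i => -C⁻¹ i with ht
  have h1 : ∀ x ψ, t x ⬝ᵥ (C *ᵥ ψ) = -ex e 0 ψ x := by
    intro x ψ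
    simp only [ht, ex]
    cases e x with
    | none => simp
    | some i =>
      have := congrFun (mulVec_mulVec ψ C⁻¹ C) i
      rw [nonsing_inv_mul _ hCu, one_mulVec] at this
      simp only [Option.elim_some, neg_dotProduct, ← this]
      rfl
  have hen : ∀ (f : V → ℝ) x y, (f x - f y) ^ 2 ≤ nrm (t x - t y) ^ 2 * En G f := by
    intro f x y
    set ψ : Fin n → ℝ := fun i => f (e.symm (some i)) - f v₀ with hψ
    have h2 : ex e 0 ψ = fun x => f x + -f v₀ := by
      funext x
      unfold ex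
      cases hx : e x with
      | none => rw [e.injective (hx.trans hv.symm)]; simp
      | some i =>
        have h1 : e.symm (some i) = x := by rw [← hx, e.symm_apply_apply]
        simp [hψ, h1, sub_eq_add_neg]
    have h3 := hCe ψ
    rw [h2, En_add] at h3
    have h4 : f x - f y = -((t x - t y) ⬝ᵥ (C *ᵥ ψ)) := by
      rw [sub_dotProduct, h1, h1, h2]; ring
    rw [h4, neg_sq, ← h3, nrm_sq]
    exact sum_mul_sq_le_sq_mul_sq _ _ _
  have hpos : ∀ x y, x ≠ y → 0 < nrm (t x - t y) := by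
    intro x y hxy
    refine lt_of_le_of_ne (nrm_nonneg _) fun h => ?_
    have h2 := hen (fun v => if v = x then 1 else 0) x y
    rw [← h] at h2
    simp [hxy.symm] at h2
    linarith
  obtain ⟨⟨x₀, y₀⟩, -, hmax⟩ := exists_max_image (univ : Finset (V × V)) (fun q => nrm (t q.1 - t q.2)) univ_nonempty
  set D := nrm (t x₀ - t y₀) with hD
  have hD0 : 0 < D := by
    obtain ⟨x, y, hxy⟩ := exists_pair_ne V
    exact (hpos x y hxy).trans_le (hmax (x, y) (mem_univ _))
  have hself : ∀ x, nrm (t x - t x) = 0 := fun x => by simp [nrm, nsq]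
  have hne : x₀ ≠ y₀ := by
    rintro rfl
    rw [hD, hself] at hD0
    exact lt_irrefl _ hD0
  have hDF : D ≤ 30 * FF t univ := by
    have h2 := growth (t := t) {x₀, y₀} (fun c => {c}) univ D 0 (insert_nonempty _ _) hD0 (by
      simp only [mem_insert, mem_singleton]
      rintro c (rfl | rfl) c' (rfl | rfl) h
      · exact absurd rfl h
      · exact le_rfl
      · exact (nrm_sub_comm _ _).le
      · exact absurd rfl h) (fun c _ => mem_singleton_self c)
      (fun c _ x hx => by rw [mem_singleton.1 hx, hself]; positivity) (fun _ _ => subset_univ _)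
      (fun c _ => (FF_single c).ge)
    rw [card_pair hne] at h2
    have h3 : (4 / 5 : ℝ) ≤ Real.sqrt (Real.log ((2 : ℕ) : ℝ)) := by
      refine Real.le_sqrt_of_sq_le ?_
      push_cast
      linarith [Real.log_two_gt_d9]
    nlinarith
  refine ⟨fun x y => nrm (t x - t y), FF t, D, ⟨hself, fun x y => nrm_sub_comm _ _, fun x y z => ?_, hpos,
    fun _ _ => nrm_nonneg _, fun A hA => FF_nonneg hA, fun A hA => FF_mono hA (subset_univ _), growth, hD0,
    fun x y => hmax (x, y) (mem_univ _), hen⟩, hDF, fun B hB => ?_⟩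
  · have := nrm_add_le (t x - t y) (t y - t z)
    rwa [sub_add_sub_cancel] at this
  set F := FF t univ with hF
  have hF0 : 0 < F := by linarith
  have hd : (0 : ℝ) < G.degree v₀ := by exact_mod_cast hdeg v₀
  obtain ⟨K, hK, hKA⟩ := cov hC hCe
  have hI : Integrable (fun ψ => zz G univ (ex e 0 ψ)) ∧ ∫ ψ, zz G univ (ex e 0 ψ) = K := by
    have h2 := hKA Set.univ MeasurableSet.univ
    simp only [Set.mem_univ, Set.ofPred_true, Set.indicator_univ, measure_univ, mul_one] at h2
    have h3 : 0 ≤ᵐ[volume] fun ψ => zz G univ (ex e 0 ψ) := ae_of_all _ fun ψ => (zz_pos _ _).le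
    refine ⟨⟨(cont_zz _ _).aestronglyMeasurable, ?_⟩, ?_⟩
    · rw [hasFiniteIntegral_iff_ofReal h3, h2]
      exact ENNReal.ofReal_lt_top
    · rw [integral_eq_lintegral_of_nonneg_ae h3 (cont_zz _ _).aestronglyMeasurable, h2, ENNReal.toReal_ofReal hK.le]
  have h2 := srw_lower (v₀ := v₀) hc hdeg hB (l₀ := G.degree v₀ * (F / 2) ^ 2 / 2)
    (c₀ := 1 - Real.exp (-(1 / 14400))) (by positivity) fun l hl => by
      set a := Real.sqrt (2 * l / G.degree v₀) with ha
      have ha0 : 0 ≤ a := Real.sqrt_nonneg _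
      have ha2 : G.degree v₀ * a ^ 2 / 2 = l := by
        rw [ha, Real.sq_sqrt (by have := hl.1; positivity)]; field_simp
      have haF : a ≤ F / 2 := by
        refine (pow_le_pow_iff_left₀ ha0 (by positivity) two_ne_zero).1 (le_of_mul_le_mul_left ?_ hd)
        linarith [hl.2]
      have h3 := lupu hv hdeg hI.1 ha0
      rw [ha2, hI.2] at h3
      set A : Set (Fin n → ℝ) := {g | ∀ x, t x ⬝ᵥ g ≤ a} with hA
      have hAm : MeasurableSet A := by
        rw [hA, Set.ofPred_forall]
        exact MeasurableSet.iInter fun x => measurableSet_le (meas_dot _) measurable_const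
      have h4 : {ψ | ∀ x, -a ≤ ex e 0 ψ x} = {ψ | C *ᵥ ψ ∈ A} := by
        ext ψ
        simp only [hA, Set.mem_ofPred_eq, h1, neg_le]
      have h5 : MeasurableSet {ψ | C *ᵥ ψ ∈ A} := (toLin' C).continuous_of_finiteDimensional.measurable hAm
      have h6 := lower_tail (t := t) hD0 (fun x => by
        have := hmax (x, v₀) (mem_univ _)
        simpa [ht, hv] using this) haF
      rw [h4, integral_eq_lintegral_of_nonneg_ae (ae_of_all _ fun ψ =>
        Set.indicator_nonneg (fun _ _ => (zz_pos _ _).le) _) ((hI.1.indicator h5).1), hKA A hAm] at h3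
      have h7 : (ENNReal.ofReal K * gam (Fin n) A).toReal ≤ K * Real.exp (-(1 / 14400)) := by
        refine ENNReal.toReal_le_of_le_ofReal (by positivity) ?_
        rw [ENNReal.ofReal_mul hK.le]
        refine mul_le_mul_right (h6.trans (ENNReal.ofReal_le_ofReal (Real.exp_le_exp.2 (neg_le_neg ?_)))) _
        rw [le_div_iff₀ (by positivity)]
        nlinarith
      refine le_of_mul_le_mul_right ?_ hK
      linarith
  refine le_of_mul_le_mul_right ?_ hd
  linarith

end Pool.Agent.H548Z.Cov
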