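import Mathlib
import Pool.Agent.H548Z.CovGeo

set_option autoImplicit false
set_option linter.unusedSectionVars false

/-!
# The cover time of random walk on dynamical percolation
-/

open Finset MeasureTheory Matrix
open scoped ENNReal

namespace Pool.Agent.H548Z.Cov

open Pool.Agent.H548Z.CovDefs

variable {V : Type} [Fintype V] [DecidableEq V] {G : SimpleGraph V} [DecidableRel G.Adj] {μ p : ℝ}

lemma nc_eq_sum {S : Type} [Fintype S] [DecidableEq S] (P : Matrix S S ℝ) (π : S → V) (n : ℕ) (x : S) :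
    nc P π n x univ = ∑ w ∈ univ.filter (fun w : Fin (n + 1) → S => ¬ ∀ v, ∃ i, π (w i) = v),
      (if w 0 = x then 1 else 0) * ∏ i : Fin n, P (w i.castSucc) (w i.succ) := by
  rw [nc, pe_eq_sum, sum_filter]
  refine sum_congr rfl fun w _ => ?_
  have : (∀ v ∈ univ, ∃ s ∈ List.ofFn w, π s = v) ↔ ∀ v, ∃ i, π (w i) = v := by
    simp only [mem_univ, forall_true_left, List.mem_ofFn', Set.mem_range, exists_exists_eq_and]
  unfold NC
  rw [if_congr this rfl rfl]
  by_cases h : ∀ v, ∃ i, π (w i) = v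
  · rw [if_pos h, if_neg (not_not.2 h), mul_zero]
  · rw [if_neg h, if_pos h, mul_one]

lemma notCovered_eq (x : V) (n : ℕ) : notCovered G x n = nc (Matrix.of (step G)) id n x univ := by
  rw [nc_eq_sum, notCovered, sum_filter]
  refine sum_congr rfl fun w _ => ?_
  by_cases h1 : w 0 = x <;> by_cases h2 : ∀ v, ∃ i, w i = v <;> simp [h1, h2]

lemma lintegral_cover_le (hμ : 0 < μ) (hμ1 : μ ≤ 1) (hp : 0 < p) (hp1 : p ≤ 1) {s₀ : St G} {Ω : Type}
    [MeasurableSpace Ω] {P : Measure Ω} {Y : ℝ → Ω → St G} (h : IsDynPerc G μ p s₀ P Y) {b : ℝ}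
    (hb : ∀ k, ∑ n ∈ range k, nc (PP G μ p) Prod.fst n s₀ univ ≤ b) :
    ∫⁻ ω, coverTime (fun t => (Y t ω).1) ∂P ≤ ENNReal.ofReal ((Lam G)⁻¹ * b) := by
  obtain ⟨-, hm, hf⟩ := h
  have hP0 := (env_PP (G := G) hμ hμ1 hp hp1).rk.nonneg
  set δ := (Lam G)⁻¹ with hδ
  have hδ0 : 0 < δ := inv_pos.2 (lt_of_lt_of_le one_pos one_le_Lam)
  set A : ℕ → Set Ω := fun n => ⋃ w ∈ univ.filter (fun w : Fin (n + 1) → St G => ¬ ∀ v, ∃ i, (w i).1 = v),
    {ω | ∀ i : Fin (n + 1), Y (i * δ) ω = w i} with hA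
  have hAm : ∀ n, MeasurableSet (A n) := fun n => Finset.measurableSet_biUnion _ fun w _ => by
    rw [Set.ofPred_forall]
    exact MeasurableSet.iInter fun i => hm _ _
  have hPA : ∀ n, P (A n) ≤ ENNReal.ofReal (nc (PP G μ p) Prod.fst n s₀ univ) := by
    intro n
    refine (measure_biUnion_finset_le _ _).trans (le_of_eq ?_)
    rw [nc_eq_sum, ENNReal.ofReal_sum_of_nonneg fun w _ => mul_nonneg (by split_ifs <;> norm_num)
      (prod_nonneg fun i _ => hP0 _ _)]
    refine sum_congr rfl fun w _ => ?_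
    rw [hf n (fun i => i * δ) (by simp) (fun i j hij => mul_le_mul_of_nonneg_right (by exact_mod_cast hij) hδ0.le) w]
    have : ∀ i : Fin n, ((i.succ : ℕ) : ℝ) * δ - ((i.castSucc : ℕ) : ℝ) * δ = δ := by
      intro i
      simp only [Fin.val_succ, Fin.val_castSucc]
      push_cast
      ring
    simp only [this]
    rfl
  have hpt : ∀ ω, coverTime (fun t => (Y t ω).1) ≤ ∑' n, ENNReal.ofReal δ * (A n).indicator 1 ω := by
    intro ω
    by_cases h1 : ∃ n, ω ∉ A n
    · classical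
      set m := Nat.find h1 with hm
      have h2 : ω ∉ A m := Nat.find_spec h1
      have h3 : ∀ v, ∃ s, 0 ≤ s ∧ s ≤ m * δ ∧ (Y s ω).1 = v := by
        intro v
        by_contra h4
        refine h2 (Set.mem_iUnion₂.2 ⟨fun i => Y (i * δ) ω, mem_filter.2 ⟨mem_univ _, fun h5 => ?_⟩, fun _ => rfl⟩)
        obtain ⟨i, hi⟩ := h5 v
        exact h4 ⟨i * δ, by positivity, mul_le_mul_of_nonneg_right (by exact_mod_cast Nat.lt_succ_iff.1 i.2) hδ0.le, hi⟩
      refine (iInf₂_le (m * δ) h3).trans (le_trans (le_of_eq ?_) (ENNReal.sum_le_tsum (range m)))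
      rw [sum_congr rfl fun n hn => by
        rw [Set.indicator_of_mem (not_not.1 (Nat.find_min h1 (mem_range.1 hn))), Pi.one_apply, mul_one],
        sum_const, card_range, nsmul_eq_mul, ENNReal.ofReal_mul (Nat.cast_nonneg _), ENNReal.ofReal_natCast]
    · push Not at h1
      simp only [Set.indicator_of_mem (h1 _), Pi.one_apply, mul_one]
      rw [ENNReal.tsum_const_eq_top_of_ne_zero (by simpa using hδ0)]
      exact le_top
  refine (lintegral_mono hpt).trans ?_
  rw [lintegral_tsum fun n => ((measurable_one.indicator (hAm n)).const_mul _).aemeasurable]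
  refine ENNReal.tsum_le_of_sum_range_le fun k => ?_
  calc _ ≤ ∑ n ∈ range k, ENNReal.ofReal δ * ENNReal.ofReal (nc (PP G μ p) Prod.fst n s₀ univ) := by
        refine sum_le_sum fun n _ => ?_
        rw [lintegral_const_mul' _ _ ENNReal.ofReal_ne_top, lintegral_indicator_one (hAm n)]
        exact mul_le_mul_right (hPA n) _
    _ ≤ _ := by
        rw [← mul_sum, ← ENNReal.ofReal_sum_of_nonneg fun n _ => nc_nonneg hP0 _ _ _, ENNReal.ofReal_mul hδ0.le]
        exact mul_le_mul_right (ENNReal.ofReal_le_ofReal (hb k)) _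

/-- the universal constant -/
noncomputable def CC : ℝ := 4 * (7 + 24 * (25 * 3504 ^ 2 + 900) * 16 / (1 - Real.exp (-(1 / 14400))))

lemma c₀_pos : 0 < 1 - Real.exp (-(1 / 14400)) := sub_pos.2 (Real.exp_lt_one_iff.2 (by norm_num))

lemma CC_pos : 0 < CC := by
  have := c₀_pos
  unfold CC
  positivity

lemma steps (hc : G.Connected) [Nontrivial V] (hμ : 0 < μ) (hμ1 : μ ≤ 1) (hp : 0 < p) (hp1 : p ≤ 1) {B : ℝ}
    (hB : ∀ x k, ∑ n ∈ range k, nc (Matrix.of (step G)) id n x univ ≤ B) :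
    ∃ m : ℕ, (∀ s, nc (PP G μ p) Prod.fst m s univ ≤ 3 / 4) ∧ (Lam G)⁻¹ * (4 * m) ≤ CC / (μ * p) * B := by
  have hdeg : ∀ x, 0 < G.degree x := fun x => hc.preconnected.degree_pos_of_nontrivial x
  obtain ⟨d, F, D, g, hD, hT⟩ := geo_exists hc
  have hT := hT B hB
  have env := env_PP (G := G) hμ hμ1 hp hp1
  have hL := one_le_Lam (G := G)
  set δ := (Lam G)⁻¹ with hδ
  have hδ0 : 0 < δ := inv_pos.2 (by linarith)
  have hδ1 : δ ≤ 1 := inv_le_one_of_one_le₀ hL
  set c := δ * μ * p / 24 with hcdef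
  have hc0 : 0 < c := env.c_pos
  have hn2 : 2 ≤ Fintype.card V := Fintype.one_lt_card
  set n : ℝ := (Fintype.card V : ℝ) with hn
  have hn2' : (2 : ℝ) ≤ n := by rw [hn]; exact_mod_cast hn2
  have hBn : n - 1 ≤ B := by
    obtain ⟨x⟩ := (inferInstance : Nonempty V)
    have h1 := hB x (Fintype.card V - 1)
    have h2 : ∑ i ∈ range (Fintype.card V - 1), nc (Matrix.of (step G)) id i x univ =
        ∑ _i ∈ range (Fintype.card V - 1), (1 : ℝ) := sum_congr rfl fun i hi =>
      nc_eq_one (P := Matrix.of (step G)) (step_row hdeg) i x univ (by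
        have := mem_range.1 hi
        rw [card_univ]; omega)
    rw [h2, sum_const, card_range, nsmul_eq_mul, mul_one, Nat.cast_sub (by omega)] at h1
    simpa using h1
  have hm2 : n ≤ ∑ x, (G.degree x : ℝ) := by
    calc n = ∑ _x : V, (1 : ℝ) := by simp [hn]
      _ ≤ _ := sum_le_sum fun x _ => by exact_mod_cast hdeg x
  have hF := g.F_nonneg univ univ_nonempty
  have hD0 := g.D_pos
  have hc₀ := c₀_pos
  set c₀ := 1 - Real.exp (-(1 / 14400)) with hc₀def
  have hnF : n * F univ ^ 2 ≤ 16 / c₀ * B := by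
    rw [div_mul_eq_mul_div, le_div_iff₀ hc₀]
    have := mul_le_mul_of_nonneg_left (mul_le_mul_of_nonneg_right hm2 (sq_nonneg (F univ))) hc₀.le
    linarith
  refine ⟨⌈n * (25 * (3264 * F univ + 8 * D) ^ 2) / c⌉₊ + (⌈2 * n / (μ * δ)⌉₊ + ⌈n * D ^ 2 / c⌉₊),
    env.worst g _ _ _ (mix_PP hp hp1 hμ _ ?_) ?_ ?_, ?_⟩
  · have h1 : 2 * n ≤ μ * (⌈2 * n / (μ * δ)⌉₊ * δ) := by
      have := Nat.le_ceil (2 * n / (μ * δ))
      rw [div_le_iff₀ (by positivity)] at this
      linarith
    have h2 : 2 * (Fintype.card G.edgeFinset : ℝ) ≤ n ^ 2 := by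
      have h3 : ∑ x, (G.degree x : ℝ) = 2 * (Fintype.card G.edgeFinset : ℝ) := by
        rw [Fintype.card_coe]; exact_mod_cast G.sum_degrees_eq_twice_card_edges
      rw [← h3]
      calc _ ≤ ∑ _x : V, n := sum_le_sum fun x _ => by rw [hn]; exact_mod_cast (G.degree_lt_card_verts x).le
        _ = _ := by simp [hn, sq]
    have h3 : n ^ 2 ≤ Real.exp (μ * (⌈2 * n / (μ * δ)⌉₊ * δ)) := by
      refine le_trans ?_ (Real.exp_le_exp.2 h1)
      rw [two_mul, Real.exp_add, sq]
      have := Real.add_one_le_exp n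
      exact mul_le_mul (by linarith) (by linarith) (by linarith) (Real.exp_pos _).le
    rw [Real.exp_neg, ← div_eq_mul_inv, div_le_iff₀ (Real.exp_pos _)]
    linarith
  · have := Nat.le_ceil (n * D ^ 2 / c)
    rw [div_le_iff₀ hc0] at this
    linarith
  · have := Nat.le_ceil (n * (25 * (3264 * F univ + 8 * D) ^ 2) / c)
    rw [div_le_iff₀ hc0] at this
    linarith
  · have h1 := (Nat.ceil_lt_add_one (show 0 ≤ n * (25 * (3264 * F univ + 8 * D) ^ 2) / c by positivity)).le
    have h2 := (Nat.ceil_lt_add_one (show 0 ≤ 2 * n / (μ * δ) by positivity)).le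
    have h3 := (Nat.ceil_lt_add_one (show 0 ≤ n * D ^ 2 / c by positivity)).le
    have hμp : 0 < μ * p := by positivity
    have hμp1 : μ * p ≤ 1 := mul_le_one₀ hμ1 hp.le hp1
    have h4 : (3264 * F univ + 8 * D) ^ 2 ≤ (3504 * F univ) ^ 2 :=
      pow_le_pow_left₀ (by positivity) (by linarith) 2
    have h5 : D ^ 2 ≤ (30 * F univ) ^ 2 := pow_le_pow_left₀ hD0.le hD 2
    have h6 : μ * p * (δ * (n * (25 * (3264 * F univ + 8 * D) ^ 2) / c)) ≤ 24 * (25 * 3504 ^ 2) * (16 / c₀ * B) := by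
      have : μ * p * (δ * (n * (25 * (3264 * F univ + 8 * D) ^ 2) / c)) = 24 * 25 * (n * (3264 * F univ + 8 * D) ^ 2) := by
        rw [hcdef]; field_simp
      rw [this]
      have := mul_le_mul_of_nonneg_left h4 (show 0 ≤ n by linarith)
      nlinarith
    have h7 : μ * p * (δ * (n * D ^ 2 / c)) ≤ 24 * 900 * (16 / c₀ * B) := by
      have : μ * p * (δ * (n * D ^ 2 / c)) = 24 * (n * D ^ 2) := by
        rw [hcdef]; field_simp
      rw [this]
      have := mul_le_mul_of_nonneg_left h5 (show 0 ≤ n by linarith)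
      nlinarith
    have h8 : μ * p * (δ * (2 * n / (μ * δ))) ≤ 4 * B := by
      have : μ * p * (δ * (2 * n / (μ * δ))) = p * (2 * n) := by field_simp
      rw [this]
      nlinarith
    have h9 : μ * p * δ ≤ B := (mul_le_one₀ hμp1 hδ0.le hδ1).trans (by linarith)
    rw [div_mul_eq_mul_div, le_div_iff₀ hμp]
    have h10 := mul_le_mul_of_nonneg_left (add_le_add h1 (add_le_add h2 h3)) (show 0 ≤ μ * p * δ by positivity)
    have h11 : CC * B = 4 * (7 * B + 24 * (25 * 3504 ^ 2 + 900) * (16 / c₀ * B)) := by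
      rw [CC, ← hc₀def]; ring
    push_cast
    rw [h11]
    linarith

theorem main (hc : G.Connected) (hμ : 0 < μ) (hμ1 : μ ≤ 1) (hp : 0 < p) (hp1 : p ≤ 1) {s₀ : St G} {Ω : Type}
    [MeasurableSpace Ω] {P : Measure Ω} {Y : ℝ → Ω → St G} (h : IsDynPerc G μ p s₀ P Y) :
    ∫⁻ ω, coverTime (fun t => (Y t ω).1) ∂P ≤ ENNReal.ofReal (CC / (μ * p)) * srwCover G := by
  have hC := CC_pos
  rcases subsingleton_or_nontrivial V with hV | hV
  · refine (lintegral_cover_le hμ hμ1 hp hp1 h (b := 0) fun k => (sum_eq_zero fun n _ => nc_eq_zero ?_ n).le).trans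
      (by simp)
    exact eq_empty_of_forall_notMem fun x hx => ne_of_mem_erase hx (Subsingleton.elim _ _)
  by_cases hT : srwCover G = ⊤
  · rw [hT, ENNReal.mul_top (by simpa using (show 0 < CC / (μ * p) by positivity))]
    exact le_top
  have hB : ∀ x k, ∑ n ∈ range k, nc (Matrix.of (step G)) id n x univ ≤ (srwCover G).toReal := by
    intro x k
    rw [← ENNReal.ofReal_le_iff_le_toReal hT,
      ENNReal.ofReal_sum_of_nonneg fun n _ => nc_nonneg (P := Matrix.of (step G)) step_nonneg _ _ _]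
    simp only [← notCovered_eq]
    exact (ENNReal.sum_le_tsum _).trans (le_iSup (fun x => ∑' n, ENNReal.ofReal (notCovered G x n)) x)
  obtain ⟨m, h1, h2⟩ := steps hc hμ hμ1 hp hp1 hB
  have env := env_PP (G := G) hμ hμ1 hp hp1
  refine (lintegral_cover_le hμ hμ1 hp hp1 h (sum_nc_le env.rk.nonneg env.rk.row h1 s₀)).trans
    ((ENNReal.ofReal_le_ofReal h2).trans (le_of_eq ?_))
  rw [ENNReal.ofReal_mul (by positivity), ENNReal.ofReal_toReal hT]

end Pool.Agent.H548Z.Cov
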