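import Mathlib

set_option autoImplicit false

namespace Pool.Agent.H548Z.Draw

open Set

/-- The unit sphere in Euclidean 3-space. -/
abbrev S2 : Type := Metric.sphere (0 : EuclideanSpace ℝ (Fin 3)) 1

/-- A drawing of the complete graph on the vertex set `V` in the sphere: distinct points for the
vertices, and for every pair of distinct vertices a simple arc between their points (the same set
for both orders of the pair) passing through no other vertex. -/
structure Drawing (V : Type) where
  pt : V → S2
  arc : V → V → unitInterval → S2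
  pt_inj : Function.Injective pt
  arc_cont : ∀ u v, u ≠ v → Continuous (arc u v)
  arc_inj : ∀ u v, u ≠ v → Function.Injective (arc u v)
  arc_zero : ∀ u v, u ≠ v → arc u v 0 = pt u
  arc_one : ∀ u v, u ≠ v → arc u v 1 = pt v
  arc_symm : ∀ u v, u ≠ v → range (arc u v) = range (arc v u)
  arc_avoid : ∀ u v w, u ≠ v → pt w ∈ range (arc u v) → w = u ∨ w = v

/-- The sets `A` and `B` cross transversally at `x`: a chart of the sphere around `x` sends `x` to
the origin, `A` to the vertical axis and `B` to the horizontal axis of the plane. -/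
def Crossing (A B : Set S2) (x : S2) : Prop :=
  ∃ e : OpenPartialHomeomorph S2 (ℝ × ℝ), x ∈ e.source ∧ e x = 0 ∧
    ∀ p ∈ e.source, (p ∈ A ↔ (e p).1 = 0) ∧ (p ∈ B ↔ (e p).2 = 0)

namespace Drawing

variable {V : Type}

/-- The point set of the edge `uv`. -/
def edge (D : Drawing V) (u v : V) : Set S2 := range (D.arc u v)

/-- The induced drawing of the complete subgraph on the vertex set `J`. -/
def induce (D : Drawing V) (J : Set V) : Drawing J where
  pt := fun u => D.pt u
  arc := fun u v => D.arc u v
  pt_inj := fun _ _ h => Subtype.ext (D.pt_inj h)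
  arc_cont := fun u v h => D.arc_cont u v (Subtype.coe_ne_coe.2 h)
  arc_inj := fun u v h => D.arc_inj u v (Subtype.coe_ne_coe.2 h)
  arc_zero := fun u v h => D.arc_zero u v (Subtype.coe_ne_coe.2 h)
  arc_one := fun u v h => D.arc_one u v (Subtype.coe_ne_coe.2 h)
  arc_symm := fun u v h => D.arc_symm u v (Subtype.coe_ne_coe.2 h)
  arc_avoid := fun u v w h hw =>
    (D.arc_avoid u v w (Subtype.coe_ne_coe.2 h) hw).imp Subtype.ext Subtype.ext

/-- Good drawing: two edges with a common end meet only in that end; two edges without a common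
end meet in at most one point, where they cross transversally; no point lies on three pairwise
non-adjacent edges. -/
def Good (D : Drawing V) : Prop :=
  (∀ u v w, u ≠ v → u ≠ w → v ≠ w → D.edge u v ∩ D.edge u w ⊆ {D.pt u}) ∧
  (∀ u v w z, [u, v, w, z].Nodup → (D.edge u v ∩ D.edge w z).Subsingleton ∧
    ∀ x ∈ D.edge u v ∩ D.edge w z, Crossing (D.edge u v) (D.edge w z) x) ∧
  (∀ a b c d e f, [a, b, c, d, e, f].Nodup → D.edge a b ∩ D.edge c d ∩ D.edge e f = ∅)

/-- The point set `D[T]` of the complete subgraph on the vertex set `T`: its vertices and edges.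
For `T` with three elements this is the closed curve of the 3-cycle `T`. -/
def body (D : Drawing V) (T : Set V) : Set S2 :=
  D.pt '' T ∪ ⋃ u ∈ T, ⋃ v ∈ T, ⋃ (_ : u ≠ v), D.edge u v

/-- `Δ` is a side of the 3-cycle `T`: a component of the complement of the curve `D[T]` together
with the curve. -/
def IsSide (D : Drawing V) (T : Set V) (Δ : Set S2) : Prop :=
  ∃ x ∉ D.body T, Δ = connectedComponentIn (D.body T)ᶜ x ∪ D.body T

/-- Every edge both of whose ends lie in `Δ` is contained in `Δ`. -/
def ConvexSet (D : Drawing V) (Δ : Set S2) : Prop :=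
  ∀ x y, x ≠ y → D.pt x ∈ Δ → D.pt y ∈ Δ → D.edge x y ⊆ Δ

/-- Convex drawing: every 3-cycle has a convex side. -/
def IsConvex (D : Drawing V) : Prop :=
  ∀ T : Set V, T.ncard = 3 → ∃ Δ, D.IsSide T Δ ∧ D.ConvexSet Δ

/-- h-convex drawing: a convex side `Δ T` can be chosen for every 3-cycle `T` so that, whenever
`D[T']` lies in `Δ T`, the side of `T'` contained in `Δ T` is convex. -/
def HConvex (D : Drawing V) : Prop :=
  D.IsConvex ∧ ∃ Δ : Set V → Set S2,
    (∀ T : Set V, T.ncard = 3 → D.IsSide T (Δ T) ∧ D.ConvexSet (Δ T)) ∧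
    ∀ T T' : Set V, T.ncard = 3 → T'.ncard = 3 → D.body T' ⊆ Δ T →
      ∃ Δ', D.IsSide T' Δ' ∧ Δ' ⊆ Δ T ∧ D.ConvexSet Δ'

/-- `Γ` is a face of the drawing: a component of the complement of the whole drawing. -/
def IsFace (D : Drawing V) (Γ : Set S2) : Prop :=
  ∃ x ∉ D.body univ, Γ = connectedComponentIn (D.body univ)ᶜ x

/-- f-convex drawing: there is a face `Γ` such that for every 3-cycle the side disjoint from `Γ`
is convex. -/
def FConvex (D : Drawing V) : Prop :=
  D.IsConvex ∧ ∃ Γ, D.IsFace Γ ∧
    ∀ T : Set V, T.ncard = 3 → ∃ Δ, D.IsSide T Δ ∧ Disjoint Δ Γ ∧ D.ConvexSet Δ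

end Drawing

end Pool.Agent.H548Z.Draw
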