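import Mathlib
import Pool.Agent.H548Z.DrawDefs

set_option autoImplicit false

namespace Pool.Agent.H548Z.Draw

open Set

abbrev E : Type := EuclideanSpace ℝ (Fin 3)

def det (a b c : E) : ℝ :=
  a 0 * (b 1 * c 2 - b 2 * c 1) - a 1 * (b 0 * c 2 - b 2 * c 0) + a 2 * (b 0 * c 1 - b 1 * c 0)

lemma det_add (a b x y : E) : det a b (x + y) = det a b x + det a b y := by
  simp [det]; ring
lemma det_smul (a b x : E) (s : ℝ) : det a b (s • x) = s * det a b x := by
  simp [det]; ring
lemma det_neg (a b x : E) : det a b (-x) = - det a b x := by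
  simp [det]; ring
lemma det_zero (a b : E) : det a b 0 = 0 := by simp [det]
lemma det_aba (a b : E) : det a b a = 0 := by simp [det]; ring
lemma det_abb (a b : E) : det a b b = 0 := by simp [det]; ring
lemma det_aab (a b : E) : det a a b = 0 := by simp [det]; ring
lemma det_cyc (a b c : E) : det b c a = det a b c := by simp [det]; ring
lemma det_swap (a b c : E) : det b a c = - det a b c := by simp [det]; ring
lemma det_swap' (a b c : E) : det a c b = - det a b c := by simp [det]; ring

lemma det_comb (a b x y : E) (s t : ℝ) : det a b (s • x + t • y) = s * det a b x + t * det a b y := by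
  rw [det_add, det_smul, det_smul]

lemma cramer (a b c p : E) :
    det a b c • p = det b c p • a + det c a p • b + det a b p • c := by
  ext i
  fin_cases i <;> simp [det] <;> ring

lemma continuous_det (a b : E) : Continuous (fun p : E => det a b p) := by
  unfold det; fun_prop

lemma norm_coe (p : S2) : ‖(p : E)‖ = 1 := by
  simp

lemma coe_ne_zero (p : S2) : (p : E) ≠ 0 := by
  intro h
  have := norm_coe p
  rw [h, norm_zero] at this
  exact zero_ne_one this

open Classical in
noncomputable def proj (v : E) : S2 :=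
  if h : v = 0 then ⟨EuclideanSpace.single 0 1, by simp⟩
  else ⟨‖v‖⁻¹ • v, by
    have : ‖v‖ ≠ 0 := norm_ne_zero_iff.2 h
    simp [norm_smul, this]⟩

lemma proj_val {v : E} (h : v ≠ 0) : (proj v : E) = ‖v‖⁻¹ • v := by
  unfold proj; rw [dif_neg h]

lemma eq_proj {p : S2} {v : E} {c : ℝ} (hc : 0 ≤ c) (h : (p : E) = c • v) : p = proj v := by
  have hv : v ≠ 0 := by
    rintro rfl
    rw [smul_zero] at h
    exact coe_ne_zero p h
  have hn := norm_coe p
  rw [h, norm_smul, Real.norm_eq_abs, abs_of_nonneg hc] at hn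
  have hv' : ‖v‖ ≠ 0 := norm_ne_zero_iff.2 hv
  apply Subtype.ext
  rw [proj_val hv, h]
  congr 1
  field_simp
  linarith

lemma proj_coe (p : S2) : proj (p : E) = p := (eq_proj (c := 1) zero_le_one (by simp)).symm

lemma continuousOn_proj : ContinuousOn proj {v : E | v ≠ 0} := by
  rw [Topology.IsInducing.subtypeVal.continuousOn_iff]
  have : ContinuousOn (fun v : E => ‖v‖⁻¹ • v) {v : E | v ≠ 0} := by
    refine ContinuousOn.smul (ContinuousOn.inv₀ continuous_norm.continuousOn ?_) continuousOn_id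
    intro v hv
    exact norm_ne_zero_iff.2 hv
  exact this.congr fun v hv => proj_val hv

lemma det_proj (a b : E) {v : E} (h : v ≠ 0) : det a b (proj v) = ‖v‖⁻¹ * det a b v := by
  rw [proj_val h, det_smul]

lemma inv_norm_pos {v : E} (h : v ≠ 0) : 0 < ‖v‖⁻¹ := inv_pos.2 (norm_pos_iff.2 h)

/-- a cone section of the sphere is preconnected -/
lemma preconn {C : Set E} (hC : Convex ℝ C) (h0 : (0 : E) ∉ C)
    (hs : ∀ v ∈ C, ∀ c : ℝ, 0 < c → c • v ∈ C) : IsPreconnected {p : S2 | (p : E) ∈ C} := by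
  have : {p : S2 | (p : E) ∈ C} = proj '' C := by
    ext p
    constructor
    · intro hp
      exact ⟨p, hp, proj_coe p⟩
    · rintro ⟨v, hv, rfl⟩
      have hv0 : v ≠ 0 := fun h => h0 (h ▸ hv)
      show (proj v : E) ∈ C
      rw [proj_val hv0]
      exact hs v hv _ (inv_norm_pos hv0)
  rw [this]
  refine hC.isPreconnected.image _ (continuousOn_proj.mono ?_)
  intro v hv h
  exact h0 (h ▸ hv)

def seg (a b : E) : Set S2 := {p | ∃ s t : ℝ, 0 ≤ s ∧ 0 ≤ t ∧ (p : E) = s • a + t • b}

lemma seg_comm (a b : E) : seg a b = seg b a := by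
  ext p
  constructor <;> rintro ⟨s, t, hs, ht, h⟩ <;> exact ⟨t, s, ht, hs, by rw [h, add_comm]⟩

lemma comb_eq {a b c : E} (h : det a b c ≠ 0) {s t s' t' : ℝ} (e : s • a + t • b = s' • a + t' • b) :
    s = s' ∧ t = t' := by
  have h1 := congrArg (det b c) e
  have h2 := congrArg (det c a) e
  rw [det_comb, det_comb, det_aba, det_cyc a b c] at h1
  rw [det_comb, det_comb, det_abb, det_cyc b c a, det_cyc a b c] at h2
  constructor
  · apply mul_right_cancel₀ h; linarith
  · apply mul_right_cancel₀ h; linarith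

noncomputable def garc (a b : E) (t : unitInterval) : S2 := proj ((1 - (t : ℝ)) • a + (t : ℝ) • b)

lemma comb_ne_zero {a b c : E} (h : det a b c ≠ 0) (t : ℝ) : (1 - t) • a + t • b ≠ 0 := by
  intro e
  have := comb_eq h (s := 1 - t) (t := t) (s' := 0) (t' := 0) (by rw [e]; simp)
  linarith [this.1, this.2]

lemma range_garc {a b c : E} (h : det a b c ≠ 0) : range (garc a b) = seg a b := by
  ext p
  constructor
  · rintro ⟨t, rfl⟩
    have h0 := comb_ne_zero h t
    refine ⟨‖(1 - (t:ℝ)) • a + (t:ℝ) • b‖⁻¹ * (1 - t), ‖(1 - (t:ℝ)) • a + (t:ℝ) • b‖⁻¹ * t, ?_, ?_, ?_⟩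
    · exact mul_nonneg (inv_norm_pos h0).le (by linarith [t.2.2])
    · exact mul_nonneg (inv_norm_pos h0).le t.2.1
    · unfold garc
      rw [proj_val h0, smul_add, smul_smul, smul_smul]
  · rintro ⟨s, t, hs, ht, e⟩
    have hst : 0 < s + t := by
      by_contra hcon
      have hs0 : s = 0 := by linarith
      have ht0 : t = 0 := by linarith
      rw [hs0, ht0] at e
      simp at e
      exact coe_ne_zero p e
    refine ⟨⟨t / (s + t), div_nonneg ht hst.le, (div_le_one hst).2 (by linarith)⟩, ?_⟩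
    symm
    refine eq_proj hst.le ?_
    rw [e, smul_add, smul_smul, smul_smul]
    congr 2
    · field_simp; ring
    · field_simp

lemma garc_cont {a b c : E} (h : det a b c ≠ 0) : Continuous (garc a b) := by
  unfold garc
  refine continuousOn_proj.comp_continuous (by fun_prop) ?_
  intro t
  exact comb_ne_zero h t

lemma garc_inj {a b c : E} (h : det a b c ≠ 0) : Function.Injective (garc a b) := by
  intro t t' e
  have h1 := comb_ne_zero h t
  have h2 := comb_ne_zero h t'
  have e' := congrArg (Subtype.val) e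
  unfold garc at e'
  rw [proj_val h1, proj_val h2, smul_add, smul_add, smul_smul, smul_smul, smul_smul, smul_smul] at e'
  obtain ⟨e1, e2⟩ := comb_eq h e'
  have hn : ‖(1 - (t:ℝ)) • a + (t:ℝ) • b‖⁻¹ = ‖(1 - (t':ℝ)) • a + (t':ℝ) • b‖⁻¹ := by linarith
  rw [hn] at e2
  exact Subtype.ext (mul_left_cancel₀ (inv_norm_pos h2).ne' e2)

lemma garc_zero (a b : E) : garc a b 0 = proj a := by simp [garc]
lemma garc_one (a b : E) : garc a b 1 = proj b := by simp [garc]

lemma ne_zero_of_det {a b c : E} (h : det a b c ≠ 0) : c ≠ 0 := by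
  rintro rfl; exact h (det_zero a b)

lemma det_seg {a b : E} {p : S2} (hp : p ∈ seg a b) : det a b p = 0 := by
  obtain ⟨s, t, -, -, e⟩ := hp
  rw [e, det_comb, det_aba, det_abb]; ring

lemma proj_notMem_seg {a b c : E} (h : det a b c ≠ 0) : proj c ∉ seg a b := by
  intro hp
  have := det_seg hp
  rw [det_proj a b (ne_zero_of_det h)] at this
  exact mul_ne_zero (inv_norm_pos (ne_zero_of_det h)).ne' h this

lemma proj_mem_seg_left {a : E} (b : E) (h : a ≠ 0) : proj a ∈ seg a b :=
  ⟨‖a‖⁻¹, 0, (inv_norm_pos h).le, le_rfl, by rw [proj_val h]; simp⟩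

lemma seg_inter_adj {a b c : E} (h : det a b c ≠ 0) : seg a b ∩ seg a c ⊆ {proj a} := by
  rintro p ⟨⟨s, t, hs, ht, e⟩, hp⟩
  have h1 := det_seg hp
  rw [e, det_comb, det_aba, det_swap' a b c] at h1
  have ht0 : t = 0 := by
    apply mul_right_cancel₀ h; linarith
  rw [ht0, zero_smul, add_zero] at e
  exact eq_proj hs e

/-! ### the two sides of a geodesic triangle -/

def Sm (a b c : E) : Set S2 := {p | 0 < det a b p ∧ 0 < det b c p ∧ 0 < det c a p}
def Bg (a b c : E) : Set S2 := {p | det a b p < 0 ∨ det b c p < 0 ∨ det c a p < 0}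
def Tri (a b c : E) : Set S2 := seg a b ∪ seg b c ∪ seg c a

lemma isOpen_Sm (a b c : E) : IsOpen (Sm a b c) := by
  have h := fun x y : E => (continuous_det x y).comp (continuous_subtype_val (p := fun v : E => v ∈ Metric.sphere (0:E) 1))
  exact (isOpen_lt continuous_const (h a b)).inter
    ((isOpen_lt continuous_const (h b c)).inter (isOpen_lt continuous_const (h c a)))

lemma isOpen_Bg (a b c : E) : IsOpen (Bg a b c) := by
  have h := fun x y : E => (continuous_det x y).comp (continuous_subtype_val (p := fun v : E => v ∈ Metric.sphere (0:E) 1))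
  exact (isOpen_lt (h a b) continuous_const).union
    ((isOpen_lt (h b c) continuous_const).union (isOpen_lt (h c a) continuous_const))

lemma convex_pos (a b : E) : Convex ℝ {v : E | 0 < det a b v} := by
  intro x hx y hy s t hs ht hst
  show 0 < det a b (s • x + t • y)
  rw [det_comb]
  have hx' : 0 < det a b x := hx
  have hy' : 0 < det a b y := hy
  rcases hs.eq_or_lt with h | h
  · have : t = 1 := by linarith
    rw [← h, this]; linarith
  · nlinarith [mul_pos h hx', mul_nonneg ht hy'.le]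

lemma preconn_Sm (a b c : E) : IsPreconnected (Sm a b c) := by
  have := preconn (C := {v : E | 0 < det a b v} ∩ ({v : E | 0 < det b c v} ∩ {v : E | 0 < det c a v}))
    ((convex_pos a b).inter ((convex_pos b c).inter (convex_pos c a)))
    (by simp [det_zero]) (by
      rintro v ⟨h1, h2, h3⟩ s hs
      refine ⟨?_, ?_, ?_⟩
      · show 0 < det a b (s • v); rw [det_smul]; exact mul_pos hs h1
      · show 0 < det b c (s • v); rw [det_smul]; exact mul_pos hs h2
      · show 0 < det c a (s • v); rw [det_smul]; exact mul_pos hs h3)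
  exact this

lemma preconn_neg (a b : E) : IsPreconnected {p : S2 | det a b p < 0} := by
  have := preconn (C := {v : E | 0 < det b a v}) (convex_pos b a) (by simp [det_zero]) (by
      rintro v h1 s hs
      show 0 < det b a (s • v); rw [det_smul]; exact mul_pos hs h1)
  have e : {p : S2 | det a b p < 0} = {p : S2 | (p : E) ∈ {v : E | 0 < det b a v}} := by
    ext p
    show _ ↔ 0 < det b a p
    rw [det_swap a b]; simp
  rw [e]; exact this

lemma preconn_Bg {a b c : E} (h : 0 < det a b c) : IsPreconnected (Bg a b c) := by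
  have hv1 : det a b (-(a + b + c)) < 0 := by
    rw [det_neg, det_add, det_add, det_aba, det_abb]; linarith
  have hv2 : det b c (-(a + b + c)) < 0 := by
    rw [det_neg, det_add, det_add, det_aba, det_abb, det_cyc a b c]; linarith
  have hv3 : det c a (-(a + b + c)) < 0 := by
    rw [det_neg, det_add, det_add, det_aba, det_abb, det_cyc b c a, det_cyc a b c]; linarith
  have hv0 : -(a + b + c) ≠ 0 := ne_zero_of_det hv1.ne
  have hp := inv_norm_pos hv0
  have m1 : proj (-(a + b + c)) ∈ {p : S2 | det a b p < 0} := by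
    show det a b (proj _) < 0; rw [det_proj _ _ hv0]; exact mul_neg_of_pos_of_neg hp hv1
  have m2 : proj (-(a + b + c)) ∈ {p : S2 | det b c p < 0} := by
    show det b c (proj _) < 0; rw [det_proj _ _ hv0]; exact mul_neg_of_pos_of_neg hp hv2
  have m3 : proj (-(a + b + c)) ∈ {p : S2 | det c a p < 0} := by
    show det c a (proj _) < 0; rw [det_proj _ _ hv0]; exact mul_neg_of_pos_of_neg hp hv3
  exact IsPreconnected.union _ m1 (Or.inl m2) (preconn_neg a b)
    (IsPreconnected.union _ m2 m3 (preconn_neg b c) (preconn_neg c a))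

lemma seg_nonneg {a b c : E} (h : 0 < det a b c) {p : S2} (hp : p ∈ seg a b) :
    det a b p = 0 ∧ 0 ≤ det b c p ∧ 0 ≤ det c a p := by
  refine ⟨det_seg hp, ?_, ?_⟩
  · obtain ⟨s, t, hs, ht, e⟩ := hp
    rw [e, det_comb, det_aba, det_cyc a b c]; nlinarith
  · obtain ⟨s, t, hs, ht, e⟩ := hp
    rw [e, det_comb, det_abb, det_cyc b c a, det_cyc a b c]; nlinarith

lemma mem_seg_of {a b c : E} (h : 0 < det a b c) {p : S2} (h0 : det a b p = 0)
    (h1 : 0 ≤ det b c p) (h2 : 0 ≤ det c a p) : p ∈ seg a b := by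
  refine ⟨det b c p / det a b c, det c a p / det a b c, div_nonneg h1 h.le, div_nonneg h2 h.le, ?_⟩
  have e := cramer a b c p
  rw [h0, zero_smul, add_zero] at e
  have : (p : E) = (det a b c)⁻¹ • (det a b c • (p : E)) := by
    rw [smul_smul, inv_mul_cancel₀ h.ne', one_smul]
  calc (p : E) = (det a b c)⁻¹ • (det a b c • (p : E)) := this
    _ = _ := by rw [e, smul_add, smul_smul, smul_smul, div_eq_inv_mul, div_eq_inv_mul]

lemma mem_Tri_iff {a b c : E} (h : 0 < det a b c) (p : S2) :
    p ∈ Tri a b c ↔ p ∉ Sm a b c ∧ p ∉ Bg a b c := by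
  have h2 : 0 < det b c a := by rwa [det_cyc]
  have h3 : 0 < det c a b := by rwa [det_cyc]
  constructor
  · rintro ((hp | hp) | hp)
    · obtain ⟨e0, e1, e2⟩ := seg_nonneg h hp
      refine ⟨fun hs => by linarith [hs.1], ?_⟩
      rintro (hb | hb | hb) <;> linarith
    · obtain ⟨e0, e1, e2⟩ := seg_nonneg h2 hp
      refine ⟨fun hs => by linarith [hs.2.1], ?_⟩
      rintro (hb | hb | hb) <;> linarith
    · obtain ⟨e0, e1, e2⟩ := seg_nonneg h3 hp
      refine ⟨fun hs => by linarith [hs.2.2], ?_⟩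
      rintro (hb | hb | hb) <;> linarith
  · rintro ⟨hs, hb⟩
    have e1 : 0 ≤ det a b p := not_lt.1 fun hh => hb (Or.inl hh)
    have e2 : 0 ≤ det b c p := not_lt.1 fun hh => hb (Or.inr (Or.inl hh))
    have e3 : 0 ≤ det c a p := not_lt.1 fun hh => hb (Or.inr (Or.inr hh))
    rcases e1.eq_or_lt with f1 | f1
    · exact Or.inl (Or.inl (mem_seg_of h f1.symm e2 e3))
    rcases e2.eq_or_lt with f2 | f2
    · exact Or.inl (Or.inr (mem_seg_of h2 f2.symm e3 e1))
    rcases e3.eq_or_lt with f3 | f3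
    · exact Or.inr (mem_seg_of h3 f3.symm e1 e2)
    exact absurd ⟨f1, f2, f3⟩ hs

lemma disjoint_Sm_Bg (a b c : E) : Disjoint (Sm a b c) (Bg a b c) := by
  rw [Set.disjoint_left]
  rintro p ⟨h1, h2, h3⟩ (h | h | h) <;> linarith

lemma compl_Tri {a b c : E} (h : 0 < det a b c) : (Tri a b c)ᶜ = Sm a b c ∪ Bg a b c := by
  ext p
  rw [mem_compl_iff, mem_Tri_iff h, mem_union]
  by_cases h1 : p ∈ Sm a b c <;> by_cases h2 : p ∈ Bg a b c <;> simp [h1, h2]

lemma comp_of_union {U W : Set S2} (hU : IsOpen U) (hW : IsOpen W) (hd : Disjoint U W)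
    (hc : IsPreconnected U) {x : S2} (hx : x ∈ U) : connectedComponentIn (U ∪ W) x = U := by
  apply Subset.antisymm
  · refine IsPreconnected.subset_left_of_subset_union hU hW hd (connectedComponentIn_subset _ _) ?_
      isPreconnected_connectedComponentIn
    exact ⟨x, mem_connectedComponentIn (Or.inl hx), hx⟩
  · exact hc.subset_connectedComponentIn hx subset_union_left

lemma side_Sm {a b c : E} (h : 0 < det a b c) {x : S2} (hx : x ∈ Sm a b c) :
    connectedComponentIn (Tri a b c)ᶜ x ∪ Tri a b c = (Bg a b c)ᶜ := by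
  rw [compl_Tri h, comp_of_union (isOpen_Sm a b c) (isOpen_Bg a b c) (disjoint_Sm_Bg a b c) (preconn_Sm a b c) hx]
  ext p
  rw [mem_union, mem_Tri_iff h, mem_compl_iff]
  have h0 : p ∈ Sm a b c → p ∉ Bg a b c := fun hh => Set.disjoint_left.1 (disjoint_Sm_Bg a b c) hh
  by_cases h1 : p ∈ Sm a b c <;> by_cases h2 : p ∈ Bg a b c <;> simp_all

lemma side_Bg {a b c : E} (h : 0 < det a b c) {x : S2} (hx : x ∈ Bg a b c) :
    connectedComponentIn (Tri a b c)ᶜ x ∪ Tri a b c = (Sm a b c)ᶜ := by
  rw [compl_Tri h, union_comm (Sm a b c), comp_of_union (isOpen_Bg a b c) (isOpen_Sm a b c)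
    (disjoint_Sm_Bg a b c).symm (preconn_Bg h) hx]
  ext p
  rw [mem_union, mem_Tri_iff h, mem_compl_iff]
  have h0 : p ∈ Sm a b c → p ∉ Bg a b c := fun hh => Set.disjoint_left.1 (disjoint_Sm_Bg a b c) hh
  by_cases h1 : p ∈ Sm a b c <;> by_cases h2 : p ∈ Bg a b c <;> simp_all

lemma Sm_nonempty {a b c : E} (h : 0 < det a b c) : (Sm a b c).Nonempty := by
  have hv1 : 0 < det a b (a + b + c) := by
    rw [det_add, det_add, det_aba, det_abb]; linarith
  have hv2 : 0 < det b c (a + b + c) := by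
    rw [det_add, det_add, det_aba, det_abb, det_cyc a b c]; linarith
  have hv3 : 0 < det c a (a + b + c) := by
    rw [det_add, det_add, det_aba, det_abb, det_cyc b c a, det_cyc a b c]; linarith
  have hv0 : a + b + c ≠ 0 := ne_zero_of_det hv1.ne'
  have hp := inv_norm_pos hv0
  refine ⟨proj (a + b + c), ?_, ?_, ?_⟩ <;> rw [det_proj _ _ hv0] <;> exact mul_pos hp ‹_›

lemma Bg_nonempty {a b c : E} (h : 0 < det a b c) : (Bg a b c).Nonempty := by
  have hc : -c ≠ 0 := neg_ne_zero.2 (ne_zero_of_det h.ne')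
  refine ⟨proj (-c), Or.inl ?_⟩
  rw [det_proj _ _ hc, det_neg]
  exact mul_neg_of_pos_of_neg (inv_norm_pos hc) (by linarith)

/-- a preconnected set avoiding the triangle lies on one side -/
lemma subset_Sm {a b c : E} (h : 0 < det a b c) {Γ : Set S2} (hΓ : IsPreconnected Γ)
    (hd : Γ ⊆ (Tri a b c)ᶜ) {x : S2} (hx : x ∈ Γ) (hx' : x ∈ Sm a b c) : Γ ⊆ Sm a b c := by
  rw [compl_Tri h] at hd
  exact IsPreconnected.subset_left_of_subset_union (isOpen_Sm a b c) (isOpen_Bg a b c)
    (disjoint_Sm_Bg a b c) hd ⟨x, hx, hx'⟩ hΓ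

lemma subset_Bg {a b c : E} (h : 0 < det a b c) {Γ : Set S2} (hΓ : IsPreconnected Γ)
    (hd : Γ ⊆ (Tri a b c)ᶜ) {x : S2} (hx : x ∈ Γ) (hx' : x ∈ Bg a b c) : Γ ⊆ Bg a b c := by
  rw [compl_Tri h, union_comm] at hd
  exact IsPreconnected.subset_left_of_subset_union (isOpen_Bg a b c) (isOpen_Sm a b c)
    (disjoint_Sm_Bg a b c).symm hd ⟨x, hx, hx'⟩ hΓ

lemma notMem_Bg {a b c : E} {p : S2} :
    p ∉ Bg a b c ↔ 0 ≤ det a b p ∧ 0 ≤ det b c p ∧ 0 ≤ det c a p := by
  simp only [Bg, mem_ofPred_eq, not_or, not_lt]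

lemma proj_notMem_Bg {a b c v : E} (hv : v ≠ 0) :
    proj v ∉ Bg a b c ↔ 0 ≤ det a b v ∧ 0 ≤ det b c v ∧ 0 ≤ det c a v := by
  rw [notMem_Bg, det_proj _ _ hv, det_proj _ _ hv, det_proj _ _ hv,
    mul_nonneg_iff_of_pos_left (inv_norm_pos hv), mul_nonneg_iff_of_pos_left (inv_norm_pos hv),
    mul_nonneg_iff_of_pos_left (inv_norm_pos hv)]

lemma proj_mem_Sm {a b c v : E} (hv : v ≠ 0) :
    proj v ∈ Sm a b c ↔ 0 < det a b v ∧ 0 < det b c v ∧ 0 < det c a v := by
  simp only [Sm, mem_ofPred_eq]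
  rw [det_proj _ _ hv, det_proj _ _ hv, det_proj _ _ hv,
    mul_pos_iff_of_pos_left (inv_norm_pos hv), mul_pos_iff_of_pos_left (inv_norm_pos hv),
    mul_pos_iff_of_pos_left (inv_norm_pos hv)]

/-- the closed small side contains the arc between any two of its points -/
lemma seg_subset_small {a b c x y : E} (hx0 : x ≠ 0) (hy0 : y ≠ 0) (hx : proj x ∉ Bg a b c)
    (hy : proj y ∉ Bg a b c) : seg x y ⊆ (Bg a b c)ᶜ := by
  rw [proj_notMem_Bg hx0] at hx
  rw [proj_notMem_Bg hy0] at hy
  rintro p ⟨s, t, hs, ht, e⟩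
  rw [mem_compl_iff, notMem_Bg, e, det_comb, det_comb, det_comb]
  obtain ⟨x1, x2, x3⟩ := hx
  obtain ⟨y1, y2, y3⟩ := hy
  refine ⟨?_, ?_, ?_⟩ <;> positivity

/-- nested small sides -/
lemma small_subset_small {a b c x y z : E} (h : 0 < det x y z) (hx : proj x ∉ Bg a b c)
    (hy : proj y ∉ Bg a b c) (hz : proj z ∉ Bg a b c) : (Bg x y z)ᶜ ⊆ (Bg a b c)ᶜ := by
  have hz0 : z ≠ 0 := ne_zero_of_det h.ne'
  have hx0 : x ≠ 0 := ne_zero_of_det (a := y) (b := z) (by rw [det_cyc]; exact h.ne')
  have hy0 : y ≠ 0 := ne_zero_of_det (a := z) (b := x) (by rw [det_cyc, det_cyc]; exact h.ne')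
  rw [proj_notMem_Bg hx0] at hx
  rw [proj_notMem_Bg hy0] at hy
  rw [proj_notMem_Bg hz0] at hz
  intro p hp
  rw [mem_compl_iff, notMem_Bg] at hp ⊢
  obtain ⟨p1, p2, p3⟩ := hp
  have key : ∀ u w : E, 0 ≤ det u w x → 0 ≤ det u w y → 0 ≤ det u w z → 0 ≤ det u w p := by
    intro u w h1 h2 h3
    have e := congrArg (det u w) (cramer x y z p)
    rw [det_smul, det_add, det_add, det_smul, det_smul, det_smul] at e
    have : 0 ≤ det x y z * det u w p := by rw [e]; positivity
    exact (mul_nonneg_iff_of_pos_left h).1 this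
  exact ⟨key a b hx.1 hy.1 hz.1, key b c hx.2.1 hy.2.1 hz.2.1, key c a hx.2.2 hy.2.2 hz.2.2⟩

/-- separation certificate: the arc `xy` misses the open small side -/
lemma seg_subset_big {a b c x y u w : E} (h : 0 < det a b c) (ha : 0 ≤ det u w a) (hb : 0 ≤ det u w b)
    (hc : 0 ≤ det u w c) (hs : 0 < det u w a + det u w b + det u w c)
    (hx : det u w x ≤ 0) (hy : det u w y ≤ 0) : seg x y ⊆ (Sm a b c)ᶜ := by
  rintro p ⟨s, t, hs0, ht0, e⟩ ⟨p1, p2, p3⟩
  have e1 : det u w p ≤ 0 := by
    rw [e, det_comb]; nlinarith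
  have e2 := congrArg (det u w) (cramer a b c p)
  rw [det_smul, det_add, det_add, det_smul, det_smul, det_smul] at e2
  have e3 : 0 < det b c p * det u w a + det c a p * det u w b + det a b p * det u w c := by
    have m := min_le_left (det b c p) (min (det c a p) (det a b p))
    have m2 := (min_le_right (det b c p) (min (det c a p) (det a b p))).trans (min_le_left _ _)
    have m3 := (min_le_right (det b c p) (min (det c a p) (det a b p))).trans (min_le_right _ _)
    have m0 : 0 < min (det b c p) (min (det c a p) (det a b p)) := lt_min p2 (lt_min p3 p1)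
    nlinarith [mul_pos m0 hs, mul_le_mul_of_nonneg_right m ha, mul_le_mul_of_nonneg_right m2 hb,
      mul_le_mul_of_nonneg_right m3 hc]
  nlinarith

end Pool.Agent.H548Z.Draw
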