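import Mathlib
import Pool.Agent.H548Z.DrawGeo

set_option autoImplicit false

namespace Pool.Agent.H548Z.Draw

open Set

/-- gnomonic chart attached to a basis -/
noncomputable def gnom (w0 w1 w2 : E) (h : 0 < det w0 w1 w2) : OpenPartialHomeomorph S2 (ℝ × ℝ) where
  toFun := fun p => (det w2 w0 p / det w1 w2 p, det w0 w1 p / det w1 w2 p)
  invFun := fun y => proj (w0 + y.1 • w1 + y.2 • w2)
  source := {p | 0 < det w1 w2 p}
  target := univ
  map_source' := fun _ _ => mem_univ _
  map_target' := by
    intro y _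
    have h1 : det w1 w2 (w0 + y.1 • w1 + y.2 • w2) = det w0 w1 w2 := by
      rw [det_add, det_add, det_smul, det_smul, det_aba, det_abb, det_cyc w0 w1 w2]; ring
    have h0 : w0 + y.1 • w1 + y.2 • w2 ≠ 0 := ne_zero_of_det (by rw [h1]; exact h.ne')
    show 0 < det w1 w2 (proj _)
    rw [det_proj _ _ h0, h1]
    exact mul_pos (inv_norm_pos h0) h
  left_inv' := by
    intro p hp
    have hp' : 0 < det w1 w2 p := hp
    symm
    refine eq_proj (c := det w1 w2 p / det w0 w1 w2) (div_nonneg hp'.le h.le) ?_
    have e := cramer w0 w1 w2 p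
    have : (p : E) = (det w0 w1 w2)⁻¹ • (det w0 w1 w2 • (p : E)) := by
      rw [smul_smul, inv_mul_cancel₀ h.ne', one_smul]
    calc (p : E) = (det w0 w1 w2)⁻¹ • (det w0 w1 w2 • (p : E)) := this
      _ = _ := by
        rw [e]
        simp only [smul_add, smul_smul]
        congr 1
        · congr 1
          · rw [div_eq_inv_mul]
          · congr 1; field_simp
        · congr 1; field_simp
  right_inv' := by
    intro y _
    have h1 : det w1 w2 (w0 + y.1 • w1 + y.2 • w2) = det w0 w1 w2 := by
      rw [det_add, det_add, det_smul, det_smul, det_aba, det_abb, det_cyc w0 w1 w2]; ring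
    have h2 : det w2 w0 (w0 + y.1 • w1 + y.2 • w2) = y.1 * det w0 w1 w2 := by
      rw [det_add, det_add, det_smul, det_smul, det_aba, det_abb, det_cyc w1 w2 w0, det_cyc w0 w1 w2]; ring
    have h3 : det w0 w1 (w0 + y.1 • w1 + y.2 • w2) = y.2 * det w0 w1 w2 := by
      rw [det_add, det_add, det_smul, det_smul, det_aba, det_abb]; ring
    have h0 : w0 + y.1 • w1 + y.2 • w2 ≠ 0 := ne_zero_of_det (by rw [h1]; exact h.ne')
    have hn := inv_norm_pos h0
    rw [det_proj _ _ h0, det_proj _ _ h0, det_proj _ _ h0, h1, h2, h3]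
    ext
    · show _ = y.1; field_simp
    · show _ = y.2; field_simp
  open_source := isOpen_lt continuous_const ((continuous_det w1 w2).comp continuous_subtype_val)
  open_target := isOpen_univ
  continuousOn_toFun := by
    have hc := fun x y : E => (continuous_det x y).comp
      (continuous_subtype_val (p := fun v : E => v ∈ Metric.sphere (0:E) 1))
    refine ContinuousOn.prodMk ?_ ?_
    · exact (hc w2 w0).continuousOn.div (hc w1 w2).continuousOn fun p hp => (ne_of_gt hp)
    · exact (hc w0 w1).continuousOn.div (hc w1 w2).continuousOn fun p hp => (ne_of_gt hp)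
  continuousOn_invFun := by
    refine continuousOn_proj.comp (by fun_prop) ?_
    intro y _
    have h1 : det w1 w2 (w0 + y.1 • w1 + y.2 • w2) = det w0 w1 w2 := by
      rw [det_add, det_add, det_smul, det_smul, det_aba, det_abb, det_cyc w0 w1 w2]; ring
    exact ne_zero_of_det (by rw [h1]; exact h.ne')

/-- local description of an arc near an interior point -/
lemma local_seg {a c x b : E} {s t : ℝ} (ht : 0 < t) (hx : x = s • a + t • c)
    (h : 0 < det x b a) {p : S2} (hp : 0 < det b a p) (hp2 : 0 < s * det b a p + det x b p) :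
    p ∈ seg a c ↔ det a x p = 0 := by
  constructor
  · rintro ⟨u, v, -, -, e⟩
    rw [e, hx]
    simp [det]; ring
  · intro h0
    have e := cramer x b a p
    rw [h0, zero_smul, add_zero] at e
    refine ⟨(s * det b a p + det x b p) / det x b a, t * det b a p / det x b a,
      div_nonneg hp2.le h.le, div_nonneg (mul_pos ht hp).le h.le, ?_⟩
    have : (p : E) = (det x b a)⁻¹ • (det x b a • (p : E)) := by
      rw [smul_smul, inv_mul_cancel₀ h.ne', one_smul]
    calc (p : E) = (det x b a)⁻¹ • (det x b a • (p : E)) := this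
      _ = (det x b a)⁻¹ • (det b a p • (s • a + t • c) + det x b p • a) := by rw [e, ← hx]
      _ = _ := by
        generalize det x b a = D
        generalize det b a p = A
        generalize det x b p = B
        simp only [smul_add, smul_smul, div_eq_inv_mul, mul_add, add_smul]
        rw [mul_comm A s, mul_comm A t]
        abel

lemma crossing_aux {a c b d : E} {x : S2} {s t s' t' : ℝ} (hs : 0 < s) (ht : 0 < t) (hs' : 0 < s')
    (ht' : 0 < t') (e1 : (x : E) = s • a + t • c) (e2 : (x : E) = s' • b + t' • d)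
    (h : 0 < det x b a) : Crossing (seg a c) (seg b d) x := by
  have hc := fun x y : E => (continuous_det x y).comp
      (continuous_subtype_val (p := fun v : E => v ∈ Metric.sphere (0:E) 1))
  have hU : IsOpen ({p : S2 | 0 < s * det b a p + det x b p} ∩ {p : S2 | 0 < s' * det b a p + det a x p}) := by
    refine (isOpen_lt continuous_const ?_).inter (isOpen_lt continuous_const ?_)
    · exact (continuous_const.mul (hc b a)).add (hc x b)
    · exact (continuous_const.mul (hc b a)).add (hc a x)
  have hbx : 0 < det b a x := by rw [det_cyc]; exact h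
  refine ⟨(gnom x b a h).restrOpen _ hU, ⟨hbx, ?_, ?_⟩, ?_, ?_⟩
  · show 0 < s * det b a x + det x b x
    rw [det_aba]; nlinarith [mul_pos hs hbx]
  · show 0 < s' * det b a x + det a x x
    rw [det_abb]; nlinarith [mul_pos hs' hbx]
  · show (det a x x / det b a x, det x b x / det b a x) = 0
    rw [det_abb, det_aba]; simp
  · rintro p ⟨hp, hp1, hp2⟩
    have hp' : 0 < det b a p := hp
    constructor
    · show _ ↔ det a x p / det b a p = 0
      rw [local_seg ht e1 h hp' hp1, div_eq_zero_iff]
      exact ⟨Or.inl, fun hh => hh.resolve_right hp'.ne'⟩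
    · show _ ↔ det x b p / det b a p = 0
      have h' : 0 < det x (-a) b := by
        have : det x (-a) b = det x b a := by simp [det]; ring
        rw [this]; exact h
      have q1 : det (-a) b p = det b a p := by simp [det]; ring
      have q2 : det x (-a) p = det a x p := by simp [det]; ring
      have hp2' : 0 < s' * det b a p + det a x p := hp2
      rw [local_seg ht' e2 h' (by rw [q1]; exact hp') (by rw [q1, q2]; exact hp2'), div_eq_zero_iff,
        det_swap x b]
      exact ⟨fun hh => Or.inl (by linarith), fun hh => by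
        have := hh.resolve_right hp'.ne'
        linarith⟩

lemma pos_of_cross {a c b d : E} (h1 : det b d a ≠ 0) (h2 : det b d c ≠ 0) {x : S2} {s t : ℝ}
    (hs : 0 ≤ s) (ht : 0 ≤ t) (e : (x : E) = s • a + t • c) (hx : x ∈ seg b d) :
    0 < s ∧ 0 < t ∧ s * det b d a + t * det b d c = 0 := by
  have h0 := det_seg hx
  rw [e, det_comb] at h0
  have hne := coe_ne_zero x
  rcases hs.eq_or_lt with hs0 | hs0
  · have : t = 0 := by
      rw [← hs0] at h0
      apply mul_right_cancel₀ h2; linarith
    rw [← hs0, this] at e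
    simp at e
    exact absurd e hne
  rcases ht.eq_or_lt with ht0 | ht0
  · have : s = 0 := by
      rw [← ht0] at h0
      apply mul_right_cancel₀ h1; linarith
    linarith
  exact ⟨hs0, ht0, h0⟩

lemma crossing_seg {a c b d : E} (h1 : det b d a ≠ 0) (h2 : det b d c ≠ 0) (h3 : det a c b ≠ 0)
    (h4 : det a c d ≠ 0) {x : S2} (hx : x ∈ seg a c ∩ seg b d) : Crossing (seg a c) (seg b d) x := by
  obtain ⟨hx1, hx2⟩ := hx
  obtain ⟨s, t, hs, ht, e1⟩ := id hx1
  obtain ⟨s', t', hs', ht', e2⟩ := id hx2
  obtain ⟨hs0, ht0, -⟩ := pos_of_cross h1 h2 hs ht e1 hx2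
  obtain ⟨hs0', ht0', -⟩ := pos_of_cross h3 h4 hs' ht' e2 hx1
  have k1 : det x b a = t * det a c b := by rw [e1]; simp [det]; ring
  have k2 : det x b c = - (s * det a c b) := by rw [e1]; simp [det]; ring
  rcases lt_or_gt_of_ne h3 with h | h
  · rw [seg_comm a c]
    refine crossing_aux ht0 hs0 hs0' ht0' (by rw [e1, add_comm]) e2 ?_
    rw [k2]; nlinarith [mul_pos hs0 (neg_pos.2 h)]
  · refine crossing_aux hs0 ht0 hs0' ht0' e1 e2 ?_
    rw [k1]; exact mul_pos ht0 h

lemma subsingleton_seg {a c b d : E} (h1 : det b d a ≠ 0) (h2 : det b d c ≠ 0) :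
    (seg a c ∩ seg b d).Subsingleton := by
  rintro p ⟨⟨s, t, hs, ht, e1⟩, hp⟩ q ⟨⟨s', t', hs', ht', e2⟩, hq⟩
  obtain ⟨hs0, ht0, k1⟩ := pos_of_cross h1 h2 hs ht e1 hp
  obtain ⟨hs0', ht0', k2⟩ := pos_of_cross h1 h2 hs' ht' e2 hq
  have k : s * t' = t * s' := by
    apply mul_right_cancel₀ h1
    have a1 : s * det b d a = - (t * det b d c) := by linarith
    have a2 : s' * det b d a = - (t' * det b d c) := by linarith
    calc s * t' * det b d a = t' * (s * det b d a) := by ring
      _ = t * (s' * det b d a) := by rw [a1, a2]; ring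
      _ = _ := by ring
  have e : (p : E) = (s / s') • (q : E) := by
    rw [e1, e2, smul_add, smul_smul, smul_smul]
    congr 2
    · field_simp
    · field_simp; linarith
  rw [eq_proj (div_nonneg hs hs') e, proj_coe]

/-- signs at a crossing -/
lemma cross_signs {a c b d : E} (h1 : det b d a ≠ 0) (h2 : det b d c ≠ 0) (h3 : det a c b ≠ 0)
    (h4 : det a c d ≠ 0) {x : S2} (hx1 : x ∈ seg a c) (hx2 : x ∈ seg b d) :
    det b d a * det b d c < 0 ∧ det a c b * det a c d < 0 ∧ det b d a * det a c b < 0 := by
  obtain ⟨s, t, hs, ht, e1⟩ := id hx1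
  obtain ⟨s', t', hs', ht', e2⟩ := id hx2
  obtain ⟨hs0, ht0, k1⟩ := pos_of_cross h1 h2 hs ht e1 hx2
  obtain ⟨hs0', ht0', k2⟩ := pos_of_cross h3 h4 hs' ht' e2 hx1
  have q1 : 0 < det b d a * det b d a := mul_self_pos.2 h1
  have q3 : 0 < det a c b * det a c b := mul_self_pos.2 h3
  refine ⟨?_, ?_, ?_⟩
  · by_contra hcon
    have := congrArg (· * det b d a) k1
    simp only [zero_mul] at this
    nlinarith [mul_pos hs0 q1, mul_nonneg ht (not_lt.1 hcon)]
  · by_contra hcon
    have := congrArg (· * det a c b) k2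
    simp only [zero_mul] at this
    nlinarith [mul_pos hs0' q3, mul_nonneg ht' (not_lt.1 hcon)]
  · have m1 : det a b x = - (t * det a c b) := by rw [e1]; simp [det]; ring
    have m2 : det a b x = t' * det b d a := by rw [e2]; simp [det]; ring
    by_contra hcon
    have : t' * det b d a * det a c b = - (t * det a c b) * det a c b := by rw [← m2, m1]
    nlinarith [mul_pos ht0 q3, mul_nonneg ht' (not_lt.1 hcon)]

lemma triple_eq {a b c d e f : E} {x : S2} (h1 : x ∈ seg a b) (h2 : x ∈ seg c d) (h3 : x ∈ seg e f)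
    (g1 : det c d a ≠ 0) (g2 : det c d b ≠ 0) :
    det c d a * det e f b = det c d b * det e f a := by
  obtain ⟨s, t, hs, ht, e1⟩ := id h1
  obtain ⟨hs0, ht0, k1⟩ := pos_of_cross g1 g2 hs ht e1 h2
  have k2 := det_seg h3
  rw [e1, det_comb] at k2
  apply mul_left_cancel₀ (mul_pos hs0 ht0).ne'
  have a1 : s * det c d a = - (t * det c d b) := by linarith
  have a2 : t * det e f b = - (s * det e f a) := by linarith
  calc s * t * (det c d a * det e f b) = (s * det c d a) * (t * det e f b) := by ring
    _ = _ := by rw [a1, a2]; ring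

end Pool.Agent.H548Z.Draw
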