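import Mathlib
import Pool.Agent.H548Z.DrawCross

set_option autoImplicit false

namespace Pool.Agent.H548Z.Draw

open Set

variable {V : Type}

def GP (Q : V → E) : Prop := ∀ a b c, a ≠ b → a ≠ c → b ≠ c → det (Q a) (Q b) (Q c) ≠ 0

noncomputable def geo (Q : V → E) (hQ : GP Q) (h3 : ∀ a b : V, ∃ c, a ≠ c ∧ b ≠ c) : Drawing V where
  pt := fun u => proj (Q u)
  arc := fun u v => garc (Q u) (Q v)
  pt_inj := by
    intro u v h
    by_contra huv
    obtain ⟨c, h1, h2⟩ := h3 u v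
    have hd := hQ u c v h1 huv h2.symm
    have hu : Q u ≠ 0 := ne_zero_of_det (hQ c v u h2.symm h1.symm (Ne.symm huv))
    apply proj_notMem_seg hd
    have h' : proj (Q u) = proj (Q v) := h
    rw [← h']
    exact proj_mem_seg_left _ hu
  arc_cont := fun u v h => by
    obtain ⟨c, h1, h2⟩ := h3 u v
    exact garc_cont (hQ u v c h h1 h2)
  arc_inj := fun u v h => by
    obtain ⟨c, h1, h2⟩ := h3 u v
    exact garc_inj (hQ u v c h h1 h2)
  arc_zero := fun u v _ => garc_zero _ _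
  arc_one := fun u v _ => garc_one _ _
  arc_symm := fun u v h => by
    obtain ⟨c, h1, h2⟩ := h3 u v
    rw [range_garc (hQ u v c h h1 h2), range_garc (hQ v u c h.symm h2 h1), seg_comm]
  arc_avoid := fun u v w h hw => by
    obtain ⟨c, h1, h2⟩ := h3 u v
    rw [range_garc (hQ u v c h h1 h2)] at hw
    by_contra hcon
    push Not at hcon
    exact proj_notMem_seg (hQ u v w h hcon.1.symm hcon.2.symm) hw

structure IsGeo (D : Drawing V) (Q : V → E) : Prop where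
  gp : GP Q
  ne : ∀ u, Q u ≠ 0
  pt : ∀ u, D.pt u = proj (Q u)
  edge : ∀ u v, u ≠ v → D.edge u v = seg (Q u) (Q v)

lemma isGeo_geo (Q : V → E) (hQ : GP Q) (h3 : ∀ a b : V, ∃ c, a ≠ c ∧ b ≠ c) : IsGeo (geo Q hQ h3) Q where
  gp := hQ
  ne := fun u => by
    obtain ⟨b, hb, -⟩ := h3 u u
    obtain ⟨c, h1, h2⟩ := h3 u b
    exact ne_zero_of_det (hQ b c u h2 hb.symm h1.symm)
  pt := fun _ => rfl
  edge := fun u v h => by
    obtain ⟨c, h1, h2⟩ := h3 u v
    exact range_garc (hQ u v c h h1 h2)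

lemma IsGeo.induce {D : Drawing V} {Q : V → E} (h : IsGeo D Q) (J : Set V) :
    IsGeo (D.induce J) (fun u => Q u) where
  gp := fun a b c h1 h2 h3 => h.gp a b c (Subtype.coe_ne_coe.2 h1) (Subtype.coe_ne_coe.2 h2)
    (Subtype.coe_ne_coe.2 h3)
  ne := fun u => h.ne u
  pt := fun u => h.pt u
  edge := fun u v huv => h.edge u v (Subtype.coe_ne_coe.2 huv)

lemma mem_body {D : Drawing V} {T : Set V} {p : S2} :
    p ∈ D.body T ↔ (∃ u ∈ T, D.pt u = p) ∨ ∃ u ∈ T, ∃ v ∈ T, u ≠ v ∧ p ∈ D.edge u v := by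
  simp only [Drawing.body, mem_union, mem_image, mem_iUnion, exists_prop]

lemma body_mono {D : Drawing V} {T T' : Set V} (h : T ⊆ T') : D.body T ⊆ D.body T' := by
  intro p hp
  rw [mem_body] at hp ⊢
  rcases hp with ⟨u, hu, e⟩ | ⟨u, hu, v, hv, h1, h2⟩
  · exact Or.inl ⟨u, h hu, e⟩
  · exact Or.inr ⟨u, h hu, v, h hv, h1, h2⟩

namespace IsGeo

variable {D : Drawing V} {Q : V → E}

lemma body_tri (h : IsGeo D Q) {a b c : V} (hab : a ≠ b) (hac : a ≠ c) (hbc : b ≠ c) :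
    D.body {a, b, c} = Tri (Q a) (Q b) (Q c) := by
  ext p
  rw [mem_body]
  constructor
  · rintro (⟨u, hu, rfl⟩ | ⟨u, hu, v, hv, huv, hp⟩)
    · rw [h.pt]
      rcases hu with rfl | rfl | rfl
      · exact Or.inl (Or.inl (proj_mem_seg_left _ (h.ne _)))
      · exact Or.inl (Or.inr (proj_mem_seg_left _ (h.ne _)))
      · exact Or.inr (proj_mem_seg_left _ (h.ne _))
    · rw [h.edge u v huv] at hp
      rcases hu with rfl | rfl | rfl <;> rcases hv with rfl | rfl | rfl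
      · exact absurd rfl huv
      · exact Or.inl (Or.inl hp)
      · exact Or.inr (by rw [seg_comm]; exact hp)
      · exact Or.inl (Or.inl (by rw [seg_comm]; exact hp))
      · exact absurd rfl huv
      · exact Or.inl (Or.inr hp)
      · exact Or.inr hp
      · exact Or.inl (Or.inr (by rw [seg_comm]; exact hp))
      · exact absurd rfl huv
  · rintro ((hp | hp) | hp)
    · exact Or.inr ⟨a, by simp, b, by simp, hab, by rw [h.edge a b hab]; exact hp⟩
    · exact Or.inr ⟨b, by simp, c, by simp, hbc, by rw [h.edge b c hbc]; exact hp⟩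
    · exact Or.inr ⟨c, by simp, a, by simp, hac.symm, by rw [h.edge c a hac.symm]; exact hp⟩

lemma exists_pos (h : IsGeo D Q) {T : Set V} (hT : T.ncard = 3) :
    ∃ a b c, T = {a, b, c} ∧ 0 < det (Q a) (Q b) (Q c) ∧ D.body T = Tri (Q a) (Q b) (Q c) := by
  obtain ⟨a, b, c, hab, hac, hbc, rfl⟩ := Set.ncard_eq_three.1 hT
  rcases lt_or_gt_of_ne (h.gp a b c hab hac hbc) with h1 | h1
  · have e : ({a, b, c} : Set V) = {a, c, b} := by rw [Set.pair_comm b c]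
    refine ⟨a, c, b, e, ?_, ?_⟩
    · rw [det_swap']; linarith
    · rw [e]; exact h.body_tri hac hab hbc.symm
  · exact ⟨a, b, c, rfl, h1, h.body_tri hab hac hbc⟩

lemma isSide_small {T : Set V} {a b c : E} (hd : 0 < det a b c) (hT : D.body T = Tri a b c) :
    D.IsSide T (Bg a b c)ᶜ := by
  obtain ⟨x, hx⟩ := Sm_nonempty hd
  refine ⟨x, ?_, ?_⟩
  · rw [hT, mem_Tri_iff hd]; exact fun hh => hh.1 hx
  · rw [hT, side_Sm hd hx]

lemma isSide_big {T : Set V} {a b c : E} (hd : 0 < det a b c) (hT : D.body T = Tri a b c) :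
    D.IsSide T (Sm a b c)ᶜ := by
  obtain ⟨x, hx⟩ := Bg_nonempty hd
  refine ⟨x, ?_, ?_⟩
  · rw [hT, mem_Tri_iff hd]; exact fun hh => hh.2 hx
  · rw [hT, side_Bg hd hx]

lemma side_cases {T : Set V} {a b c : E} (hd : 0 < det a b c) (hT : D.body T = Tri a b c)
    {Δ : Set S2} (hΔ : D.IsSide T Δ) : Δ = (Bg a b c)ᶜ ∨ Δ = (Sm a b c)ᶜ := by
  obtain ⟨x, hx, rfl⟩ := hΔ
  rw [hT] at hx ⊢
  have : x ∈ (Tri a b c)ᶜ := hx
  rw [compl_Tri hd] at this
  rcases this with h1 | h1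
  · exact Or.inl (side_Sm hd h1)
  · exact Or.inr (side_Bg hd h1)

lemma convex_small (h : IsGeo D Q) (a b c : E) : D.ConvexSet (Bg a b c)ᶜ := by
  intro x y hxy hx hy
  rw [h.edge x y hxy]
  rw [h.pt] at hx hy
  exact seg_subset_small (h.ne x) (h.ne y) hx hy

lemma isConvex (h : IsGeo D Q) : D.IsConvex := by
  intro T hT
  obtain ⟨a, b, c, -, hd, hb⟩ := h.exists_pos hT
  exact ⟨_, isSide_small hd hb, h.convex_small _ _ _⟩

lemma hConvex (h : IsGeo D Q) : D.HConvex := by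
  classical
  refine ⟨h.isConvex, ?_⟩
  have key : ∀ T : Set V, ∃ Δ : Set S2, T.ncard = 3 → ∃ a b c : E, 0 < det a b c ∧
      D.body T = Tri a b c ∧ Δ = (Bg a b c)ᶜ := by
    intro T
    by_cases hT : T.ncard = 3
    · obtain ⟨a, b, c, -, hd, hb⟩ := h.exists_pos hT
      exact ⟨_, fun _ => ⟨_, _, _, hd, hb, rfl⟩⟩
    · exact ⟨∅, fun hh => absurd hh hT⟩
  choose Δ hΔ using key
  refine ⟨Δ, fun T hT => ?_, fun T T' hT hT' hsub => ?_⟩
  · obtain ⟨a, b, c, hd, hb, e⟩ := hΔ T hT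
    rw [e]
    exact ⟨isSide_small hd hb, h.convex_small _ _ _⟩
  · obtain ⟨a, b, c, hd, hb, e⟩ := hΔ T hT
    obtain ⟨x, y, z, rfl, hd', hb'⟩ := h.exists_pos hT'
    refine ⟨_, isSide_small hd' hb', ?_, h.convex_small _ _ _⟩
    rw [e] at hsub ⊢
    have hm : ∀ u ∈ ({x, y, z} : Set V), proj (Q u) ∉ Bg a b c := by
      intro u hu
      refine hsub ?_
      rw [mem_body]
      exact Or.inl ⟨u, hu, h.pt u⟩
    exact small_subset_small hd' (hm x (by simp)) (hm y (by simp)) (hm z (by simp))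

lemma fConvex (h : IsGeo D Q) (q : E) (hq0 : q ≠ 0)
    (hq1 : ∀ u, ∃ w, det (Q u) w q ≠ 0) (hq : ∀ u v, u ≠ v → det (Q u) (Q v) q ≠ 0)
    (hc : ∀ a b c, 0 < det (Q a) (Q b) (Q c) → 0 < det (Q a) (Q b) q → 0 < det (Q b) (Q c) q →
      0 < det (Q c) (Q a) q → ∀ x y, x ≠ y →
      ¬ (0 < det (Q a) (Q b) (Q x) ∧ 0 < det (Q b) (Q c) (Q x) ∧ 0 < det (Q c) (Q a) (Q x)) →
      ¬ (0 < det (Q a) (Q b) (Q y) ∧ 0 < det (Q b) (Q c) (Q y) ∧ 0 < det (Q c) (Q a) (Q y)) →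
      ∃ u w : E, 0 ≤ det u w (Q a) ∧ 0 ≤ det u w (Q b) ∧ 0 ≤ det u w (Q c) ∧
        0 < det u w (Q a) + det u w (Q b) + det u w (Q c) ∧ det u w (Q x) ≤ 0 ∧ det u w (Q y) ≤ 0) :
    D.FConvex := by
  have hnot : proj q ∉ D.body univ := by
    rw [mem_body]
    rintro (⟨u, -, e⟩ | ⟨u, -, v, -, huv, hp⟩)
    · obtain ⟨w, hw⟩ := hq1 u
      apply proj_notMem_seg hw
      rw [← e, h.pt]
      exact proj_mem_seg_left _ (h.ne u)
    · rw [h.edge u v huv] at hp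
      exact proj_notMem_seg (hq u v huv) hp
  refine ⟨h.isConvex, _, ⟨proj q, hnot, rfl⟩, fun T hT => ?_⟩
  obtain ⟨a, b, c, rfl, hd, hb⟩ := h.exists_pos hT
  have hsub : connectedComponentIn (D.body univ)ᶜ (proj q) ⊆ (Tri (Q a) (Q b) (Q c))ᶜ := by
    rw [← hb]
    exact (connectedComponentIn_subset _ _).trans (compl_subset_compl.2 (body_mono (subset_univ _)))
  have hmem : proj q ∈ connectedComponentIn (D.body univ)ᶜ (proj q) := mem_connectedComponentIn hnot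
  have hq2 := hsub hmem
  rw [compl_Tri hd] at hq2
  rcases hq2 with h1 | h1
  · refine ⟨_, isSide_big hd hb, ?_, ?_⟩
    · exact disjoint_compl_left.mono_right
        (subset_Sm hd isPreconnected_connectedComponentIn hsub hmem h1)
    · intro x y hxy hx hy
      rw [h.pt, mem_compl_iff, proj_mem_Sm (h.ne _)] at hx hy
      rw [proj_mem_Sm hq0] at h1
      obtain ⟨u, w, k1, k2, k3, k4, k5, k6⟩ := hc a b c hd h1.1 h1.2.1 h1.2.2 x y hxy hx hy
      rw [h.edge x y hxy]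
      exact seg_subset_big hd k1 k2 k3 k4 k5 k6
  · refine ⟨_, isSide_small hd hb, ?_, h.convex_small _ _ _⟩
    exact disjoint_compl_left.mono_right
      (subset_Bg hd isPreconnected_connectedComponentIn hsub hmem h1)

/-- a positively oriented triangle whose large side is not convex -/
def BadTri (Q : V → E) (a b c : V) : Prop :=
  0 < det (Q a) (Q b) (Q c) ∧ ∃ x y, x ≠ y ∧
    ¬ (0 < det (Q a) (Q b) (Q x) ∧ 0 < det (Q b) (Q c) (Q x) ∧ 0 < det (Q c) (Q a) (Q x)) ∧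
    ¬ (0 < det (Q a) (Q b) (Q y) ∧ 0 < det (Q b) (Q c) (Q y) ∧ 0 < det (Q c) (Q a) (Q y)) ∧
    ∃ s t : ℝ, 0 ≤ s ∧ 0 ≤ t ∧ 0 < s * det (Q a) (Q b) (Q x) + t * det (Q a) (Q b) (Q y) ∧
      0 < s * det (Q b) (Q c) (Q x) + t * det (Q b) (Q c) (Q y) ∧
      0 < s * det (Q c) (Q a) (Q x) + t * det (Q c) (Q a) (Q y)

lemma not_fConvex (h : IsGeo D Q)
    (hc : ∀ p : E, ∃ a b c, BadTri Q a b c ∧ 0 ≤ det (Q a) (Q b) p ∧ 0 ≤ det (Q b) (Q c) p ∧
      0 ≤ det (Q c) (Q a) p) : ¬ D.FConvex := by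
  rintro ⟨-, Γ, ⟨p, hp, rfl⟩, hΓ⟩
  obtain ⟨a, b, c, ⟨hd, x, y, hxy, hx, hy, s, t, hs, ht, k1, k2, k3⟩, hp1⟩ := hc p
  have hab : a ≠ b := by rintro rfl; rw [det_aab] at hd; exact lt_irrefl _ hd
  have hac : a ≠ c := by rintro rfl; rw [det_aba] at hd; exact lt_irrefl _ hd
  have hbc : b ≠ c := by rintro rfl; rw [det_abb] at hd; exact lt_irrefl _ hd
  have hb := h.body_tri hab hac hbc
  obtain ⟨Δ, hΔ, hdis, hconv⟩ := hΓ {a, b, c} (Set.ncard_eq_three.2 ⟨a, b, c, hab, hac, hbc, rfl⟩)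
  have hmem : p ∈ connectedComponentIn (D.body univ)ᶜ p := mem_connectedComponentIn hp
  have hpB : p ∉ Bg (Q a) (Q b) (Q c) := notMem_Bg.2 hp1
  rcases side_cases hd hb hΔ with rfl | rfl
  · exact Set.disjoint_left.1 hdis hpB hmem
  · have h1 := hconv x y hxy (by rw [h.pt, mem_compl_iff, proj_mem_Sm (h.ne _)]; exact hx)
      (by rw [h.pt, mem_compl_iff, proj_mem_Sm (h.ne _)]; exact hy)
    rw [h.edge x y hxy] at h1
    have hv : s • Q x + t • Q y ≠ 0 := ne_zero_of_det (a := Q a) (b := Q b) (by rw [det_comb]; exact k1.ne')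
    have h2 : proj (s • Q x + t • Q y) ∈ seg (Q x) (Q y) := by
      refine ⟨‖s • Q x + t • Q y‖⁻¹ * s, ‖s • Q x + t • Q y‖⁻¹ * t,
        mul_nonneg (inv_norm_pos hv).le hs, mul_nonneg (inv_norm_pos hv).le ht, ?_⟩
      rw [proj_val hv, smul_add, smul_smul, smul_smul]
    apply h1 h2
    rw [proj_mem_Sm hv, det_comb, det_comb, det_comb]
    exact ⟨k1, k2, k3⟩

/-- the sign pattern of two crossing arcs `ac` and `bd` -/
def Cr (Q : V → E) (a c b d : V) : Prop :=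
  det (Q b) (Q d) (Q a) * det (Q b) (Q d) (Q c) < 0 ∧ det (Q a) (Q c) (Q b) * det (Q a) (Q c) (Q d) < 0 ∧
    det (Q b) (Q d) (Q a) * det (Q a) (Q c) (Q b) < 0

lemma good (h : IsGeo D Q)
    (h3 : ∀ a b c d e f, [a, b, c, d, e, f].Nodup → Cr Q a b c d → Cr Q a b e f → Cr Q c d e f →
      det (Q c) (Q d) (Q a) * det (Q e) (Q f) (Q b) ≠ det (Q c) (Q d) (Q b) * det (Q e) (Q f) (Q a)) :
    D.Good := by
  refine ⟨fun u v w h1 h2 h3 => ?_, fun u v w z hn => ?_, fun a b c d e f hn => ?_⟩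
  · rw [h.edge u v h1, h.edge u w h2, h.pt]
    exact seg_inter_adj (h.gp u v w h1 h2 h3)
  · simp only [List.nodup_cons, List.mem_cons, List.not_mem_nil, or_false, not_or, not_false_eq_true,
      List.nodup_nil, and_true] at hn
    obtain ⟨⟨uv, uw, uz⟩, ⟨vw, vz⟩, wz⟩ := hn
    rw [h.edge u v uv, h.edge w z wz]
    have g1 := h.gp w z u wz (Ne.symm uw) (Ne.symm uz)
    have g2 := h.gp w z v wz (Ne.symm vw) (Ne.symm vz)
    have g3 := h.gp u v w uv uw vw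
    have g4 := h.gp u v z uv uz vz
    exact ⟨subsingleton_seg g1 g2, fun x hx => crossing_seg g1 g2 g3 g4 hx⟩
  · have hn' := hn
    simp only [List.nodup_cons, List.mem_cons, List.not_mem_nil, or_false, not_or, not_false_eq_true,
      List.nodup_nil, and_true] at hn
    obtain ⟨⟨ab, ac, ad, ae, af⟩, ⟨bc, bd, be, bf⟩, ⟨cd, ce, cf⟩, ⟨de, df⟩, ef⟩ := hn
    rw [h.edge a b ab, h.edge c d cd, h.edge e f ef, Set.eq_empty_iff_forall_notMem]
    rintro x ⟨⟨x1, x2⟩, x3⟩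
    have cr : ∀ a b c d : V, a ≠ b → a ≠ c → a ≠ d → b ≠ c → b ≠ d → c ≠ d →
        x ∈ seg (Q a) (Q b) → x ∈ seg (Q c) (Q d) → Cr Q a b c d := by
      intro a b c d ab ac ad bc bd cd y1 y2
      exact cross_signs (h.gp c d a cd ac.symm ad.symm) (h.gp c d b cd bc.symm bd.symm)
        (h.gp a b c ab ac bc) (h.gp a b d ab ad bd) y1 y2
    exact h3 a b c d e f hn' (cr a b c d ab ac ad bc bd cd x1 x2) (cr a b e f ab ae af be bf ef x1 x3)
      (cr c d e f cd ce cf de df ef x2 x3)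
      (triple_eq x1 x2 x3 (h.gp c d a cd (Ne.symm ac) (Ne.symm ad)) (h.gp c d b cd (Ne.symm bc) (Ne.symm bd)))

end IsGeo

end Pool.Agent.H548Z.Draw
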