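import Mathlib
import Pool.Agent.H548Z.DrawGen

set_option autoImplicit false

namespace Pool.Agent.H548Z.Draw

open Set

def PN : ℕ → ℤ × ℤ × ℤ
  | 0 => (2, 1, -1)
  | 1 => (1, -2, 1)
  | 2 => (0, -1, -2)
  | 3 => (2, -1, 2)
  | 4 => (1, 1, 2)
  | 5 => (2, 0, -1)
  | 6 => (1, 0, -1)
  | 7 => (1, -2, 2)
  | _ => (-2, 1, 0)

def WN : ℕ → ℤ × ℤ × ℤ
  | 0 => (-3, 1, -2)
  | 1 => (-1, -2, 0)
  | 2 => (-1, -2, 0)
  | 3 => (-3, 1, 3)
  | 4 => (0, 2, 1)
  | 5 => (0, 2, 1)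
  | 6 => (0, 2, 1)
  | 7 => (-1, -2, 0)
  | _ => (-1, -2, 0)

def dZ (a b c : ℤ × ℤ × ℤ) : ℤ :=
  a.1 * (b.2.1 * c.2.2 - b.2.2 * c.2.1) - a.2.1 * (b.1 * c.2.2 - b.2.2 * c.1) + a.2.2 * (b.1 * c.2.1 - b.2.1 * c.1)

noncomputable def toE (a : ℤ × ℤ × ℤ) : E := WithLp.toLp 2 ![(a.1 : ℝ), (a.2.1 : ℝ), (a.2.2 : ℝ)]

lemma det_toE (a b c : ℤ × ℤ × ℤ) : det (toE a) (toE b) (toE c) = (dZ a b c : ℝ) := by
  simp [det, toE, dZ]

noncomputable def Q (i : Fin 9) : E := toE (PN i)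

def D (a b c : Fin 9) : ℤ := dZ (PN a) (PN b) (PN c)
def DW (v a b : Fin 9) : ℤ := dZ (PN a) (PN b) (WN v)

lemma det_Q (a b c : Fin 9) : det (Q a) (Q b) (Q c) = (D a b c : ℝ) := det_toE _ _ _
lemma det_W (v a b : Fin 9) : det (Q a) (Q b) (toE (WN v)) = (DW v a b : ℝ) := det_toE _ _ _

lemma gpZ : ∀ a b c : Fin 9, a ≠ b → a ≠ c → b ≠ c → D a b c ≠ 0 := by decide +kernel

lemma gpQ : GP Q := fun a b c h1 h2 h3 => by
  rw [det_Q]; exact_mod_cast gpZ a b c h1 h2 h3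

lemma third : ∀ a b : Fin 9, ∃ c, a ≠ c ∧ b ≠ c := by decide +kernel

noncomputable def DD : Drawing (Fin 9) := geo Q gpQ third

lemma isGeo_DD : IsGeo DD Q := isGeo_geo Q gpQ third

def CrZ (a c b d : Fin 9) : Prop :=
  D b d a * D b d c < 0 ∧ D a c b * D a c d < 0 ∧ D b d a * D a c b < 0

instance (a c b d : Fin 9) : Decidable (CrZ a c b d) := by unfold CrZ; infer_instance

lemma tripleZ : ∀ a b c d : Fin 9, CrZ a b c d → ∀ e f : Fin 9, CrZ a b e f → CrZ c d e f → c ≠ e → c ≠ f →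
    D c d a * D e f b ≠ D c d b * D e f a := by decide +kernel

lemma good_DD : DD.Good := by
  refine isGeo_DD.good fun a b c d e f hn h1 h2 h3 => ?_
  simp only [IsGeo.Cr, det_Q] at h1 h2 h3 ⊢
  simp only [List.nodup_cons, List.mem_cons, List.not_mem_nil, or_false, not_or, not_false_eq_true,
      List.nodup_nil, and_true] at hn
  have := tripleZ a b c d (by exact_mod_cast h1) e f (by exact_mod_cast h2) (by exact_mod_cast h3)
    hn.2.2.1.2.1 hn.2.2.1.2.2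
  exact_mod_cast this

lemma badTri_of {a b c : Fin 9} (x y : Fin 9) (s t : ℕ) (h : 0 < D a b c ∧ x ≠ y ∧
    ¬ (0 < D a b x ∧ 0 < D b c x ∧ 0 < D c a x) ∧ ¬ (0 < D a b y ∧ 0 < D b c y ∧ 0 < D c a y) ∧
    0 < s * D a b x + t * D a b y ∧ 0 < s * D b c x + t * D b c y ∧ 0 < s * D c a x + t * D c a y) :
    IsGeo.BadTri Q a b c := by
  obtain ⟨h1, h2, h3, h4, h5, h6, h7⟩ := h
  simp only [IsGeo.BadTri, det_Q]
  refine ⟨by exact_mod_cast h1, x, y, h2, by exact_mod_cast h3, by exact_mod_cast h4, s, t,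
    Nat.cast_nonneg _, Nat.cast_nonneg _, by exact_mod_cast h5, by exact_mod_cast h6, by exact_mod_cast h7⟩

lemma bad_012 : IsGeo.BadTri Q 0 1 2 := badTri_of 2 3 1 1 (by decide +kernel)
lemma bad_028 : IsGeo.BadTri Q 0 2 8 := badTri_of 5 8 1 1 (by decide +kernel)
lemma bad_138 : IsGeo.BadTri Q 1 3 8 := badTri_of 1 4 2 1 (by decide +kernel)
lemma bad_148 : IsGeo.BadTri Q 1 4 8 := badTri_of 3 8 1 1 (by decide +kernel)
lemma bad_154 : IsGeo.BadTri Q 1 5 4 := badTri_of 0 1 1 1 (by decide +kernel)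
lemma bad_182 : IsGeo.BadTri Q 1 8 2 := badTri_of 2 7 1 1 (by decide +kernel)
lemma bad_458 : IsGeo.BadTri Q 4 5 8 := badTri_of 4 6 1 1 (by decide +kernel)

lemma det_lin (u w : Fin 9) (p : E) (A B C : ℤ) (h : dZ (PN u) (PN w) (1, 0, 0) = A ∧
    dZ (PN u) (PN w) (0, 1, 0) = B ∧ dZ (PN u) (PN w) (0, 0, 1) = C) :
    det (Q u) (Q w) p = (A : ℝ) * p 0 + (B : ℝ) * p 1 + (C : ℝ) * p 2 := by
  obtain ⟨rfl, rfl, rfl⟩ := h
  simp [det, Q, toE, dZ]
  ring

lemma cover (p : E) : ∃ a b c, IsGeo.BadTri Q a b c ∧ 0 ≤ det (Q a) (Q b) p ∧ 0 ≤ det (Q b) (Q c) p ∧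
    0 ≤ det (Q c) (Q a) p := by
  have e01 : det (Q 0) (Q 1) p = (-1) * p 0 + (-3) * p 1 + (-5) * p 2 := by
    exact_mod_cast det_lin 0 1 p (-1) (-3) (-5) (by decide +kernel)
  have e02 : det (Q 0) (Q 2) p = (-3) * p 0 + (4) * p 1 + (-2) * p 2 := by
    exact_mod_cast det_lin 0 2 p (-3) (4) (-2) (by decide +kernel)
  have e12 : det (Q 1) (Q 2) p = (5) * p 0 + (2) * p 1 + (-1) * p 2 := by
    exact_mod_cast det_lin 1 2 p (5) (2) (-1) (by decide +kernel)
  have e13 : det (Q 1) (Q 3) p = (-3) * p 0 + (0) * p 1 + (3) * p 2 := by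
    exact_mod_cast det_lin 1 3 p (-3) (0) (3) (by decide +kernel)
  have e14 : det (Q 1) (Q 4) p = (-5) * p 0 + (-1) * p 1 + (3) * p 2 := by
    exact_mod_cast det_lin 1 4 p (-5) (-1) (3) (by decide +kernel)
  have e15 : det (Q 1) (Q 5) p = (2) * p 0 + (3) * p 1 + (4) * p 2 := by
    exact_mod_cast det_lin 1 5 p (2) (3) (4) (by decide +kernel)
  have e18 : det (Q 1) (Q 8) p = (-1) * p 0 + (-2) * p 1 + (-3) * p 2 := by
    exact_mod_cast det_lin 1 8 p (-1) (-2) (-3) (by decide +kernel)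
  have e20 : det (Q 2) (Q 0) p = (3) * p 0 + (-4) * p 1 + (2) * p 2 := by
    exact_mod_cast det_lin 2 0 p (3) (-4) (2) (by decide +kernel)
  have e21 : det (Q 2) (Q 1) p = (-5) * p 0 + (-2) * p 1 + (1) * p 2 := by
    exact_mod_cast det_lin 2 1 p (-5) (-2) (1) (by decide +kernel)
  have e28 : det (Q 2) (Q 8) p = (2) * p 0 + (4) * p 1 + (-2) * p 2 := by
    exact_mod_cast det_lin 2 8 p (2) (4) (-2) (by decide +kernel)
  have e38 : det (Q 3) (Q 8) p = (-2) * p 0 + (-4) * p 1 + (0) * p 2 := by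
    exact_mod_cast det_lin 3 8 p (-2) (-4) (0) (by decide +kernel)
  have e41 : det (Q 4) (Q 1) p = (5) * p 0 + (1) * p 1 + (-3) * p 2 := by
    exact_mod_cast det_lin 4 1 p (5) (1) (-3) (by decide +kernel)
  have e45 : det (Q 4) (Q 5) p = (-1) * p 0 + (5) * p 1 + (-2) * p 2 := by
    exact_mod_cast det_lin 4 5 p (-1) (5) (-2) (by decide +kernel)
  have e48 : det (Q 4) (Q 8) p = (-2) * p 0 + (-4) * p 1 + (3) * p 2 := by
    exact_mod_cast det_lin 4 8 p (-2) (-4) (3) (by decide +kernel)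
  have e54 : det (Q 5) (Q 4) p = (1) * p 0 + (-5) * p 1 + (2) * p 2 := by
    exact_mod_cast det_lin 5 4 p (1) (-5) (2) (by decide +kernel)
  have e58 : det (Q 5) (Q 8) p = (1) * p 0 + (2) * p 1 + (2) * p 2 := by
    exact_mod_cast det_lin 5 8 p (1) (2) (2) (by decide +kernel)
  have e80 : det (Q 8) (Q 0) p = (-1) * p 0 + (-2) * p 1 + (-4) * p 2 := by
    exact_mod_cast det_lin 8 0 p (-1) (-2) (-4) (by decide +kernel)
  have e81 : det (Q 8) (Q 1) p = (1) * p 0 + (2) * p 1 + (3) * p 2 := by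
    exact_mod_cast det_lin 8 1 p (1) (2) (3) (by decide +kernel)
  have e82 : det (Q 8) (Q 2) p = (-2) * p 0 + (-4) * p 1 + (2) * p 2 := by
    exact_mod_cast det_lin 8 2 p (-2) (-4) (2) (by decide +kernel)
  have e84 : det (Q 8) (Q 4) p = (2) * p 0 + (4) * p 1 + (-3) * p 2 := by
    exact_mod_cast det_lin 8 4 p (2) (4) (-3) (by decide +kernel)
  rcases le_total 0 (det (Q 0) (Q 2) p) with h0 | h0
  · rcases le_total 0 (det (Q 1) (Q 8) p) with h1 | h1
    · rcases le_total 0 (det (Q 1) (Q 5) p) with h2 | h2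
      · exact ⟨0, 2, 8, bad_028, by linarith, by linarith, by linarith⟩
      · rcases le_total 0 (det (Q 2) (Q 8) p) with g1 | g1
        · exact ⟨0, 2, 8, bad_028, by linarith, by linarith, by linarith⟩
        · exact ⟨1, 8, 2, bad_182, by linarith, by linarith, by linarith⟩
    · rcases le_total 0 (det (Q 1) (Q 5) p) with h2 | h2
      · rcases le_total 0 (det (Q 4) (Q 8) p) with g2 | g2
        · exact ⟨1, 4, 8, bad_148, by linarith, by linarith, by linarith⟩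
        · exact ⟨4, 5, 8, bad_458, by linarith, by linarith, by linarith⟩
      · rcases le_total 0 (det (Q 4) (Q 8) p) with g3 | g3
        · exact ⟨1, 4, 8, bad_148, by linarith, by linarith, by linarith⟩
        · exact ⟨4, 5, 8, bad_458, by linarith, by linarith, by linarith⟩
  · rcases le_total 0 (det (Q 1) (Q 8) p) with h1 | h1
    · rcases le_total 0 (det (Q 1) (Q 5) p) with h2 | h2
      · exact ⟨0, 1, 2, bad_012, by linarith, by linarith, by linarith⟩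
      · rcases le_total 0 (det (Q 1) (Q 2) p) with g4 | g4
        · exact ⟨0, 1, 2, bad_012, by linarith, by linarith, by linarith⟩
        · exact ⟨1, 8, 2, bad_182, by linarith, by linarith, by linarith⟩
    · rcases le_total 0 (det (Q 1) (Q 5) p) with h2 | h2
      · rcases le_total 0 (det (Q 1) (Q 4) p) with g5 | g5
        · rcases le_total 0 (det (Q 4) (Q 8) p) with g6 | g6
          · exact ⟨1, 4, 8, bad_148, by linarith, by linarith, by linarith⟩
          · exact ⟨4, 5, 8, bad_458, by linarith, by linarith, by linarith⟩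
        · rcases le_total 0 (det (Q 4) (Q 5) p) with g7 | g7
          · exact ⟨4, 5, 8, bad_458, by linarith, by linarith, by linarith⟩
          · exact ⟨1, 5, 4, bad_154, by linarith, by linarith, by linarith⟩
      · exact ⟨1, 3, 8, bad_138, by linarith, by linarith, by linarith⟩

lemma not_fConvex_DD : ¬ DD.FConvex := isGeo_DD.not_fConvex cover

lemma witZ1 : ∀ v a b : Fin 9, a ≠ b → DW v a b ≠ 0 := by decide +kernel

def Sep (a b c x y u w : Fin 9) : Prop :=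
  0 ≤ D u w a ∧ 0 ≤ D u w b ∧ 0 ≤ D u w c ∧ 0 < D u w a + D u w b + D u w c ∧ D u w x ≤ 0 ∧ D u w y ≤ 0

instance (a b c x y u w : Fin 9) : Decidable (Sep a b c x y u w) := by unfold Sep; infer_instance

lemma witZ2 : ∀ v a b : Fin 9, a ≠ v → b ≠ v → 0 < DW v a b → ∀ c : Fin 9, c ≠ v → 0 < DW v b c → 0 < DW v c a →
    0 < D a b c → ∀ x : Fin 9, x ≠ v → ¬ (0 < D a b x ∧ 0 < D b c x ∧ 0 < D c a x) →
    ∀ y : Fin 9, y ≠ v → x ≠ y → ¬ (0 < D a b y ∧ 0 < D b c y ∧ 0 < D c a y) →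
    Sep a b c x y a b ∨ Sep a b c x y b c ∨ Sep a b c x y c a ∨ Sep a b c x y x y ∨ Sep a b c x y y x ∨
    ∃ u w, Sep a b c x y u w := by
  decide +kernel

lemma fConvex_induce (J : Set (Fin 9)) (v : Fin 9) (hv : v ∉ J) : (DD.induce J).FConvex := by
  have hne : ∀ u : J, (u : Fin 9) ≠ v := fun u h => hv (h ▸ u.2)
  have h01 : det (Q 0) (Q 1) (toE (WN v)) ≠ 0 := by
    rw [det_W]; exact_mod_cast witZ1 v 0 1 (by decide)
  refine (isGeo_DD.induce J).fConvex (toE (WN v)) (ne_zero_of_det h01) ?_ ?_ ?_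
  · intro u
    obtain ⟨c, hc, -⟩ := third u u
    exact ⟨Q c, by rw [det_W]; exact_mod_cast witZ1 v u c hc⟩
  · intro u w huw
    rw [det_W]; exact_mod_cast witZ1 v u w (Subtype.coe_ne_coe.2 huw)
  · intro a b c h1 h2 h3 h4 x y hxy hx hy
    simp only [det_Q, det_W] at h1 h2 h3 h4 hx hy
    have key := witZ2 v a b (hne a) (hne b) (by exact_mod_cast h2) c (hne c) (by exact_mod_cast h3)
      (by exact_mod_cast h4) (by exact_mod_cast h1) x (hne x) (by exact_mod_cast hx) y (hne y)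
      (Subtype.coe_ne_coe.2 hxy) (by exact_mod_cast hy)
    have key2 : ∃ u w, Sep a b c x y u w := by
      rcases key with h | h | h | h | h | h
      · exact ⟨_, _, h⟩
      · exact ⟨_, _, h⟩
      · exact ⟨_, _, h⟩
      · exact ⟨_, _, h⟩
      · exact ⟨_, _, h⟩
      · exact h
    obtain ⟨u, w, k⟩ := key2
    refine ⟨Q u, Q w, ?_⟩
    simp only [det_Q]
    exact_mod_cast k

theorem main : ∃ D : Drawing (Fin 9), D.Good ∧ D.HConvex ∧ ¬ D.FConvex ∧
    ∀ J : Set (Fin 9), J.ncard = 8 → (D.induce J).FConvex := by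
  refine ⟨DD, good_DD, isGeo_DD.hConvex, not_fConvex_DD, fun J hJ => ?_⟩
  have : ∃ v, v ∉ J := by
    by_contra hcon
    push Not at hcon
    have : J = univ := eq_univ_of_forall hcon
    rw [this, Set.ncard_univ] at hJ
    simp at hJ
  obtain ⟨v, hv⟩ := this
  exact fConvex_induce J v hv

end Pool.Agent.H548Z.Draw
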