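import Mathlib
import Pool.Agent.Results.MP_5c297c_an.NotJessen

set_option autoImplicit false

open MeasureTheory Filter Topology Set Metric Real

namespace Pool.Agent.H548Z.Jes

open Pool.Agent.Results.MP_5c297c_an.NotJessen

lemma dslope_bound {h : ℂ → ℂ} {B : ℝ} (hd : DifferentiableOn ℂ h (ball 0 9))
    (hB : ∀ z ∈ closedBall (0:ℂ) 8, ‖h z‖ ≤ B) {a : ℂ} (ha : ‖a‖ < 8) :
    DifferentiableOn ℂ (dslope h a) (ball 0 9) ∧
      ∀ z ∈ closedBall (0:ℂ) 8, ‖dslope h a z‖ ≤ (B + ‖h a‖) / (8 - ‖a‖) := by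
  have hmem : ball (0:ℂ) 9 ∈ 𝓝 a := isOpen_ball.mem_nhds (by rw [mem_ball_zero_iff]; linarith)
  have hd' : DifferentiableOn ℂ (dslope h a) (ball 0 9) := (Complex.differentiableOn_dslope hmem).2 hd
  refine ⟨hd', fun z hz => ?_⟩
  have hcl : closure (ball (0:ℂ) 8) = closedBall 0 8 := closure_ball 0 (by norm_num)
  refine Complex.norm_le_of_forall_mem_frontier_norm_le (U := ball (0:ℂ) 8) isBounded_ball ?_ ?_
    (by rw [hcl]; exact hz)
  · refine DifferentiableOn.diffContOnCl ?_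
    rw [hcl]
    exact hd'.mono (closedBall_subset_ball (by norm_num))
  · intro w hw
    rw [frontier_ball 0 (by norm_num)] at hw
    have hw' : ‖w‖ = 8 := by simpa using hw
    have hne : w ≠ a := by rintro rfl; linarith
    have h1 : 8 - ‖a‖ ≤ ‖w - a‖ := by
      have := norm_sub_norm_le w a
      linarith
    rw [dslope_of_ne _ hne, slope_def_field, norm_div]
    refine div_le_div₀ ?_ ?_ (by linarith) h1
    · have := hB w (by rw [mem_closedBall_zero_iff]; exact hw'.le)
      have h2 := norm_nonneg (h w)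
      have h3 := norm_nonneg (h a)
      linarith
    · have := hB w (by rw [mem_closedBall_zero_iff]; exact hw'.le)
      exact (norm_sub_le _ _).trans (by linarith)

/-- the data of a factorisation -/
structure Fac (h : ℂ → ℂ) (M : ℝ) (N : ℕ) where
  m : ℕ
  a : Fin m → ℂ
  k : ℂ → ℂ
  L : ℝ
  m_le : m ≤ N
  a_le : ∀ i, ‖a i‖ ≤ 2
  k_diff : DifferentiableOn ℂ k (ball 0 9)
  k_le : ∀ z ∈ closedBall (0:ℂ) 8, ‖k z‖ ≤ Real.exp L
  k_ne : ∀ z ∈ closedBall (0:ℂ) 2, k z ≠ 0
  k_zero : L - Real.log ‖k 0‖ ≤ (N : ℝ) - m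
  L_ge : M ≤ L + 2 * m
  eq : ∀ z, h z = (∏ i, (z - a i)) * k z

lemma factor (N : ℕ) : ∀ (h : ℂ → ℂ) (M : ℝ), DifferentiableOn ℂ h (ball 0 9) →
    (∀ z ∈ closedBall (0:ℂ) 8, ‖h z‖ ≤ Real.exp M) → h 0 ≠ 0 → M - Real.log ‖h 0‖ < N →
    Nonempty (Fac h M N) := by
  induction N with
  | zero =>
    intro h M _ hB h0 hV
    exfalso
    have h1 := hB 0 (by simp)
    have h2 : Real.log ‖h 0‖ ≤ M := by
      rw [Real.log_le_iff_le_exp (norm_pos_iff.2 h0)]; exact h1
    simp at hV
    linarith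
  | succ N ih =>
    intro h M hd hB h0 hV
    by_cases hz : ∀ z ∈ closedBall (0:ℂ) 2, h z ≠ 0
    · exact ⟨⟨0, Fin.elim0, h, M, Nat.zero_le _, fun i => i.elim0, hd, hB, hz, by simpa using hV.le,
        by simp, fun z => by simp⟩⟩
    · push Not at hz
      obtain ⟨a, ha, ha0⟩ := hz
      have ha' : ‖a‖ ≤ 2 := by simpa using ha
      obtain ⟨hd1, hB1⟩ := dslope_bound hd hB (a := a) (by linarith)
      have heq : ∀ z, h z = (z - a) * dslope h a z := by
        intro z
        have := sub_smul_dslope h a z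
        rw [ha0, sub_zero, smul_eq_mul] at this
        exact this.symm
      have hane : a ≠ 0 := by rintro rfl; exact h0 ha0
      have h10 : dslope h a 0 ≠ 0 := by
        intro hh; apply h0; rw [heq 0, hh, mul_zero]
      have hlog6 : Real.log 6 ≤ 2 := by
        rw [Real.log_le_iff_le_exp (by norm_num)]
        have := Real.exp_one_gt_d9
        have h2 : Real.exp 2 = Real.exp 1 * Real.exp 1 := by rw [← Real.exp_add]; norm_num
        nlinarith
      have hlog3 : 1 ≤ Real.log 3 := by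
        rw [Real.le_log_iff_exp_le (by norm_num)]
        have := Real.exp_one_lt_d9
        linarith
      have hB2 : ∀ z ∈ closedBall (0:ℂ) 8, ‖dslope h a z‖ ≤ Real.exp (M - Real.log 6) := by
        intro z hz
        refine (hB1 z hz).trans ?_
        rw [ha0, norm_zero, add_zero, Real.exp_sub, Real.exp_log (by norm_num)]
        exact div_le_div_of_nonneg_left (Real.exp_pos M).le (by norm_num) (by linarith)
      have hV2 : M - Real.log 6 - Real.log ‖dslope h a 0‖ < N := by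
        have e1 : Real.log ‖h 0‖ = Real.log ‖a‖ + Real.log ‖dslope h a 0‖ := by
          rw [heq 0, norm_mul, Real.log_mul (by simpa using hane) (norm_ne_zero_iff.2 h10)]
          simp
        have e2 : Real.log ‖a‖ ≤ Real.log 2 := Real.log_le_log (norm_pos_iff.2 hane) ha'
        have e3 : Real.log 6 = Real.log 2 + Real.log 3 := by
          rw [← Real.log_mul (by norm_num) (by norm_num)]; norm_num
        push_cast at hV
        linarith
      obtain ⟨F⟩ := ih (dslope h a) (M - Real.log 6) hd1 hB2 h10 hV2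
      refine ⟨⟨F.m + 1, Fin.cons a F.a, F.k, F.L, Nat.succ_le_succ F.m_le, ?_, F.k_diff, F.k_le, F.k_ne,
        ?_, ?_, ?_⟩⟩
      · intro i
        refine Fin.cases ?_ (fun j => ?_) i
        · simpa using ha'
        · simpa using F.a_le j
      · have := F.k_zero
        push_cast
        linarith
      · have := F.L_ge
        push_cast
        linarith
      · intro z
        rw [Fin.prod_univ_succ, heq z, F.eq z]
        simp [mul_assoc]

namespace Fac

variable {h : ℂ → ℂ} {M : ℝ} {N : ℕ} (F : Fac h M N)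

lemma k_an {b : ℂ} {r : ℝ} (hb : ‖b‖ + r ≤ 8) :
    AnalyticOnNhd ℂ (fun w => F.k (b + w)) (closedBall 0 r) := by
  have h1 : AnalyticOnNhd ℂ F.k (ball 0 9) := F.k_diff.analyticOnNhd isOpen_ball
  intro w hw
  have hw' : ‖w‖ ≤ r := by simpa using hw
  have : b + w ∈ ball (0:ℂ) 9 := by
    rw [mem_ball_zero_iff]
    have := norm_add_le b w
    linarith
  exact (h1 _ this).comp_of_eq (by fun_prop) rfl

lemma U_nonneg {z : ℂ} (hz : ‖z‖ ≤ 2) : 0 ≤ F.L - Real.log ‖F.k z‖ := by
  have h1 := F.k_le z (by rw [mem_closedBall_zero_iff]; linarith)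
  have h2 : Real.log ‖F.k z‖ ≤ F.L := by
    rw [Real.log_le_iff_le_exp (norm_pos_iff.2 (F.k_ne z (by simpa using hz)))]; exact h1
  linarith

lemma U_harnack {b w : ℂ} {r : ℝ} (hb : ‖b‖ + r ≤ 2) (hw : ‖w‖ < r) :
    F.L - Real.log ‖F.k (b + w)‖ ≤ (r + ‖w‖) / (r - ‖w‖) * (F.L - Real.log ‖F.k b‖) := by
  have hin : ∀ z ∈ closedBall (0:ℂ) r, ‖b + z‖ ≤ 2 := by
    intro z hz
    have hz' : ‖z‖ ≤ r := by simpa using hz
    have := norm_add_le b z
    linarith
  have := harnack (f := fun z => F.L - Real.log ‖F.k (b + z)‖) (R := r) (w := w) (by simpa using hw)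
    (harmonic_log (F.k_an (by linarith)) (fun z hz => F.k_ne _ (by simpa using hin z hz)) F.L)
    (fun z hz => F.U_nonneg (hin z hz))
  simpa using this

lemma U_le {z : ℂ} (hz : ‖z‖ ≤ 1) : F.L - Real.log ‖F.k z‖ ≤ 3 * ((N : ℝ) - F.m) := by
  have h1 := F.U_harnack (b := 0) (w := z) (r := 2) (by simp) (by linarith)
  rw [zero_add] at h1
  have h2 : (2 + ‖z‖) / (2 - ‖z‖) ≤ 3 := by
    rw [div_le_iff₀ (by linarith)]; linarith
  have h3 := F.U_nonneg (z := 0) (by simp)
  have h4 := F.k_zero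
  have h5 := mul_le_mul_of_nonneg_right h2 h3
  linarith

lemma U_sub {z z' : ℂ} (hz : ‖z‖ ≤ 1) (hd : ‖z' - z‖ ≤ 1 / 2) :
    Real.log ‖F.k z‖ - Real.log ‖F.k z'‖ ≤ 12 * N * ‖z' - z‖ := by
  have h1 := F.U_harnack (b := z) (w := z' - z) (r := 1) (by linarith) (by linarith)
  rw [add_sub_cancel] at h1
  have h2 : (1 + ‖z' - z‖) / (1 - ‖z' - z‖) ≤ 1 + 4 * ‖z' - z‖ := by
    rw [div_le_iff₀ (by linarith)]
    nlinarith [norm_nonneg (z' - z)]
  have h3 := F.U_nonneg (z := z) (by linarith)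
  have h4 := F.U_le hz
  have h5 := mul_le_mul_of_nonneg_right h2 h3
  have h6 : (0:ℝ) ≤ F.m := Nat.cast_nonneg _
  have h7 := mul_le_mul_of_nonneg_left (show F.L - Real.log ‖F.k z‖ ≤ 3 * N by linarith)
    (show 0 ≤ 4 * ‖z' - z‖ by positivity)
  nlinarith

lemma log_eq {z : ℂ} (hz : h z ≠ 0) :
    Real.log ‖h z‖ = ∑ i, Real.log ‖z - F.a i‖ + Real.log ‖F.k z‖ := by
  have e := F.eq z
  rw [e] at hz
  have h1 := left_ne_zero_of_mul hz
  have h2 := right_ne_zero_of_mul hz
  rw [e, norm_mul, Real.log_mul (norm_ne_zero_iff.2 h1) (norm_ne_zero_iff.2 h2), norm_prod,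
    Real.log_prod]
  intro i _
  exact norm_ne_zero_iff.2 (Finset.prod_ne_zero_iff.1 h1 i (Finset.mem_univ i))

/-- pointwise upper bound for the deficit -/
lemma dfc_le {z : ℂ} (hz : ‖z‖ ≤ 1) {K : ℝ} (hK : 0 ≤ K) :
    dfc M (h z) ≤ ENNReal.ofReal ((3 + K) * N) + ∑ i, dfc (-K) (z - F.a i) := by
  by_cases h0 : h z = 0
  · have e := F.eq z
    rw [h0] at e
    have hk := F.k_ne z (by rw [mem_closedBall_zero_iff]; linarith)
    have hp := (mul_eq_zero.1 e.symm).resolve_right hk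
    obtain ⟨i, -, hi⟩ := Finset.prod_eq_zero_iff.1 hp
    have : (∑ i, dfc (-K) (z - F.a i)) = ⊤ := by
      rw [ENNReal.sum_eq_top]
      exact ⟨i, Finset.mem_univ i, by simp [dfc, hi]⟩
    rw [this, add_top]; exact le_top
  · have hne : ∀ i, z - F.a i ≠ 0 := by
      intro i hi
      apply h0
      rw [F.eq z, Finset.prod_eq_zero (Finset.mem_univ i) hi, zero_mul]
    simp only [dfc, h0, hne, if_false]
    rw [F.log_eq h0]
    have h1 := F.U_le hz
    have h2 := F.L_ge
    have h3 : (F.m : ℝ) ≤ N := by exact_mod_cast F.m_le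
    have h4 : (0:ℝ) ≤ F.m := Nat.cast_nonneg _
    calc ENNReal.ofReal (M - (∑ i, Real.log ‖z - F.a i‖ + Real.log ‖F.k z‖))
        ≤ ENNReal.ofReal ((3 + K) * N + ∑ i, (-K - Real.log ‖z - F.a i‖)) := by
          refine ENNReal.ofReal_le_ofReal ?_
          rw [Finset.sum_sub_distrib, Finset.sum_const, Finset.card_univ, Fintype.card_fin, nsmul_eq_mul]
          nlinarith
      _ ≤ ENNReal.ofReal ((3 + K) * N) + ENNReal.ofReal (∑ i, (-K - Real.log ‖z - F.a i‖)) :=
          ENNReal.ofReal_add_le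
      _ ≤ _ := by
          gcongr
          calc ENNReal.ofReal (∑ i, (-K - Real.log ‖z - F.a i‖))
              ≤ ENNReal.ofReal (∑ i, max (-K - Real.log ‖z - F.a i‖) 0) :=
                ENNReal.ofReal_le_ofReal (Finset.sum_le_sum fun i _ => le_max_left _ _)
            _ = ∑ i, ENNReal.ofReal (max (-K - Real.log ‖z - F.a i‖) 0) :=
                ENNReal.ofReal_sum_of_nonneg fun i _ => le_max_right _ _
            _ = _ := by simp

/-- odd difference -/
lemma odd_le {t ε : ℝ} (ht : |t| ≤ 1 / 2) (hε0 : 0 ≤ ε) (hε : ε ≤ 1 / 4)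
    (h1 : h (t + ε * Complex.I) ≠ 0) (h2 : h (t - ε * Complex.I) ≠ 0) :
    |Real.log ‖h (t + ε * Complex.I)‖ - Real.log ‖h (t - ε * Complex.I)‖| ≤ 24 * N * ε +
      ∑ i, |Real.log ‖t + ε * Complex.I - F.a i‖ - Real.log ‖t - ε * Complex.I - F.a i‖| := by
  have n1 : ‖(ε : ℂ) * Complex.I‖ = ε := by simp [abs_of_nonneg hε0]
  have n2 : ‖(t : ℂ)‖ ≤ 1 / 2 := by simpa using ht
  have z1 : ‖(t : ℂ) + ε * Complex.I‖ ≤ 1 := (norm_add_le _ _).trans (by linarith)
  have z2 : ‖(t : ℂ) - ε * Complex.I‖ ≤ 1 := (norm_sub_le _ _).trans (by linarith)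
  have d1 : ‖((t : ℂ) - ε * Complex.I) - (t + ε * Complex.I)‖ = 2 * ε := by
    have : ((t : ℂ) - ε * Complex.I) - (t + ε * Complex.I) = -(2 * (ε * Complex.I)) := by ring
    rw [this, norm_neg, norm_mul, n1]; simp
  have d2 : ‖((t : ℂ) + ε * Complex.I) - (t - ε * Complex.I)‖ = 2 * ε := by rw [norm_sub_rev, d1]
  have u1 := F.U_sub (z' := (t : ℂ) - ε * Complex.I) z1 (by rw [d1]; linarith)
  have u2 := F.U_sub (z' := (t : ℂ) + ε * Complex.I) z2 (by rw [d2]; linarith)
  rw [d1] at u1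
  rw [d2] at u2
  rw [F.log_eq h1, F.log_eq h2]
  have e : ∑ i, Real.log ‖t + ε * Complex.I - F.a i‖ + Real.log ‖F.k (t + ε * Complex.I)‖ -
      (∑ i, Real.log ‖t - ε * Complex.I - F.a i‖ + Real.log ‖F.k (t - ε * Complex.I)‖) =
      (Real.log ‖F.k (t + ε * Complex.I)‖ - Real.log ‖F.k (t - ε * Complex.I)‖) +
      ∑ i, (Real.log ‖t + ε * Complex.I - F.a i‖ - Real.log ‖t - ε * Complex.I - F.a i‖) := by
    rw [Finset.sum_sub_distrib]; ring
  rw [e]
  refine (abs_add_le _ _).trans (add_le_add ?_ (Finset.abs_sum_le_sum_abs _ _))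
  rw [abs_le]; constructor <;> linarith

/-- the Jensen defect dominates the contributions of the listed zeros -/
lemma defect (hd : DifferentiableOn ℂ h (ball 0 9)) (hM0 : 0 ≤ M)
    (hB : ∀ z ∈ closedBall (0:ℂ) 8, ‖h z‖ ≤ Real.exp M) {b : ℂ} {r : ℝ} (hr : 0 < r) (hb : ‖b‖ + r ≤ 8) :
    (∫⁻ θ in Ioc 0 (2 * π), dfc0 M (h (b + circleMap 0 r θ))) +
      ENNReal.ofReal (2 * π) * ∑ i, ENNReal.ofReal (Real.log r - Real.log ‖b - F.a i‖)
      ≤ ENNReal.ofReal (2 * π) * dfc M (h b) := by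
  have hpi : 0 < 2 * π := by positivity
  by_cases h0 : h b = 0
  · have : dfc M (h b) = ⊤ := by simp [dfc, h0]
    rw [this, ENNReal.mul_top (by simpa using hpi)]
    exact le_top
  have hin : ∀ w ∈ closedBall (0:ℂ) r, ‖b + w‖ ≤ 8 := by
    intro w hw
    have hw' : ‖w‖ ≤ r := by simpa using hw
    have := norm_add_le b w
    linarith
  have hg : AnalyticOnNhd ℂ (fun w => h (b + w)) (closedBall 0 r) := by
    have h1 : AnalyticOnNhd ℂ h (ball 0 9) := hd.analyticOnNhd isOpen_ball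
    intro w hw
    have : b + w ∈ ball (0:ℂ) 9 := by
      rw [mem_ball_zero_iff]; linarith [hin w hw]
    exact (h1 _ this).comp_of_eq (by fun_prop) rfl
  have hkb : F.k b ≠ 0 := by
    intro hh; apply h0; rw [F.eq b, hh, mul_zero]
  have hab : ∀ i, b - F.a i ≠ 0 := by
    intro i hi
    apply h0
    rw [F.eq b, Finset.prod_eq_zero (Finset.mem_univ i) hi, zero_mul]
  have hae := ae_circle_ne_zero (g := fun w => h (b + w)) hr hg (by simpa using h0)
  have hint : CircleIntegrable (fun w => Real.log ‖h (b + w)‖) 0 r := by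
    refine MeromorphicOn.circleIntegrable_log_norm (f := fun w => h (b + w)) ?_
    rw [abs_of_pos hr]
    exact (hg.mono sphere_subset_closedBall).meromorphicOn
  have hintk : CircleIntegrable (fun w => Real.log ‖F.k (b + w)‖) 0 r := by
    refine MeromorphicOn.circleIntegrable_log_norm (f := fun w => F.k (b + w)) ?_
    rw [abs_of_pos hr]
    exact ((F.k_an hb).mono sphere_subset_closedBall).meromorphicOn
  have hinta : ∀ i, CircleIntegrable (fun w => Real.log ‖w - (F.a i - b)‖) 0 r := fun i =>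
    circleIntegrable_log_norm_sub_const r
  have toI : ∀ {g : ℂ → ℝ}, CircleIntegrable g 0 r → IntegrableOn (fun θ => g (circleMap 0 r θ)) (Ioc 0 (2 * π)) := by
    intro g hg
    rw [CircleIntegrable, intervalIntegrable_iff_integrableOn_Ioc_of_le hpi.le] at hg
    exact hg
  have hint2 := toI hint
  have hint3 : IntegrableOn (fun θ => M - Real.log ‖h (b + circleMap 0 r θ)‖) (Ioc 0 (2 * π)) :=
    Integrable.sub (integrable_const M) hint2
  have hnn : ∀ θ, 0 ≤ M - Real.log ‖h (b + circleMap 0 r θ)‖ := fun θ =>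
    log_le_of_bound hM0 (hB _ (by simpa using hin _ (circleMap_mem_closedBall 0 hr.le θ)))
  have avg : ∀ {g : ℂ → ℝ}, ∫ θ in Ioc 0 (2 * π), g (circleMap 0 r θ) = 2 * π * circleAverage g 0 r := by
    intro g
    rw [circleAverage_def, intervalIntegral.integral_of_le hpi.le, smul_eq_mul, ← mul_assoc,
      mul_inv_cancel₀ hpi.ne', one_mul]
  have e2 : ∫ θ in Ioc 0 (2 * π), (M - Real.log ‖h (b + circleMap 0 r θ)‖)
      = 2 * π * M - ∫ θ in Ioc 0 (2 * π), Real.log ‖h (b + circleMap 0 r θ)‖ := by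
    rw [integral_sub (integrable_const M) hint2]
    simp only [integral_const, MeasurableSet.univ, measureReal_restrict_apply, univ_inter, smul_eq_mul]
    rw [Real.volume_real_Ioc_of_le hpi.le, sub_zero]
  have e3 : ∫ θ in Ioc 0 (2 * π), Real.log ‖h (b + circleMap 0 r θ)‖ =
      ∑ i, 2 * π * circleAverage (fun w => Real.log ‖w - (F.a i - b)‖) 0 r +
        2 * π * circleAverage (fun w => Real.log ‖F.k (b + w)‖) 0 r := by
    have : ∫ θ in Ioc 0 (2 * π), Real.log ‖h (b + circleMap 0 r θ)‖ =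
        ∫ θ in Ioc 0 (2 * π), (∑ i, Real.log ‖circleMap 0 r θ - (F.a i - b)‖ +
          Real.log ‖F.k (b + circleMap 0 r θ)‖) := by
      refine integral_congr_ae ?_
      filter_upwards [hae] with θ hθ
      rw [F.log_eq hθ]
      congr 2
      funext i
      congr 2
      ring
    rw [this, integral_add (integrable_finsetSum _ fun i _ => toI (hinta i)) (toI hintk),
      integral_finsetSum _ fun i _ => toI (hinta i), avg (g := fun w => Real.log ‖F.k (b + w)‖)]
    congr 1
    refine Finset.sum_congr rfl fun i _ => ?_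
    exact avg (g := fun w => Real.log ‖w - (F.a i - b)‖)
  have e4 : Real.log ‖F.k b‖ ≤ circleAverage (fun w => Real.log ‖F.k (b + w)‖) 0 r := by
    have := jensen_ineq hr (F.k_an hb) (by simpa using hkb)
    simpa using this
  have e5 : ∀ i, Real.log ‖b - F.a i‖ + max (Real.log r - Real.log ‖b - F.a i‖) 0 ≤
      circleAverage (fun w => Real.log ‖w - (F.a i - b)‖) 0 r := by
    intro i
    have hp : ∀ x : ℝ, Real.posLog x = max 0 (Real.log x) := fun x => rfl
    rw [circleAverage_log_norm_sub_const_eq_log_radius_add_posLog hr.ne', hp, zero_sub, norm_neg,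
      norm_sub_rev (F.a i) b, Real.log_mul (inv_pos.2 hr).ne' (norm_ne_zero_iff.2 (hab i)), Real.log_inv]
    rcases le_total (Real.log r - Real.log ‖b - F.a i‖) 0 with hh | hh
    · rw [max_eq_right hh]
      have := le_max_right 0 (-Real.log r + Real.log ‖b - F.a i‖)
      linarith
    · rw [max_eq_left hh]
      have := le_max_left 0 (-Real.log r + Real.log ‖b - F.a i‖)
      linarith
  have e6 : dfc M (h b) = ENNReal.ofReal (M - Real.log ‖h b‖) := by simp [dfc, h0]
  have e7 : ∑ i, ENNReal.ofReal (Real.log r - Real.log ‖b - F.a i‖) =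
      ENNReal.ofReal (∑ i, max (Real.log r - Real.log ‖b - F.a i‖) 0) := by
    rw [ENNReal.ofReal_sum_of_nonneg fun i _ => le_max_right _ _]
    simp
  unfold dfc0
  rw [← ofReal_integral_eq_lintegral_ofReal hint3 (ae_of_all _ hnn), e6, e7, ← ENNReal.ofReal_mul hpi.le,
    ← ENNReal.ofReal_mul hpi.le, ← ENNReal.ofReal_add (integral_nonneg hnn)
      (mul_nonneg hpi.le (Finset.sum_nonneg fun i _ => le_max_right _ _))]
  refine ENNReal.ofReal_le_ofReal ?_
  rw [e2, e3, F.log_eq h0, ← Finset.mul_sum]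
  have e8 := Finset.sum_le_sum fun i (_ : i ∈ Finset.univ) => e5 i
  rw [Finset.sum_add_distrib] at e8
  nlinarith

end Fac

end Pool.Agent.H548Z.Jes
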