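import Mathlib
import Pool.Agent.H548Z.JesOne

set_option autoImplicit false

open MeasureTheory Filter Topology Set Metric Real

namespace Pool.Agent.H548Z.Jes

open Pool.Agent.Results.MP_5c297c_an.NotJessen

lemma cauchy_int {r : ℝ} (hr : 0 < r) : ∫⁻ τ : ℝ, ENNReal.ofReal (r / (τ ^ 2 + r ^ 2)) = ENNReal.ofReal π := by
  have e : ∀ τ : ℝ, r / (τ ^ 2 + r ^ 2) = r⁻¹ * (1 + (τ / r) ^ 2)⁻¹ := by
    intro τ; field_simp; ring
  have hi : Integrable (fun τ : ℝ => (1 + (τ / r) ^ 2)⁻¹) :=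
    integrable_inv_one_add_sq.comp_div hr.ne'
  simp_rw [e]
  rw [← ofReal_integral_eq_lintegral_ofReal (hi.const_mul _) (ae_of_all _ fun τ => by positivity),
    integral_const_mul, Measure.integral_comp_div (fun x : ℝ => (1 + x ^ 2)⁻¹) r, integral_univ_inv_one_add_sq,
    abs_of_pos hr, smul_eq_mul, ← mul_assoc, inv_mul_cancel₀ hr.ne', one_mul]

lemma logint {a b : ℝ} (ha : 0 ≤ a) (hab : a ≤ b) :
    ∫⁻ τ : ℝ, ENNReal.ofReal (Real.log (τ ^ 2 + b ^ 2) / 2 - Real.log (τ ^ 2 + a ^ 2) / 2)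
      ≤ ENNReal.ofReal (π * (b - a)) := by
  have h1 : ∀ τ : ℝ, τ ≠ 0 → ENNReal.ofReal (Real.log (τ ^ 2 + b ^ 2) / 2 - Real.log (τ ^ 2 + a ^ 2) / 2)
      = ∫⁻ r in Ioc a b, ENNReal.ofReal (r / (τ ^ 2 + r ^ 2)) := by
    intro τ hτ
    have hpos : ∀ r : ℝ, 0 < τ ^ 2 + r ^ 2 := fun r => by positivity
    have hc : Continuous (fun r : ℝ => r / (τ ^ 2 + r ^ 2)) :=
      continuous_id.div (by fun_prop) fun r => (hpos r).ne'
    have hd : ∀ r ∈ uIcc a b, HasDerivAt (fun r : ℝ => Real.log (τ ^ 2 + r ^ 2) / 2) (r / (τ ^ 2 + r ^ 2)) r := by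
      intro r _
      have h1 : HasDerivAt (fun r : ℝ => τ ^ 2 + r ^ 2) (2 * r) r := by
        simpa using ((hasDerivAt_id r).pow 2).const_add (τ ^ 2)
      have h2 := (h1.log (hpos r).ne').div_const 2
      have e : r / (τ ^ 2 + r ^ 2) = 2 * r / (τ ^ 2 + r ^ 2) / 2 := by ring
      rw [e]
      exact h2
    rw [← intervalIntegral.integral_eq_sub_of_hasDerivAt hd (hc.intervalIntegrable a b),
      intervalIntegral.integral_of_le hab, ofReal_integral_eq_lintegral_ofReal]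
    · exact (hc.integrableOn_Icc).mono_set Ioc_subset_Icc_self
    · filter_upwards [ae_restrict_mem measurableSet_Ioc] with r hr
      exact div_nonneg (ha.trans hr.1.le) (hpos r).le
  have hne : ∀ᵐ τ : ℝ, τ ≠ 0 := by simp [ae_iff]
  calc ∫⁻ τ : ℝ, ENNReal.ofReal (Real.log (τ ^ 2 + b ^ 2) / 2 - Real.log (τ ^ 2 + a ^ 2) / 2)
      = ∫⁻ τ : ℝ, ∫⁻ r in Ioc a b, ENNReal.ofReal (r / (τ ^ 2 + r ^ 2)) := by
        refine lintegral_congr_ae ?_
        filter_upwards [hne] with τ hτ using h1 τ hτ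
    _ = ∫⁻ r in Ioc a b, ∫⁻ τ : ℝ, ENNReal.ofReal (r / (τ ^ 2 + r ^ 2)) := by
        refine lintegral_lintegral_swap ?_
        refine Measurable.aemeasurable ?_
        unfold Function.uncurry
        fun_prop
    _ = ∫⁻ _ in Ioc a b, ENNReal.ofReal π := by
        refine lintegral_congr_ae ?_
        filter_upwards [ae_restrict_mem measurableSet_Ioc] with r hr
        exact cauchy_int (lt_of_le_of_lt ha hr.1)
    _ ≤ _ := by
        rw [setLIntegral_const, Real.volume_Ioc, ← ENNReal.ofReal_mul Real.pi_pos.le]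

lemma log_norm_eq (z : ℂ) : Real.log ‖z‖ = Real.log (z.re ^ 2 + z.im ^ 2) / 2 := by
  have : z.re ^ 2 + z.im ^ 2 = ‖z‖ ^ 2 := by
    rw [Complex.sq_norm, Complex.normSq_apply]; ring
  rw [this, Real.log_pow]; push_cast; ring

lemma ae_ne (α : ℝ) : ∀ᵐ t : ℝ, t ≠ α := by simp [ae_iff]

lemma int_odd (a : ℂ) {ε : ℝ} (hε : 0 ≤ ε) :
    ∫⁻ t : ℝ, ENNReal.ofReal |Real.log ‖t + ε * Complex.I - a‖ - Real.log ‖t - ε * Complex.I - a‖|
      ≤ ENNReal.ofReal (2 * π * min ε |a.im|) := by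
  set A := min |ε - a.im| |ε + a.im| with hA
  set B := max |ε - a.im| |ε + a.im| with hB
  have hA0 : 0 ≤ A := le_min (abs_nonneg _) (abs_nonneg _)
  have hAB : A ≤ B := min_le_max
  have h1 := logint hA0 hAB
  rw [← lintegral_sub_right_eq_self _ a.re] at h1
  refine le_trans (lintegral_mono_ae ?_) (h1.trans (ENNReal.ofReal_le_ofReal ?_))
  · filter_upwards [ae_ne a.re] with t ht
    refine ENNReal.ofReal_le_ofReal ?_
    have ht' : t - a.re ≠ 0 := sub_ne_zero.2 ht
    rw [log_norm_eq, log_norm_eq]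
    have e1 : ((t : ℂ) + ε * Complex.I - a).re = t - a.re := by simp
    have e2 : ((t : ℂ) + ε * Complex.I - a).im ^ 2 = |ε - a.im| ^ 2 := by simp
    have e3 : ((t : ℂ) - ε * Complex.I - a).re = t - a.re := by simp
    have e4 : ((t : ℂ) - ε * Complex.I - a).im ^ 2 = |ε + a.im| ^ 2 := by simp; ring
    rw [e1, e2, e3, e4]
    have mono : ∀ x y : ℝ, 0 ≤ x → x ≤ y →
        Real.log ((t - a.re) ^ 2 + x ^ 2) ≤ Real.log ((t - a.re) ^ 2 + y ^ 2) := by
      intro x y hx hxy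
      refine Real.log_le_log (by positivity) ?_
      nlinarith
    have m1 := mono A _ hA0 (min_le_left _ _)
    have m2 := mono A _ hA0 (min_le_right _ _)
    have m3 := mono _ B (abs_nonneg _) (le_max_left _ _)
    have m4 := mono _ B (abs_nonneg _) (le_max_right _ _)
    rw [abs_le]; constructor <;> linarith
  · have : B - A ≤ 2 * min ε |a.im| := by
      rw [hA, hB, max_sub_min_eq_abs]
      have k1 := abs_abs_sub_abs_le_abs_sub (ε + a.im) (ε - a.im)
      have k2 := abs_abs_sub_abs_le_abs_sub (ε + a.im) (-(ε - a.im))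
      rw [abs_neg] at k2
      have k3 : |ε + a.im - (ε - a.im)| = 2 * |a.im| := by
        rw [show ε + a.im - (ε - a.im) = 2 * a.im by ring, abs_mul]; simp
      have k4 : |ε + a.im - -(ε - a.im)| = 2 * ε := by
        rw [show ε + a.im - -(ε - a.im) = 2 * ε by ring, abs_of_nonneg (by linarith)]
      rcases le_total ε |a.im| with h | h
      · rw [min_eq_left h]; linarith
      · rw [min_eq_right h]; linarith
    nlinarith [Real.pi_pos]

lemma int_dfc (w : ℂ) (K : ℝ) :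
    ∫⁻ t : ℝ, dfc (-K) (t + w) ≤ ENNReal.ofReal (π * Real.exp (-K)) := by
  have h1 := logint (a := 0) (b := Real.exp (-K)) le_rfl (Real.exp_pos _).le
  rw [← lintegral_add_right_eq_self _ w.re, sub_zero] at h1
  refine le_trans (lintegral_mono_ae ?_) h1
  filter_upwards [ae_ne (-w.re)] with t ht
  have ht' : t + w.re ≠ 0 := fun h => ht (by linarith)
  have hne : (t : ℂ) + w ≠ 0 := by
    intro h
    have := congrArg Complex.re h
    simp at this
    exact ht' this
  simp only [dfc, hne, if_false]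
  refine ENNReal.ofReal_le_ofReal ?_
  rw [log_norm_eq]
  have e1 : ((t : ℂ) + w).re = t + w.re := by simp
  rw [e1]
  have m1 : Real.log ((t + w.re) ^ 2 + 0 ^ 2) ≤ Real.log ((t + w.re) ^ 2 + ((t : ℂ) + w).im ^ 2) := by
    refine Real.log_le_log (by positivity) ?_
    nlinarith [sq_nonneg ((t : ℂ) + w).im]
  have m2 : Real.log (Real.exp (-K) ^ 2) ≤ Real.log ((t + w.re) ^ 2 + Real.exp (-K) ^ 2) := by
    refine Real.log_le_log (by positivity) ?_
    nlinarith [sq_nonneg (t + w.re)]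
  rw [Real.log_pow, Real.log_exp] at m2
  push_cast at m2
  have fin : ∀ L1 L0 L2 : ℝ, L0 ≤ L2 → 2 * -K ≤ L1 → -K - L2 / 2 ≤ L1 / 2 - L0 / 2 := by
    intro L1 L0 L2 q1 q2; linarith
  exact fin _ _ _ m1 m2

lemma low_int {a : ℂ} {σ R : ℝ} (hR : 0 < R) (hR4 : R ≤ 4) (ha : ‖a‖ ≤ 2) (hσ : |a.im - σ| ≤ R / 2) :
    ENNReal.ofReal (R / 8) ≤
      ∫⁻ t in Icc (-3 : ℝ) 3, ENNReal.ofReal (Real.log R - Real.log ‖t + σ * Complex.I - a‖) := by
  have hre : |a.re| ≤ 2 := (Complex.abs_re_le_norm a).trans ha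
  have hsub : Icc (a.re - R / 4) (a.re + R / 4) ⊆ Icc (-3 : ℝ) 3 := by
    have := abs_le.1 hre
    exact Icc_subset_Icc (by linarith) (by linarith)
  refine le_trans ?_ (lintegral_mono_set hsub)
  have h1 : ENNReal.ofReal (R / 8) = ∫⁻ _ in Icc (a.re - R / 4) (a.re + R / 4), ENNReal.ofReal (1 / 4) := by
    rw [setLIntegral_const, Real.volume_Icc, ← ENNReal.ofReal_mul (by norm_num)]
    congr 1; ring
  rw [h1]
  refine lintegral_mono_ae ?_
  filter_upwards [ae_restrict_mem measurableSet_Icc, ae_restrict_of_ae (ae_ne a.re)] with t ht hne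
  refine ENNReal.ofReal_le_ofReal ?_
  have hz : (t : ℂ) + σ * Complex.I - a ≠ 0 := by
    intro h
    have := congrArg Complex.re h
    simp at this
    exact hne (by linarith)
  have hn : ‖(t : ℂ) + σ * Complex.I - a‖ ≤ 3 / 4 * R := by
    refine (Complex.norm_le_abs_re_add_abs_im _).trans ?_
    have e1 : ((t : ℂ) + σ * Complex.I - a).re = t - a.re := by simp
    have e2 : ((t : ℂ) + σ * Complex.I - a).im = σ - a.im := by simp
    rw [e1, e2, abs_sub_comm σ]
    have : |t - a.re| ≤ R / 4 := by rw [abs_le]; constructor <;> linarith [ht.1, ht.2]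
    linarith
  have h2 := Real.log_le_log (norm_pos_iff.2 hz) hn
  rw [Real.log_mul (by norm_num) hR.ne'] at h2
  have h3 : Real.log (3 / 4) ≤ 3 / 4 - 1 := Real.log_le_sub_one_of_pos (by norm_num)
  linarith

lemma log_sub_le {x y d m : ℝ} (hm : 0 < m) (hx : 0 < x) (hy : m ≤ y) (hd : 0 ≤ d) (h : x - y ≤ d) :
    Real.log x - Real.log y ≤ d / m := by
  have hy0 : 0 < y := lt_of_lt_of_le hm hy
  rw [← Real.log_div hx.ne' hy0.ne']
  refine (Real.log_le_sub_one_of_pos (div_pos hx hy0)).trans ?_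
  have : x / y - 1 = (x - y) / y := by field_simp
  rw [this]
  exact (div_le_div_of_nonneg_right h hy0.le).trans (div_le_div_of_nonneg_left hd hm hy)

lemma odd_far {a : ℂ} {δ ε : ℝ} (hδ : 0 < δ) (hε : 0 ≤ ε) (hεδ : ε ≤ δ / 2) (ha : δ ≤ |a.im|) (t : ℝ) :
    |Real.log ‖t + ε * Complex.I - a‖ - Real.log ‖t - ε * Complex.I - a‖| ≤ 4 * ε / δ := by
  have n1 : δ / 2 ≤ ‖(t : ℂ) + ε * Complex.I - a‖ := by
    refine le_trans ?_ (Complex.abs_im_le_norm _)
    have e2 : ((t : ℂ) + ε * Complex.I - a).im = ε - a.im := by simp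
    rw [e2]
    have := abs_sub_abs_le_abs_sub a.im ε
    rw [abs_of_nonneg hε, abs_sub_comm] at this
    linarith
  have n2 : δ / 2 ≤ ‖(t : ℂ) - ε * Complex.I - a‖ := by
    refine le_trans ?_ (Complex.abs_im_le_norm _)
    have e2 : ((t : ℂ) - ε * Complex.I - a).im = -ε - a.im := by simp
    rw [e2]
    have := abs_sub_abs_le_abs_sub a.im (-ε)
    rw [abs_neg, abs_of_nonneg hε, abs_sub_comm] at this
    linarith
  have d1 : ‖((t : ℂ) + ε * Complex.I - a) - (t - ε * Complex.I - a)‖ = 2 * ε := by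
    have : ((t : ℂ) + ε * Complex.I - a) - (t - ε * Complex.I - a) = 2 * (ε * Complex.I) := by ring
    rw [this, norm_mul]; simp [abs_of_nonneg hε]
  have k := abs_norm_sub_norm_le ((t : ℂ) + ε * Complex.I - a) (t - ε * Complex.I - a)
  rw [d1, abs_le] at k
  have p1 := log_sub_le (m := δ / 2) (d := 2 * ε) (by linarith) (by linarith : 0 < ‖(t : ℂ) + ε * Complex.I - a‖)
    n2 (by linarith) (by linarith)
  have p2 := log_sub_le (m := δ / 2) (d := 2 * ε) (by linarith) (by linarith : 0 < ‖(t : ℂ) - ε * Complex.I - a‖)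
    n1 (by linarith) (by linarith)
  have e : 2 * ε / (δ / 2) = 4 * ε / δ := by field_simp; ring
  rw [e] at p1 p2
  rw [abs_le]; constructor <;> linarith

lemma band {δ β : ℝ} (m : ℕ) (h1 : β ≤ δ) (h2 : δ / 2 ^ (m + 1) ≤ β) :
    ∃ j ∈ Finset.range (m + 1), |β - δ / 2 ^ j| ≤ δ / 2 ^ j / 2 := by
  induction m with
  | zero =>
    refine ⟨0, by simp, ?_⟩
    simp only [pow_zero, div_one, zero_add, pow_one] at h2 ⊢
    rw [abs_le]; constructor <;> linarith
  | succ m ih =>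
    by_cases h : δ / 2 ^ (m + 1) ≤ β
    · obtain ⟨j, hj, hj'⟩ := ih h
      exact ⟨j, Finset.mem_range.2 (by have := Finset.mem_range.1 hj; omega), hj'⟩
    · refine ⟨m + 1, by simp, ?_⟩
      have e : δ / 2 ^ (m + 1 + 1) = δ / 2 ^ (m + 1) / 2 := by rw [pow_succ, div_div]
      rw [e] at h2
      push Not at h
      rw [abs_le]; constructor <;> linarith

end Pool.Agent.H548Z.Jes
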