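import Mathlib
import Pool.Agent.H548Z.JesInt

set_option autoImplicit false

open MeasureTheory Filter Topology Set Metric Real

namespace Pool.Agent.H548Z.Jes

open Pool.Agent.Results.MP_5c297c_an.NotJessen

variable {n : ℕ}

/-- upper bound for the upper mean value -/
def UB (F : (Fin n → ℝ) → ENNReal) (c : ℝ) : Prop :=
  ∀ η : ℝ, 0 < η → ∀ s : ℝ, ∀ᶠ k : ℕ in atTop,
    ∫⁻ x in cube ((k:ℝ) + s) 0, F x ≤ ENNReal.ofReal ((c + η) * (2 * (k:ℝ)) ^ n)

lemma cube_mono {t t' : ℝ} (h : t ≤ t') : cube t (0 : Fin n → ℝ) ⊆ cube t' 0 :=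
  fun _ hx j => lt_of_lt_of_le (hx j) h

namespace UB

variable {F G : (Fin n → ℝ) → ENNReal} {a b : ℝ}

lemma mono_ae (hG : UB G a) (h : ∀ᵐ x, F x ≤ G x) : UB F a := by
  intro η hη s
  filter_upwards [hG η hη s] with k hk
  exact (lintegral_mono_ae (ae_restrict_of_ae h)).trans hk

lemma mono (hG : UB G a) (h : ∀ x, F x ≤ G x) : UB F a := hG.mono_ae (ae_of_all _ h)

lemma le (hF : UB F a) (h : a ≤ b) : UB F b := by
  intro η hη s
  filter_upwards [hF η hη s] with k hk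
  refine hk.trans (ENNReal.ofReal_le_ofReal ?_)
  exact mul_le_mul_of_nonneg_right (by linarith) (by positivity)

lemma add (hF : UB F a) (hG : UB G b) (hm : Measurable F) (ha : 0 ≤ a) (hb : 0 ≤ b) :
    UB (fun x => F x + G x) (a + b) := by
  intro η hη s
  filter_upwards [hF (η / 2) (by linarith) s, hG (η / 2) (by linarith) s] with k h1 h2
  rw [lintegral_add_left hm]
  refine (add_le_add h1 h2).trans ?_
  rw [← ENNReal.ofReal_add (by positivity) (by positivity)]
  exact ENNReal.ofReal_le_ofReal (le_of_eq (by ring))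

lemma const_mul (hF : UB F a) {κ : ℝ} (hκ : 0 ≤ κ) : UB (fun x => ENNReal.ofReal κ * F x) (κ * a) := by
  intro η hη s
  filter_upwards [hF (η / (κ + 1)) (by positivity) s] with k h1
  rw [lintegral_const_mul' _ _ ENNReal.ofReal_ne_top]
  refine (mul_le_mul_right h1 _).trans ?_
  rw [← ENNReal.ofReal_mul hκ]
  refine ENNReal.ofReal_le_ofReal ?_
  rw [← mul_assoc]
  refine mul_le_mul_of_nonneg_right ?_ (by positivity)
  have : κ * (η / (κ + 1)) ≤ η := by
    rw [← mul_div_assoc, div_le_iff₀ (by positivity)]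
    nlinarith
  nlinarith

lemma one : UB (fun _ : Fin n → ℝ => 1) 1 := by
  intro η hη s
  have h2 : Tendsto (fun k : ℕ => (((k:ℝ) + s) / (k:ℝ)) ^ n) atTop (𝓝 (1 ^ n)) := by
    refine Tendsto.pow ?_ n
    have h3 : Tendsto (fun k : ℕ => 1 + s / (k:ℝ)) atTop (𝓝 (1 + 0)) :=
      tendsto_const_nhds.add (tendsto_const_div_atTop_nhds_zero_nat s)
    rw [add_zero] at h3
    refine h3.congr' ?_
    filter_upwards [eventually_gt_atTop 0] with k hk
    have : (k:ℝ) ≠ 0 := by positivity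
    field_simp
  rw [one_pow] at h2
  have hk : Tendsto (fun k : ℕ => (k:ℝ) + s) atTop atTop :=
    tendsto_atTop_add_const_right _ _ tendsto_natCast_atTop_atTop
  filter_upwards [h2.eventually_lt_const (show (1:ℝ) < 1 + η by linarith), eventually_gt_atTop 0,
    hk.eventually_gt_atTop 0] with k h1 hk0 hks
  have hk0' : (0:ℝ) < k := by exact_mod_cast hk0
  rw [setLIntegral_const, one_mul, volume_cube hks]
  refine ENNReal.ofReal_le_ofReal ?_
  rw [div_pow, div_lt_iff₀ (by positivity)] at h1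
  rw [mul_pow, mul_pow]
  have : (0:ℝ) < 2 ^ n := by positivity
  nlinarith

lemma const {c : ℝ} (hc : 0 ≤ c) : UB (fun _ : Fin n → ℝ => ENNReal.ofReal c) c := by
  have := (one (n := n)).const_mul hc
  simpa using this

lemma sum {ι : Type} (s : Finset ι) {F : ι → (Fin n → ℝ) → ENNReal} {a : ι → ℝ}
    (h : ∀ i ∈ s, UB (F i) (a i)) (hm : ∀ i ∈ s, Measurable (F i)) (ha : ∀ i ∈ s, 0 ≤ a i) :
    UB (fun x => ∑ i ∈ s, F i x) (∑ i ∈ s, a i) := by
  classical
  induction s using Finset.induction_on with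
  | empty =>
    intro η hη s
    simp
  | insert i s hi ih =>
    simp only [Finset.sum_insert hi]
    refine (h i (Finset.mem_insert_self _ _)).add (ih (fun j hj => h j (Finset.mem_insert_of_mem hj))
      (fun j hj => hm j (Finset.mem_insert_of_mem hj)) (fun j hj => ha j (Finset.mem_insert_of_mem hj)))
      (hm i (Finset.mem_insert_self _ _)) (ha i (Finset.mem_insert_self _ _))
      (Finset.sum_nonneg fun j hj => ha j (Finset.mem_insert_of_mem hj))

lemma of_shift (hG : UB G a) (R : ℝ)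
    (h : ∀ t : ℝ, ∫⁻ x in cube t 0, F x ≤ ∫⁻ x in cube (t + R) 0, G x) : UB F a := by
  intro η hη s
  filter_upwards [hG η hη (s + R)] with k hk
  refine (h _).trans ?_
  rwa [add_assoc]

lemma finite (hF : UB F a) (t : ℝ) : ∫⁻ x in cube t 0, F x < ⊤ := by
  obtain ⟨k, hk⟩ := (hF 1 one_pos t).exists
  refine lt_of_le_of_lt (lintegral_mono_set (cube_mono ?_)) (hk.trans_lt ENNReal.ofReal_lt_top)
  have : (0:ℝ) ≤ k := Nat.cast_nonneg k
  linarith

end UB

lemma shift1 (F : (Fin n → ℝ) → ENNReal) {v : Fin n → ℝ} {R : ℝ} (hv : ‖v‖ ≤ R) (t : ℝ) :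
    ∫⁻ x in cube t 0, F (x + v) ≤ ∫⁻ x in cube (t + R) 0, F x := by
  rw [← lintegral_indicator (measurableSet_cube _ 0), ← lintegral_indicator (measurableSet_cube _ 0),
    ← lintegral_add_right_eq_self ((cube (t + R) 0).indicator F) v]
  refine lintegral_mono fun x => ?_
  by_cases hx : x ∈ cube t (0 : Fin n → ℝ)
  · have hx2 : x + v ∈ cube (t + R) (0 : Fin n → ℝ) := by
      intro j
      have h1 := hx j
      have h2 : |v j| ≤ R := (norm_le_pi_norm v j).trans hv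
      simp only [Pi.zero_apply, sub_zero, Pi.add_apply] at h1 ⊢
      have h3 := abs_add_le (x j) (v j)
      linarith
    rw [indicator_of_mem hx, indicator_of_mem hx2]
  · rw [indicator_of_notMem hx]; exact zero_le

lemma shift2 (F : (Fin n → ℝ) → ENNReal) {v : Fin n → ℝ} {R : ℝ} (hv : ‖v‖ ≤ R) (t : ℝ) :
    ∫⁻ x in cube t 0, F x ≤ ∫⁻ x in cube (t + R) 0, F (x + v) := by
  have := shift1 (fun x => F (x + v)) (v := -v) (R := R) (by rwa [norm_neg]) t
  simpa using this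

section avg

variable {T : Type} [MeasurableSpace T] (μ : Measure T) [SFinite μ] {ψ : T → (Fin n → ℝ)} {R : ℝ}
  {F : (Fin n → ℝ) → ENNReal}

lemma meas_avg (hψ : Measurable ψ) (hF : Measurable F) :
    Measurable (fun x : Fin n → ℝ => ∫⁻ τ, F (x + ψ τ) ∂μ) := by
  have : Measurable (fun q : (Fin n → ℝ) × T => F (q.1 + ψ q.2)) := by fun_prop
  exact this.lintegral_prod_right'

lemma avg_up (hψ : Measurable ψ) (hR : ∀ᵐ τ ∂μ, ‖ψ τ‖ ≤ R) (hF : Measurable F) (t : ℝ) :
    ∫⁻ x in cube t 0, ∫⁻ τ, F (x + ψ τ) ∂μ ≤ μ univ * ∫⁻ x in cube (t + R) 0, F x := by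
  rw [lintegral_lintegral_swap (by
    refine Measurable.aemeasurable ?_
    unfold Function.uncurry
    fun_prop), mul_comm, ← lintegral_const]
  refine lintegral_mono_ae ?_
  filter_upwards [hR] with τ hτ using shift1 F hτ t

lemma avg_low (hψ : Measurable ψ) (hR : ∀ᵐ τ ∂μ, ‖ψ τ‖ ≤ R) (hF : Measurable F) (t : ℝ) :
    μ univ * ∫⁻ x in cube t 0, F x ≤ ∫⁻ x in cube (t + R) 0, ∫⁻ τ, F (x + ψ τ) ∂μ := by
  rw [lintegral_lintegral_swap (by
    refine Measurable.aemeasurable ?_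
    unfold Function.uncurry
    fun_prop), mul_comm, ← lintegral_const]
  refine lintegral_mono_ae ?_
  filter_upwards [hR] with τ hτ using shift2 F hτ t

lemma UB.avg_up {c m : ℝ} (h : UB F c) (hm : 0 ≤ m) (hμ : μ univ = ENNReal.ofReal m) (hψ : Measurable ψ)
    (hR : ∀ᵐ τ ∂μ, ‖ψ τ‖ ≤ R) (hF : Measurable F) : UB (fun x => ∫⁻ τ, F (x + ψ τ) ∂μ) (m * c) := by
  refine (h.const_mul hm).of_shift R fun t => ?_
  rw [lintegral_const_mul' _ _ ENNReal.ofReal_ne_top, ← hμ]
  exact Jes.avg_up μ hψ hR hF t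

lemma UB.avg_low {c m : ℝ} (h : UB (fun x => ∫⁻ τ, F (x + ψ τ) ∂μ) c) (hm : 0 < m)
    (hμ : μ univ = ENNReal.ofReal m) (hψ : Measurable ψ)
    (hR : ∀ᵐ τ ∂μ, ‖ψ τ‖ ≤ R) (hF : Measurable F) : UB F (m⁻¹ * c) := by
  have h1 : UB (fun x => ENNReal.ofReal m * F x) c := by
    refine h.of_shift R fun t => ?_
    rw [lintegral_const_mul' _ _ ENNReal.ofReal_ne_top, ← hμ]
    exact Jes.avg_low μ hψ hR hF t
  refine (h1.const_mul (inv_pos.2 hm).le).mono fun x => le_of_eq ?_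
  rw [← mul_assoc, ← ENNReal.ofReal_mul (inv_pos.2 hm).le, inv_mul_cancel₀ hm.ne']
  simp

end avg

lemma UB.of_tendsto {F : (Fin n → ℝ) → ENNReal} {c : ℝ} (hc : 0 ≤ c)
    (h : ∀ s : ℝ, Tendsto (fun k : ℕ => (∫⁻ x in cube ((k:ℝ) + s) 0, F x) / ENNReal.ofReal ((2 * (k:ℝ)) ^ n))
      atTop (𝓝 (ENNReal.ofReal c))) : UB F c := by
  intro η hη s
  have h1 := (h s).eventually_lt_const (u := ENNReal.ofReal (c + η))
    ((ENNReal.ofReal_lt_ofReal_iff (by linarith)).2 (by linarith))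
  filter_upwards [h1, eventually_gt_atTop 0] with k hk hk0
  have hk0' : (0:ℝ) < k := by exact_mod_cast hk0
  have hpos : (0:ℝ) < (2 * (k:ℝ)) ^ n := by positivity
  rw [ENNReal.div_lt_iff (Or.inl (ENNReal.ofReal_pos.2 hpos).ne') (Or.inl ENNReal.ofReal_ne_top),
    ← ENNReal.ofReal_mul (by linarith)] at hk
  exact hk.le

end Pool.Agent.H548Z.Jes
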