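import Mathlib
import Pool.Agent.H548Z.JesUB

set_option autoImplicit false

open MeasureTheory Filter Topology Set Metric Real

namespace Pool.Agent.H548Z.Jes

open Pool.Agent.Results.MP_5c297c_an.NotJessen

variable {n : ℕ}

structure Setup (f : (Fin n → ℂ) → ℂ) (p : Fin n → ℝ) (s M : ℝ) : Prop where
  hs : 0 < s
  hM0 : 0 ≤ M
  meas : Measurable f
  diff : DifferentiableOn ℂ f (tube (ball p (10 * s)))
  bd : ∀ z ∈ tube (closedBall p (10 * s)), ‖f z‖ ≤ Real.exp M

/-- restriction to the complex line through a real point in a real direction -/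
noncomputable def ln (f : (Fin n → ℂ) → ℂ) (p x c : Fin n → ℝ) (ζ : ℂ) : ℂ := f (cpt x p + ζ • cpt c 0)

lemma cpt_line (p x c : Fin n → ℝ) (ζ : ℂ) :
    cpt x p + ζ • cpt c 0 = cpt (x + ζ.re • c) (p + ζ.im • c) := by
  funext j
  apply Complex.ext <;> simp [cpt]

lemma ln_eq (f : (Fin n → ℂ) → ℂ) (p x c : Fin n → ℝ) (t σ : ℝ) :
    ln f p x c (t + σ * Complex.I) = f (cpt (x + t • c) (p + σ • c)) := by
  unfold ln; rw [cpt_line]; simp

lemma ln_real (f : (Fin n → ℂ) → ℂ) (p x c : Fin n → ℝ) (t : ℝ) :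
    ln f p x c t = f (cpt (x + t • c) p) := by
  unfold ln; rw [cpt_line]; simp

lemma ln_zero (f : (Fin n → ℂ) → ℂ) (p x c : Fin n → ℝ) : ln f p x c 0 = f (cpt x p) := by
  unfold ln; simp

lemma meas_dfc {f : (Fin n → ℂ) → ℂ} (hf : Measurable f) (M : ℝ) (y : Fin n → ℝ) :
    Measurable (fun x : Fin n → ℝ => dfc M (f (cpt x y))) :=
  (measurable_dfc M).comp (hf.comp (measurable_cpt_left y))

namespace Setup

variable {f : (Fin n → ℂ) → ℂ} {p : Fin n → ℝ} {s M : ℝ} (S : Setup f p s M)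
include S

lemma mem_ball' {c : Fin n → ℝ} (hc : ‖c‖ ≤ s) {σ : ℝ} (hσ : |σ| ≤ 9) : p + σ • c ∈ ball p (10 * s) := by
  rw [mem_ball, dist_eq_norm, add_sub_cancel_left, norm_smul, Real.norm_eq_abs]
  have := S.hs
  nlinarith [norm_nonneg c, abs_nonneg σ]

lemma line_mem (x : Fin n → ℝ) {c : Fin n → ℝ} (hc : ‖c‖ ≤ s) {ζ : ℂ} (hζ : ‖ζ‖ ≤ 9) :
    cpt x p + ζ • cpt c 0 ∈ tube (ball p (10 * s)) := by
  rw [cpt_line]
  show imPart _ ∈ ball p (10 * s)
  rw [imPart_cpt]
  exact S.mem_ball' hc ((Complex.abs_im_le_norm ζ).trans hζ)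

lemma ln_diff (x : Fin n → ℝ) {c : Fin n → ℝ} (hc : ‖c‖ ≤ s) : DifferentiableOn ℂ (ln f p x c) (ball 0 9) := by
  have := line_analytic (isOpen_tube isOpen_ball) S.diff (cpt x p) (cpt c 0)
  refine (this.mono fun ζ hζ => ?_).differentiableOn
  exact S.line_mem x hc (le_of_lt (by simpa using hζ))

lemma ln_bd (x : Fin n → ℝ) {c : Fin n → ℝ} (hc : ‖c‖ ≤ s) :
    ∀ ζ ∈ closedBall (0:ℂ) 8, ‖ln f p x c ζ‖ ≤ Real.exp M := by
  intro ζ hζ
  have hζ' : ‖ζ‖ ≤ 8 := by simpa using hζ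
  exact S.bd _ (ball_subset_closedBall (S.line_mem x hc (by linarith)))

lemma bd' {y : Fin n → ℝ} (hy : y ∈ ball p (10 * s)) (x : Fin n → ℝ) : ‖f (cpt x y)‖ ≤ Real.exp M := by
  refine S.bd _ ?_
  show imPart _ ∈ closedBall p (10 * s)
  rw [imPart_cpt]; exact ball_subset_closedBall hy

lemma p_mem : p ∈ ball p (10 * s) := mem_ball_self (by linarith [S.hs])

lemma fac_of_lt (x : Fin n → ℝ) {c : Fin n → ℝ} (hc : ‖c‖ ≤ s) {N : ℕ}
    (hN : dfc M (f (cpt x p)) < N) : Nonempty (Fac (ln f p x c) M N) := by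
  have h0 : f (cpt x p) ≠ 0 := by
    intro h; simp [dfc, h] at hN
  refine factor N _ M (S.ln_diff x hc) (S.ln_bd x hc) (by rwa [ln_zero]) ?_
  rw [ln_zero]
  simp only [dfc, h0, if_false] at hN
  rw [← ENNReal.ofReal_natCast] at hN
  exact (ENNReal.ofReal_lt_ofReal_iff_of_nonneg (log_le_of_bound S.hM0 (S.bd' S.p_mem x))).1 hN

omit S in
lemma exists_nat {D : ENNReal} (hD : D ≠ ⊤) : ∃ N : ℕ, D < N ∧ (N : ENNReal) ≤ D + 1 := by
  refine ⟨⌊D.toReal⌋₊ + 1, ?_, ?_⟩
  · rw [← ENNReal.ofReal_toReal hD, ← ENNReal.ofReal_natCast, ENNReal.toReal_ofReal ENNReal.toReal_nonneg,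
      ENNReal.ofReal_lt_ofReal_iff (by positivity)]
    push_cast
    exact Nat.lt_floor_add_one _
  · push_cast
    gcongr
    rw [← ENNReal.ofReal_natCast]
    exact (ENNReal.ofReal_le_ofReal (Nat.floor_le ENNReal.toReal_nonneg)).trans ENNReal.ofReal_toReal_le

omit S in
lemma int_zeros {h : ℂ → ℂ} {N : ℕ} (F : Fac h M N) (w : ℂ) (K : ℝ) (I : Set ℝ) :
    ∫⁻ t in I, ∑ i, dfc (-K) ((t : ℂ) + w - F.a i) ≤ ENNReal.ofReal (N * (π * Real.exp (-K))) := by
  have hm : ∀ i, Measurable (fun t : ℝ => dfc (-K) ((t : ℂ) + w - F.a i)) := fun i =>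
    (measurable_dfc _).comp (by fun_prop)
  rw [lintegral_finsetSum _ fun i _ => hm i]
  calc ∑ i, ∫⁻ t in I, dfc (-K) ((t : ℂ) + w - F.a i)
      ≤ ∑ _i : Fin F.m, ENNReal.ofReal (π * Real.exp (-K)) := by
        refine Finset.sum_le_sum fun i _ => ?_
        refine (setLIntegral_le_lintegral _ _).trans ?_
        have := int_dfc (w - F.a i) K
        simpa only [add_sub_assoc] using this
    _ = ENNReal.ofReal (F.m * (π * Real.exp (-K))) := by
        rw [Finset.sum_const, Finset.card_univ, Fintype.card_fin, nsmul_eq_mul,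
          ENNReal.ofReal_mul (Nat.cast_nonneg _), ENNReal.ofReal_natCast]
    _ ≤ _ := by
        refine ENNReal.ofReal_le_ofReal ?_
        have : (F.m : ℝ) ≤ N := by exact_mod_cast F.m_le
        gcongr

lemma height_le (x : Fin n → ℝ) {c : Fin n → ℝ} (hc : ‖c‖ ≤ s) {σ : ℝ} (hσ : |σ| ≤ 1 / 2) :
    ∫⁻ t in Icc (-(1 / 2) : ℝ) (1 / 2), dfc M (f (cpt (x + t • c) (p + σ • c)))
      ≤ ENNReal.ofReal 7 * (dfc M (f (cpt x p)) + 1) := by
  by_cases hD : dfc M (f (cpt x p)) = ⊤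
  · rw [hD, top_add, ENNReal.mul_top (by simp)]; exact le_top
  obtain ⟨N, hN, hN'⟩ := exists_nat hD
  obtain ⟨F⟩ := S.fac_of_lt x hc hN
  calc ∫⁻ t in Icc (-(1 / 2) : ℝ) (1 / 2), dfc M (f (cpt (x + t • c) (p + σ • c)))
      ≤ ∫⁻ t in Icc (-(1 / 2) : ℝ) (1 / 2), (ENNReal.ofReal ((3 + 0) * N) +
          ∑ i, dfc (-0) ((t : ℂ) + σ * Complex.I - F.a i)) := by
        refine setLIntegral_mono' measurableSet_Icc fun t ht => ?_
        rw [← ln_eq f]
        refine F.dfc_le ?_ le_rfl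
        refine (norm_add_le _ _).trans ?_
        have h1 : ‖(t : ℂ)‖ ≤ 1 / 2 := by
          rw [Complex.norm_real, Real.norm_eq_abs, abs_le]; exact ht
        have h2 : ‖(σ : ℂ) * Complex.I‖ ≤ 1 / 2 := by simpa using hσ
        linarith
    _ ≤ ENNReal.ofReal ((3 + 0) * N) + ENNReal.ofReal (N * (π * Real.exp (-0))) := by
        rw [lintegral_add_left measurable_const, setLIntegral_const, Real.volume_Icc]
        refine add_le_add (le_of_eq ?_) (int_zeros F _ 0 _)
        norm_num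
    _ ≤ ENNReal.ofReal 7 * N := by
        rw [← ENNReal.ofReal_add (by positivity) (by positivity), ← ENNReal.ofReal_natCast,
          ← ENNReal.ofReal_mul (by norm_num)]
        refine ENNReal.ofReal_le_ofReal ?_
        have := Real.pi_le_four
        have h0 : (0:ℝ) ≤ N := Nat.cast_nonneg _
        simp only [neg_zero, Real.exp_zero]
        nlinarith
    _ ≤ _ := by gcongr

lemma tail_le (x : Fin n → ℝ) {c : Fin n → ℝ} (hc : ‖c‖ ≤ s) {N : ℕ} (hN : dfc M (f (cpt x p)) < N)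
    {K : ℝ} (hK : 0 ≤ K) :
    ∫⁻ t in Icc (1 / 2 : ℝ) 1, (dfc M (f (cpt (x + t • c) p)) - ENNReal.ofReal ((3 + K) * N))
      ≤ ENNReal.ofReal (N * (π * Real.exp (-K))) := by
  obtain ⟨F⟩ := S.fac_of_lt x hc hN
  refine le_trans ?_ (int_zeros F 0 K (Icc (1 / 2 : ℝ) 1))
  refine setLIntegral_mono' measurableSet_Icc fun t ht => ?_
  rw [tsub_le_iff_left, ← ln_real f]
  simp only [add_zero]
  refine F.dfc_le ?_ hK
  rw [Complex.norm_real, Real.norm_eq_abs, abs_le]
  constructor <;> linarith [ht.1, ht.2]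

lemma step (x : Fin n → ℝ) {c : Fin n → ℝ} (hc : ‖c‖ ≤ s) {N : ℕ} (hN : dfc M (f (cpt x p)) < N) :
    ∃ t ∈ Icc (1 / 2 : ℝ) 1, dfc M (f (cpt (x + t • c) p)) < (10 * N : ℕ) := by
  by_contra hcon
  push Not at hcon
  have h1 := S.tail_le x hc hN le_rfl
  have hN0 : 0 < N := by
    rcases Nat.eq_zero_or_pos N with h | h
    · rw [h] at hN; simp at hN
    · exact h
  have hN1 : (0:ℝ) < N := by exact_mod_cast hN0
  have h2 : ∫⁻ _ in Icc (1 / 2 : ℝ) 1, ENNReal.ofReal (7 * N) ≤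
      ∫⁻ t in Icc (1 / 2 : ℝ) 1, (dfc M (f (cpt (x + t • c) p)) - ENNReal.ofReal ((3 + 0) * N)) := by
    refine setLIntegral_mono' measurableSet_Icc fun t ht => ?_
    refine ENNReal.le_sub_of_add_le_right ENNReal.ofReal_ne_top ?_
    refine le_trans (le_of_eq ?_) (hcon t ht)
    rw [← ENNReal.ofReal_add (by positivity) (by positivity), ← ENNReal.ofReal_natCast]
    congr 1; push_cast; ring
  have h3 := h2.trans h1
  rw [setLIntegral_const, Real.volume_Icc, ← ENNReal.ofReal_mul (by positivity),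
    ENNReal.ofReal_le_ofReal_iff (by positivity)] at h3
  have := Real.pi_lt_d2
  simp only [neg_zero, Real.exp_zero] at h3
  nlinarith

lemma propagate_nat (N : ℕ) (j : ℕ) : ∃ N' : ℕ, ∀ x₀ b : Fin n → ℝ, dfc M (f (cpt x₀ p)) < N →
    ‖b - x₀‖ ≤ (j + 1) * (s / 4) → ∃ x, ‖b - x‖ ≤ s / 4 ∧ dfc M (f (cpt x p)) < N' := by
  induction j with
  | zero => exact ⟨N, fun x₀ b h1 h2 => ⟨x₀, by simpa using h2, h1⟩⟩
  | succ j ih =>
    obtain ⟨N', hN'⟩ := ih
    refine ⟨10 * N', fun x₀ b h1 h2 => ?_⟩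
    have hs := S.hs
    have hj : (0:ℝ) < (j:ℝ) + 2 := by positivity
    push_cast at h2
    set b' := x₀ + (((j:ℝ) + 1) / ((j:ℝ) + 2)) • (b - x₀) with hb'
    have e1 : ‖b' - x₀‖ ≤ (j + 1) * (s / 4) := by
      rw [hb', add_sub_cancel_left, norm_smul, Real.norm_eq_abs, abs_of_nonneg (by positivity),
        div_mul_eq_mul_div, div_le_iff₀ hj]
      have : (0:ℝ) ≤ (j:ℝ) + 1 := by positivity
      nlinarith
    have e2 : ‖b - b'‖ ≤ s / 4 := by
      have : b - b' = (1 / ((j:ℝ) + 2)) • (b - x₀) := by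
        rw [hb']
        have e : (1 / ((j:ℝ) + 2)) = 1 - ((j:ℝ) + 1) / ((j:ℝ) + 2) := by field_simp; ring
        rw [e, sub_smul, one_smul]; abel
      rw [this, norm_smul, Real.norm_eq_abs, abs_of_nonneg (by positivity), div_mul_eq_mul_div,
        div_le_iff₀ hj]
      nlinarith
    obtain ⟨x', hx1, hx2⟩ := hN' x₀ b' h1 e1
    have e3 : ‖b - x'‖ ≤ s / 2 := by
      have : b - x' = (b - b') + (b' - x') := by abel
      rw [this]
      exact (norm_add_le _ _).trans (by linarith)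
    obtain ⟨t, ht, ht2⟩ := S.step x' (c := b - x') (by linarith) hx2
    refine ⟨_, ?_, ht2⟩
    have : b - (x' + t • (b - x')) = (1 - t) • (b - x') := by
      rw [sub_smul, one_smul]; abel
    rw [this, norm_smul, Real.norm_eq_abs, abs_of_nonneg (by linarith [ht.2])]
    nlinarith [ht.1, ht.2, norm_nonneg (b - x')]

omit S in
lemma scale_le {G : (Fin n → ℝ) → ENNReal} (hG : Measurable G) {s t : ℝ} (ht : t ∈ Icc (1 / 2 : ℝ) 1) :
    ∫⁻ u in ball (0 : Fin n → ℝ) (s / 2), G u ≤ ∫⁻ c in ball (0 : Fin n → ℝ) s, G (t • c) := by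
  have ht0 : 0 < t := by linarith [ht.1]
  rw [← lintegral_indicator measurableSet_ball, ← lintegral_indicator measurableSet_ball]
  have hH : Measurable ((ball (0 : Fin n → ℝ) (s / 2)).indicator G) := hG.indicator measurableSet_ball
  have e : ∫⁻ c : Fin n → ℝ, (ball (0 : Fin n → ℝ) (s / 2)).indicator G (t • c) =
      ENNReal.ofReal |(t ^ Module.finrank ℝ (Fin n → ℝ))⁻¹| * ∫⁻ u, (ball (0 : Fin n → ℝ) (s / 2)).indicator G u := by
    rw [← lintegral_map hH (measurable_const_smul t), Measure.map_addHaar_smul volume ht0.ne',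
      lintegral_smul_measure, smul_eq_mul]
  have h1 : (1 : ENNReal) ≤ ENNReal.ofReal |(t ^ Module.finrank ℝ (Fin n → ℝ))⁻¹| := by
    rw [ENNReal.one_le_ofReal, abs_of_pos (by positivity)]
    exact (one_le_inv₀ (by positivity)).2 (pow_le_one₀ ht0.le ht.2)
  calc ∫⁻ u, (ball (0 : Fin n → ℝ) (s / 2)).indicator G u
      ≤ ENNReal.ofReal |(t ^ Module.finrank ℝ (Fin n → ℝ))⁻¹| * ∫⁻ u, (ball (0 : Fin n → ℝ) (s / 2)).indicator G u :=
        le_mul_of_one_le_left zero_le h1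
    _ = _ := e.symm
    _ ≤ _ := by
        refine lintegral_mono fun c => ?_
        by_cases hc : t • c ∈ ball (0 : Fin n → ℝ) (s / 2)
        · rw [indicator_of_mem hc, indicator_of_mem]
          rw [mem_ball_zero_iff, norm_smul, Real.norm_eq_abs, abs_of_pos ht0] at hc
          rw [mem_ball_zero_iff]
          nlinarith [ht.1, norm_nonneg c]
        · rw [indicator_of_notMem hc]; exact zero_le

/-- uniform integrability of the deficit on the real slice -/
lemma ui {N : ℕ} {l : ℝ} (hN : ∀ b : Fin n → ℝ, ∃ x₀, ‖b - x₀‖ ≤ l ∧ dfc M (f (cpt x₀ p)) < N)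
    {τ : ℝ} (hτ : 0 < τ) :
    ∃ K : ℝ, 0 ≤ K ∧ UB (fun x => dfc M (f (cpt x p)) - ENNReal.ofReal K) τ := by
  have hs := S.hs
  obtain ⟨j, hj⟩ := exists_nat_ge (l / (s / 4))
  obtain ⟨N', hN'⟩ := S.propagate_nat N j
  have hb : ∀ b : Fin n → ℝ, ∃ x, ‖b - x‖ ≤ s / 4 ∧ dfc M (f (cpt x p)) < N' := by
    intro b
    obtain ⟨x₀, h1, h2⟩ := hN b
    refine hN' x₀ b h2 (h1.trans ?_)
    rw [div_le_iff₀ (by positivity)] at hj
    nlinarith
  obtain ⟨K, hK0, hK⟩ : ∃ K : ℝ, 0 ≤ K ∧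
      ((s / 2) ^ n)⁻¹ * (2 * ((2 * s) ^ n * (N' * (π * Real.exp (-K))))) ≤ τ := by
    have h1 : Tendsto (fun K : ℝ => ((s / 2) ^ n)⁻¹ * (2 * ((2 * s) ^ n * (N' * (π * Real.exp (-K))))))
        atTop (𝓝 (((s / 2) ^ n)⁻¹ * (2 * ((2 * s) ^ n * (N' * (π * 0)))))) :=
      ((((Real.tendsto_exp_neg_atTop_nhds_zero.const_mul π).const_mul _).const_mul _).const_mul _).const_mul _
    simp only [mul_zero] at h1
    obtain ⟨K, hK1, hK2⟩ := ((h1.eventually_lt_const hτ).and (eventually_ge_atTop 0)).exists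
    exact ⟨K, hK2, hK1.le⟩
  refine ⟨(3 + K) * N', by positivity, UB.le ?_ hK⟩
  set G : (Fin n → ℝ) → ENNReal := fun x => dfc M (f (cpt x p)) - ENNReal.ofReal ((3 + K) * N') with hG
  have hGm : Measurable G := (meas_dfc S.meas M p).sub measurable_const
  refine UB.avg_low (volume.restrict (ball (0 : Fin n → ℝ) (s / 4))) (ψ := id) (R := s / 4) ?_
    (by positivity) ?_ measurable_id ?_ hGm
  · refine (UB.const (by positivity)).mono fun b => ?_
    obtain ⟨x, hx1, hx2⟩ := hb b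
    have k1 : ∫⁻ u in ball (0 : Fin n → ℝ) (s / 4), G (b + id u) ≤ ∫⁻ u in ball (0 : Fin n → ℝ) (s / 2), G (x + u) := by
      rw [← lintegral_indicator measurableSet_ball, ← lintegral_indicator measurableSet_ball,
        ← lintegral_add_right_eq_self ((ball (0 : Fin n → ℝ) (s / 2)).indicator fun u => G (x + u)) (b - x)]
      refine lintegral_mono fun u => ?_
      by_cases hu : u ∈ ball (0 : Fin n → ℝ) (s / 4)
      · rw [indicator_of_mem hu, indicator_of_mem]
        · refine le_of_eq ?_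
          congr 1
          simp only [id]; abel
        · rw [mem_ball_zero_iff] at hu ⊢
          have := norm_add_le u (b - x)
          linarith
      · rw [indicator_of_notMem hu]; exact zero_le
    have hGx : Measurable (fun u : Fin n → ℝ => G (x + u)) := hGm.comp (measurable_const_add x)
    have k2 : ENNReal.ofReal (1 / 2) * ∫⁻ u in ball (0 : Fin n → ℝ) (s / 2), G (x + u) ≤
        ENNReal.ofReal ((2 * s) ^ n * (N' * (π * Real.exp (-K)))) := by
      calc ENNReal.ofReal (1 / 2) * ∫⁻ u in ball (0 : Fin n → ℝ) (s / 2), G (x + u)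
          = ∫⁻ _ in Icc (1 / 2 : ℝ) 1, ∫⁻ u in ball (0 : Fin n → ℝ) (s / 2), G (x + u) := by
            rw [setLIntegral_const, Real.volume_Icc, mul_comm]; norm_num
        _ ≤ ∫⁻ t in Icc (1 / 2 : ℝ) 1, ∫⁻ c in ball (0 : Fin n → ℝ) s, G (x + t • c) :=
            setLIntegral_mono' measurableSet_Icc fun t ht => scale_le hGx ht
        _ = ∫⁻ c in ball (0 : Fin n → ℝ) s, ∫⁻ t in Icc (1 / 2 : ℝ) 1, G (x + t • c) := by
            refine lintegral_lintegral_swap ?_
            refine Measurable.aemeasurable ?_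
            unfold Function.uncurry
            exact hGm.comp (by fun_prop)
        _ ≤ ∫⁻ _ in ball (0 : Fin n → ℝ) s, ENNReal.ofReal (N' * (π * Real.exp (-K))) :=
            setLIntegral_mono' measurableSet_ball fun c hc =>
              S.tail_le x (le_of_lt (mem_ball_zero_iff.1 hc)) hx2 hK0
        _ = _ := by
            rw [setLIntegral_const, Real.volume_pi_ball _ hs, Fintype.card_fin, mul_comm,
              ← ENNReal.ofReal_mul (by positivity)]
    refine k1.trans ?_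
    rw [ENNReal.ofReal_mul (by norm_num : (0:ℝ) ≤ 2)]
    refine le_trans (le_of_eq ?_) (mul_le_mul_right k2 _)
    rw [← mul_assoc, ← ENNReal.ofReal_mul (by norm_num)]
    norm_num
  · rw [Measure.restrict_apply_univ, Real.volume_pi_ball _ (by positivity), Fintype.card_fin]
    congr 2; ring
  · filter_upwards [ae_restrict_mem measurableSet_ball] with u hu
    exact le_of_lt (mem_ball_zero_iff.1 hu)

end Setup

end Pool.Agent.H548Z.Jes
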