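import Mathlib
import Pool.Agent.H548Z.JesUI

set_option autoImplicit false

open MeasureTheory Filter Topology Set Metric Real

namespace Pool.Agent.H548Z.Jes

open Pool.Agent.Results.MP_5c297c_an.NotJessen

variable {n : ℕ}

lemma circ_ne_top {g : ℂ → ℂ} {r : ℝ} (hr : 0 < r) (hg : AnalyticOnNhd ℂ g (closedBall 0 r)) (M : ℝ) :
    ∫⁻ θ in Ioc 0 (2 * π), dfc0 M (g (circleMap 0 r θ)) ≠ ⊤ := by
  have hpi : 0 < 2 * π := by positivity
  have hint : CircleIntegrable (Real.log ‖g ·‖) 0 r := by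
    refine MeromorphicOn.circleIntegrable_log_norm ?_
    rw [abs_of_pos hr]
    exact (hg.mono sphere_subset_closedBall).meromorphicOn
  rw [CircleIntegrable, intervalIntegrable_iff_integrableOn_Ioc_of_le hpi.le] at hint
  have hint3 : IntegrableOn (fun θ => M - Real.log ‖g (circleMap 0 r θ)‖) (Ioc 0 (2 * π)) :=
    Integrable.sub (integrable_const M) hint
  exact hint3.lintegral_lt_top.ne

/-- the Jensen defect on a circle in the direction `c` -/
noncomputable def W (f : (Fin n → ℂ) → ℂ) (M : ℝ) (y c : Fin n → ℝ) (r : ℝ) (x : Fin n → ℝ) : ENNReal :=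
  ENNReal.ofReal (2 * π) * dfc M (f (cpt x y)) -
    ∫⁻ θ in Ioc 0 (2 * π), dfc0 M (f (cpt x y + circleMap 0 r θ • cpt c 0))

lemma meas_W {f : (Fin n → ℂ) → ℂ} (hf : Measurable f) (M : ℝ) (y c : Fin n → ℝ) (r : ℝ) :
    Measurable (W f M y c r) :=
  ((meas_dfc hf M y).const_mul _).sub (measurable_swap hf M y (cpt c 0) r).lintegral_prod_right'

lemma le_ofReal_of_add {w : ENNReal} {X Y Z : ℝ} (h : w + ENNReal.ofReal Y ≤ ENNReal.ofReal X)
    (hZ : X - Y ≤ Z) : w ≤ ENNReal.ofReal Z := by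
  rcases le_total 0 Y with hY | hY
  · refine (ENNReal.le_sub_of_add_le_right ENNReal.ofReal_ne_top h).trans ?_
    rw [← ENNReal.ofReal_sub _ hY]
    exact ENNReal.ofReal_le_ofReal hZ
  · exact (le_self_add.trans h).trans (ENNReal.ofReal_le_ofReal (by linarith))

lemma imPart_circ (c : Fin n → ℝ) (r θ : ℝ) :
    imPart (circleMap 0 r θ • cpt c 0) = (r * Real.sin θ) • c := by
  funext j
  simp [imPart, cpt, circleMap, Complex.exp_im]

namespace Setup

variable {f : (Fin n → ℂ) → ℂ} {p : Fin n → ℝ} {s M : ℝ} (S : Setup f p s M)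
include S

lemma height_fin (hfin : ∀ t : ℝ, ∫⁻ x in cube t 0, dfc M (f (cpt x p)) < ⊤) {c : Fin n → ℝ} (hc : ‖c‖ ≤ s)
    {σ : ℝ} (hσ : |σ| ≤ 1 / 2) (t : ℝ) : ∫⁻ x in cube t 0, dfc M (f (cpt x (p + σ • c))) < ⊤ := by
  have h1 := avg_low (volume.restrict (Icc (-(1 / 2) : ℝ) (1 / 2))) (ψ := fun τ : ℝ => τ • c) (R := s)
    (F := fun x => dfc M (f (cpt x (p + σ • c)))) (by fun_prop) (by
      filter_upwards [ae_restrict_mem measurableSet_Icc] with τ hτ
      rw [norm_smul, Real.norm_eq_abs]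
      have : |τ| ≤ 1 := by rw [abs_le]; constructor <;> linarith [hτ.1, hτ.2]
      nlinarith [norm_nonneg c, abs_nonneg τ]) (meas_dfc S.meas M _) t
  rw [Measure.restrict_apply_univ, Real.volume_Icc, show (1 / 2 - -(1 / 2) : ℝ) = 1 by norm_num,
    ENNReal.ofReal_one, one_mul] at h1
  refine lt_of_le_of_lt (h1.trans (lintegral_mono fun x => S.height_le x hc hσ)) ?_
  rw [lintegral_const_mul' _ _ ENNReal.ofReal_ne_top, lintegral_add_right _ measurable_const]
  refine ENNReal.mul_lt_top ENNReal.ofReal_lt_top (ENNReal.add_lt_top.2 ⟨hfin _, ?_⟩)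
  exact UB.one.finite _

lemma tendsto_dfc {y : Fin n → ℝ} (hy : y ∈ ball p (10 * s)) {v : ℝ}
    (hv : Tendsto (logMean f y) atTop (𝓝 v)) (hfin : ∀ t : ℝ, ∫⁻ x in cube t 0, dfc M (f (cpt x y)) < ⊤) (a : ℝ) :
    Tendsto (fun k : ℕ => (∫⁻ x in cube ((k:ℝ) + a) 0, dfc M (f (cpt x y))) / ENNReal.ofReal ((2 * (k:ℝ)) ^ n))
      atTop (𝓝 (ENNReal.ofReal (M - v))) := by
  have e : ∀ t, ∫⁻ x in cube t 0, dfc M (f (cpt x y)) = defV f M t y := fun t =>
    defV_eq_of_lt_top S.meas M y t (hfin t)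
  simp_rw [e]
  exact tendsto_defV S.meas S.hM0 (S.bd' hy) (fun t => by rw [← e]; exact hfin t) hv a

lemma ub_dfc {y : Fin n → ℝ} (hy : y ∈ ball p (10 * s)) {v : ℝ} (hvM : v ≤ M)
    (hv : Tendsto (logMean f y) atTop (𝓝 v)) (hfin : ∀ t : ℝ, ∫⁻ x in cube t 0, dfc M (f (cpt x y)) < ⊤) :
    UB (fun x => dfc M (f (cpt x y))) (M - v) :=
  UB.of_tendsto (by linarith) (S.tendsto_dfc hy hv hfin)

lemma ub_W {φ : (Fin n → ℝ) → ℝ} (hφ : ∀ y ∈ ball p (10 * s), Tendsto (logMean f y) atTop (𝓝 (φ y)))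
    (hφM : ∀ y ∈ ball p (10 * s), φ y ≤ M)
    (hfin : ∀ t : ℝ, ∫⁻ x in cube t 0, dfc M (f (cpt x p)) < ⊤) {c : Fin n → ℝ} (hc : ‖c‖ ≤ s)
    {σ r : ℝ} (hσ : |σ| ≤ 1 / 2) (hr : 0 < r) (hr1 : r ≤ 1) {q lam : ℝ}
    (hq : ∀ u : ℝ, |u - σ| ≤ r → φ (p + u • c) = q * u ^ 2 + lam * u) :
    UB (W f M (p + σ • c) c r) (q * π * r ^ 2) := by
  have hpi : 0 < 2 * π := by positivity
  set y := p + σ • c with hy
  have hyθ : ∀ θ : ℝ, y + imPart (circleMap 0 r θ • cpt c 0) = p + (σ + r * Real.sin θ) • c := by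
    intro θ; rw [imPart_circ, hy, add_smul, add_assoc]
  have hsin : ∀ θ : ℝ, |σ + r * Real.sin θ - σ| ≤ r := by
    intro θ
    rw [add_sub_cancel_left, abs_mul, abs_of_pos hr]
    have := Real.abs_sin_le_one θ
    nlinarith
  have hmem : ∀ θ : ℝ, p + (σ + r * Real.sin θ) • c ∈ ball p (10 * s) := by
    intro θ
    refine S.mem_ball' hc ?_
    have h1 := hsin θ
    have h2 := abs_add_le (σ + r * Real.sin θ - σ) σ
    rw [sub_add_cancel] at h2
    linarith
  have hymem : y ∈ ball p (10 * s) := S.mem_ball' hc (by linarith)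
  have hUB := (S.ub_dfc hymem (hφM y hymem) (hφ y hymem) (S.height_fin hfin hc hσ)).const_mul hpi.le
  -- value of the averaged limit
  have hA : ∫⁻ θ in Ioc 0 (2 * π), ENNReal.ofReal (M - φ (p + (σ + r * Real.sin θ) • c)) =
      ENNReal.ofReal (2 * π * (M - φ y) - q * π * r ^ 2) := by
    have e : ∀ θ : ℝ, M - φ (p + (σ + r * Real.sin θ) • c) =
        (M - φ y) - (2 * q * σ * r + lam * r) * Real.sin θ - q * r ^ 2 * Real.sin θ ^ 2 := by
      intro θ
      rw [hq _ (hsin θ), hy, hq σ (by simp [hr.le])]; ring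
    have hc' : Continuous (fun θ : ℝ =>
        (M - φ y) - (2 * q * σ * r + lam * r) * Real.sin θ - q * r ^ 2 * Real.sin θ ^ 2) := by fun_prop
    have hnn : ∀ θ : ℝ, 0 ≤ (M - φ y) - (2 * q * σ * r + lam * r) * Real.sin θ - q * r ^ 2 * Real.sin θ ^ 2 := by
      intro θ; rw [← e]; linarith [hφM _ (hmem θ)]
    simp_rw [e]
    rw [← ofReal_integral_eq_lintegral_ofReal ((hc'.integrableOn_Icc).mono_set Ioc_subset_Icc_self)
      (ae_of_all _ hnn), ← intervalIntegral.integral_of_le hpi.le]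
    congr 1
    rw [intervalIntegral.integral_sub, intervalIntegral.integral_sub, intervalIntegral.integral_const_mul,
      intervalIntegral.integral_const_mul, integral_sin, integral_sin_sq, intervalIntegral.integral_const]
    · simp
      ring
    all_goals
      apply Continuous.intervalIntegrable
      fun_prop
  intro η hη a
  set R := r * ‖cpt c 0‖ with hR
  set u : ℕ → ENNReal := fun k => ∫⁻ θ in Ioc 0 (2 * π),
    defV f M (k + (a - R)) (y + imPart (circleMap 0 r θ • cpt c 0)) / ENNReal.ofReal ((2 * (k:ℝ)) ^ n) with hu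
  have hulim : ENNReal.ofReal (2 * π * (M - φ y) - q * π * r ^ 2) ≤ liminf u atTop := by
    rw [← hA]
    calc ∫⁻ θ in Ioc 0 (2 * π), ENNReal.ofReal (M - φ (p + (σ + r * Real.sin θ) • c))
        ≤ ∫⁻ θ in Ioc 0 (2 * π), liminf (fun k : ℕ =>
            defV f M (k + (a - R)) (y + imPart (circleMap 0 r θ • cpt c 0)) / ENNReal.ofReal ((2 * (k:ℝ)) ^ n)) atTop := by
          refine lintegral_mono fun θ => ?_
          rw [hyθ θ]
          exact liminf_defV S.meas S.hM0 (S.bd' (hmem θ)) (hφ _ (hmem θ)) (a - R)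
      _ ≤ liminf u atTop := by
          refine lintegral_liminf_le fun k => ?_
          exact (measurable_defV_circle S.meas M _ y _ r).div_const _
  have hev : ∀ᶠ k : ℕ in atTop, ENNReal.ofReal (2 * π * (M - φ y) - q * π * r ^ 2 - η / 2) ≤ u k := by
    rcases le_or_gt (2 * π * (M - φ y) - q * π * r ^ 2) 0 with h0 | h0
    · refine Eventually.of_forall fun k => ?_
      rw [ENNReal.ofReal_of_nonpos (by linarith)]; exact zero_le
    · have : ENNReal.ofReal (2 * π * (M - φ y) - q * π * r ^ 2 - η / 2) < liminf u atTop :=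
        lt_of_lt_of_le ((ENNReal.ofReal_lt_ofReal_iff h0).2 (by linarith)) hulim
      exact (eventually_lt_of_lt_liminf this).mono fun k hk => hk.le
  filter_upwards [hUB (η / 2) (by linarith) a, hev, eventually_gt_atTop 0] with k h1 h2 hk0
  have hk0' : (0:ℝ) < k := by exact_mod_cast hk0
  have hpos : (0:ℝ) < (2 * (k:ℝ)) ^ n := by positivity
  have hm2 := measurable_swap S.meas M y (cpt c 0) r
  have h3 : ENNReal.ofReal ((2 * π * (M - φ y) - q * π * r ^ 2 - η / 2) * (2 * (k:ℝ)) ^ n) ≤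
      ∫⁻ x in cube ((k:ℝ) + a) 0, ∫⁻ θ in Ioc 0 (2 * π), dfc0 M (f (cpt x y + circleMap 0 r θ • cpt c 0)) := by
    rw [lintegral_lintegral_swap hm2.aemeasurable, mul_comm, ENNReal.ofReal_mul hpos.le]
    refine (mul_le_mul_right h2 _).trans ?_
    simp only [hu, div_eq_mul_inv]
    rw [lintegral_mul_const _ (measurable_defV_circle S.meas M _ y _ r), mul_comm, mul_assoc,
      ENNReal.inv_mul_cancel (ENNReal.ofReal_pos.2 hpos).ne' ENNReal.ofReal_ne_top, mul_one]
    refine lintegral_mono fun θ => ?_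
    have := lower_shift f M y (circleMap 0 r θ • cpt c 0) (norm_circle_smul hr.le θ _).le ((k:ℝ) + a)
    rwa [← hR, add_sub_assoc] at this
  refine le_ofReal_of_add (X := (2 * π * (M - φ y) + η / 2) * (2 * (k:ℝ)) ^ n)
    (Y := (2 * π * (M - φ y) - q * π * r ^ 2 - η / 2) * (2 * (k:ℝ)) ^ n) ?_ (le_of_eq (by ring))
  refine le_trans ?_ h1
  refine (add_le_add_right h3 _).trans ?_
  rw [← lintegral_add_left (meas_W S.meas M y c r)]
  refine lintegral_mono fun x => ?_
  unfold W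
  refine le_of_eq (tsub_add_cancel_of_le ?_)
  have hmemw : ∀ w ∈ closedBall (0:ℂ) r, cpt x y + w • cpt c 0 ∈ tube (ball p (10 * s)) := by
    intro w hw
    have hw' : ‖w‖ ≤ r := by simpa using hw
    rw [cpt_line]
    show imPart _ ∈ ball p (10 * s)
    rw [imPart_cpt, hy, add_assoc, ← add_smul]
    refine S.mem_ball' hc ?_
    have := abs_add_le σ w.im
    have h2 := Complex.abs_im_le_norm w
    linarith
  have han : AnalyticOnNhd ℂ (fun w : ℂ => f (cpt x y + w • cpt c 0)) (closedBall 0 r) :=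
    (line_analytic (isOpen_tube isOpen_ball) S.diff (cpt x y) _).mono hmemw
  have hJ := jensen_lintegral hr han S.hM0 (fun w hw => S.bd _ (ball_subset_closedBall (hmemw w hw)))
  simp only [zero_smul, add_zero] at hJ
  exact le_trans (lintegral_mono fun θ => dfc0_le _ _) hJ

lemma zeros_le_W (x : Fin n → ℝ) {c : Fin n → ℝ} (hc : ‖c‖ ≤ s) {N : ℕ} (F : Fac (ln f p x c) M N)
    {σ r t : ℝ} (hσ : |σ| ≤ 1) (hr : 0 < r) (hr1 : r ≤ 1) (ht : t ∈ Icc (-3 : ℝ) 3) :
    ENNReal.ofReal (2 * π) * ∑ i, ENNReal.ofReal (Real.log r - Real.log ‖t + σ * Complex.I - F.a i‖)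
      ≤ W f M (p + σ • c) c r (x + t • c) := by
  have hb : ‖(t : ℂ) + σ * Complex.I‖ + r ≤ 8 := by
    have h1 : ‖(t : ℂ)‖ ≤ 3 := by rw [Complex.norm_real, Real.norm_eq_abs, abs_le]; exact ht
    have h2 : ‖(σ : ℂ) * Complex.I‖ ≤ 1 := by simpa using hσ
    have := norm_add_le (t : ℂ) (σ * Complex.I)
    linarith
  have h1 := F.defect (S.ln_diff x hc) S.hM0 (S.ln_bd x hc) hr hb
  have e : ∀ w : ℂ, ln f p x c (t + σ * Complex.I + w) = f (cpt (x + t • c) (p + σ • c) + w • cpt c 0) := by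
    intro w
    unfold ln
    rw [add_smul, ← add_assoc, cpt_line p x c (t + σ * Complex.I)]
    simp
  have hne : ∫⁻ θ in Ioc 0 (2 * π), dfc0 M (ln f p x c (t + σ * Complex.I + circleMap 0 r θ)) ≠ ⊤ := by
    refine circ_ne_top (g := fun w => ln f p x c (t + σ * Complex.I + w)) hr ?_ M
    have h1 : AnalyticOnNhd ℂ (ln f p x c) (ball 0 9) := (S.ln_diff x hc).analyticOnNhd isOpen_ball
    intro w hw
    have hw' : ‖w‖ ≤ r := by simpa using hw
    have : (t : ℂ) + σ * Complex.I + w ∈ ball (0:ℂ) 9 := by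
      rw [mem_ball_zero_iff]
      have := norm_add_le ((t : ℂ) + σ * Complex.I) w
      linarith
    exact (h1 _ this).comp_of_eq (by fun_prop) rfl
  have h2 := ENNReal.le_sub_of_add_le_left hne h1
  simp only [e] at h2
  rw [ln_eq] at h2
  exact h2

end Setup

end Pool.Agent.H548Z.Jes
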