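import Mathlib
import Pool.Agent.H548Z.JesBad

set_option autoImplicit false

open MeasureTheory Filter Topology Set Metric Real

namespace Pool.Agent.H548Z.Jes

open Pool.Agent.Results.MP_5c297c_an.NotJessen

variable {n : ℕ}

/-- absolute odd difference of `log |f|` in the direction `c` -/
noncomputable def Od (f : (Fin n → ℂ) → ℂ) (p c : Fin n → ℝ) (ε : ℝ) (x : Fin n → ℝ) : ENNReal :=
  ENNReal.ofReal |Real.log ‖f (cpt x (p + ε • c))‖ - Real.log ‖f (cpt x (p + (-ε) • c))‖|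

lemma meas_Od {f : (Fin n → ℂ) → ℂ} (hf : Measurable f) (p c : Fin n → ℝ) (ε : ℝ) :
    Measurable (Od f p c ε) := by
  have h1 := fun y => hf.comp (measurable_cpt_left (n := n) y)
  exact ENNReal.measurable_ofReal.comp (continuous_abs.measurable.comp
    ((Real.measurable_log.comp (h1 _).norm).sub (Real.measurable_log.comp (h1 _).norm)))

/-- contribution of one zero -/
lemma one_zero {a : ℂ} (ha : ‖a‖ ≤ 2) {δ κ ε : ℝ} {m : ℕ} (hδ : 0 < δ) (hδ1 : δ ≤ 1 / 2) (hκ : 0 < κ)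
    (hε : 0 < ε) (hεδ : ε ≤ δ / 2) (hm : δ / 2 ^ (m + 1) ≤ κ * ε) {w : ℝ → ENNReal} (hw : ∀ t, w t ≤ 1)
    (hwm : Measurable w) :
    ∫⁻ t in Icc (-(1 / 2) : ℝ) (1 / 2), w t *
        ENNReal.ofReal |Real.log ‖t + ε * Complex.I - a‖ - Real.log ‖t - ε * Complex.I - a‖|
      ≤ ENNReal.ofReal (4 * ε / δ) * (∫⁻ t in Icc (-(1 / 2) : ℝ) (1 / 2), w t) + ENNReal.ofReal (2 * π * κ * ε) +
        ∑ j ∈ Finset.range (m + 1), ENNReal.ofReal (8 * ε / (δ / 2 ^ j)) * (ENNReal.ofReal (2 * π) *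
          ((∫⁻ t in Icc (-3 : ℝ) 3, ENNReal.ofReal (Real.log (δ / 2 ^ j) -
            Real.log ‖t + ((δ / 2 ^ j : ℝ) : ℂ) * Complex.I - a‖)) +
          ∫⁻ t in Icc (-3 : ℝ) 3, ENNReal.ofReal (Real.log (δ / 2 ^ j) -
            Real.log ‖t + ((-(δ / 2 ^ j) : ℝ) : ℂ) * Complex.I - a‖))) := by
  have hall : ∫⁻ t in Icc (-(1 / 2) : ℝ) (1 / 2), w t *
        ENNReal.ofReal |Real.log ‖t + ε * Complex.I - a‖ - Real.log ‖t - ε * Complex.I - a‖|
      ≤ ENNReal.ofReal (2 * π * min ε |a.im|) := by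
    refine le_trans ?_ (int_odd a hε.le)
    refine (setLIntegral_le_lintegral _ _).trans (lintegral_mono fun t => ?_)
    exact mul_le_of_le_one_left zero_le (hw t)
  have hpi := Real.pi_pos
  by_cases h1 : δ ≤ |a.im|
  · refine le_trans ?_ (le_self_add.trans le_self_add)
    rw [← lintegral_const_mul _ hwm]
    refine lintegral_mono fun t => ?_
    rw [mul_comm]
    gcongr
    exact odd_far hδ hε.le hεδ h1 t
  by_cases h2 : |a.im| ≤ κ * ε
  · refine le_trans ?_ (le_add_self.trans le_self_add)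
    refine hall.trans (ENNReal.ofReal_le_ofReal ?_)
    have := (min_le_right ε |a.im|).trans h2
    nlinarith
  push Not at h1 h2
  obtain ⟨j, hj, hj2⟩ := band m h1.le (hm.trans h2.le)
  refine le_trans ?_ le_add_self
  refine le_trans ?_ (Finset.single_le_sum (f := fun j => ENNReal.ofReal (8 * ε / (δ / 2 ^ j)) * (ENNReal.ofReal (2 * π) *
          ((∫⁻ t in Icc (-3 : ℝ) 3, ENNReal.ofReal (Real.log (δ / 2 ^ j) -
            Real.log ‖t + ((δ / 2 ^ j : ℝ) : ℂ) * Complex.I - a‖)) +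
          ∫⁻ t in Icc (-3 : ℝ) 3, ENNReal.ofReal (Real.log (δ / 2 ^ j) -
            Real.log ‖t + ((-(δ / 2 ^ j) : ℝ) : ℂ) * Complex.I - a‖)))) (fun _ _ => zero_le) hj)
  have hr : 0 < δ / 2 ^ j := by positivity
  have hr4 : δ / 2 ^ j ≤ 4 := by
    refine (div_le_self hδ.le (one_le_pow₀ (by norm_num))).trans (by linarith)
  have hlow : ENNReal.ofReal (δ / 2 ^ j / 8) ≤
      (∫⁻ t in Icc (-3 : ℝ) 3, ENNReal.ofReal (Real.log (δ / 2 ^ j) -
            Real.log ‖t + ((δ / 2 ^ j : ℝ) : ℂ) * Complex.I - a‖)) +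
          ∫⁻ t in Icc (-3 : ℝ) 3, ENNReal.ofReal (Real.log (δ / 2 ^ j) -
            Real.log ‖t + ((-(δ / 2 ^ j) : ℝ) : ℂ) * Complex.I - a‖) := by
    rcases le_total 0 a.im with h0 | h0
    · rw [abs_of_nonneg h0] at hj2
      exact (low_int hr hr4 ha hj2).trans le_self_add
    · rw [abs_of_nonpos h0] at hj2
      refine (low_int hr hr4 ha ?_).trans le_add_self
      rw [← abs_neg]
      convert hj2 using 2
      ring
  refine hall.trans (le_trans ?_ (mul_le_mul_right (mul_le_mul_right hlow _) _))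
  rw [← ENNReal.ofReal_mul (by positivity), ← ENNReal.ofReal_mul (by positivity)]
  refine ENNReal.ofReal_le_ofReal ?_
  have e : 8 * ε / (δ / 2 ^ j) * (2 * π * (δ / 2 ^ j / 8)) = 2 * π * ε := by field_simp
  rw [e]
  exact mul_le_mul_of_nonneg_left (min_le_left _ _) (by positivity)

namespace Setup

variable {f : (Fin n → ℂ) → ℂ} {p : Fin n → ℝ} {s M : ℝ} (S : Setup f p s M)
include S

lemma bad_pt (x : Fin n → ℝ) {c : Fin n → ℝ} (hc : ‖c‖ ≤ s) {δ κ ε : ℝ} {m : ℕ} (hδ : 0 < δ) (hδ1 : δ ≤ 1 / 2)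
    (hκ : 0 < κ) (hε : 0 < ε) (hεδ : ε ≤ δ / 2) (hm : δ / 2 ^ (m + 1) ≤ κ * ε)
    {w : (Fin n → ℝ) → ENNReal} (hw : ∀ x, w x ≤ 1) (hwm : Measurable w) :
    ∫⁻ t in Icc (-(1 / 2) : ℝ) (1 / 2), w (x + t • c) * Od f p c ε (x + t • c)
      ≤ ENNReal.ofReal ((24 + 4 / δ) * ε) * ((dfc M (f (cpt x p)) + 1) * ∫⁻ t in Icc (-(1 / 2) : ℝ) (1 / 2), w (x + t • c))
        + ENNReal.ofReal (2 * π * κ * ε) * (dfc M (f (cpt x p)) + 1) +
        ∑ j ∈ Finset.range (m + 1), ENNReal.ofReal (8 * ε / (δ / 2 ^ j)) *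
          ((∫⁻ t in Icc (-3 : ℝ) 3, W f M (p + (δ / 2 ^ j) • c) c (δ / 2 ^ j) (x + t • c)) +
          ∫⁻ t in Icc (-3 : ℝ) 3, W f M (p + (-(δ / 2 ^ j)) • c) c (δ / 2 ^ j) (x + t • c)) := by
  have hpi := Real.pi_pos
  by_cases hD : dfc M (f (cpt x p)) = ⊤
  · refine le_trans le_top (le_trans (le_of_eq ?_) (le_add_self.trans le_self_add))
    rw [hD, top_add, ENNReal.mul_top]
    exact (ENNReal.ofReal_pos.2 (by positivity)).ne'
  obtain ⟨N, hN, hN'⟩ := exists_nat hD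
  obtain ⟨F⟩ := S.fac_of_lt x hc hN
  set β := ∫⁻ t in Icc (-(1 / 2) : ℝ) (1 / 2), w (x + t • c) with hβ
  have hwt : Measurable (fun t : ℝ => w (x + t • c)) := hwm.comp (by fun_prop)
  have hae : ∀ σ : ℝ, |σ| ≤ 1 / 2 → ∀ᵐ t ∂(volume.restrict (Icc (-(1 / 2) : ℝ) (1 / 2))),
      f (cpt (x + t • c) (p + σ • c)) ≠ 0 := by
    intro σ hσ
    have h1 := S.height_le x hc hσ
    have h2 : ∫⁻ t in Icc (-(1 / 2) : ℝ) (1 / 2), dfc M (f (cpt (x + t • c) (p + σ • c))) ≠ ⊤ :=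
      (h1.trans_lt (ENNReal.mul_lt_top ENNReal.ofReal_lt_top
        (ENNReal.add_lt_top.2 ⟨lt_top_iff_ne_top.2 hD, ENNReal.one_lt_top⟩))).ne
    have h3 := ae_lt_top ((meas_dfc S.meas M (p + σ • c)).comp
      (show Measurable (fun t : ℝ => x + t • c) by fun_prop)) h2
    filter_upwards [h3] with t ht h0
    simp [dfc, h0] at ht
  have hmi : ∀ i, Measurable (fun t : ℝ => w (x + t • c) *
      ENNReal.ofReal |Real.log ‖t + ε * Complex.I - F.a i‖ - Real.log ‖t - ε * Complex.I - F.a i‖|) := by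
    intro i
    refine hwt.mul (ENNReal.measurable_ofReal.comp (continuous_abs.measurable.comp ?_))
    exact (Real.measurable_log.comp (by fun_prop)).sub (Real.measurable_log.comp (by fun_prop))
  have hFm : (F.m : ENNReal) ≤ dfc M (f (cpt x p)) + 1 := le_trans (by exact_mod_cast F.m_le) hN'
  have hml : ∀ (σ r : ℝ) i, Measurable (fun t : ℝ =>
      ENNReal.ofReal (Real.log r - Real.log ‖t + (σ : ℂ) * Complex.I - F.a i‖)) := by
    intro σ r i
    exact ENNReal.measurable_ofReal.comp (measurable_const.sub (Real.measurable_log.comp (by fun_prop)))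
  have hW : ∀ σ r : ℝ, |σ| ≤ 1 → 0 < r → r ≤ 1 → ENNReal.ofReal (2 * π) * ∑ i,
      ∫⁻ t in Icc (-3 : ℝ) 3, ENNReal.ofReal (Real.log r - Real.log ‖t + (σ : ℂ) * Complex.I - F.a i‖) ≤
      ∫⁻ t in Icc (-3 : ℝ) 3, W f M (p + σ • c) c r (x + t • c) := by
    intro σ r h1 h2 h3
    rw [← lintegral_finsetSum _ fun i _ => hml σ r i, ← lintegral_const_mul' _ _ ENNReal.ofReal_ne_top]
    exact setLIntegral_mono' measurableSet_Icc fun t ht => S.zeros_le_W x hc F h1 h2 h3 ht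
  calc ∫⁻ t in Icc (-(1 / 2) : ℝ) (1 / 2), w (x + t • c) * Od f p c ε (x + t • c)
      ≤ ∫⁻ t in Icc (-(1 / 2) : ℝ) (1 / 2), (ENNReal.ofReal (24 * N * ε) * w (x + t • c) + ∑ i, w (x + t • c) *
          ENNReal.ofReal |Real.log ‖t + ε * Complex.I - F.a i‖ - Real.log ‖t - ε * Complex.I - F.a i‖|) := by
        refine lintegral_mono_ae ?_
        filter_upwards [hae ε (by rw [abs_of_pos hε]; linarith), hae (-ε) (by rw [abs_neg, abs_of_pos hε]; linarith),
          ae_restrict_mem measurableSet_Icc] with t h1 h2 ht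
        have e1 := ln_eq f p x c t ε
        have e2 : ln f p x c (t - ε * Complex.I) = f (cpt (x + t • c) (p + (-ε) • c)) := by
          rw [← ln_eq f]; congr 1; push_cast; ring
        have h3 := F.odd_le (t := t) (ε := ε) (abs_le.2 ht) hε.le (by linarith) (by rwa [e1]) (by rwa [e2])
        rw [e1, e2] at h3
        rw [mul_comm (ENNReal.ofReal _), ← Finset.mul_sum, ← mul_add]
        gcongr
        unfold Od
        rw [← ENNReal.ofReal_sum_of_nonneg fun i _ => abs_nonneg _,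
          ← ENNReal.ofReal_add (by positivity) (Finset.sum_nonneg fun i _ => abs_nonneg _)]
        exact ENNReal.ofReal_le_ofReal h3
    _ = ENNReal.ofReal (24 * N * ε) * β + ∑ i, ∫⁻ t in Icc (-(1 / 2) : ℝ) (1 / 2), w (x + t • c) *
          ENNReal.ofReal |Real.log ‖t + ε * Complex.I - F.a i‖ - Real.log ‖t - ε * Complex.I - F.a i‖| := by
        rw [lintegral_add_left (hwt.const_mul _), lintegral_const_mul _ hwt, lintegral_finsetSum _ fun i _ => hmi i]
    _ ≤ ENNReal.ofReal (24 * N * ε) * β + ∑ i, (ENNReal.ofReal (4 * ε / δ) * β + ENNReal.ofReal (2 * π * κ * ε) +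
        ∑ j ∈ Finset.range (m + 1), ENNReal.ofReal (8 * ε / (δ / 2 ^ j)) * (ENNReal.ofReal (2 * π) *
          ((∫⁻ t in Icc (-3 : ℝ) 3, ENNReal.ofReal (Real.log (δ / 2 ^ j) -
            Real.log ‖t + ((δ / 2 ^ j : ℝ) : ℂ) * Complex.I - F.a i‖)) +
          ∫⁻ t in Icc (-3 : ℝ) 3, ENNReal.ofReal (Real.log (δ / 2 ^ j) -
            Real.log ‖t + ((-(δ / 2 ^ j) : ℝ) : ℂ) * Complex.I - F.a i‖)))) := by
        gcongr with i
        exact one_zero (F.a_le i) hδ hδ1 hκ hε hεδ hm (fun t => hw _) hwt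
    _ ≤ _ := by
        rw [Finset.sum_add_distrib, Finset.sum_add_distrib, Finset.sum_const, Finset.sum_const,
          Finset.card_univ, Fintype.card_fin, nsmul_eq_mul, nsmul_eq_mul, ← add_assoc, ← add_assoc,
          Finset.sum_comm]
        refine add_le_add (add_le_add ?_ ?_) (Finset.sum_le_sum fun j _ => ?_)
        · have e1 : ENNReal.ofReal (24 * N * ε) = ENNReal.ofReal (24 * ε) * N := by
            rw [← ENNReal.ofReal_natCast, ← ENNReal.ofReal_mul (by positivity)]; congr 1; ring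
          have e2 : ENNReal.ofReal ((24 + 4 / δ) * ε) = ENNReal.ofReal (24 * ε) + ENNReal.ofReal (4 * ε / δ) := by
            rw [← ENNReal.ofReal_add (by positivity) (by positivity)]; congr 1; ring
          rw [e1, e2, add_mul]
          refine add_le_add ?_ ?_
          · rw [mul_assoc]; gcongr
          · rw [mul_left_comm]; gcongr
        · rw [mul_comm]; gcongr
        · have hr : 0 < δ / 2 ^ j := by positivity
          have hr1 : δ / 2 ^ j ≤ 1 := by
            refine (div_le_self hδ.le (one_le_pow₀ (by norm_num))).trans (by linarith)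
          rw [← Finset.mul_sum, ← Finset.mul_sum, Finset.sum_add_distrib, mul_add (ENNReal.ofReal (2 * π))]
          gcongr
          · exact hW _ _ (by rwa [abs_of_pos hr]) hr hr1
          · exact hW _ _ (by rwa [abs_neg, abs_of_pos hr]) hr hr1

lemma bad_ub {φ : (Fin n → ℝ) → ℝ} (hφ : ∀ y ∈ ball p (10 * s), Tendsto (logMean f y) atTop (𝓝 (φ y)))
    (hφM : ∀ y ∈ ball p (10 * s), φ y ≤ M)
    (hfin : ∀ t : ℝ, ∫⁻ x in cube t 0, dfc M (f (cpt x p)) < ⊤) {c : Fin n → ℝ} (hc : ‖c‖ ≤ s)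
    {q l1 l2 : ℝ} (hq0 : 0 ≤ q) (hq1 : ∀ u : ℝ, 0 ≤ u → φ (p + u • c) = q * u ^ 2 + l1 * u)
    (hq2 : ∀ u : ℝ, u ≤ 0 → φ (p + u • c) = q * u ^ 2 + l2 * u)
    {δ κ ε : ℝ} (hδ : 0 < δ) (hδ1 : δ ≤ 1 / 2) (hκ : 0 < κ) (hε : 0 < ε) (hεδ : ε ≤ δ / 2)
    {w : (Fin n → ℝ) → ENNReal} (hw : ∀ x, w x ≤ 1) (hwm : Measurable w) {d : ℝ} (hd0 : 0 ≤ d) (hd : UB w d)
    {K τ : ℝ} (hK : 0 ≤ K) (hτ : 0 ≤ τ) (hKτ : UB (fun x => dfc M (f (cpt x p)) - ENNReal.ofReal K) τ) :
    UB (fun x => w x * Od f p c ε x)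
      (ε * ((24 + 4 / δ) * (τ + (K + 1) * d) + 2 * π * κ * (M - φ p + 1) + 192 * π * q * δ)) := by
  have hpi := Real.pi_pos
  obtain ⟨m, hm⟩ : ∃ m : ℕ, δ / 2 ^ (m + 1) ≤ κ * ε := by
    obtain ⟨m, hm⟩ := pow_unbounded_of_one_lt (δ / (κ * ε)) (show (1:ℝ) < 2 by norm_num)
    refine ⟨m, ?_⟩
    rw [div_lt_iff₀ (by positivity)] at hm
    rw [div_le_iff₀ (by positivity), pow_succ]
    have : (0:ℝ) < 2 ^ m * (κ * ε) := by positivity
    nlinarith
  have hψ : Measurable (fun τ : ℝ => τ • c) := by fun_prop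
  have hR : ∀ b : ℝ, ∀ᵐ τ ∂(volume.restrict (Icc (-b) b)), ‖τ • c‖ ≤ b * s := by
    intro b
    filter_upwards [ae_restrict_mem measurableSet_Icc] with τ hτ
    rw [norm_smul, Real.norm_eq_abs]
    have : |τ| ≤ b := abs_le.2 hτ
    exact mul_le_mul this hc (norm_nonneg _) ((abs_nonneg τ).trans this)
  have hμ1 : (volume.restrict (Icc (-(1 / 2) : ℝ) (1 / 2))) univ = ENNReal.ofReal 1 := by
    rw [Measure.restrict_apply_univ, Real.volume_Icc]; norm_num
  have hμ6 : (volume.restrict (Icc (-3 : ℝ) 3)) univ = ENNReal.ofReal 6 := by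
    rw [Measure.restrict_apply_univ, Real.volume_Icc]; norm_num
  have hDm := meas_dfc S.meas M p
  have hMp : 0 ≤ M - φ p := by linarith [hφM p S.p_mem]
  have hβm := meas_avg (volume.restrict (Icc (-(1 / 2) : ℝ) (1 / 2))) hψ hwm
  have hβ := hd.avg_up (volume.restrict (Icc (-(1 / 2) : ℝ) (1 / 2))) zero_le_one hμ1 hψ (hR _) hwm
  have h1 : UB (fun x => (dfc M (f (cpt x p)) + 1) * ∫⁻ t in Icc (-(1 / 2) : ℝ) (1 / 2), w (x + t • c))
      (τ + (K + 1) * d) := by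
    have := hKτ.add (hβ.const_mul (κ := K + 1) (by linarith)) (hDm.sub measurable_const) hτ (by positivity)
    rw [one_mul] at this
    refine this.mono fun x => ?_
    have hb1 : ∫⁻ t in Icc (-(1 / 2) : ℝ) (1 / 2), w (x + t • c) ≤ 1 := by
      refine (lintegral_mono fun t => hw _).trans ?_
      rw [lintegral_const, hμ1]; simp
    calc (dfc M (f (cpt x p)) + 1) * ∫⁻ t in Icc (-(1 / 2) : ℝ) (1 / 2), w (x + t • c)
        ≤ ((dfc M (f (cpt x p)) - ENNReal.ofReal K) + ENNReal.ofReal (K + 1)) *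
          ∫⁻ t in Icc (-(1 / 2) : ℝ) (1 / 2), w (x + t • c) := by
          refine mul_le_mul_left ?_ _
          rw [ENNReal.ofReal_add hK zero_le_one, ENNReal.ofReal_one, ← add_assoc]
          exact add_le_add_left le_tsub_add _
      _ ≤ _ := by
          rw [add_mul]
          gcongr
          exact mul_le_of_le_one_right zero_le hb1
  have h2 : UB (fun x => dfc M (f (cpt x p)) + 1) (M - φ p + 1) :=
    (S.ub_dfc S.p_mem (hφM p S.p_mem) (hφ p S.p_mem) hfin).add UB.one hDm hMp zero_le_one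
  have h3 : ∀ j : ℕ, UB (fun x => ENNReal.ofReal (8 * ε / (δ / 2 ^ j)) *
      ((∫⁻ t in Icc (-3 : ℝ) 3, W f M (p + (δ / 2 ^ j) • c) c (δ / 2 ^ j) (x + t • c)) +
          ∫⁻ t in Icc (-3 : ℝ) 3, W f M (p + (-(δ / 2 ^ j)) • c) c (δ / 2 ^ j) (x + t • c)))
      (96 * π * q * δ * ε * (1 / 2) ^ j) := by
    intro j
    have hr : 0 < δ / 2 ^ j := by positivity
    have hr1 : δ / 2 ^ j ≤ 1 / 2 := (div_le_self hδ.le (one_le_pow₀ (by norm_num))).trans hδ1
    have a1 := S.ub_W hφ hφM hfin hc (σ := δ / 2 ^ j) (r := δ / 2 ^ j) (q := q) (lam := l1)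
      (by rwa [abs_of_pos hr]) hr (by linarith) (fun u hu => hq1 u (by linarith [(abs_le.1 hu).1]))
    have a2 := S.ub_W hφ hφM hfin hc (σ := -(δ / 2 ^ j)) (r := δ / 2 ^ j) (q := q) (lam := l2)
      (by rwa [abs_neg, abs_of_pos hr]) hr (by linarith) (fun u hu => hq2 u (by linarith [(abs_le.1 hu).2]))
    have b1 := a1.avg_up (volume.restrict (Icc (-3 : ℝ) 3)) (by norm_num) hμ6 hψ (hR 3) (meas_W S.meas _ _ _ _)
    have b2 := a2.avg_up (volume.restrict (Icc (-3 : ℝ) 3)) (by norm_num) hμ6 hψ (hR 3) (meas_W S.meas _ _ _ _)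
    have b3 := (b1.add b2 (meas_avg _ hψ (meas_W S.meas _ _ _ _)) (by positivity) (by positivity)).const_mul
      (κ := 8 * ε / (δ / 2 ^ j)) (by positivity)
    refine b3.le (le_of_eq ?_)
    rw [one_div, inv_pow]
    field_simp
    ring
  have h4 := UB.sum (Finset.range (m + 1)) (fun j _ => h3 j) (fun j _ =>
    ((meas_avg _ hψ (meas_W S.meas _ _ _ _)).add (meas_avg _ hψ (meas_W S.meas _ _ _ _))).const_mul _)
    (fun j _ => by positivity)
  have h5 := ((h1.const_mul (κ := (24 + 4 / δ) * ε) (by positivity)).add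
    (h2.const_mul (κ := 2 * π * κ * ε) (by positivity))
    (((hDm.add measurable_const).mul hβm).const_mul _) (by positivity) (by positivity)).add h4
    ((((hDm.add measurable_const).mul hβm).const_mul _).add ((hDm.add measurable_const).const_mul _))
    (by positivity) (Finset.sum_nonneg fun j _ => by positivity)
  have h6 := h5.mono fun x => S.bad_pt x hc hδ hδ1 hκ hε hεδ hm hw hwm
  have h7 := UB.avg_low (volume.restrict (Icc (-(1 / 2) : ℝ) (1 / 2))) (F := fun x => w x * Od f p c ε x)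
    h6 one_pos hμ1 hψ (hR _) (hwm.mul (meas_Od S.meas p c ε))
  refine h7.le ?_
  rw [inv_one, one_mul, ← Finset.mul_sum]
  have hg : ∑ j ∈ Finset.range (m + 1), ((1:ℝ) / 2) ^ j ≤ 2 := by
    have := sum_geometric_two_le (m + 1)
    simpa using this
  have : 96 * π * q * δ * ε * ∑ j ∈ Finset.range (m + 1), ((1:ℝ) / 2) ^ j ≤ 96 * π * q * δ * ε * 2 :=
    mul_le_mul_of_nonneg_left hg (by positivity)
  nlinarith

end Setup

end Pool.Agent.H548Z.Jes
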