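import Mathlib

set_option autoImplicit false

open MeasureTheory Filter Topology Set

namespace Pool.Agent.H548Z.JesDefs

/-- The tube `T_E`, the set of `z` in `ℂⁿ` whose imaginary part lies in `E`. -/
def tube {n : ℕ} (E : Set (Fin n → ℝ)) : Set (Fin n → ℂ) := {z | (fun j => (z j).im) ∈ E}

/-- The supremum of `|g z|` over `z` in the tube `T_E`, an extended nonnegative real. -/
noncomputable def tubeNorm {n : ℕ} (g : (Fin n → ℂ) → ℂ) (E : Set (Fin n → ℝ)) : ENNReal :=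
  ⨆ z ∈ tube E, ‖g z‖ₑ

/-- The open cube `Q_l(a)`. -/
def cube {n : ℕ} (l : ℝ) (a : Fin n → ℝ) : Set (Fin n → ℝ) := {x | ∀ j, |x j - a j| < l}

/-- `f` is holomorphic and almost periodic in the tube `T_G`. -/
def IsHolAP {n : ℕ} (G : Set (Fin n → ℝ)) (f : (Fin n → ℂ) → ℂ) : Prop :=
  DifferentiableOn ℂ f (tube G) ∧
    ∀ ε : ℝ, 0 < ε → ∀ E : Set (Fin n → ℝ), IsCompact (closure E) → closure E ⊆ G →
      ∃ l : ℝ, 0 < l ∧ ∀ a : Fin n → ℝ, ∃ h ∈ cube l a,
        tubeNorm (fun z => f (fun j => z j + (h j : ℂ)) - f z) E < ENNReal.ofReal ε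

/-- `φ` is, on `G`, the Jessen function of some holomorphic almost periodic `f` in `T_G`, `f` not
identically zero: for every `y` in `G` the mean of `log |f (x + i y)|` over the cube `Q_t(0)`
tends to `φ y` as `t` tends to infinity. -/
def IsJessen {n : ℕ} (G : Set (Fin n → ℝ)) (φ : (Fin n → ℝ) → ℝ) : Prop :=
  ∃ f : (Fin n → ℂ) → ℂ, IsHolAP G f ∧ (∃ z ∈ tube G, f z ≠ 0) ∧
    ∀ y ∈ G, Tendsto (fun t : ℝ => 1 / (2 * t) ^ n *
      ∫ x in cube t 0, Real.log ‖f (fun j => (x j : ℂ) + (y j : ℂ) * Complex.I)‖) atTop (𝓝 (φ y))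

end Pool.Agent.H548Z.JesDefs
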