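import Mathlib
import Pool.Agent.H548Z.JesBad2

set_option autoImplicit false

open MeasureTheory Filter Topology Set Metric Real

namespace Pool.Agent.H548Z.Jes

open Pool.Agent.Results.MP_5c297c_an.NotJessen

variable {n : ℕ}

lemma taylor_log {h : ℂ → ℂ} {B η : ℝ} (hd : DifferentiableOn ℂ h (ball 0 9))
    (hB : ∀ z ∈ closedBall (0:ℂ) 8, ‖h z‖ ≤ B) (hη : 0 < η) (h0 : η ≤ ‖h 0‖) {ζ : ℂ} (hζ1 : ‖ζ‖ ≤ 1)
    (hζ : ‖ζ‖ * B ≤ 2 * η) :
    |Real.log ‖h ζ‖ - Real.log ‖h 0‖ - (ζ * deriv h 0 / h 0).re| ≤ ((B / (4 * η)) ^ 2 + B / (16 * η)) * ‖ζ‖ ^ 2 := by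
  have hB0 := hB 0 (by simp)
  have hBpos : 0 < B := by linarith
  have hne : h 0 ≠ 0 := by
    intro hh; rw [hh, norm_zero] at h0; linarith
  obtain ⟨hd1, hB1⟩ := dslope_bound hd hB (a := 0) (by simp)
  have hB1' : ∀ z ∈ closedBall (0:ℂ) 8, ‖dslope h 0 z‖ ≤ B / 4 := by
    intro z hz
    refine (hB1 z hz).trans ?_
    rw [norm_zero, sub_zero]; linarith
  obtain ⟨-, hB2⟩ := dslope_bound hd1 hB1' (a := 0) (by simp)
  have hζm : ζ ∈ closedBall (0:ℂ) 8 := by rw [mem_closedBall_zero_iff]; linarith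
  have hB2' : ‖dslope (dslope h 0) 0 ζ‖ ≤ B / 16 := by
    refine (hB2 ζ hζm).trans ?_
    have := hB1' 0 (by simp)
    rw [norm_zero, sub_zero]; linarith
  have e1 : h ζ = h 0 + ζ * dslope h 0 ζ := by
    have := sub_smul_dslope h 0 ζ
    rw [sub_zero, smul_eq_mul] at this
    rw [this]; ring
  have e2 : dslope h 0 ζ = deriv h 0 + ζ * dslope (dslope h 0) 0 ζ := by
    have := sub_smul_dslope (dslope h 0) 0 ζ
    rw [sub_zero, smul_eq_mul, dslope_same] at this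
    rw [this]; ring
  set q : ℂ := ζ * dslope h 0 ζ / h 0 with hq
  have hqn : ‖q‖ ≤ B / (4 * η) * ‖ζ‖ := by
    rw [hq, norm_div, norm_mul, div_le_iff₀ (by linarith)]
    have h1 := hB1' ζ hζm
    calc ‖ζ‖ * ‖dslope h 0 ζ‖ ≤ ‖ζ‖ * (B / 4) := by gcongr
      _ = B / (4 * η) * ‖ζ‖ * η := by field_simp
      _ ≤ _ := by gcongr
  have hq2 : ‖q‖ ≤ 1 / 2 := by
    refine hqn.trans ?_
    rw [div_mul_eq_mul_div, div_le_iff₀ (by positivity)]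
    nlinarith
  have e3 : h ζ = h 0 * (1 + q) := by
    rw [e1, hq]; field_simp
  have h1q : (1 + q) ≠ 0 := by
    intro hh
    have : q = -1 := by linear_combination hh
    rw [this] at hq2
    norm_num at hq2
  have e4 : Real.log ‖h ζ‖ - Real.log ‖h 0‖ = (Complex.log (1 + q)).re := by
    rw [e3, norm_mul, Real.log_mul (norm_ne_zero_iff.2 hne) (norm_ne_zero_iff.2 h1q), Complex.log_re]
    ring
  have e5 : ‖Complex.log (1 + q) - q‖ ≤ ‖q‖ ^ 2 := by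
    refine (Complex.norm_log_one_add_sub_self_le (by linarith)).trans ?_
    have : (1 - ‖q‖)⁻¹ ≤ 2 := by
      rw [inv_le_comm₀ (by linarith) (by norm_num)]; linarith
    nlinarith [sq_nonneg ‖q‖]
  have e6 : ‖q - ζ * deriv h 0 / h 0‖ ≤ B / (16 * η) * ‖ζ‖ ^ 2 := by
    have : q - ζ * deriv h 0 / h 0 = ζ ^ 2 * dslope (dslope h 0) 0 ζ / h 0 := by
      rw [hq, e2]; field_simp; ring
    rw [this, norm_div, norm_mul, norm_pow, div_le_iff₀ (by linarith)]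
    calc ‖ζ‖ ^ 2 * ‖dslope (dslope h 0) 0 ζ‖ ≤ ‖ζ‖ ^ 2 * (B / 16) := by gcongr
      _ = B / (16 * η) * ‖ζ‖ ^ 2 * η := by field_simp
      _ ≤ _ := by gcongr
  rw [e4, ← Complex.sub_re]
  refine (Complex.abs_re_le_norm _).trans ?_
  have e7 : Complex.log (1 + q) - ζ * deriv h 0 / h 0 = (Complex.log (1 + q) - q) + (q - ζ * deriv h 0 / h 0) := by
    ring
  rw [e7]
  refine (norm_add_le _ _).trans ?_
  have e8 : ‖q‖ ^ 2 ≤ (B / (4 * η) * ‖ζ‖) ^ 2 := by gcongr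
  rw [mul_pow] at e8
  linarith

namespace Setup

variable {f : (Fin n → ℂ) → ℂ} {p : Fin n → ℝ} {s M : ℝ} (S : Setup f p s M)
include S

lemma deriv_ln (x c : Fin n → ℝ) : deriv (ln f p x c) 0 = fderiv ℂ f (cpt x p) (cpt c 0) := by
  have hmem : cpt x p ∈ tube (ball p (10 * s)) := by
    show imPart _ ∈ ball p (10 * s)
    rw [imPart_cpt]; exact S.p_mem
  have h1 : HasFDerivAt f (fderiv ℂ f (cpt x p)) (cpt x p + (0:ℂ) • cpt c 0) := by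
    rw [zero_smul, add_zero]
    exact ((S.diff _ hmem).differentiableAt ((isOpen_tube isOpen_ball).mem_nhds hmem)).hasFDerivAt
  have h2 : HasDerivAt (fun ζ : ℂ => cpt x p + ζ • cpt c 0) (cpt c 0) 0 := by
    simpa using ((hasDerivAt_id (0:ℂ)).smul_const (cpt c 0)).const_add (cpt x p)
  exact (h1.comp_hasDerivAt (0:ℂ) h2).deriv

lemma good_odd (x : Fin n → ℝ) {c : Fin n → ℝ} (hc : ‖c‖ ≤ s) {η ε : ℝ} (hη : 0 < η) (h0 : η ≤ ‖f (cpt x p)‖)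
    (hε : 0 ≤ ε) (hε1 : ε ≤ 1) (hε2 : ε * Real.exp M ≤ 2 * η) :
    |Real.log ‖f (cpt x (p + ε • c))‖ - Real.log ‖f (cpt x (p + (-ε) • c))‖ -
      2 * ε * (Complex.I * fderiv ℂ f (cpt x p) (cpt c 0) / f (cpt x p)).re| ≤
      2 * ((Real.exp M / (4 * η)) ^ 2 + Real.exp M / (16 * η)) * ε ^ 2 := by
  have key : ∀ σ : ℝ, |σ| = ε → |Real.log ‖f (cpt x (p + σ • c))‖ - Real.log ‖f (cpt x p)‖ -
      σ * (Complex.I * fderiv ℂ f (cpt x p) (cpt c 0) / f (cpt x p)).re| ≤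
      ((Real.exp M / (4 * η)) ^ 2 + Real.exp M / (16 * η)) * ε ^ 2 := by
    intro σ hσ
    have hn : ‖(σ : ℂ) * Complex.I‖ = ε := by simp [hσ]
    have h1 := taylor_log (S.ln_diff x hc) (S.ln_bd x hc) hη (by rwa [ln_zero]) (ζ := σ * Complex.I)
      (by rwa [hn]) (by rwa [hn])
    have e1 : ln f p x c (σ * Complex.I) = f (cpt x (p + σ • c)) := by
      have := ln_eq f p x c 0 σ
      simpa using this
    rw [hn, e1, ln_zero, S.deriv_ln, mul_assoc, mul_div_assoc, Complex.re_ofReal_mul] at h1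
    exact h1
  have k1 := abs_le.1 (key ε (abs_of_nonneg hε))
  have k2 := abs_le.1 (key (-ε) (by rw [abs_neg, abs_of_nonneg hε]))
  rw [abs_le]
  constructor <;> linarith [k1.1, k1.2, k2.1, k2.2]

lemma ub_bad_set {v : ℝ} (hvM : v ≤ M) (hv : Tendsto (logMean f p) atTop (𝓝 v))
    (hfin : ∀ t : ℝ, ∫⁻ x in cube t 0, dfc M (f (cpt x p)) < ⊤) {Λ : ℝ} (hΛ : 0 < Λ) :
    UB ({x : Fin n → ℝ | ‖f (cpt x p)‖ < Real.exp (M - Λ)}.indicator 1) (Λ⁻¹ * (M - v)) := by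
  refine ((S.ub_dfc S.p_mem hvM hv hfin).const_mul (inv_pos.2 hΛ).le).mono fun x => ?_
  by_cases hx : x ∈ {x : Fin n → ℝ | ‖f (cpt x p)‖ < Real.exp (M - Λ)}
  · rw [indicator_of_mem hx]
    have h1 : ENNReal.ofReal Λ ≤ dfc M (f (cpt x p)) := by
      unfold dfc
      split_ifs with h0
      · exact le_top
      · refine ENNReal.ofReal_le_ofReal ?_
        have hx' : ‖f (cpt x p)‖ < Real.exp (M - Λ) := hx
        have := (Real.log_lt_iff_lt_exp (norm_pos_iff.2 h0)).2 hx'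
        linarith
    refine le_trans (le_of_eq ?_) (mul_le_mul_right h1 _)
    rw [← ENNReal.ofReal_mul (inv_pos.2 hΛ).le, inv_mul_cancel₀ hΛ.ne']
    simp
  · rw [indicator_of_notMem hx]; exact zero_le

omit S in
lemma le_of_UB {F : (Fin n → ℝ) → ENNReal} {a c : ℝ} (h : UB F c) (hc : 0 ≤ c)
    (ht : Tendsto (fun k : ℕ => (∫⁻ x in cube ((k:ℝ) + 0) 0, F x) / ENNReal.ofReal ((2 * (k:ℝ)) ^ n))
      atTop (𝓝 (ENNReal.ofReal a))) : a ≤ c := by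
  refine le_of_forall_pos_le_add fun η hη => ?_
  have : ENNReal.ofReal a ≤ ENNReal.ofReal (c + η) := by
    refine le_of_tendsto ht ?_
    filter_upwards [h η hη 0, eventually_gt_atTop 0] with k hk hk0
    have hk0' : (0:ℝ) < k := by exact_mod_cast hk0
    have hpos : (0:ℝ) < (2 * (k:ℝ)) ^ n := by positivity
    rw [ENNReal.div_le_iff (ENNReal.ofReal_pos.2 hpos).ne' ENNReal.ofReal_ne_top,
      ← ENNReal.ofReal_mul (by linarith)]
    exact hk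
  exact (ENNReal.ofReal_le_ofReal_iff (by linarith)).1 this

/-- the odd part of the tangent cone of the mean function is additive -/
lemma odd_additive {φ : (Fin n → ℝ) → ℝ} (hφ : ∀ y ∈ ball p (10 * s), Tendsto (logMean f y) atTop (𝓝 (φ y)))
    (hφM : ∀ y ∈ ball p (10 * s), φ y ≤ M)
    {N : ℕ} {l : ℝ} (hN : ∀ b : Fin n → ℝ, ∃ x₀, ‖b - x₀‖ ≤ l ∧ dfc M (f (cpt x₀ p)) < N)
    {c₁ c₂ : Fin n → ℝ} (hc₁ : ‖c₁‖ ≤ s) (hc₂ : ‖c₂‖ ≤ s) (hc₃ : ‖c₁ + c₂‖ ≤ s)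
    {q₁ q₂ q₃ a₁ a₂ a₃ b₁ b₂ b₃ : ℝ} (hq₁ : 0 ≤ q₁) (hq₂ : 0 ≤ q₂) (hq₃ : 0 ≤ q₃)
    (ha₁ : ∀ u : ℝ, 0 ≤ u → φ (p + u • c₁) = q₁ * u ^ 2 + a₁ * u)
    (hb₁ : ∀ u : ℝ, u ≤ 0 → φ (p + u • c₁) = q₁ * u ^ 2 + b₁ * u)
    (ha₂ : ∀ u : ℝ, 0 ≤ u → φ (p + u • c₂) = q₂ * u ^ 2 + a₂ * u)
    (hb₂ : ∀ u : ℝ, u ≤ 0 → φ (p + u • c₂) = q₂ * u ^ 2 + b₂ * u)
    (ha₃ : ∀ u : ℝ, 0 ≤ u → φ (p + u • (c₁ + c₂)) = q₃ * u ^ 2 + a₃ * u)
    (hb₃ : ∀ u : ℝ, u ≤ 0 → φ (p + u • (c₁ + c₂)) = q₃ * u ^ 2 + b₃ * u) :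
    (a₁ + b₁) + (a₂ + b₂) - (a₃ + b₃) ≤ 0 := by
  refine le_of_forall_pos_le_add fun γ hγ => ?_
  rw [zero_add]
  have hpi := Real.pi_pos
  have hMp : 0 ≤ M - φ p := by linarith [hφM p S.p_mem]
  have hfin : ∀ t : ℝ, ∫⁻ x in cube t 0, dfc M (f (cpt x p)) < ⊤ := by
    obtain ⟨K, hK, hU⟩ := S.ui hN one_pos
    have := hU.add (UB.const hK) ((meas_dfc S.meas M p).sub measurable_const) zero_le_one hK
    exact (this.mono fun x => le_tsub_add).finite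
  -- parameters
  obtain ⟨δ, hδ, hδ1, hδ2⟩ : ∃ δ : ℝ, 0 < δ ∧ δ ≤ 1 / 2 ∧ 192 * π * (q₁ + q₂ + q₃) * δ ≤ γ / 5 := by
    refine ⟨min (1 / 2) (γ / 5 / (192 * π * (q₁ + q₂ + q₃) + 1)), by positivity, min_le_left _ _, ?_⟩
    have h1 := min_le_right (1 / 2 : ℝ) (γ / 5 / (192 * π * (q₁ + q₂ + q₃) + 1))
    rw [le_div_iff₀ (by positivity)] at h1
    have h2 : 0 ≤ min (1 / 2 : ℝ) (γ / 5 / (192 * π * (q₁ + q₂ + q₃) + 1)) := by positivity
    nlinarith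
  obtain ⟨κ, hκ, hκ2⟩ : ∃ κ : ℝ, 0 < κ ∧ 2 * π * κ * (M - φ p + 1) = γ / 15 :=
    ⟨γ / 15 / (2 * π * (M - φ p + 1)), by positivity, by field_simp⟩
  obtain ⟨τ, hτ, hτ2⟩ : ∃ τ : ℝ, 0 < τ ∧ (24 + 4 / δ) * τ = γ / 15 :=
    ⟨γ / 15 / (24 + 4 / δ), by positivity, by field_simp⟩
  obtain ⟨K, hK, hU⟩ := S.ui hN hτ
  obtain ⟨Λ, hΛ, hΛ2⟩ : ∃ Λ : ℝ, 0 < Λ ∧ (24 + 4 / δ) * ((K + 1) * (Λ⁻¹ * (M - φ p))) ≤ γ / 15 := by
    refine ⟨(24 + 4 / δ) * (K + 1) * (M - φ p + 1) / (γ / 15), by positivity, ?_⟩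
    rw [inv_div]
    have : (24 + 4 / δ) * ((K + 1) * (γ / 15 / ((24 + 4 / δ) * (K + 1) * (M - φ p + 1)) * (M - φ p))) =
        γ / 15 * ((M - φ p) / (M - φ p + 1)) := by field_simp
    rw [this]
    exact mul_le_of_le_one_right (by positivity) ((div_le_one (by positivity)).2 (by linarith))
  set η := Real.exp (M - Λ) with hη
  have hη0 : 0 < η := Real.exp_pos _
  set C := (Real.exp M / (4 * η)) ^ 2 + Real.exp M / (16 * η) with hC
  have hC0 : 0 ≤ C := by positivity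
  obtain ⟨ε, hε, hε1, hε2, hε3⟩ : ∃ ε : ℝ, 0 < ε ∧ ε ≤ δ / 2 ∧ ε * Real.exp M ≤ 2 * η ∧ 6 * C * ε ≤ γ / 5 := by
    refine ⟨min (δ / 2) (min (2 * η / Real.exp M) (γ / 5 / (6 * C + 1))), by positivity, min_le_left _ _, ?_, ?_⟩
    · exact (le_div_iff₀ (Real.exp_pos M)).1 ((min_le_right _ _).trans (min_le_left _ _))
    · have h1 : min (δ / 2) (min (2 * η / Real.exp M) (γ / 5 / (6 * C + 1))) ≤ γ / 5 / (6 * C + 1) :=
        (min_le_right _ _).trans (min_le_right _ _)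
      rw [le_div_iff₀ (by positivity)] at h1
      have h2 : 0 ≤ min (δ / 2) (min (2 * η / Real.exp M) (γ / 5 / (6 * C + 1))) := by positivity
      nlinarith
  set w : (Fin n → ℝ) → ENNReal := {x : Fin n → ℝ | ‖f (cpt x p)‖ < η}.indicator 1 with hw
  have hBm : MeasurableSet {x : Fin n → ℝ | ‖f (cpt x p)‖ < η} :=
    measurableSet_lt (S.meas.comp (measurable_cpt_left p)).norm measurable_const
  have hwm : Measurable w := measurable_one.indicator hBm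
  have hw1 : ∀ x, w x ≤ 1 := fun x => indicator_le_self' (fun _ _ => zero_le) x
  have hd := S.ub_bad_set (hφM p S.p_mem) (hφ p S.p_mem) hfin hΛ
  have hd0 : 0 ≤ Λ⁻¹ * (M - φ p) := by positivity
  have u1 := S.bad_ub hφ hφM hfin hc₁ hq₁ ha₁ hb₁ hδ hδ1 hκ hε hε1 hw1 hwm hd0 hd hK hτ.le hU
  have u2 := S.bad_ub hφ hφM hfin hc₂ hq₂ ha₂ hb₂ hδ hδ1 hκ hε hε1 hw1 hwm hd0 hd hK hτ.le hU
  have u3 := S.bad_ub hφ hφM hfin hc₃ hq₃ ha₃ hb₃ hδ hδ1 hκ hε hε1 hw1 hwm hd0 hd hK hτ.le hU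
  have hε4 : |ε| ≤ 1 / 2 := by rw [abs_of_pos hε]; linarith
  have hε5 : |-ε| ≤ 1 / 2 := by rwa [abs_neg]
  have hmem : ∀ {c : Fin n → ℝ} {σ : ℝ}, ‖c‖ ≤ s → |σ| ≤ 1 / 2 → p + σ • c ∈ ball p (10 * s) :=
    fun hc hσ => S.mem_ball' hc (by linarith)
  have hub : ∀ {c : Fin n → ℝ} {σ : ℝ}, ‖c‖ ≤ s → |σ| ≤ 1 / 2 →
      UB (fun x => dfc M (f (cpt x (p + σ • c)))) (M - φ (p + σ • c)) := fun hc hσ =>
    S.ub_dfc (hmem hc hσ) (hφM _ (hmem hc hσ)) (hφ _ (hmem hc hσ)) (S.height_fin hfin hc hσ)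
  have hte : ∀ {c : Fin n → ℝ} {σ : ℝ}, ‖c‖ ≤ s → |σ| ≤ 1 / 2 → _ := fun {c σ} hc hσ =>
    S.tendsto_dfc (hmem hc hσ) (hφ _ (hmem hc hσ)) (S.height_fin hfin hc hσ) 0
  have hnn : ∀ {c : Fin n → ℝ} {σ : ℝ}, ‖c‖ ≤ s → |σ| ≤ 1 / 2 → 0 ≤ M - φ (p + σ • c) :=
    fun hc hσ => by linarith [hφM _ (hmem hc hσ)]
  have hae : ∀ {c : Fin n → ℝ} {σ : ℝ}, ‖c‖ ≤ s → |σ| ≤ 1 / 2 → ∀ᵐ x, f (cpt x (p + σ • c)) ≠ 0 := by
    intro c σ hc hσ
    have h1 : ∀ k : ℕ, ∀ᵐ x ∂(volume.restrict (cube (k:ℝ) (0 : Fin n → ℝ))), f (cpt x (p + σ • c)) ≠ 0 := by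
      intro k
      filter_upwards [ae_lt_top (meas_dfc S.meas M _) (S.height_fin hfin hc hσ k).ne] with x hx h0
      simp [dfc, h0] at hx
    have h2 : (⋃ k : ℕ, cube (k:ℝ) (0 : Fin n → ℝ)) = univ := by
      refine eq_univ_of_forall fun x => ?_
      obtain ⟨k, hk⟩ := exists_nat_gt ‖x‖
      refine mem_iUnion.2 ⟨k, fun j => ?_⟩
      simpa using lt_of_le_of_lt (norm_le_pi_norm x j) hk
    have h3 := (ae_restrict_iUnion_iff (μ := volume) (fun k : ℕ => cube (k:ℝ) (0 : Fin n → ℝ)) _).2 h1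
    rwa [h2, Measure.restrict_univ] at h3
  have md := fun y => meas_dfc S.meas M y
  have mo := fun c => hwm.mul (meas_Od S.meas p c ε)
  have hpos1 : 0 ≤ ε * ((24 + 4 / δ) * (τ + (K + 1) * (Λ⁻¹ * (M - φ p))) + 2 * π * κ * (M - φ p + 1) + 192 * π * q₁ * δ) := by
    positivity
  have hpos2 : 0 ≤ ε * ((24 + 4 / δ) * (τ + (K + 1) * (Λ⁻¹ * (M - φ p))) + 2 * π * κ * (M - φ p + 1) + 192 * π * q₂ * δ) := by
    positivity
  have hpos3 : 0 ≤ ε * ((24 + 4 / δ) * (τ + (K + 1) * (Λ⁻¹ * (M - φ p))) + 2 * π * κ * (M - φ p + 1) + 192 * π * q₃ * δ) := by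
    positivity
  have n1 := hnn hc₁ hε4
  have n2 := hnn hc₂ hε4
  have n3 := hnn hc₃ hε5
  have hR := (((hub hc₁ hε4).add (hub hc₂ hε4) (md _) n1 n2).add (hub hc₃ hε5) ((md _).add (md _))
    (by positivity) n3).add
    ((UB.const (c := 6 * C * ε ^ 2) (by positivity)).add
      ((u1.add u2 (mo _) hpos1 hpos2).add u3 ((mo _).add (mo _)) (by positivity) hpos3)
      measurable_const (by positivity) (by positivity))
    (((md _).add (md _)).add (md _)) (by positivity) (by positivity)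
  have hL : UB (fun x => dfc M (f (cpt x (p + (-ε) • c₁))) + dfc M (f (cpt x (p + (-ε) • c₂))) +
      dfc M (f (cpt x (p + ε • (c₁ + c₂))))) _ := hR.mono_ae (by
    filter_upwards [hae hc₁ hε4, hae hc₂ hε4, hae hc₃ hε4, hae hc₁ hε5, hae hc₂ hε5, hae hc₃ hε5]
      with x z1 z2 z3 z4 z5 z6
    simp only [dfc, z1, z2, z3, z4, z5, z6, if_false]
    have g1 := log_le_of_bound S.hM0 (S.bd' (hmem hc₁ hε4) x)
    have g2 := log_le_of_bound S.hM0 (S.bd' (hmem hc₂ hε4) x)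
    have g3 := log_le_of_bound S.hM0 (S.bd' (hmem hc₃ hε4) x)
    have g4 := log_le_of_bound S.hM0 (S.bd' (hmem hc₁ hε5) x)
    have g5 := log_le_of_bound S.hM0 (S.bd' (hmem hc₂ hε5) x)
    have g6 := log_le_of_bound S.hM0 (S.bd' (hmem hc₃ hε5) x)
    rw [← ENNReal.ofReal_add g4 g5, ← ENNReal.ofReal_add (by positivity) g3, ← ENNReal.ofReal_add g1 g2,
      ← ENNReal.ofReal_add (by positivity) g6]
    by_cases hx : x ∈ {x : Fin n → ℝ | ‖f (cpt x p)‖ < η}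
    · simp only [hw, indicator_of_mem hx, Pi.one_apply, one_mul, Od]
      rw [← ENNReal.ofReal_add (abs_nonneg _) (abs_nonneg _), ← ENNReal.ofReal_add (by positivity) (abs_nonneg _),
        ← ENNReal.ofReal_add (by positivity) (by positivity), ← ENNReal.ofReal_add (by positivity) (by positivity)]
      refine ENNReal.ofReal_le_ofReal ?_
      have k1 := le_abs_self (Real.log ‖f (cpt x (p + ε • c₁))‖ - Real.log ‖f (cpt x (p + (-ε) • c₁))‖)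
      have k2 := le_abs_self (Real.log ‖f (cpt x (p + ε • c₂))‖ - Real.log ‖f (cpt x (p + (-ε) • c₂))‖)
      have k3 := neg_abs_le (Real.log ‖f (cpt x (p + ε • (c₁ + c₂)))‖ - Real.log ‖f (cpt x (p + (-ε) • (c₁ + c₂)))‖)
      have k4 : 0 ≤ 6 * C * ε ^ 2 := by positivity
      linarith
    · refine le_trans ?_ (add_le_add_right le_self_add _)
      rw [← ENNReal.ofReal_add (by positivity) (by positivity)]
      refine ENNReal.ofReal_le_ofReal ?_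
      have hx' : η ≤ ‖f (cpt x p)‖ := not_lt.1 hx
      have k1 := abs_le.1 (S.good_odd x hc₁ hη0 hx' hε.le (by linarith) hε2)
      have k2 := abs_le.1 (S.good_odd x hc₂ hη0 hx' hε.le (by linarith) hε2)
      have k3 := abs_le.1 (S.good_odd x hc₃ hη0 hx' hε.le (by linarith) hε2)
      have e : cpt (c₁ + c₂) 0 = cpt c₁ 0 + cpt c₂ (0 : Fin n → ℝ) := by rw [cpt_add, add_zero]
      rw [e, map_add, mul_add Complex.I, add_div, Complex.add_re] at k3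
      rw [← hC] at k1 k2 k3
      linarith [k1.2, k2.2, k3.1])
  have n4 := hnn hc₁ hε5
  have n5 := hnn hc₂ hε5
  have n6 := hnn hc₃ hε4
  have hT := le_of_UB (a := (M - φ (p + (-ε) • c₁)) + (M - φ (p + (-ε) • c₂)) + (M - φ (p + ε • (c₁ + c₂)))) hL
    (by positivity) (by
      have := ((hte hc₁ hε5).add (hte hc₂ hε5)).add (hte hc₃ hε4)
      rw [← ENNReal.ofReal_add n4 n5, ← ENNReal.ofReal_add (by positivity) n6] at this
      refine this.congr fun k => ?_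
      rw [lintegral_add_right _ (md _), lintegral_add_right _ (md _), ENNReal.add_div, ENNReal.add_div])
  rw [ha₁ ε hε.le, ha₂ ε hε.le, ha₃ ε hε.le, hb₁ (-ε) (by linarith), hb₂ (-ε) (by linarith),
    hb₃ (-ε) (by linarith)] at hT
  have hfinal : ε * ((a₁ + b₁) + (a₂ + b₂) - (a₃ + b₃)) ≤ ε * γ := by
    have e1 : (24 + 4 / δ) * (τ + (K + 1) * (Λ⁻¹ * (M - φ p))) ≤ 2 * (γ / 15) := by
      rw [mul_add, hτ2]; linarith
    have e2 := mul_le_mul_of_nonneg_left e1 hε.le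
    have e3 := mul_le_mul_of_nonneg_left hδ2 hε.le
    have e4 := mul_le_mul_of_nonneg_left hε3 hε.le
    rw [hκ2] at hT
    nlinarith
  exact le_of_mul_le_mul_left hfinal hε

end Setup

end Pool.Agent.H548Z.Jes
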