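import Mathlib
import Pool.Agent.H548Z.JesGood
import Pool.Agent.H548Z.JesDefs

set_option autoImplicit false

open MeasureTheory Filter Topology Set Metric Real

namespace Pool.Agent.H548Z.Jes

open Pool.Agent.Results.MP_5c297c_an.NotJessen

variable {n : ℕ}

/-- the strictly convex model function -/
noncomputable def model (p : Fin n → ℝ) (i j : Fin n) (y : Fin n → ℝ) : ℝ :=
  ∑ k, (y k - p k) ^ 2 + max 0 (max (y i - p i) (y j - p j))

lemma exists_real_ne {G : Set (Fin n → ℝ)} (hG : IsOpen G) (hGc : Convex ℝ G) {f : (Fin n → ℂ) → ℂ}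
    (hf : DifferentiableOn ℂ f (tube G)) {z₁ : Fin n → ℂ} (hz₁ : z₁ ∈ tube G) (hf₁ : f z₁ ≠ 0)
    {p : Fin n → ℝ} (hp : p ∈ G) : ∃ x, f (cpt x p) ≠ 0 := by
  by_contra hcon
  push Not at hcon
  apply hf₁
  have hz : cpt (rePart z₁) p ∈ tube G := by
    show imPart _ ∈ G
    rw [imPart_cpt]; exact hp
  have e : cpt (rePart z₁) p + Complex.I • cpt (imPart z₁ - p) 0 = z₁ := by
    rw [cpt_line]; simp [cpt_eta]
  have h := identity_line (isOpen_tube hG) (convex_tube hGc) hf (z := cpt (rePart z₁) p)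
    (c := Complex.I • cpt (imPart z₁ - p) 0) hz (by rw [e]; exact hz₁) ?_
  · rwa [e] at h
  · have han : AnalyticAt ℂ (fun w : ℂ => f (cpt (rePart z₁) p + w • (Complex.I • cpt (imPart z₁ - p) 0))) 0 := by
      refine line_analytic (isOpen_tube hG) hf _ _ 0 ?_
      show cpt (rePart z₁) p + (0:ℂ) • _ ∈ tube G
      rw [zero_smul, add_zero]; exact hz
    refine han.eventually_eq_zero_or_eventually_ne_zero.resolve_right fun hne => ?_
    have ht : Tendsto (fun t : ℝ => (t : ℂ) * Complex.I) (𝓝[≠] 0) (𝓝[≠] 0) := by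
      refine tendsto_nhdsWithin_iff.2 ⟨?_, ?_⟩
      · have : Continuous (fun t : ℝ => (t : ℂ) * Complex.I) := by fun_prop
        have h1 := this.tendsto 0
        simp only [Complex.ofReal_zero, zero_mul] at h1
        exact h1.mono_left nhdsWithin_le_nhds
      · filter_upwards [self_mem_nhdsWithin] with t ht
        simpa using ht
    obtain ⟨t, ht'⟩ := (ht.eventually hne).exists
    apply ht'
    rw [smul_smul, cpt_line]
    simp [hcon]

lemma no_function' {G : Set (Fin n → ℝ)} (hG : IsOpen G) (hGc : Convex ℝ G)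
    {f : (Fin n → ℂ) → ℂ} (hfm : Measurable f) (hf : DifferentiableOn ℂ f (tube G))
    {z₁ : Fin n → ℂ} (hz₁ : z₁ ∈ tube G) (hf₁ : f z₁ ≠ 0) {p : Fin n → ℝ} (hpG : p ∈ G)
    (hap : ∀ ε : ℝ, 0 < ε → ∀ E : Set (Fin n → ℝ), IsCompact E → E ⊆ G → ∃ l : ℝ, 0 < l ∧
      ∀ a : Fin n → ℝ, ∃ h ∈ cube l a, ∀ z ∈ tube E, ‖f (z + cpt h 0) - f z‖ ≤ ε)
    {i j : Fin n} (hij : i ≠ j)
    (hφ : ∀ y ∈ G, Tendsto (logMean f y) atTop (𝓝 (model p i j y))) : False := by
  obtain ⟨ρ, hρ, hρG⟩ : ∃ ρ : ℝ, 0 < ρ ∧ closedBall p ρ ⊆ G := by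
    obtain ⟨ε, hε, h⟩ := Metric.isOpen_iff.1 hG p hpG
    exact ⟨ε / 2, by positivity, (closedBall_subset_ball (by linarith)).trans h⟩
  obtain ⟨M, hM0, hMρ, hM⟩ : ∃ M : ℝ, 0 ≤ M ∧ n * ρ ^ 2 + ρ ≤ M ∧
      ∀ z ∈ tube (closedBall p ρ), ‖f z‖ ≤ Real.exp M := by
    obtain ⟨l, hl, hlh⟩ := hap 1 one_pos (closedBall p ρ) (isCompact_closedBall _ _) hρG
    have hK : IsCompact ((fun q : (Fin n → ℝ) × (Fin n → ℝ) => cpt q.1 q.2) ''
        (closedBall (0 : Fin n → ℝ) l ×ˢ closedBall p ρ)) :=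
      ((isCompact_closedBall _ _).prod (isCompact_closedBall _ _)).image continuous_cpt
    have hKU : ((fun q : (Fin n → ℝ) × (Fin n → ℝ) => cpt q.1 q.2) ''
        (closedBall (0 : Fin n → ℝ) l ×ˢ closedBall p ρ)) ⊆ tube G := by
      rintro _ ⟨q, hq, rfl⟩
      show imPart (cpt q.1 q.2) ∈ G
      rw [imPart_cpt]; exact hρG hq.2
    obtain ⟨C, hC⟩ := hK.exists_bound_of_continuousOn (hf.continuousOn.mono hKU)
    refine ⟨max (n * ρ ^ 2 + ρ) (|C| + 1), ?_, le_max_left _ _, ?_⟩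
    · exact le_trans (by positivity) (le_max_left _ _)
    · intro z hz
      obtain ⟨h, hh1, hh2⟩ := hlh (-(rePart z))
      have h1 := hh2 z hz
      have h2 : ‖f (z + cpt h 0)‖ ≤ C := by
        refine hC _ ⟨(rePart (z + cpt h 0), imPart (z + cpt h 0)), ⟨?_, ?_⟩, cpt_eta (z + cpt h 0)⟩
        · rw [mem_closedBall, dist_pi_le_iff hl.le]
          intro j
          have h3 := hh1 j
          rw [rePart_add, rePart_cpt, Real.dist_eq]
          simp only [Pi.neg_apply, sub_neg_eq_add, Pi.add_apply, Pi.zero_apply, sub_zero] at h3 ⊢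
          rw [add_comm]; exact h3.le
        · show imPart (z + cpt h 0) ∈ closedBall p ρ
          rw [imPart_add, imPart_cpt, add_zero]; exact hz
      have h3 : ‖f z‖ ≤ C + 1 := by
        have := norm_sub_norm_le (f z) (f (z + cpt h 0))
        rw [norm_sub_rev] at this
        linarith
      have h4 := Real.add_one_le_exp (max (n * ρ ^ 2 + ρ) (|C| + 1))
      have h5 := le_max_right (n * ρ ^ 2 + ρ) (|C| + 1)
      have h6 := le_abs_self C
      linarith
  set s := ρ / 10 with hs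
  have hs0 : 0 < s := by positivity
  have hρs : 10 * s = ρ := by rw [hs]; ring
  have hsubG : ball p (10 * s) ⊆ G := by rw [hρs]; exact ball_subset_closedBall.trans hρG
  have S : Setup f p s M :=
    ⟨hs0, hM0, hfm, hf.mono fun z hz => hsubG hz, by rw [hρs]; exact hM⟩
  have hφM : ∀ y ∈ ball p (10 * s), model p i j y ≤ M := by
    intro y hy
    rw [hρs, mem_ball, dist_pi_lt_iff hρ] at hy
    have h1 : ∀ k, |y k - p k| ≤ ρ := fun k => (hy k).le
    have h2 : ∑ k, (y k - p k) ^ 2 ≤ n * ρ ^ 2 := by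
      calc ∑ k, (y k - p k) ^ 2 ≤ ∑ _k : Fin n, ρ ^ 2 :=
            Finset.sum_le_sum fun k _ => by
              rw [← sq_abs]; exact pow_le_pow_left₀ (abs_nonneg _) (h1 k) 2
        _ = _ := by simp
    have h3 : max 0 (max (y i - p i) (y j - p j)) ≤ ρ :=
      max_le hρ.le (max_le ((le_abs_self _).trans (h1 i)) ((le_abs_self _).trans (h1 j)))
    unfold model
    linarith
  obtain ⟨x₀, hx₀⟩ := exists_real_ne hG hGc hf hz₁ hf₁ hpG
  have hm0 : 0 < ‖f (cpt x₀ p)‖ := norm_pos_iff.2 hx₀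
  obtain ⟨l, hl, hlh⟩ := hap (‖f (cpt x₀ p)‖ / 2) (by positivity) (closedBall p ρ) (isCompact_closedBall _ _) hρG
  obtain ⟨N, hN⟩ := exists_nat_gt (max 0 (M - Real.log (‖f (cpt x₀ p)‖ / 2)))
  have hN' : ∀ b : Fin n → ℝ, ∃ x, ‖b - x‖ ≤ l ∧ dfc M (f (cpt x p)) < N := by
    intro b
    obtain ⟨h, hh1, hh2⟩ := hlh (b - x₀)
    refine ⟨x₀ + h, ?_, ?_⟩
    · rw [pi_norm_le_iff_of_nonneg hl.le]
      intro k
      have := hh1 k
      simp only [Pi.sub_apply, Pi.add_apply] at this ⊢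
      rw [Real.norm_eq_abs, abs_sub_comm]
      have e : x₀ k + h k - b k = h k - (b k - x₀ k) := by ring
      rw [e]
      exact this.le
    · have h1 := hh2 (cpt x₀ p) (by
        show imPart _ ∈ closedBall p ρ
        rw [imPart_cpt]; exact mem_closedBall_self hρ.le)
      rw [cpt_add, add_zero] at h1
      have h2 : ‖f (cpt x₀ p)‖ / 2 ≤ ‖f (cpt (x₀ + h) p)‖ := by
        have := norm_sub_norm_le (f (cpt x₀ p)) (f (cpt (x₀ + h) p))
        rw [norm_sub_rev] at this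
        linarith
      have h3 : f (cpt (x₀ + h) p) ≠ 0 := by
        intro hh; rw [hh, norm_zero] at h2; linarith
      simp only [dfc, h3, if_false]
      rw [← ENNReal.ofReal_natCast, ENNReal.ofReal_lt_ofReal_iff (lt_of_le_of_lt (le_max_left _ _) hN)]
      have h4 := Real.log_le_log (by positivity) h2
      have h5 := le_max_right 0 (M - Real.log (‖f (cpt x₀ p)‖ / 2))
      linarith
  have hmod : ∀ (c : Fin n → ℝ) (u : ℝ), model p i j (p + u • c) =
      (∑ k, c k ^ 2) * u ^ 2 + max 0 (max (u * c i) (u * c j)) := by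
    intro c u
    unfold model
    simp only [Pi.add_apply, Pi.smul_apply, smul_eq_mul, add_sub_cancel_left, mul_pow]
    rw [← Finset.mul_sum, mul_comm]
  have hn1 : ∀ k : Fin n, ‖(Pi.single k s : Fin n → ℝ)‖ ≤ s := by
    intro k; rw [Pi.norm_single, Real.norm_eq_abs, abs_of_pos hs0]
  have hn3 : ‖(Pi.single i s : Fin n → ℝ) + Pi.single j s‖ ≤ s := by
    rw [pi_norm_le_iff_of_nonneg hs0.le]
    intro k
    by_cases h1 : k = i
    · subst h1; simp [hij, abs_of_pos hs0]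
    · by_cases h2 : k = j
      · subst h2; simp [h1, abs_of_pos hs0]
      · simp [h1, h2, hs0.le]
  have key := S.odd_additive (φ := model p i j) (fun y hy => hφ y (hsubG hy)) hφM hN' (hn1 i) (hn1 j) hn3
    (q₁ := ∑ k, (Pi.single i s : Fin n → ℝ) k ^ 2) (q₂ := ∑ k, (Pi.single j s : Fin n → ℝ) k ^ 2)
    (q₃ := ∑ k, (((Pi.single i s : Fin n → ℝ) + (Pi.single j s : Fin n → ℝ) : Fin n → ℝ)) k ^ 2)
    (a₁ := s) (a₂ := s) (a₃ := s) (b₁ := 0) (b₂ := 0) (b₃ := 0)
    (by positivity) (by positivity) (by positivity) ?_ ?_ ?_ ?_ ?_ ?_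
  · linarith
  · intro u hu
    rw [hmod]
    have : 0 ≤ u * s := by positivity
    simp [hij.symm, this, mul_comm s u]
  · intro u hu
    rw [hmod]
    have : u * s ≤ 0 := mul_nonpos_of_nonpos_of_nonneg hu hs0.le
    simp [hij.symm, this]
  · intro u hu
    rw [hmod]
    have : 0 ≤ u * s := by positivity
    simp [hij, this, mul_comm s u]
  · intro u hu
    rw [hmod]
    have : u * s ≤ 0 := mul_nonpos_of_nonpos_of_nonneg hu hs0.le
    simp [hij, this]
  · intro u hu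
    rw [hmod]
    have : 0 ≤ u * s := by positivity
    simp [hij, hij.symm, this, mul_comm s u]
  · intro u hu
    rw [hmod]
    have : u * s ≤ 0 := mul_nonpos_of_nonpos_of_nonneg hu hs0.le
    simp [hij, hij.symm, this]

lemma not_isJessen_model' {G : Set (Fin n → ℝ)} (hG : IsOpen G) (hGc : Convex ℝ G) {p : Fin n → ℝ} (hp : p ∈ G)
    {i j : Fin n} (hij : i ≠ j) : ¬ IsJessen G (model p i j) := by
  rintro ⟨f, ⟨hf, hap⟩, ⟨z₁, hz₁, hf₁⟩, hlim⟩
  classical
  have hUo := isOpen_tube hG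
  set F : (Fin n → ℂ) → ℂ := (tube G).piecewise f (fun _ => 0) with hF
  have hFeq : ∀ z ∈ tube G, F z = f z := fun z hz => piecewise_eq_of_mem _ _ _ hz
  have hFm : Measurable F :=
    ContinuousOn.measurable_piecewise hf.continuousOn continuousOn_const hUo.measurableSet
  have hFd : DifferentiableOn ℂ F (tube G) := hf.congr hFeq
  have hcptG : ∀ y ∈ G, ∀ x : Fin n → ℝ, cpt x y ∈ tube G := by
    intro y hy x
    show imPart (cpt x y) ∈ G
    rw [imPart_cpt]; exact hy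
  refine no_function' hG hGc hFm hFd hz₁ (by rw [hFeq z₁ hz₁]; exact hf₁) hp ?_ hij ?_
  · intro ε hε E hE hEG
    have hcl : closure E = E := hE.isClosed.closure_eq
    obtain ⟨l, hl, hlh⟩ := hap ε hε E (by rw [hcl]; exact hE) (by rw [hcl]; exact hEG)
    refine ⟨l, hl, fun a => ?_⟩
    obtain ⟨h, hh1, hh2⟩ := hlh a
    refine ⟨h, hh1, fun z hz => ?_⟩
    have hzG : z ∈ tube G := hEG hz
    have e1 : z + cpt h 0 = fun j => z j + (h j : ℂ) := by
      funext j; simp [cpt]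
    have hzh : z + cpt h 0 ∈ tube G := by
      show imPart (z + cpt h 0) ∈ G
      rw [imPart_add, imPart_cpt, add_zero]; exact hzG
    rw [hFeq z hzG, hFeq _ hzh, e1]
    have h3 : ‖f (fun j => z j + (h j : ℂ)) - f z‖ₑ ≤
        tubeNorm (fun z => f (fun j => z j + (h j : ℂ)) - f z) E := by
      unfold tubeNorm
      exact le_iSup₂ (f := fun (z : Fin n → ℂ) (_ : z ∈ tube E) => ‖f (fun j => z j + (h j : ℂ)) - f z‖ₑ) z hz
    have h4 := (h3.trans_lt hh2).le
    rw [← ofReal_norm, ENNReal.ofReal_le_ofReal_iff hε.le] at h4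
    exact h4
  · intro y hy
    refine (hlim y hy).congr fun t => ?_
    unfold logMean
    congr 1
    refine integral_congr_ae (ae_of_all _ fun x => ?_)
    have e : (fun j => (x j : ℂ) + (y j : ℂ) * Complex.I) = cpt x y := rfl
    simp only [e]
    rw [hFeq _ (hcptG y hy x)]

lemma strictConvexOn_model (G : Set (Fin n → ℝ)) (hG : Convex ℝ G) (p : Fin n → ℝ) (i j : Fin n) :
    StrictConvexOn ℝ G (model p i j) := by
  have h1 : StrictConvexOn ℝ G (fun y : Fin n → ℝ => ∑ k, (y k - p k) ^ 2) := by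
    refine ⟨hG, fun x _ y _ hxy a b ha hb hab => ?_⟩
    obtain ⟨k₀, hk₀⟩ := Function.ne_iff.1 hxy
    have hb' : b = 1 - a := by linarith
    subst hb'
    simp only [smul_eq_mul, Finset.mul_sum, ← Finset.sum_add_distrib, Pi.add_apply, Pi.smul_apply]
    refine Finset.sum_lt_sum (fun k _ => ?_) ⟨k₀, Finset.mem_univ _, ?_⟩
    · nlinarith [mul_nonneg (mul_pos ha hb).le (sq_nonneg (x k - y k))]
    · have : 0 < (x k₀ - y k₀) ^ 2 := by
        have := sub_ne_zero.2 hk₀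
        positivity
      nlinarith [mul_pos (mul_pos ha hb) this]
  have h2 : ∀ k : Fin n, ConvexOn ℝ G (fun y : Fin n → ℝ => y k - p k) := by
    intro k
    refine ⟨hG, fun x _ y _ a b _ _ hab => le_of_eq ?_⟩
    simp only [smul_eq_mul, Pi.add_apply, Pi.smul_apply]
    linear_combination (p k) * hab
  exact h1.add_convexOn ((convexOn_const 0 hG).sup ((h2 i).sup (h2 j)))

theorem main (hn : 2 ≤ n) (G : Set (Fin n → ℝ)) (hG : IsOpen G) (hGc : Convex ℝ G) (hne : G.Nonempty) :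
    ∃ φ : (Fin n → ℝ) → ℝ, ConvexOn ℝ G φ ∧
      (∀ a b : Fin n → ℝ, a ≠ b → segment ℝ a b ⊆ G →
        ¬ ∃ A : (Fin n → ℝ) →ᵃ[ℝ] ℝ, ∀ y ∈ segment ℝ a b, φ y = A y) ∧
      ¬ JesDefs.IsJessen G φ := by
  obtain ⟨p, hp⟩ := hne
  set i : Fin n := ⟨0, by omega⟩ with hi
  set j : Fin n := ⟨1, by omega⟩ with hj
  have hij : i ≠ j := by rw [hi, hj]; simp
  have hs := strictConvexOn_model G hGc p i j
  refine ⟨model p i j, hs.convexOn, ?_, not_isJessen_model' hG hGc hp hij⟩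
  rintro a b hab hseg ⟨A, hA⟩
  have ha := left_mem_segment ℝ a b
  have hb := right_mem_segment ℝ a b
  have hm : (1 / 2 : ℝ) • a + (1 / 2 : ℝ) • b ∈ segment ℝ a b :=
    ⟨1 / 2, 1 / 2, by norm_num, by norm_num, by norm_num, rfl⟩
  have h1 := hs.2 (hseg ha) (hseg hb) hab (show (0:ℝ) < 1/2 by norm_num) (show (0:ℝ) < 1/2 by norm_num)
    (show (1/2:ℝ)+1/2 = 1 by norm_num)
  rw [hA _ hm, hA _ ha, hA _ hb, Convex.combo_affine_apply (by norm_num)] at h1
  exact lt_irrefl _ h1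

end Pool.Agent.H548Z.Jes
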